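import Pool.Agent.Lib.AD.LvLevel

/-! The approximation pass: induction over all levels. -/

noncomputable section

open Finset Module
open scoped BigOperators

set_option linter.unusedSectionVars false

namespace Pool.Agent.Lib.AD

namespace Lv

section
variable {ι : Type} [DecidableEq ι]

/-- pairs of types with key below `t` -/
def PP (ρ : Finset ι → ℕ) (W : ℕ) (D : Finset ι) (t : ℕ) (J J' : Finset ι) : Prop :=
  J.Nonempty ∧ J'.Nonempty ∧ Disjoint J J' ∧ J ⊆ D ∧ J' ⊆ D ∧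
    max (ρ J) (ρ J') * W + min (ρ J) (ρ J') < t

lemma lex_lt {a b a' b' W : ℕ} (hb : b < W) (hb' : b' < W) :
    a * W + b < a' * W + b' ↔ a < a' ∨ (a = a' ∧ b < b') := by
  constructor
  · intro h
    rcases lt_trichotomy a a' with e | e | e
    · exact Or.inl e
    · subst e; exact Or.inr ⟨rfl, by omega⟩
    · nlinarith
  · rintro (e | ⟨rfl, e⟩)
    · nlinarith
    · omega

lemma exists_rho (ι : Type) [DecidableEq ι] [Fintype ι] : ∃ (ρ : Finset ι → ℕ) (W : ℕ),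
    Function.Injective ρ ∧ (∀ J J', J ⊂ J' → ρ J < ρ J') ∧ ∀ J, ρ J < W := by
  let e := Fintype.equivFin (Finset ι)
  refine ⟨fun J => J.card * Fintype.card (Finset ι) + e J,
    (Fintype.card ι + 1) * Fintype.card (Finset ι), fun J J' h => ?_, fun J J' h => ?_, fun J => ?_⟩
  · have h1 := (lex_lt (a := J.card) (a' := J'.card) (e J).2 (e J').2).not.1 h.not_lt
    have h2 := (lex_lt (a := J'.card) (a' := J.card) (e J').2 (e J).2).not.1 h.not_gt
    exact e.injective (Fin.ext (by omega))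
  · exact (lex_lt (e J).2 (e J').2).2 (Or.inl (card_lt_card h))
  · have := card_le_univ J
    have := (e J).2
    dsimp only
    nlinarith

variable [Fintype ι] {ρ : Finset ι → ℕ} {W : ℕ} {D B1 B2 : Finset ι}

lemma ne_of_disj {J J' : Finset ι} (h : J.Nonempty) (hd : Disjoint J J') : J ≠ J' := by
  rintro rfl
  exact h.ne_empty (disjoint_self.1 hd)

lemma lvl_of (hi : Function.Injective ρ) (hm : ∀ J J', J ⊂ J' → ρ J < ρ J') (hW : ∀ J, ρ J < W)
    (hb : Blk D B1 B2) (h12 : ρ B2 < ρ B1) :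
    Lvl D B1 B2 (PP ρ W D (ρ B1 * W + ρ B2))
      (fun J => J.Nonempty ∧ J ⊂ D ∧ ρ J < ρ B1 ∧ J ≠ B2) := by
  have hm' : ∀ J J', J ⊆ J' → ρ J ≤ ρ J' := fun J J' h => by
    rcases eq_or_ssubset_of_subset h with rfl | h
    · exact le_rfl
    · exact (hm _ _ h).le
  have key : ∀ J J', max (ρ J) (ρ J') * W + min (ρ J) (ρ J') < ρ B1 * W + ρ B2 ↔
      max (ρ J) (ρ J') < ρ B1 ∨ (max (ρ J) (ρ J') = ρ B1 ∧ min (ρ J) (ρ J') < ρ B2) :=
    fun J J' => lex_lt (min_lt_iff.2 (Or.inl (hW J))) (hW B2)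
  refine ⟨hb, fun J J' h => ⟨h.2.2.1, h.2.2.2.1, h.2.2.2.2.1⟩, ?_, ?_, fun h => lt_irrefl _ h.2.2.1,
    fun h => h.2.2.2 rfl, fun J h1 h2 => ⟨h1, lt_of_lt_of_le h2 hb.s1, hm _ _ h2, ?_⟩,
    fun J h1 h2 => ⟨h1, lt_of_lt_of_le h2 hb.s2, (hm _ _ h2).trans h12, h2.ne⟩,
    fun J h => ⟨h.1, h.2.1⟩, fun J h hJ => ⟨hb.n2, h.1, hb.dj.symm.mono_right hJ, hb.s2,
      h.2.1.subset, (key _ _).2 (Or.inl (max_lt h12 h.2.2.1))⟩,
    fun J h hJ => ⟨h.1, hb.n1, hb.dj.symm.mono_left hJ, h.2.1.subset, hb.s1, (key _ _).2 ?_⟩,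
    fun J h hJ => ⟨hb.n2, h.1, (disjoint_sdiff.mono_left subset_union_right).mono_right hJ, hb.s2,
      h.2.1.subset, (key _ _).2 (Or.inl (max_lt h12 h.2.2.1))⟩⟩
  · rintro J J' J1 J2 ⟨-, -, a3, a4, a5, a6⟩ h1 h2 n1 n2
    refine ⟨n1, n2, a3.mono h1 h2, h1.trans a4, h2.trans a5, lt_of_le_of_lt ?_ a6⟩
    exact add_le_add (Nat.mul_le_mul_right _ (max_le_max (hm' _ _ h1) (hm' _ _ h2)))
      (min_le_min (hm' _ _ h1) (hm' _ _ h2))
  · rintro J J' ⟨a1, a2, a3, a4, a5, a6⟩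
    have p1 := (Blk.mk a1 a2 a3 a4 a5).p1.2
    have p2 := (Blk.mk a1 a2 a3 a4 a5).p2.2
    have hne := hi.ne (ne_of_disj a1 a3)
    rw [key] at a6
    by_cases e : ρ J < ρ B1 ∧ J ≠ B2
    · exact Or.inl ⟨a1, p1, e⟩
    refine Or.inr ⟨a2, p2, ?_, ?_⟩
    · by_cases e' : J = B2
      · subst e'; omega
      · simp only [ne_eq, e', not_false_eq_true, and_true] at e; omega
    · rintro rfl
      by_cases e' : J = J'
      · exact hne (congrArg ρ e')
      · simp only [ne_eq, e', not_false_eq_true, and_true] at e; omega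
  · rintro rfl
    exact (ne_of_disj h1 (hb.dj.mono_left h2.subset)) rfl
  · have := hm _ _ (Finset.ssubset_iff_subset_ne.2 ⟨hJ, h.2.2.2⟩)
    omega

variable {K A : Type} [Field K] [CommRing A] [Algebra K A] {F : Frame K ι A}
  [FiniteDimensional K A]

lemma pr_succ (hi : Function.Injective ρ) (hW : ∀ J, ρ J < W) (t : ℕ) :
    (∀ M : Sys K ι A, Pr F D (PP ρ W D (t + 1)) M ≤ Pr F D (PP ρ W D t) M) ∨
    ∃ B1 B2, Blk D B1 B2 ∧ ρ B2 < ρ B1 ∧ t = ρ B1 * W + ρ B2 ∧ ∀ M : Sys K ι A,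
      Pr F D (PP ρ W D (t + 1)) M
        ≤ M B2 * (M B1 * F.X (D \ (B1 ∪ B2))) ⊔ Pr F D (PP ρ W D t) M := by
  by_cases h : ∃ B1 B2, Blk D B1 B2 ∧ ρ B2 < ρ B1 ∧ t = ρ B1 * W + ρ B2
  · obtain ⟨B1, B2, hb, h1, h2⟩ := h
    refine Or.inr ⟨B1, B2, hb, h1, h2, fun M => pr_le ?_⟩
    rintro J J' ⟨a1, a2, a3, a4, a5, a6⟩
    rcases Nat.lt_succ_iff_lt_or_eq.1 a6 with a | a
    · exact le_sup_of_le_right (le_pr M ⟨a1, a2, a3, a4, a5, a⟩)
    have hmin : min (ρ J) (ρ J') < W := min_lt_iff.2 (Or.inl (hW J))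
    rw [h2] at a
    have b1 := (lex_lt hmin (hW B2)).not.1 a.not_lt
    have b2 := (lex_lt (hW B2) hmin).not.1 a.not_gt
    refine le_sup_of_le_left (le_of_eq ?_)
    rcases le_total (ρ J) (ρ J') with e | e
    · obtain rfl : J = B2 := hi (by omega)
      obtain rfl : J' = B1 := hi (by omega)
      rw [union_comm]
    · obtain rfl : J = B1 := hi (by omega)
      obtain rfl : J' = B2 := hi (by omega)
      rw [mul_left_comm]
  · refine Or.inl fun M => pr_le ?_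
    rintro J J' ⟨a1, a2, a3, a4, a5, a6⟩
    rcases Nat.lt_succ_iff_lt_or_eq.1 a6 with a | a
    · exact le_pr M ⟨a1, a2, a3, a4, a5, a⟩
    exfalso
    rcases lt_or_gt_of_ne (hi.ne (ne_of_disj a1 a3)) with e | e
    · exact h ⟨J', J, ⟨a2, a1, a3.symm, a5, a4⟩, e, by
        rw [← a, max_eq_right e.le, min_eq_left e.le]⟩
    · exact h ⟨J, J', ⟨a1, a2, a3, a4, a5⟩, e, by rw [← a, max_eq_left e.le, min_eq_right e.le]⟩

end

lemma cD_add {G X : Type} [AddCommGroup G] [AddCommGroup X] (n : ℕ) (b b' : Cube n.pred G → X) :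
    cD n (b + b') = cD n b + cD n b' := by
  cases n with
  | zero => simp [cD]
  | succ n => exact cd_add n b b'

lemma cD_zero {G X : Type} [AddCommGroup G] [AddCommGroup X] (n : ℕ) :
    cD n (0 : Cube n.pred G → X) = 0 := by
  cases n with
  | zero => rfl
  | succ n => exact cd_zero n

variable (p : ℕ) [Fact p.Prime] (ι : Type) [Fintype ι] [DecidableEq ι]

/-- All levels below `t`. -/
def AP (ρ : Finset ι → ℕ) (W n d t : ℕ) : Prop := Lin fun k δ k' δ' =>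
  ∀ (A : Type) [CommRing A] [Algebra (ZMod p) A] [Finite A] (F : Frame (ZMod p) ι A)
  (D : Finset ι) (S0 : Sys (ZMod p) ι A) (G : Type) [AddCommGroup G] [Fintype G]
  (u : Cube n G → A) (M : Cube n G → Sys (ZMod p) ι A) (e : Cube (n + 1) G → ℝ),
  D.card ≤ d → F.Prp D S0 → sz S0 ≤ k → (∀ q, F.Prp D (M q)) → 𝔼 q, sz (M q) ≤ k →
  (∀ q, u q ∈ Pr F D (PP ρ W D t) (M q)) →
  (∀ q, F.Nr D (F.idl S0 D) (cd n u q) (e q)) → 𝔼 q, e q ≤ δ →
  ∃ (b : Cube n.pred G → A) (S1 : Sys (ZMod p) ι A) (r : Cube n G → ℝ), F.SmA D b k' ∧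
    F.Prp D S1 ∧ sz S1 ≤ k' ∧ (∀ q, F.Nr D (F.idl S1 D) (u q - cD n b q) (r q)) ∧ 𝔼 q, r q ≤ δ'

theorem ap_all (ρ : Finset ι → ℕ) (W n d : ℕ) (hi : Function.Injective ρ)
    (hm : ∀ J J', J ⊂ J' → ρ J < ρ J') (hW : ∀ J, ρ J < W) (hlv : LV p ι n d) (t : ℕ) :
    AP p ι ρ W n d t := by
  induction t with
  | zero =>
    refine ⟨0, le_rfl, fun η hη => ⟨0, le_rfl,
      fun k δ hk hδ A _ _ _ F D S0 G _ _ u M e _ _ _ _ _ hu _ _ => ?_⟩⟩
    have : FiniteDimensional (ZMod p) A := Module.Finite.of_finite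
    refine ⟨0, ⊥, 0, ⟨0, fun _ => sm_zero D, by simp⟩, ty_bot _, by simp [sz_bot],
      fun q => ⟨0, zero_mem _, ?_⟩, by simp; positivity⟩
    have : u q = 0 := (Submodule.mem_bot _).1
      (pr_le (Y := ⊥) (fun J J' h => absurd h.2.2.2.2.2 (Nat.not_lt_zero _)) (hu q))
    simpa [this, cD_zero] using sm_zero D
  | succ t ih =>
    obtain ⟨C1, hC1, hlv⟩ := hlv
    obtain ⟨C2, hC2, ih⟩ := ih
    obtain ⟨c, hc, ec⟩ : ∃ c : ℝ, 0 ≤ c ∧ c = 3 * (n + 1) := ⟨_, by positivity, rfl⟩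
    refine ⟨C1 + C2 * (1 + c * C1), by positivity, fun η hη => ?_⟩
    obtain ⟨K1, hK1, hlv⟩ := hlv (η / (2 * (1 + C2 * c))) (by positivity)
    obtain ⟨K2, hK2, ih⟩ := ih (η / (2 * (K1 + 1))) (by positivity)
    refine ⟨(K1 + 1) + K2 * (K1 + 1), by positivity,
      fun k δ hk hδ A _ _ _ F D S0 G _ _ u M e hd hS0 k0 hM k1 hu he hδ' => ?_⟩
    have : FiniteDimensional (ZMod p) A := Module.Finite.of_finite
    have hKk : 0 ≤ K1 * k := by positivity
    obtain ⟨δ1, hδ1, eδ⟩ : ∃ δ1 : ℝ, 0 ≤ δ1 ∧ δ1 = C1 * δ + η / (2 * (1 + C2 * c)) * k :=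
      ⟨_, by positivity, rfl⟩
    obtain ⟨b, S1, M', u', r, a1, a2, a3, a4, a5, a6, a7, a8, a9⟩ :
        ∃ (b : Cube n.pred G → A) (S1 : Sys (ZMod p) ι A) (M' : Cube n G → Sys (ZMod p) ι A)
          (u' : Cube n G → A) (r : Cube n G → ℝ), F.SmA D b ((K1 + 1) * k) ∧ F.Prp D S1 ∧
          sz S1 ≤ (K1 + 1) * k ∧ F.idl S0 D ≤ F.idl S1 D ∧ (∀ q, F.Prp D (M' q)) ∧
          𝔼 q, sz (M' q) ≤ (K1 + 1) * k ∧ (∀ q, u' q ∈ Pr F D (PP ρ W D t) (M' q)) ∧
          (∀ q, F.Nr D (F.idl S1 D) (u q - cD n b q - u' q) (r q)) ∧ 𝔼 q, r q ≤ δ1 := by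
      rcases pr_succ (F := F) (D := D) hi hW t with h | ⟨B1, B2, hb, h1, rfl, h⟩
      · exact ⟨0, S0, M, u, 0, ⟨0, fun _ => sm_zero D, by simp; positivity⟩, hS0, by linarith,
          le_rfl, hM, by linarith, fun q => h _ (hu q),
          fun q => ⟨0, zero_mem _, by simpa [cD_zero] using sm_zero D⟩, by simpa using hδ1⟩
      · obtain ⟨b, S1, M', u', r, a1, a2, a3, a4, a5, a6, a7, a8, a9⟩ :=
          hlv k δ hk hδ A F D B1 B2 _ _ S0 G u M e hd (lvl_of hi hm hW hb h1) hS0 k0 hM k1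
            (fun q => h _ (hu q)) he hδ'
        exact ⟨b, S1, M', u', r, sma_mono a1 (by linarith), a2, by linarith, a4, a5, by linarith,
          a7, a8, eδ ▸ a9⟩
    obtain ⟨b2, S2, r2, c1, c2, c3, c4, c5⟩ := ih ((K1 + 1) * k) (δ + c * δ1) (by positivity)
      (by positivity) A F D S1 G u' M'
      (fun q => e q + ∑ c : Fin (n + 1) × Option Bool, r (fc n c.1 c.2 q)) hd a2 a3 a5 a6 a7
      (fun q => by
        have h1 := nr_sub (nr_mono (he q) a4) (nr_cd (u := u - cD n b - u') a8 q)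
        rw [cd_sub, cd_sub, cd_cD] at h1
        simpa using h1) (by
        rw [expect_add_distrib, expect_faces, ← ec]
        exact add_le_add hδ' (mul_le_mul_of_nonneg_left a9 hc))
    refine ⟨b + b2, S1 ⊔ S2, fun q => r q + r2 q, sma_mono (sma_add a1 c1) (le_of_eq (by ring)),
      Ty.sup a2 c2, (sz_sup _ _).trans (by linarith), fun q => ?_, ?_⟩
    · convert nr_add (nr_mono (a8 q) (idl_mono F le_sup_left D))
        (nr_mono (c4 q) (idl_mono F le_sup_right D)) using 1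
      rw [cD_add, Pi.add_apply]
      ring
    · rw [expect_add_distrib]
      have g1 : η / (2 * (K1 + 1)) * ((K1 + 1) * k) = η * k / 2 := by field_simp
      have g2 : (1 + C2 * c) * δ1 = (1 + C2 * c) * (C1 * δ) + η * k / 2 := by
        rw [eδ]; field_simp
      rw [g1] at c5
      nlinarith

end Lv

open Lv in
theorem stAPPROX (p : ℕ) [Fact p.Prime] (ι : Type) [Fintype ι] [DecidableEq ι] :
    St_APPROX p ι := by
  intro heng hreg n d hcol ε hε
  obtain ⟨ρ, W, hi, hm, hW⟩ := exists_rho ι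
  obtain ⟨C, -, h⟩ := ap_all p ι ρ W n d hi hm hW (lv_of p ι n d
    (dec_of p ι d hreg (pt_of_col p ι d hcol)) (engt_of _ ι n heng)) (W * W + W)
  obtain ⟨K, hK, h⟩ := h (ε / 2) (by positivity)
  refine ⟨2 * K, by positivity, fun A _ _ _ F D G _ _ u k hd hu ⟨r, r1, r2⟩ => ?_⟩
  have : FiniteDimensional (ZMod p) A := Module.Finite.of_finite
  have hk : 0 ≤ k := (expect_nonneg fun q _ => sm_nonneg (r1 q)).trans r2
  choose M m1 m2 m3 using fun q => start (P := PP ρ W D (W * W + W)) (r1 q) fun J h1 h2 =>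
    ⟨h1, sdiff_nonempty.2 h2.2, disjoint_sdiff, h2.subset, sdiff_subset, by
      have a := max_lt (hW J) (hW (D \ J))
      have b : min (ρ J) (ρ (D \ J)) < W := min_lt_iff.2 (Or.inl (hW J))
      nlinarith⟩
  obtain ⟨b, S1, r', c1, c2, c3, c4, c5⟩ := h (2 * k) 0 (by positivity) le_rfl A F D ⊥ G u M 0 hd
    (ty_bot _) (by rw [sz_bot]; positivity) m1
    ((expect_le_expect fun q _ => m2 q).trans (by rw [← mul_expect]; linarith)) m3
    (fun q => ⟨0, zero_mem _, by simpa [hu] using sm_zero D⟩) (by simp)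
  choose y y1 y2 using c4
  exact ⟨b, y, S1, sma_mono c1 (le_of_eq (by ring)), c2, by linarith, y1, r', y2, by linarith⟩

end Pool.Agent.Lib.AD
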