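import Mathlib

/-! Strong regularisation of systems of subspaces, in abstract form. -/

open Finset Module

namespace Pool.Agent.Lib.AD.RegAbs

/-- abstract setting for the regularisation -/
structure Ctx (k X T : Type) [Field k] [AddCommGroup X] [Module k X] where
  lv : T → ℕ
  idl : (T → Submodule k X) → T → Submodule k X
  Adm : (T → Submodule k X) → Prop
  Low : T → (T → Submodule k X) → Prop
  le_idl : ∀ (S : T → Submodule k X) J, S J ≤ idl S J
  idl_le : ∀ S S' : T → Submodule k X, (∀ J, S J ≤ idl S' J) → ∀ J, idl S J ≤ idl S' J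
  low_lv : ∀ J E, Low J E → ∀ J', lv J ≤ lv J' → E J' = ⊥
  adm_low : ∀ A J E, Adm A → A J ≠ ⊥ → Low J E → Adm E
  adm_sup : ∀ A A', Adm A → Adm A' → Adm (A ⊔ A')
  adm_le : ∀ A A', Adm A → A' ≤ A → Adm A'

variable {k X T : Type} [Field k] [AddCommGroup X] [Module k X] [Fintype T]

/-- total dimension -/
noncomputable def sz (S : T → Submodule k X) : ℕ := ∑ J, finrank k (S J)

/-- penalised regularity -/
def Ctx.RR (c : Ctx k X T) (η z : ℝ) (J : T) (W B : Submodule k X) : Prop :=
  ∀ E, c.Low J E → (finrank k ↥(W ⊓ (B ⊔ c.idl E J)) : ℝ) ≤ z + η * sz E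

/-- conclusion of the regularisation up to level `m` -/
def Out (c : Ctx k X T) (h : ℕ → ℝ) (θ K : ℝ) (m x1 : ℕ) (B A : T → Submodule k X) : Prop :=
  ∃ (A' : T → Submodule k X) (x : ℕ), x ≤ x1 ∧ c.Adm A' ∧ (sz A' : ℝ) ≤ x * K ∧
    (∀ J, A J ≤ c.idl (B ⊔ A') J) ∧ (∀ J, m ≤ c.lv J → A' J = A J) ∧
    ∀ J, c.lv J < m → c.RR (h x) (θ * K) J (A' J) (B J)

lemma sz_sup [FiniteDimensional k X] (S S' : T → Submodule k X) : sz (S ⊔ S') ≤ sz S + sz S' := by
  unfold sz
  rw [← sum_add_distrib]
  exact sum_le_sum fun J _ => Submodule.finrank_add_le_finrank_add_finrank _ _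

omit [Fintype T] in
lemma idl_mono (c : Ctx k X T) {S S' : T → Submodule k X} (h : S ≤ S') (J : T) :
    c.idl S J ≤ c.idl S' J :=
  c.idl_le S S' (fun J => (h J).trans (c.le_idl S' J)) J

lemma exists_compl [FiniteDimensional k X] {U W : Submodule k X} (h : U ≤ W) :
    ∃ C, C ≤ W ∧ W ≤ C ⊔ U ∧ finrank k C + finrank k U = finrank k W := by
  obtain ⟨C, hC⟩ := U.exists_isCompl
  refine ⟨W ⊓ C, inf_le_left, ?_, ?_⟩
  · rw [sup_comm, inf_comm, ← sup_inf_assoc_of_le _ h, hC.sup_eq_top, top_inf_eq]
  · have h1 := Submodule.finrank_sup_add_finrank_inf_eq (W ⊓ C) U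
    have h2 : W ⊓ C ⊔ U = W := by
      rw [sup_comm, inf_comm, ← sup_inf_assoc_of_le _ h, hC.sup_eq_top, top_inf_eq]
    have h3 : W ⊓ C ⊓ U = ⊥ := by
      rw [inf_assoc, inf_comm C U, hC.inf_eq_bot, inf_bot_eq]
    rw [h2, h3, finrank_bot, add_zero] at h1
    exact h1.symm

theorem reg_aux (k : Type) [Field k] (h : ℕ → ℝ) (hh : ∀ x, 0 < h x) (θ : ℝ) (hθ : 0 < θ)
    (m : ℕ) : ∀ x0 : ℕ, ∃ x1 : ℕ, ∀ (X T : Type) [AddCommGroup X] [Module k X] [Fintype T]
      [FiniteDimensional k X] (c : Ctx k X T) (K : ℝ) (B A : T → Submodule k X), 0 ≤ K →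
      c.Adm A → (sz A : ℝ) ≤ x0 * K → Out c h θ K m x1 B A := by
  classical
  induction m with
  | zero =>
    intro x0
    refine ⟨x0, fun X T _ _ _ _ c K B A _ hA hs => ⟨A, x0, le_rfl, hA, hs, fun J => ?_,
      fun _ _ => rfl, fun J hJ => absurd hJ (Nat.not_lt_zero _)⟩⟩
    exact le_sup_right.trans (c.le_idl (B ⊔ A) J)
  | succ m ih =>
    have key : ∀ N x0 : ℕ, ∃ x1 : ℕ, ∀ (X T : Type) [AddCommGroup X] [Module k X] [Fintype T]
        [FiniteDimensional k X] (c : Ctx k X T) (K : ℝ) (B A : T → Submodule k X), 0 ≤ K →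
        c.Adm A → (sz A : ℝ) ≤ x0 * K →
        (∑ J with c.lv J = m, (finrank k (A J) : ℝ)) < N * (θ * K) ∨
          (∑ J with c.lv J = m, (finrank k (A J) : ℝ)) ≤ 0 →
        Out c h θ K (m + 1) x1 B A := by
      intro N
      induction N with
      | zero =>
        intro x0
        obtain ⟨x1, hx1⟩ := ih x0
        refine ⟨x1, fun X T _ _ _ _ c K B A hK hA hs hl => ?_⟩
        obtain ⟨A1, x, a1, a2, a3, a4, a5, a6⟩ := hx1 X T c K B A hK hA hs
        have hl' : (∑ J with c.lv J = m, (finrank k (A J) : ℝ)) ≤ 0 := by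
          rcases hl with hl | hl
          · simpa using hl.le
          · exact hl
        refine ⟨A1, x, a1, a2, a3, a4, fun J hJ => a5 J (by omega), fun J hJ => ?_⟩
        rcases Nat.lt_succ_iff_lt_or_eq.1 hJ with hJ | hJ
        · exact a6 J hJ
        intro E _
        have b1 : (finrank k (A J) : ℝ) ≤ 0 :=
          (single_le_sum (f := fun J => (finrank k (A J) : ℝ)) (fun _ _ => Nat.cast_nonneg _)
            (mem_filter.2 ⟨mem_univ _, hJ⟩)).trans hl'
        have b2 : (finrank k ↥(A1 J ⊓ (B J ⊔ c.idl E J)) : ℝ) ≤ finrank k (A J) := by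
          rw [← a5 J hJ.ge]
          exact_mod_cast Submodule.finrank_mono inf_le_left
        have := hh x
        have : 0 ≤ θ * K + h x * sz E := by positivity
        linarith
      | succ N ihN =>
        intro x0
        obtain ⟨x1, hx1⟩ := ih x0
        obtain ⟨y, hy⟩ : ∃ y : ℕ, ∀ x ≤ x1, (x : ℝ) + x / h x ≤ y := by
          obtain ⟨y, hy⟩ := exists_nat_ge (∑ x ∈ range (x1 + 1), ((x : ℝ) + x / h x))
          refine ⟨y, fun x hx => le_trans ?_ hy⟩
          exact single_le_sum (f := fun x : ℕ => (x : ℝ) + x / h x)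
            (fun i _ => by have := hh i; positivity) (mem_range.2 (by omega))
        obtain ⟨x2, hx2⟩ := ihN y
        refine ⟨max x1 x2, fun X T _ _ _ _ c K B A hK hA hs hl => ?_⟩
        obtain ⟨A1, x, a1, a2, a3, a4, a5, a6⟩ := hx1 X T c K B A hK hA hs
        by_cases hall : ∀ J, c.lv J = m → c.RR (h x) (θ * K) J (A1 J) (B J)
        · refine ⟨A1, x, a1.trans (le_max_left _ _), a2, a3, a4, fun J hJ => a5 J (by omega),
            fun J hJ => ?_⟩
          rcases Nat.lt_succ_iff_lt_or_eq.1 hJ with hJ | hJ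
          · exact a6 J hJ
          · exact hall J hJ
        obtain ⟨J, hJ, E, hE, hbig⟩ : ∃ J, c.lv J = m ∧ ∃ E, c.Low J E ∧
            θ * K + h x * sz E < (finrank k ↥(A1 J ⊓ (B J ⊔ c.idl E J)) : ℝ) := by
          by_contra hcon
          push Not at hcon
          exact hall fun J hJ E hE => hcon J hJ E hE
        obtain ⟨U, u1, u2, u3⟩ := exists_compl (k := k) (U := A1 J ⊓ (B J ⊔ c.idl E J))
          (W := A1 J) inf_le_left
        have hx := hh x
        have hθK : 0 ≤ θ * K := by positivity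
        have hszE : (0 : ℝ) ≤ h x * sz E := by positivity
        have u3' : (finrank k U : ℝ) + finrank k ↥(A1 J ⊓ (B J ⊔ c.idl E J)) = finrank k (A1 J) := by
          exact_mod_cast u3
        have hne : A1 J ≠ ⊥ := by
          intro h0
          rw [h0, bot_inf_eq, finrank_bot] at hbig
          simp only [Nat.cast_zero] at hbig
          linarith
        have hup : Function.update A1 J U ≤ A1 := by
          intro J'
          by_cases e : J' = J
          · subst e; simpa using u1
          · simp [Function.update_of_ne e]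
        have hJle : (finrank k (A1 J) : ℝ) ≤ sz A1 := by
          exact_mod_cast single_le_sum (f := fun J => finrank k (A1 J)) (fun _ _ => Nat.zero_le _)
            (mem_univ J)
        have hU0 : (0 : ℝ) ≤ finrank k U := Nat.cast_nonneg _
        have hE2 : (sz E : ℝ) ≤ x / h x * K := by
          rw [div_mul_eq_mul_div, le_div_iff₀ hx]
          linarith
        have hs2 : (sz (Function.update A1 J U ⊔ E) : ℝ) ≤ y * K := by
          have c1 : (sz (Function.update A1 J U ⊔ E) : ℝ) ≤ sz (Function.update A1 J U) + sz E := by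
            exact_mod_cast sz_sup _ _
          have c2 : (sz (Function.update A1 J U) : ℝ) ≤ sz A1 := by
            exact_mod_cast sum_le_sum fun J' _ => Submodule.finrank_mono (hup J')
          have c3 := mul_le_mul_of_nonneg_right (hy x a1) hK
          nlinarith
        have hlev : (∑ J' with c.lv J' = m,
            (finrank k ↥((Function.update A1 J U ⊔ E) J') : ℝ))
            + finrank k ↥(A1 J ⊓ (B J ⊔ c.idl E J))
            = ∑ J' with c.lv J' = m, (finrank k (A J') : ℝ) := by
          have hm : J ∈ univ.filter (fun J' => c.lv J' = m) := mem_filter.2 ⟨mem_univ _, hJ⟩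
          rw [← add_sum_erase _ _ hm, ← add_sum_erase _ _ hm]
          have d1 : (Function.update A1 J U ⊔ E) J = U := by
            simp [c.low_lv J E hE J le_rfl]
          have d2 : ∀ J' ∈ (univ.filter (fun J' => c.lv J' = m)).erase J,
              (finrank k ↥((Function.update A1 J U ⊔ E) J') : ℝ) = finrank k (A J') := by
            intro J' hJ'
            obtain ⟨e1, e2⟩ := mem_erase.1 hJ'
            have e3 := (mem_filter.1 e2).2
            have : (Function.update A1 J U ⊔ E) J' = A J' := by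
              simp [c.low_lv J E hE J' (by omega), Function.update_of_ne e1, a5 J' e3.ge]
            rw [this]
          rw [sum_congr rfl d2, d1, ← a5 J hJ.ge]
          linarith
        have hnn : (0 : ℝ) ≤ ∑ J' with c.lv J' = m,
            (finrank k ↥((Function.update A1 J U ⊔ E) J') : ℝ) :=
          sum_nonneg fun _ _ => Nat.cast_nonneg _
        obtain ⟨A3, x', b1, b2, b3, b4, b5, b6⟩ := hx2 X T c K B (Function.update A1 J U ⊔ E) hK
          (c.adm_sup _ _ (c.adm_le _ _ a2 hup) (c.adm_low _ _ _ a2 hne hE)) hs2 (by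
            rcases hl with hl | hl
            · left; push_cast at hl; nlinarith
            · right; linarith)
        have hB : ∀ J', B J' ≤ c.idl (B ⊔ A3) J' := fun J' =>
          le_sup_left.trans (c.le_idl (B ⊔ A3) J')
        have hA1 : ∀ J', A1 J' ≤ c.idl (B ⊔ A3) J' := by
          intro J'
          by_cases e : J' = J
          · subst e
            refine u2.trans (sup_le ?_ (inf_le_right.trans (sup_le (hB _) ?_)))
            · refine le_trans ?_ (b4 J')
              simp
            · exact c.idl_le _ _ (fun J'' => le_trans le_sup_right (b4 J'')) _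
          · refine le_trans ?_ (b4 J')
            simp [Function.update_of_ne e]
        refine ⟨A3, x', b1.trans (le_max_right _ _), b2, b3, fun J' => (a4 J').trans ?_,
          fun J' hJ' => ?_, b6⟩
        · exact c.idl_le _ _ (fun J'' => sup_le (hB J'') (hA1 J'')) _
        · have e1 : J' ≠ J := by rintro rfl; omega
          rw [b5 J' hJ']
          simp [c.low_lv J E hE J' (by omega), Function.update_of_ne e1, a5 J' (by omega)]
    intro x0
    obtain ⟨N, hN⟩ := exists_nat_gt (x0 / θ)
    obtain ⟨x1, hx1⟩ := key N x0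
    refine ⟨x1, fun X T _ _ _ _ c K B A hK hA hs => hx1 X T c K B A hK hA hs ?_⟩
    have h1 : (∑ J with c.lv J = m, (finrank k (A J) : ℝ)) ≤ sz A := by
      unfold sz
      push_cast
      exact sum_le_sum_of_subset_of_nonneg (filter_subset _ _) fun _ _ _ => Nat.cast_nonneg _
    rcases hK.eq_or_lt with h0 | h0
    · right
      rw [← h0, mul_zero] at hs
      linarith
    · left
      rw [div_lt_iff₀ hθ] at hN
      nlinarith

/-- strong relative regularisation -/
theorem reg (k : Type) [Field k] (h : ℕ → ℝ) (hh : ∀ x, 0 < h x) (θ : ℝ) (hθ : 0 < θ)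
    (m : ℕ) : ∃ x1 : ℕ, ∀ (X T : Type) [AddCommGroup X] [Module k X] [Fintype T]
      [FiniteDimensional k X] (c : Ctx k X T) (K : ℝ) (B A : T → Submodule k X),
      c.Adm A → (∀ J, m ≤ c.lv J → A J = ⊥) → (sz A : ℝ) ≤ K →
      ∃ (A' : T → Submodule k X) (x : ℕ), x ≤ x1 ∧ c.Adm A' ∧ (sz A' : ℝ) ≤ x * K ∧
        (∀ J, A J ≤ c.idl (B ⊔ A') J) ∧ ∀ J, c.RR (h x) (θ * K) J (A' J) (B J) := by
  obtain ⟨x1, hx1⟩ := reg_aux k h hh θ hθ m 1
  refine ⟨x1, fun X T _ _ _ _ c K B A hA hm hs => ?_⟩
  have hK : 0 ≤ K := le_trans (Nat.cast_nonneg _) hs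
  obtain ⟨A', x, a1, a2, a3, a4, a5, a6⟩ := hx1 X T c K B A hK hA (by simpa using hs)
  refine ⟨A', x, a1, a2, a3, a4, fun J => ?_⟩
  rcases lt_or_ge (c.lv J) m with hJ | hJ
  · exact a6 J hJ
  · intro E _
    rw [a5 J hJ, hm J hJ, bot_inf_eq, finrank_bot]
    have := hh x
    rw [Nat.cast_zero]
    positivity

end Pool.Agent.Lib.AD.RegAbs
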