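import Pool.Agent.Lib.AD.Defs
import Pool.Agent.Lib.AD.RegAbs

/-! Basic facts on ideals, pair classes and regularisation in a frame. -/

noncomputable section

open Finset Module
open scoped BigOperators

set_option linter.unusedSectionVars false

namespace Pool.Agent.Lib.AD.Lv

variable {K ι A : Type} [Field K] [DecidableEq ι] [CommRing A] [Algebra K A] (F : Frame K ι A)

lemma mul_le_idl (S : Sys K ι A) {J D : Finset ι} (h : J ⊆ D) : S J * F.X (D \ J) ≤ F.idl S D :=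
  le_iSup₂_of_le (f := fun J (_ : J ⊆ D) => S J * F.X (D \ J)) J h le_rfl

lemma idl_le_iff {S : Sys K ι A} {D : Finset ι} {M : Submodule K A} :
    F.idl S D ≤ M ↔ ∀ J, J ⊆ D → S J * F.X (D \ J) ≤ M := iSup₂_le_iff

lemma le_idl (S : Sys K ι A) (J : Finset ι) : S J ≤ F.idl S J := by
  have := mul_le_idl F S (subset_refl J)
  rwa [sdiff_self, Finset.bot_eq_empty, F.X_empty, mul_one] at this

lemma X_split {J D : Finset ι} (h : J ⊆ D) : F.X J * F.X (D \ J) = F.X D := by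
  rw [F.X_mul _ _ disjoint_sdiff, union_sdiff_of_subset h]

lemma idl_mul (S : Sys K ι A) {J J' : Finset ι} (h : Disjoint J J') :
    F.idl S J * F.X J' ≤ F.idl S (J ∪ J') := by
  unfold Frame.idl
  rw [Submodule.iSup_mul]
  refine iSup_le fun I => ?_
  rw [Submodule.iSup_mul]
  refine iSup_le fun hI => ?_
  rw [mul_assoc, F.X_mul _ _ (h.mono_left sdiff_subset)]
  have e : J \ I ∪ J' = (J ∪ J') \ I := by
    ext a
    have := @disjoint_left.1 h a
    have := @hI a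
    simp only [mem_union, mem_sdiff]; tauto
  rw [e]
  exact mul_le_idl F S (hI.trans subset_union_left)

lemma idl_mul_sdiff (S : Sys K ι A) {J D : Finset ι} (h : J ⊆ D) :
    F.idl S J * F.X (D \ J) ≤ F.idl S D := by
  have := idl_mul F S (J := J) (J' := D \ J) disjoint_sdiff
  rwa [union_sdiff_of_subset h] at this

lemma idl_le_idl {S S' : Sys K ι A} {D : Finset ι} (h : ∀ J, J ⊆ D → S J ≤ F.idl S' J) :
    F.idl S D ≤ F.idl S' D :=
  (idl_le_iff F).2 fun J hJ => (mul_le_mul_left (h J hJ) _).trans (idl_mul_sdiff F S' hJ)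

lemma idl_mono {S S' : Sys K ι A} (h : S ≤ S') (D : Finset ι) : F.idl S D ≤ F.idl S' D :=
  idl_le_idl F fun J _ => (h J).trans (le_idl F S' J)

lemma idl_sup (S S' : Sys K ι A) (D : Finset ι) :
    F.idl (S ⊔ S') D = F.idl S D ⊔ F.idl S' D := by
  refine le_antisymm ((idl_le_iff F).2 fun J hJ => ?_)
    (sup_le (idl_mono F le_sup_left D) (idl_mono F le_sup_right D))
  rw [Pi.sup_apply, Submodule.sup_mul]
  exact sup_le_sup (mul_le_idl F S hJ) (mul_le_idl F S' hJ)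

lemma idl_bot (D : Finset ι) : F.idl (⊥ : Sys K ι A) D = ⊥ :=
  le_bot_iff.1 ((idl_le_iff F).2 fun J _ => by simp)

lemma idl_le_X {S : Sys K ι A} (h : ∀ J, S J ≤ F.X J) (D : Finset ι) : F.idl S D ≤ F.X D :=
  (idl_le_iff F).2 fun J hJ => (mul_le_mul_left (h J) _).trans (X_split F hJ).le

/-- systems with types in a given class -/
def Ty (P : Finset ι → Prop) (S : Sys K ι A) : Prop := ∀ J, S J ≤ F.X J ∧ (S J ≠ ⊥ → P J)

variable {F}

lemma Ty.mono {P P' : Finset ι → Prop} {S : Sys K ι A} (h : Ty F P S) (hP : ∀ J, P J → P' J) :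
    Ty F P' S := fun J => ⟨(h J).1, fun e => hP J ((h J).2 e)⟩

lemma Ty.of_le {P : Finset ι → Prop} {S S' : Sys K ι A} (h : Ty F P S) (hS : S' ≤ S) :
    Ty F P S' := fun J =>
  ⟨(hS J).trans (h J).1, fun e => (h J).2 fun e' => e (le_bot_iff.1 (e' ▸ hS J))⟩

lemma Ty.sup {P : Finset ι → Prop} {S S' : Sys K ι A} (h : Ty F P S) (h' : Ty F P S') :
    Ty F P (S ⊔ S') := fun J =>
  ⟨sup_le (h J).1 (h' J).1, fun e => by
    by_cases e1 : S J = ⊥
    · exact (h' J).2 fun e2 => e (by simp [e1, e2])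
    · exact (h J).2 e1⟩

lemma ty_bot (P : Finset ι → Prop) : Ty F P (⊥ : Sys K ι A) := fun _ => ⟨bot_le, fun e => absurd rfl e⟩

lemma Ty.finsup {P : Finset ι → Prop} {β : Type} (s : Finset β) {S : β → Sys K ι A}
    (h : ∀ b ∈ s, Ty F P (S b)) : Ty F P (s.sup S) :=
  Finset.sup_induction (p := Ty F P) (ty_bot P) (fun _ a _ b => a.sup b) h

/-- a system with one type -/
def one (J : Finset ι) (W : Submodule K A) : Sys K ι A := fun J' => if J' = J then W else ⊥

lemma one_self (J : Finset ι) (W : Submodule K A) : one J W J = W := by simp [one]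

lemma ty_one {P : Finset ι → Prop} {J : Finset ι} {W : Submodule K A} (h : W ≤ F.X J)
    (hP : P J) : Ty F P (one J W) := by
  intro J'
  by_cases e : J' = J
  · subst e; simp [one, h, hP]
  · simp [one, e]

variable [Fintype ι] [FiniteDimensional K A]

lemma sz_nonneg (S : Sys K ι A) : 0 ≤ sz S := sum_nonneg fun _ _ => Nat.cast_nonneg _

lemma sz_bot : sz (⊥ : Sys K ι A) = 0 := by simp [sz]

lemma sz_mono {S S' : Sys K ι A} (h : S ≤ S') : sz S ≤ sz S' :=
  sum_le_sum fun J _ => by exact_mod_cast Submodule.finrank_mono (h J)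

lemma sz_sup (S S' : Sys K ι A) : sz (S ⊔ S') ≤ sz S + sz S' := by
  unfold sz
  rw [← sum_add_distrib]
  exact sum_le_sum fun J _ => by
    exact_mod_cast Submodule.finrank_add_le_finrank_add_finrank (S J) (S' J)

lemma sz_finsup {β : Type} (s : Finset β) (S : β → Sys K ι A) :
    sz (s.sup S) ≤ ∑ b ∈ s, sz (S b) := by
  classical
  induction s using Finset.induction_on with
  | empty => simp [sz_bot]
  | insert b s hb ih => rw [sup_insert, sum_insert hb]; linarith [sz_sup (S b) (s.sup S)]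

lemma sz_one (J : Finset ι) (W : Submodule K A) : sz (one J W) = finrank K W := by
  unfold sz
  rw [sum_eq_single J (fun J' _ e => by
    rw [show one J W J' = ⊥ from if_neg e]; simp) (by simp), one_self]

lemma le_sz (S : Sys K ι A) (J : Finset ι) : (finrank K (S J) : ℝ) ≤ sz S :=
  single_le_sum (f := fun J => (finrank K (S J) : ℝ)) (fun _ _ => Nat.cast_nonneg _) (mem_univ J)

lemma sz_eq (S : Sys K ι A) : sz S = (RegAbs.sz S : ℕ) := by simp [sz, RegAbs.sz]

lemma sm_nonneg {D : Finset ι} {f : A} {r : ℝ} (h : F.Sm D f r) : 0 ≤ r := by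
  obtain ⟨E, -, h, -⟩ := h
  exact (sz_nonneg E).trans h

lemma sm_mono {D : Finset ι} {f : A} {r s : ℝ} (h : F.Sm D f r) (hs : r ≤ s) : F.Sm D f s := by
  obtain ⟨E, h1, h2, h3⟩ := h
  exact ⟨E, h1, h2.trans hs, h3⟩

lemma sm_zero (D : Finset ι) : F.Sm D 0 0 := ⟨⊥, ty_bot _, sz_bot.le, zero_mem _⟩

lemma sm_add {D : Finset ι} {f g : A} {r s : ℝ} (h : F.Sm D f r) (h' : F.Sm D g s) :
    F.Sm D (f + g) (r + s) := by
  obtain ⟨E, h1, h2, h3⟩ := h
  obtain ⟨E', h1', h2', h3'⟩ := h'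
  exact ⟨E ⊔ E', Ty.sup h1 h1', (sz_sup _ _).trans (add_le_add h2 h2'),
    add_mem (idl_mono F le_sup_left D h3) (idl_mono F le_sup_right D h3')⟩

lemma sm_neg {D : Finset ι} {f : A} {r : ℝ} (h : F.Sm D f r) : F.Sm D (-f) r := by
  obtain ⟨E, h1, h2, h3⟩ := h
  exact ⟨E, h1, h2, neg_mem h3⟩

lemma sm_sub {D : Finset ι} {f g : A} {r s : ℝ} (h : F.Sm D f r) (h' : F.Sm D g s) :
    F.Sm D (f - g) (r + s) := by
  rw [sub_eq_add_neg]; exact sm_add h (sm_neg h')

lemma sm_mem_X {D : Finset ι} {f : A} {r : ℝ} (h : F.Sm D f r) : f ∈ F.X D := by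
  obtain ⟨E, h1, -, h3⟩ := h
  exact idl_le_X F (fun J => (h1 J).1) D h3

/-- the differential of a small cochain is small -/
lemma sm_cd {D : Finset ι} {G : Type} [AddCommGroup G] {m : ℕ} {u : Cube m G → A}
    {r : Cube m G → ℝ} (h : ∀ q, F.Sm D (u q) (r q)) (q : Cube (m + 1) G) :
    F.Sm D (cd m u q) (∑ c : Fin (m + 1) × Option Bool, r (fc m c.1 c.2 q)) := by
  choose E h1 h2 h3 using h
  refine ⟨univ.sup fun c : Fin (m + 1) × Option Bool => E (fc m c.1 c.2 q),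
    Ty.finsup _ fun _ _ => h1 _, (sz_finsup _ _).trans (sum_le_sum fun _ _ => h2 _), ?_⟩
  refine cd_mem _ m u q fun i c => idl_mono F ?_ D (h3 _)
  exact le_sup (f := fun c : Fin (m + 1) × Option Bool => E (fc m c.1 c.2 q)) (mem_univ (i, c))

lemma expect_faces {G : Type} [AddCommGroup G] [Fintype G] (m : ℕ) (r : Cube m G → ℝ) :
    𝔼 q : Cube (m + 1) G, ∑ c : Fin (m + 1) × Option Bool, r (fc m c.1 c.2 q)
      = 3 * (m + 1) * 𝔼 q, r q := by
  rw [expect_sum_comm, sum_congr rfl fun c _ => expect_surj (fc m c.1 c.2) (fc_surj m c.1 c.2) r]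
  simp [mul_comm]

/-- the regularisation context of a frame -/
def ctx (F : Frame K ι A) (P : Finset ι → Prop)
    (hP : ∀ J J', P J → J'.Nonempty → J' ⊆ J → P J') : RegAbs.Ctx K A (Finset ι) where
  lv := Finset.card
  idl := F.idl
  Adm := Ty F P
  Low J E := F.Prp J E
  le_idl := le_idl F
  idl_le _ _ h _ := idl_le_idl F fun J _ => h J
  low_lv J E hE J' hJ := by
    by_contra e
    exact absurd (card_lt_card ((hE J').2 e).2) (not_lt.2 hJ)
  adm_low S J E hS hJ hE J' :=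
    ⟨(hE J').1, fun e => hP J J' ((hS J).2 hJ) ((hE J').2 e).1 ((hE J').2 e).2.subset⟩
  adm_sup _ _ := Ty.sup
  adm_le _ _ := Ty.of_le

/-- strong relative regularisation in a frame -/
theorem reg (K ι : Type) [Field K] [DecidableEq ι] [Fintype ι] (h : ℕ → ℝ) (hh : ∀ x, 0 < h x)
    (θ : ℝ) (hθ : 0 < θ) : ∃ x1 : ℕ, ∀ (A : Type) [CommRing A] [Algebra K A]
      [FiniteDimensional K A] (F : Frame K ι A) (P : Finset ι → Prop) (k : ℝ) (B S : Sys K ι A),
      (∀ J J', P J → J'.Nonempty → J' ⊆ J → P J') → Ty F P S → sz S ≤ k →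
      ∃ (S' : Sys K ι A) (x : ℕ), x ≤ x1 ∧ Ty F P S' ∧ sz S' ≤ x * k ∧
        (∀ J, S J ≤ F.idl (B ⊔ S') J) ∧ ∀ J, F.RR (h x) (θ * k) J (S' J) (B J) := by
  obtain ⟨x1, hx1⟩ := RegAbs.reg K h hh θ hθ (Fintype.card ι + 1)
  refine ⟨x1, fun A _ _ _ F P k B S hP hS hk => ?_⟩
  obtain ⟨S', x, a1, a2, a3, a4, a5⟩ := hx1 A (Finset ι) (ctx F P hP) k B S hS
    (fun J hJ => absurd (card_le_univ J) (by change _ ≤ J.card at hJ; omega)) (sz_eq S ▸ hk)
  exact ⟨S', x, a1, a2, sz_eq S' ▸ a3, a4, fun J E hE => sz_eq E ▸ a5 J E hE⟩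

lemma prp_down (D : Finset ι) (J J' : Finset ι) (h : J.Nonempty ∧ J ⊂ D) (h' : J'.Nonempty)
    (hJ : J' ⊆ J) : J'.Nonempty ∧ J' ⊂ D := ⟨h', lt_of_le_of_lt hJ h.2⟩

end Pool.Agent.Lib.AD.Lv
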