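import Pool.Agent.Lib.AD.Blue2
import Pool.Agent.Lib.AD.LvApi

/-! Block APX: iterating the levels. -/

noncomputable section

open Finset Module
open scoped BigOperators

namespace Pool.Agent.Lib.AD

namespace APX

variable {K ι A : Type} [Field K] [Fintype ι] [DecidableEq ι] [CommRing A] [Algebra K A]

omit [DecidableEq ι] in
lemma rk_inj {J J' : Finset ι} (h : rk J = rk J') : J = J' := by
  unfold rk at h
  have h1 := (Fintype.equivFin (Finset ι) J).2
  have h2 := (Fintype.equivFin (Finset ι) J').2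
  have := congrArg (· % Fintype.card (Finset ι)) h
  simp only [Nat.mul_add_mod_of_lt h1, Nat.mul_add_mod_of_lt h2] at this
  exact (Fintype.equivFin (Finset ι)).injective (Fin.ext this)

omit [DecidableEq ι] in
lemma rk_lt (J : Finset ι) : rk J < rkB ι := by
  unfold rk rkB
  have h1 := (Fintype.equivFin (Finset ι) J).2
  have h2 : (Fintype.card ι - J.card) * Fintype.card (Finset ι) ≤
      Fintype.card ι * Fintype.card (Finset ι) := Nat.mul_le_mul_right _ (Nat.sub_le _ _)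
  rw [add_mul, one_mul]
  omega

omit [DecidableEq ι] in
lemma pk_lt (B1 B2 : Finset ι) : pk B1 B2 < rkB ι * rkB ι := by
  unfold pk
  have h1 := rk_lt B1
  have h2 := rk_lt B2
  have h3 : (rk B1 + 1) * rkB ι ≤ rkB ι * rkB ι := Nat.mul_le_mul_right _ h1
  rw [add_mul, one_mul] at h3
  omega

lemma prs_top (F : Frame K ι A) (D : Finset ι) (S : Sys K ι A) :
    F.prs D (rkB ι * rkB ι) S = ⊥ := by
  refine le_bot_iff.1 (iSup_le fun B1 => iSup_le fun B2 => iSup_le fun h => ?_)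
  exact absurd h.2 (not_le.2 (pk_lt B1 B2))

lemma le_prs (F : Frame K ι A) {D B1 B2 : Finset ι} (S : Sys K ι A) (h : Pair D B1 B2) :
    F.two D B1 B2 (S B1) (S B2) ≤ F.prs D 0 S :=
  le_iSup_of_le B1 (le_iSup_of_le B2 (le_iSup_of_le ⟨h, Nat.zero_le _⟩ le_rfl))

lemma mul_le_prs (F : Frame K ι A) {D J : Finset ι} (S : Sys K ι A) (h0 : J.Nonempty)
    (h1 : J ⊂ D) : S J * S (D \ J) ≤ F.prs D 0 S := by
  have hn : (D \ J).Nonempty := sdiff_nonempty.2 h1.2
  have hne : rk J ≠ rk (D \ J) := fun e => by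
    obtain ⟨a, ha⟩ := h0
    have := rk_inj e
    exact (mem_sdiff.1 (this ▸ ha)).2 ha
  rcases lt_or_gt_of_ne hne with h | h
  · refine le_trans ?_ (le_prs F S ⟨h0, hn, h1.1, sdiff_subset, disjoint_sdiff, h⟩)
    unfold Frame.two
    rw [union_sdiff_of_subset h1.1, sdiff_self, Finset.bot_eq_empty, F.X_empty, mul_one]
  · refine le_trans ?_ (le_prs F S ⟨hn, h0, sdiff_subset, h1.1, sdiff_disjoint, h⟩)
    unfold Frame.two
    rw [sdiff_union_of_subset h1.1, sdiff_self, Finset.bot_eq_empty, F.X_empty, mul_one, mul_comm]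

omit [Fintype ι] [DecidableEq ι] in
lemma exists_right (S Y : Submodule K A) [Module.Finite K S] {f : A} (hf : f ∈ S * Y) :
    ∃ Q : Submodule K A, Q ≤ Y ∧ finrank K Q ≤ finrank K S ∧ f ∈ S * Q := by
  let b := Module.finBasis K S
  have h : ∃ y : Fin (finrank K S) → A, (∀ a, y a ∈ Y) ∧ f = ∑ a, (b a : A) * y a := by
    refine Submodule.mul_induction_on hf (fun s hs y hy => ?_) ?_
    · refine ⟨fun a => b.repr ⟨s, hs⟩ a • y, fun a => Y.smul_mem _ hy, ?_⟩
      have := congrArg Subtype.val (b.sum_repr ⟨s, hs⟩)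
      simp only [Submodule.coe_sum, Submodule.coe_smul] at this
      refine (congrArg (· * y) this.symm).trans ?_
      beta_reduce
      rw [sum_mul]
      exact sum_congr rfl fun a _ => by rw [smul_mul_assoc, mul_smul_comm]
    · rintro _ _ ⟨y, h1, rfl⟩ ⟨y', h2, rfl⟩
      exact ⟨y + y', fun a => add_mem (h1 a) (h2 a), by simp [mul_add, sum_add_distrib]⟩
  obtain ⟨y, h1, h2⟩ := h
  refine ⟨Submodule.span K (Set.range y), Submodule.span_le.2 ?_, ?_, ?_⟩
  · rintro _ ⟨a, rfl⟩; exact h1 a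
  · exact (finrank_range_le_card (R := K) y).trans (by simp)
  · rw [h2]
    exact sum_mem fun a _ => Submodule.mul_mem_mul (b a).2 (Submodule.subset_span ⟨a, rfl⟩)

variable [FiniteDimensional K A]

lemma start (F : Frame K ι A) {D : Finset ι} {f : A} {r : ℝ} (h : F.Sm D f r) :
    ∃ S : Sys K ι A, F.Prp D S ∧ sz S ≤ 2 * r ∧ f ∈ F.prs D 0 S := by
  obtain ⟨E, hE, hr, hf⟩ := h
  have e : F.idl E D = ⨆ J ∈ D.powerset, E J * F.X (D \ J) := by
    simp only [Frame.idl, mem_powerset]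
  rw [e, Submodule.mem_iSup_finset_iff_exists_sum] at hf
  obtain ⟨μ, rfl⟩ := hf
  choose Q q1 q2 q3 using fun J => exists_right (E J) (F.X (D \ J)) (μ J).2
  have hb : ∀ J, E J = ⊥ → Q J = ⊥ := fun J hJ => by
    have := q2 J
    rw [hJ, finrank_bot] at this
    exact Submodule.finrank_eq_zero.1 (Nat.le_zero.1 this)
  let S' : Sys K ι A := univ.sup fun J => Lv.one (D \ J) (Q J)
  have hS' : F.Prp D S' := by
    refine Lv.Ty.finsup (P := fun J => J.Nonempty ∧ J ⊂ D) _ fun J _ => ?_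
    by_cases hJ : E J = ⊥
    · rw [hb J hJ]
      refine (Lv.ty_bot _).of_le fun J' => ?_
      unfold Lv.one
      split_ifs <;> exact bot_le
    · obtain ⟨h0, h1⟩ := (hE J).2 hJ
      exact Lv.ty_one (q1 J) ⟨sdiff_nonempty.2 h1.2, sdiff_ssubset h1.1 h0⟩
  have hsz : sz S' ≤ sz E := by
    refine (Lv.sz_finsup _ _).trans (sum_le_sum fun J _ => ?_)
    rw [Lv.sz_one]
    exact_mod_cast q2 J
  refine ⟨E ⊔ S', Lv.Ty.sup hE hS', by linarith [Lv.sz_sup E S'], sum_mem fun J _ => ?_⟩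
  by_cases hJ : E J = ⊥
  · have := q3 J
    rw [hb J hJ, Submodule.mul_bot, Submodule.mem_bot] at this
    rw [this]
    exact zero_mem _
  · obtain ⟨h0, h1⟩ := (hE J).2 hJ
    refine mul_le_prs F (E ⊔ S') h0 h1 (SetLike.le_def.1 (mul_le_mul' ?_ ?_) (q3 J))
    · exact le_sup_left (a := E J)
    · refine le_trans ?_ (le_sup_right (a := E (D \ J)))
      have := le_sup (f := fun J => Lv.one (D \ J) (Q J)) (mem_univ J) (D \ J)
      rwa [Lv.one_self] at this

omit [Fintype ι] [DecidableEq ι] [FiniteDimensional K A] [Algebra K A] in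
lemma cD_zero {G : Type} [AddCommGroup G] (n : ℕ) : cD n (0 : Cube n.pred G → A) = 0 := by
  cases n with
  | zero => rfl
  | succ n => exact cd_zero n

lemma lev_zero (F : Frame K ι A) {D : Finset ι} {G : Type} [AddCommGroup G] [Fintype G] {n : ℕ}
    {u : Cube n G → A} {k : ℝ} (h : F.SmA D u k) : F.Lev D n 0 u (2 * k) 0 := by
  obtain ⟨r, h1, h2⟩ := h
  have hk : 0 ≤ k := (expect_nonneg fun q _ => Lv.sm_nonneg (h1 q)).trans h2
  choose S s1 s2 s3 using fun q => start F (h1 q)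
  refine ⟨0, ⊥, S, 0, ⟨0, fun _ => Lv.sm_zero D, by simpa using hk⟩, Lv.ty_bot _,
    by rw [Lv.sz_bot]; positivity, s1, ?_, ⟨0, fun _ => Lv.sm_zero D, by simp⟩, fun q => ?_⟩
  · refine (expect_le_expect fun q _ => s2 q).trans ?_
    rw [← mul_expect]
    linarith
  · rw [cD_zero]
    simpa using Submodule.mem_sup_right (s3 q)

omit [FiniteDimensional K A] in
lemma lev_mono (F : Frame K ι A) {D : Finset ι} {G : Type} [AddCommGroup G] [Fintype G] {n l : ℕ}
    {u : Cube n G → A} {k δ δ' : ℝ} (h : F.Lev D n l u k δ) (hδ : δ ≤ δ') :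
    F.Lev D n l u k δ' := by
  obtain ⟨b, S0, S, e, a1, a2, a3, a4, a5, ⟨r, a6, a6'⟩, a7⟩ := h
  exact ⟨b, S0, S, e, a1, a2, a3, a4, a5, ⟨r, a6, a6'.trans hδ⟩, a7⟩

end APX

variable (p : ℕ) [Fact p.Prime] (ι : Type) [Fintype ι] [DecidableEq ι]

lemma APX.iter (n d : ℕ) (h : LEV p ι n d) (l : ℕ) : ∀ ε : ℝ, 0 < ε → ∃ C : ℝ, 0 ≤ C ∧
    ∀ (A : Type) [CommRing A] [Algebra (ZMod p) A] [Finite A] (F : Frame (ZMod p) ι A)
      (D : Finset ι) (G : Type) [AddCommGroup G] [Fintype G] (c : Cube n G → A) (k : ℝ),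
      0 ≤ k → D.card ≤ d → cd n c = 0 → F.Lev D n 0 c k 0 → F.Lev D n l c (C * k) (ε * k) := by
  obtain ⟨C0, hC0, H⟩ := h
  induction l with
  | zero =>
    intro ε hε
    refine ⟨1, zero_le_one, fun A _ _ _ F D G _ _ c k hk _ _ h => ?_⟩
    rw [one_mul]
    exact APX.lev_mono F h (by positivity)
  | succ l ih =>
    intro ε hε
    obtain ⟨C1, hC1, H1⟩ := ih (ε / (2 * (C0 + 1))) (by positivity)
    obtain ⟨K, hK, H2⟩ := H (ε / (2 * (C1 + 1))) (by positivity)
    refine ⟨K * C1, by positivity, fun A _ _ _ F D G _ _ c k hk hD hc h => ?_⟩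
    have := H2 (C1 * k) (ε / (2 * (C0 + 1)) * k) (by positivity) (by positivity) A F D G c l hD hc
      (H1 A F D G c k hk hD hc h)
    rw [mul_assoc]
    refine APX.lev_mono F this ?_
    have e : ∀ C : ℝ, 0 ≤ C → C * (ε / (2 * (C + 1))) ≤ ε / 2 := fun C hC => by
      rw [mul_div_assoc', div_le_div_iff₀ (by positivity) (by positivity)]
      nlinarith
    have e0 := mul_le_mul_of_nonneg_right (e C0 hC0) hk
    have e1 := mul_le_mul_of_nonneg_right (e C1 hC1) hk
    nlinarith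

theorem stAPX : St_APX p ι := by
  intro n d h ε hε
  obtain ⟨C, hC, H⟩ := APX.iter p ι n d h (rkB ι * rkB ι) (ε / 2) (by positivity)
  refine ⟨C * 2, by positivity, fun A _ _ _ F D G _ _ u k hD hu hk => ?_⟩
  have hk0 : 0 ≤ k := by
    obtain ⟨r, h1, h2⟩ := hk
    exact (expect_nonneg fun q _ => Lv.sm_nonneg (h1 q)).trans h2
  obtain ⟨b, S0, S, e, a1, a2, a3, -, -, a6, a7⟩ :=
    H A F D G u (2 * k) (by positivity) hD hu (APX.lev_zero F hk)
  refine ⟨b, u - cD n b - e, S0, by rwa [mul_assoc], a2, by rwa [mul_assoc], fun q => ?_, ?_⟩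
  · have := a7 q
    rwa [APX.prs_top, sup_bot_eq] at this
  · rw [sub_sub_cancel]
    have e1 : ε / 2 * (2 * k) = ε * k := by ring
    rwa [e1] at a6

end Pool.Agent.Lib.AD
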