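import Pool.Agent.Lib.AD.Blue

/-! The block `BASE`: the statements in degree zero. -/

noncomputable section

open Finset Module
open scoped BigOperators

namespace Pool.Agent.Lib.AD

variable (p : ℕ) [Fact p.Prime] (ι : Type) [Fintype ι] [DecidableEq ι]

theorem stBASE : St_BASE p ι := by
  refine ⟨⟨0, le_rfl, ?_⟩, ⟨0, le_rfl, fun η' _ => ⟨1, one_pos, ?_⟩⟩,
    fun n => ⟨0, le_rfl, fun η' hη' => ⟨1, one_pos, ?_⟩⟩⟩
  · intro A _ _ _ _ F L j f θ _ _ h
    omega
  · intro A _ _ _ F D I Q S T k δ z hD _ hI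
    have := card_lt_card hI
    omega
  · intro A _ _ _ F D S G _ _ y k δ z hD _ hS _ _ hk hy _
    have hS0 : ∀ J, S J = ⊥ := fun J => by
      by_contra e
      have := card_lt_card ((hS J).2 e).2
      omega
    have hI : F.idl S D = ⊥ := by
      refine le_bot_iff.1 (iSup₂_le fun J _ => ?_)
      rw [hS0 J, Submodule.bot_mul]
    have hy0 : y = 0 := funext fun q => by simpa [hI] using hy q
    have hk0 : 0 ≤ k := (sum_nonneg fun _ _ => Nat.cast_nonneg _).trans hk
    refine ⟨0, fun _ => zero_mem _, ⟨fun _ => 0, fun q => ⟨⊥, fun J => ⟨bot_le, fun h =>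
      absurd rfl h⟩, by simp [sz], zero_mem _⟩, ?_⟩, by rw [hy0, sub_zero, cd_zero]⟩
    have := mul_nonneg hη'.le hk0
    simpa using this

end Pool.Agent.Lib.AD
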