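import Pool.Agent.Lib.AD.ColOne

/-! The colon lemma. -/

noncomputable section

open Finset Module Function
open scoped BigOperators

namespace Pool.Agent.Lib.AD

namespace Col

lemma res_le {K ι A : Type} [Field K] [DecidableEq ι] [CommRing A] [Algebra K A] (S : Sys K ι A)
    (D J : Finset ι) : res S D J ≤ S J := by
  unfold res; split_ifs <;> simp

variable {p : ℕ} [Fact p.Prime] {ι : Type} [Fintype ι] [DecidableEq ι]

lemma colTwo {d : ℕ} (h0 : EVAL p ι d) (h1 : COL p ι d) (h2 : INT p ι d) :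
    Shp (ColB p ι (fun I => 2 ≤ I.card) (d + 1)) := by
  obtain ⟨C0, hC0, h0⟩ := samp h0 (Fintype.card ι + 1)
  obtain ⟨C1, hC1, h1⟩ := h1
  obtain ⟨C2, hC2, h2⟩ := intB h2
  obtain ⟨N, hN⟩ : ∃ N : ℝ, N = Fintype.card (Finset ι) := ⟨_, rfl⟩
  have hN0 : 0 ≤ N := by rw [hN]; positivity
  refine ⟨C2 * (C1 * (1 + N) + 4 * C0 + C1 * (2 * C0 + 1) + 1), by positivity, fun η' hη' => ?_⟩
  obtain ⟨ε, hε, hε'⟩ : ∃ ε : ℝ, 0 < ε ∧ ε * (C2 * (8 + 4 * C1 + (1 + N)) + (1 + N)) = η' :=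
    ⟨η' / (C2 * (8 + 4 * C1 + (1 + N)) + (1 + N)), by positivity, by field_simp⟩
  obtain ⟨η1, hη1, h1⟩ := h1 ε hε
  obtain ⟨η2, hη2, h2⟩ := h2 ε hε
  obtain ⟨θ, hθ, hθ1, hθ2⟩ : ∃ θ : ℝ, 0 < θ ∧ θ + θ ≤ η1 ∧ θ ≤ η2 :=
    ⟨min (η1 / 2) η2, by positivity, by linarith [min_le_left (η1 / 2) η2], min_le_right _ _⟩
  obtain ⟨η0, hη0, h0⟩ := h0 θ ε hθ hε
  obtain ⟨η, hη, hη3, hη4⟩ : ∃ η : ℝ, 0 < η ∧ η + η ≤ η0 ∧ η ≤ θ :=
    ⟨min (η0 / 2) θ, by positivity, by linarith [min_le_left (η0 / 2) θ], min_le_right _ _⟩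
  refine ⟨η, hη, fun A _ _ _ F D I Q S T k δ z hI hδ hδk hD hID hz hQ hS hR hQR hQk hSk hT hTn => ?_⟩
  obtain ⟨i, hiI⟩ : I.Nonempty := card_pos.1 (by omega)
  have hi : i ∈ D := hID.subset hiI
  have hi' := notMem_erase i D
  have hk : 0 ≤ k := hδ.trans hδk
  have hD' : (D.erase i).card ≤ d := by rw [card_erase_of_mem hi]; omega
  have hI1 : (I.erase i).Nonempty := card_pos.1 (by rw [card_erase_of_mem hiI]; omega)
  have hI2 : I.erase i ⊂ D.erase i := by
    obtain ⟨a, ha, ha'⟩ := exists_of_ssubset hID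
    exact (ssubset_iff_of_subset (erase_subset_erase _ hID.subset)).2
      ⟨a, mem_erase.2 ⟨by rintro rfl; exact ha' hiI, ha⟩, fun h => ha' (mem_of_mem_erase h)⟩
  have hDI : D.erase i \ I.erase i = D \ I := by
    ext a; by_cases h : a = i <;> simp [h, hiI]
  obtain ⟨C1', hC1', f1, hf1, C2', d1, d2, hdec⟩ := decomp_nr F hS hi hTn
  obtain ⟨W, hW1, hW2⟩ : ∃ W : Sys (ZMod p) ι A, W (I.erase i) = Q ⊔ S I ∧
      ∀ J, J ≠ I.erase i → W J = S (insert i J) :=
    ⟨update (fun J => S (insert i J)) (I.erase i) (Q ⊔ S I), update_self .., fun J h =>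
      update_of_ne h ..⟩
  have hW3 : ∀ J, S (insert i J) ≤ W J := fun J => by
    by_cases h : J = I.erase i
    · rw [h, hW1, insert_erase hiI]; exact le_sup_right
    · rw [hW2 J h]
  obtain ⟨v, hv, hv'⟩ := h0 A F (D.erase i) i W S (C1' ⊔ (S {i} ⊔ C2')) 0 (4 * k) (z + z) hi' hD'
    (by positivity) (fun J _ _ => by
      by_cases h : J = I.erase i
      · rw [h, hW1, insert_erase hiI]
        exact ⟨sup_le hQ (hS _).1, rr_mono (rr_sup hQR (hR I)) hη3 le_rfl le_rfl le_rfl⟩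
      · rw [hW2 J h]
        exact ⟨(hS _).1, rr_mono (hR _) (by linarith) (by linarith) le_rfl le_rfl⟩)
    (fun J => by
      by_cases h : J = I.erase i
      · rw [h, hW1]; linarith [dim_sup Q (S I), le_sz S I]
      · rw [hW2 J h]; linarith [le_sz S (insert i J)])
    (fun J => by linarith [le_sz S J])
    (by linarith [dim_sup C1' (S {i} ⊔ C2'), dim_sup (S {i}) C2', le_sz S {i}])
  simp only [sub_zero] at hv
  obtain ⟨z1, hz1⟩ : ∃ z1, z1 = C0 * (z + z) + ε * (4 * k) := ⟨_, rfl⟩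
  rw [← hz1] at hv'
  have hz1' : 0 ≤ z1 := by rw [hz1]; positivity
  have hsp := rr_sp hθ.le hz1' hW3 hv'
  have hspk : ∀ l, sz (sp F S (D.erase i) i l) ≤ N * k := fun l =>
    (sz_sp F _ _ _ _).trans (by rw [← hN]; gcongr)
  have key : ∀ l, (F.merge I i).Nr (insert i (D \ I)) ((F.merge I i).idl
      (res S (D \ I) ⊔ res (sp F S (D.erase i) i (v l)) (D \ I)) (insert i (D \ I))) T
      (z1 + (C1 * ((1 + N) * δ + (z1 + z)) + ε * ((1 + N) * k))) := by
    intro l
    have hK := fun E hE => hv' l (I.erase i) E hI1 hI2 hE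
    rw [hW1] at hK
    obtain ⟨y, hy, hy'⟩ := h1 A F (D.erase i) (I.erase i) (Q.map (F.ev i (v l)))
      (s0 S (D.erase i) ⊔ sp F S (D.erase i) i (v l)) (F.ev i (v l) T) ((1 + N) * k)
      ((1 + N) * δ) (z1 + z) hD' hI1 hI2 (by positivity)
      (by rintro _ ⟨x, hx, rfl⟩; exact ev_mem F hiI _ (hQ hx))
      (prp_sup F (prp_s0 F hS) (prp_sp F hS hi' _))
      (fun J => rr_mono (rr_sup (rr_mono (hsp l J) le_rfl le_rfl le_rfl
        (le_sup_of_le_left (s0_le S _ J))) (reg_s0 hR hη4 le_rfl (D.erase i) J)) hθ1 le_rfl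
        (sup_comm _ _).le le_rfl)
      (fun E hE => by
        have b1 := hK E hE
        have b2 := dim_inf_sup Q (S I) ((Q ⊔ S I) ⊓ (S (I.erase i) ⊔
          (⨆ l' ∈ univ.erase l, (Q ⊔ S I).map (F.ev i (v l'))) ⊔
          F.idl E (I.erase i)).comap (F.ev i (v l)))
        have b3 := rr_inf hQR
        have b4 : θ * sz E ≤ η1 * sz E := mul_le_mul_of_nonneg_right (by linarith) (sz_nonneg E)
        refine (dim_map_inf _ _ _).trans (le_trans (dim_mono ?_) (b2.trans (by linarith)))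
        rintro q ⟨hq, hq'⟩
        obtain ⟨x, hx, e, he, hq'⟩ := Submodule.mem_sup.1 hq'
        obtain ⟨a, ha, b, hb, rfl⟩ := Submodule.mem_sup.1 hx
        rw [show sp F S (D.erase i) i (v l) (I.erase i) = _ from if_pos ⟨hI1, hI2⟩,
          insert_erase hiI] at hb
        obtain ⟨s, hs, rfl⟩ := hb
        refine ⟨hq, Submodule.mem_sup.2 ⟨s, hs, q - s, ⟨sub_mem (Submodule.mem_sup_left hq)
          (Submodule.mem_sup_right hs), ?_⟩, add_sub_cancel _ _⟩⟩
        rw [SetLike.mem_coe, Submodule.mem_comap, map_sub, ← hq', show a + F.ev i (v l) s + e - F.ev i (v l) s = a + e by ring]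
        exact Submodule.add_mem_sup (Submodule.mem_sup_left (s0_le S _ _ ha)) he)
      ((dim_map _ _).trans (by nlinarith))
      ((sz_sup _ _).trans (by linarith [sz_s0 S (D.erase i), hspk (v l)]))
      (hDI ▸ ev_prod F hiI sdiff_disjoint hQ le_rfl _ hT)
      (by
        have := hdec (v l) (Submodule.dualAnnihilator_anti le_sup_right (hv l))
        rwa [map_sub, ev_zero F hi' hC1' (hS _).1 (fun x hx =>
          (Submodule.mem_dualAnnihilator _).1 (hv l) x (Submodule.mem_sup_left hx)) hf1,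
          sub_zero, ← hN] at this)
    obtain ⟨κ, hκ, hκ'⟩ := unev F hiI (sdiff_disjoint (s := I) (t := D)) hQ (v l)
    rw [hDI] at hy
    refine ⟨F.bw (I.erase i) κ y, ?_, mg_of_smC F hiI hID.subset ?_⟩
    · have e : res S (D \ I) ⊔ res (sp F S (D.erase i) i (v l)) (D \ I) =
          res (S ⊔ sp F S (D.erase i) i (v l)) (D \ I) := by
        funext J
        simp only [res, Pi.sup_apply]
        split_ifs <;> simp
      rw [e, mg_idl_top F hiI]
      have e1 : (F.X (I.erase i)).map κ ≤ F.X I := by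
        rintro _ ⟨x, -, rfl⟩
        exact hκ x
      have e2 : F.idl (s0 S (D.erase i) ⊔ sp F S (D.erase i) i (v l)) (D \ I) ≤
          F.idl (S ⊔ sp F S (D.erase i) i (v l)) (D \ I) :=
        idl_mono F fun J _ => sup_le_sup_right (s0_le S (D.erase i) J) _
      exact (mul_le_mul' e1 e2 :) (bw_prod F κ (disjoint_sdiff.mono_left (erase_subset i I)) le_rfl
        (idl_le_X F (fun J => (prp_sup F (prp_s0 F hS) (prp_sp F hS hi' _) J).1) _) hy)
    · have a1 := smC_single F (inf_le_left.trans hQ) ⟨i, hiI⟩ hID (Or.inl subset_rfl) (hκ' T hT)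
      have a2 := smC_add F a1 (smC_bw F hiI hID.subset (fun x _ => hκ x) hy')
      rw [map_sub, sub_add_sub_cancel] at a2
      refine smC_mono F a2 (add_le_add_left ?_ _)
      have := hK ⊥ (prp_bot F _)
      rw [sz_bot, mul_zero, add_zero] at this
      refine (dim_mono (inf_le_inf le_sup_left fun x hx => ?_)).trans this
      rw [Submodule.mem_comap, LinearMap.mem_ker.1 hx]
      exact zero_mem _
  obtain ⟨y, hy, hy'⟩ := h2 A (F.merge I i) (insert i (D \ I)) (D \ I) (res S (D \ I)) _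
    (fun l => res (sp F S (D.erase i) i (v l)) (D \ I)) T ((1 + N) * k) _ (z1 + z)
    ((card_insert_le _ _).trans (by
      have := card_lt_card hID
      rw [card_sdiff_of_subset hID.subset]; omega)) (by positivity)
    (Nat.lt_succ_of_le (card_le_univ _)) (mg_prp F hiI hS)
    (fun J => by
      by_cases hJ : J ⊆ D \ I
      · exact mg_rr F hiI hJ (rr_mono (hR J) (by linarith) (by linarith) (res_le _ _ _) le_rfl)
      · rw [show res S (D \ I) J = _ from if_neg hJ]
        exact rr_bot hη2.le (by positivity) _ _)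
    ((sz_le (res_le S _)).trans (by nlinarith))
    fun l => ⟨mg_prp F hiI (prp_sp F hS hi' _), (sz_le (res_le _ _)).trans
      (by linarith [hspk (v l)]), fun J hJ => by
        by_contra h
        exact hJ (if_neg h), fun J => by
        by_cases hJ : J ⊆ D \ I
        · exact mg_rr F hiI hJ (rr_mono (hsp l J) hθ2 (by linarith) (res_le _ _ _)
            (sup_le_sup (res_le _ _ _) (iSup₂_mono fun _ _ => res_le _ _ _)))
        · rw [show res (sp F S (D.erase i) i (v l)) (D \ I) J = _ from if_neg hJ]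
          exact rr_bot hη2.le (by positivity) _ _, key l⟩
  rw [mg_idl_top F hiI] at hy
  refine ⟨y, hy, smC_mono F (smC_of_mg F hiI hID.subset hy') ?_⟩
  rw [← hε', hz1]
  have b1 : 0 ≤ C2 * (C1 * (1 + N)) * z := by positivity
  have b2 : 0 ≤ C2 * (4 * C0 + C1 * (2 * C0 + 1) + 1) * δ := by positivity
  nlinarith

end Col

open Col

theorem stCOL (p : ℕ) [Fact p.Prime] (ι : Type) [Fintype ι] [DecidableEq ι] : St_COL p ι := by
  intro d h0 h1 h2 h3
  obtain ⟨C1, hC1, a1⟩ := colOne h0 h2 h3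
  obtain ⟨C2, hC2, a2⟩ := colTwo h0 h1 h2
  refine ⟨C1 + C2 + 1, by positivity, fun η' hη' => ?_⟩
  obtain ⟨η1, hη1, a1⟩ := a1 η' hη'
  obtain ⟨η2, hη2, a2⟩ := a2 η' hη'
  refine ⟨min η1 η2, by positivity,
    fun A _ _ _ F D I Q S T k δ z hD hI hID hz hQ hS hR hQR hQk hSk hT hTn => ?_⟩
  have hδ : 0 ≤ δ := by
    obtain ⟨_, -, E, -, h, -⟩ := hTn
    exact (Col.sz_nonneg E).trans h
  have hk : 0 ≤ η' * k := mul_nonneg hη'.le ((Nat.cast_nonneg _).trans hQk)
  have b1 : 0 ≤ C1 * (δ + z) := by positivity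
  have b2 : 0 ≤ C2 * (δ + z) := by positivity
  by_cases hδk : δ ≤ k
  · by_cases hc : I.card = 1
    · obtain ⟨y, hy, h⟩ := a1 A F D I Q S T k δ z hc hδ hδk hD hID hz hQ hS
        (fun J => rr_mono (hR J) (min_le_left _ _) le_rfl le_rfl le_rfl)
        (rr_mono hQR (min_le_left _ _) le_rfl le_rfl le_rfl) hQk hSk hT hTn
      exact ⟨y, hy, smC_mono F h (by nlinarith)⟩
    · obtain ⟨y, hy, h⟩ := a2 A F D I Q S T k δ z (by have := hI.card_pos; show 2 ≤ _; omega) hδ hδk
        hD hID hz hQ hS (fun J => rr_mono (hR J) (min_le_right _ _) le_rfl le_rfl le_rfl)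
        (rr_mono hQR (min_le_right _ _) le_rfl le_rfl le_rfl) hQk hSk hT hTn
      exact ⟨y, hy, smC_mono F h (by nlinarith)⟩
  · refine ⟨0, zero_mem _, ?_⟩
    rw [sub_zero]
    exact smC_mono F (smC_single F hQ hI hID (Or.inl subset_rfl) hT) (by nlinarith)

end Pool.Agent.Lib.AD
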