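import Pool.Agent.Lib.AD.Blue
import Pool.Agent.Lib.UD.BI1

/-! Block ZP: the vanishing probability. -/

noncomputable section

open Finset Module
open scoped BigOperators

namespace Pool.Agent.Lib.AD

open Pool.Agent.Lib.U4 Pool.Agent.Lib.UD

namespace ZPb

lemma expect_coord {ι V : Type} [Fintype ι] [DecidableEq ι] [Fintype V] [Nonempty V] (i : ι)
    (g : V → (ι → V) → ℝ) (hg : ∀ a b w, g a (Function.update w i b) = g a w) :
    𝔼 w : ι → V, g (w i) w = 𝔼 a, 𝔼 w : ι → V, g a w := by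
  let e : V × (ι → V) ≃ V × (ι → V) :=
    Function.Involutive.toPerm (fun z => (z.2 i, Function.update z.2 i z.1)) fun z => by simp
  calc 𝔼 w : ι → V, g (w i) w = 𝔼 _a : V, 𝔼 w : ι → V, g (w i) w :=
        (Fintype.expect_const _).symm
    _ = 𝔼 z : V × (ι → V), g (z.2 i) z.2 := by
        rw [← expect_product', univ_product_univ]
    _ = 𝔼 z : V × (ι → V), g z.1 z.2 :=
        Fintype.expect_equiv e _ _ fun z => (hg _ _ _).symm
    _ = _ := by rw [← expect_product', univ_product_univ]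

variable {K ι A : Type} [Field K] [DecidableEq ι] [CommRing A] [Algebra K A] (F : Frame K ι A)

lemma evL_update (i : ι) (b : Dual K A) (w : ι → Dual K A) :
    ∀ L : List ι, i ∉ L → F.evL L (Function.update w i b) = F.evL L w
  | [], _ => rfl
  | j :: L, h => by
    rw [List.mem_cons, not_or] at h
    rw [Frame.evL, Frame.evL, evL_update i b w L h.2, Function.update_of_ne (Ne.symm h.1)]

lemma ev_mem [Fintype ι] {i : ι} {J : Finset ι} (hi : i ∈ J) (l : Dual K A) {x : A} (hx : x ∈ F.X J) :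
    F.ev i l x ∈ F.X (J.erase i) ∧
      ∀ J', Disjoint J J' → ∀ y ∈ F.X J', F.ev i l (x * y) = F.ev i l x * y := by
  have e : F.X {i} * F.X (J.erase i) = F.X J := by
    rw [F.X_mul _ _ (by simp), ← insert_eq, insert_erase hi]
  rw [← e] at hx
  refine Submodule.mul_induction_on hx (fun a ha b hb => ?_) fun a b ha hb => ?_
  · rw [F.ev_mul i l (notMem_erase i J) ha hb]
    refine ⟨Submodule.smul_mem _ _ hb, fun J' hJ y hy => ?_⟩
    have h1 : b * y ∈ F.X (J.erase i ∪ J') := by
      rw [← F.X_mul _ _ (hJ.mono_left (erase_subset _ _))]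
      exact Submodule.mul_mem_mul hb hy
    have h2 : i ∉ J.erase i ∪ J' := by
      simp [disjoint_left.1 hJ hi]
    rw [mul_assoc, F.ev_mul i l h2 ha h1, smul_mul_assoc]
  · rw [map_add]
    exact ⟨add_mem ha.1 hb.1, fun J' hJ y hy => by
      rw [add_mul, map_add, ha.2 J' hJ y hy, hb.2 J' hJ y hy, add_mul]⟩

variable [Fintype ι] [Fintype (Dual K A)]

lemma zp_eq (L : List ι) (f : A) : F.zp L f = 𝔼 w : ι → Dual K A, ind (F.evL L w f = 0) := rfl

lemma zp_nonneg (L : List ι) (f : A) : 0 ≤ F.zp L f :=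
  expect_nonneg fun _ _ => BI1.ind_nonneg _

lemma zp_zero (L : List ι) : F.zp L 0 = 1 := by
  simp [zp_eq, ind]

lemma cons (i : ι) (L : List ι) (f : A) (hi : i ∉ L) :
    F.zp (i :: L) f = 𝔼 l, F.zp L (F.ev i l f) :=
  expect_coord i (fun a w => ind (F.evL L w (F.ev i a f) = 0)) fun a b w => by
    rw [evL_update F i b w L hi]

lemma corr (L : List ι) (hL : L.Nodup) : ∀ f g : A,
    F.zp L f * F.zp L g ≤ 𝔼 w : ι → Dual K A, ind (F.evL L w f = 0 ∧ F.evL L w g = 0) := by
  induction L with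
  | nil =>
    intro f g
    simp [zp_eq, Frame.evL, BI1.ind_and]
  | cons i L ih =>
    intro f g
    rw [List.nodup_cons] at hL
    rw [cons F i L f hL.1, cons F i L g hL.1]
    calc (𝔼 a, F.zp L (F.ev i a f)) * (𝔼 b, F.zp L (F.ev i b g))
        = 𝔼 a, 𝔼 b, F.zp L (F.ev i a f) * F.zp L (F.ev i b g) := by
          rw [expect_mul_expect]
      _ ≤ 𝔼 a, 𝔼 b, 𝔼 w : ι → Dual K A,
            ind (F.evL L w (F.ev i a f) = 0 ∧ F.evL L w (F.ev i b g) = 0) :=
          expect_le_expect fun a _ => expect_le_expect fun b _ => ih hL.2 _ _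
      _ = 𝔼 w : ι → Dual K A, (𝔼 a, ind (F.evL L w (F.ev i a f) = 0)) *
            (𝔼 b, ind (F.evL L w (F.ev i b g) = 0)) := by
          simp only [expect_mul_expect, BI1.ind_and]
          exact (expect_congr rfl fun a _ => expect_comm _ _ _).trans (expect_comm _ _ _)
      _ ≤ 𝔼 w : ι → Dual K A, 𝔼 a,
            ind (F.evL L w (F.ev i a f) = 0 ∧ F.evL L w (F.ev i a g) = 0) :=
          expect_le_expect fun w _ =>
            BI1.sub_corr (LinearMap.ker (F.evL L w ∘ₗ (F.ev i).flip f)).toAddSubgroup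
              (LinearMap.ker (F.evL L w ∘ₗ (F.ev i).flip g)).toAddSubgroup
      _ = 𝔼 a, 𝔼 w : ι → Dual K A,
            ind (F.evL L w (F.ev i a f) = 0 ∧ F.evL L w (F.ev i a g) = 0) := expect_comm _ _ _
      _ = _ := (expect_coord i (fun a w =>
            ind (F.evL L w (F.ev i a f) = 0 ∧ F.evL L w (F.ev i a g) = 0)) fun a b w => by
          rw [evL_update F i b w L hL.1]).symm

lemma add (L : List ι) (f g : A) (hL : L.Nodup) : F.zp L f * F.zp L g ≤ F.zp L (f + g) :=
  (corr F L hL f g).trans (expect_le_expect fun w _ => BI1.ind_mono fun h => by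
    rw [map_add, h.1, h.2, add_zero])

lemma zp_sum {α : Type} (L : List ι) (hL : L.Nodup) {c : ℝ} (hc : 0 ≤ c) (g : α → A) (n : α → ℕ)
    (s : Finset α) (h : ∀ a ∈ s, c ^ n a ≤ F.zp L (g a)) :
    c ^ (∑ a ∈ s, n a) ≤ F.zp L (∑ a ∈ s, g a) := by
  classical
  induction s using Finset.induction_on with
  | empty => simp [zp_zero]
  | insert a s ha ih =>
    rw [sum_insert ha, sum_insert ha, pow_add]
    refine le_trans ?_ (add F L _ _ hL)
    exact mul_le_mul (h a (mem_insert_self _ _)) (ih fun b hb => h b (mem_insert_of_mem hb))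
      (by positivity) (zp_nonneg F _ _)

omit [DecidableEq ι] [Fintype ι] in
lemma ker_dens [Fintype K] (x : A) :
    (Fintype.card K : ℝ)⁻¹ ≤ 𝔼 l : Dual K A, ind (l x = 0) := by
  classical
  let φ : Dual K A →+ K := (LinearMap.applyₗ (R := K) x).toAddMonoidHom
  have h1 := φ.ker.card_mul_index
  rw [AddSubgroup.index_ker] at h1
  have h2 : Nat.card φ.range ≤ Fintype.card K := by
    rw [← Nat.card_eq_fintype_card]
    exact Nat.card_le_card_of_injective _ Subtype.val_injective
  have h3 : Nat.card φ.ker = (univ.filter fun l : Dual K A => l x = 0).card := by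
    rw [Nat.card_eq_fintype_card, ← Fintype.card_subtype]
    exact Fintype.card_congr (Equiv.refl _)
  have h4 : Fintype.card (Dual K A) ≤
      (univ.filter fun l : Dual K A => l x = 0).card * Fintype.card K := by
    rw [← Nat.card_eq_fintype_card, ← h1, h3]
    exact Nat.mul_le_mul_left _ h2
  have h5 : (0 : ℝ) < Fintype.card (Dual K A) := by exact_mod_cast Fintype.card_pos
  have h6 : (0 : ℝ) < Fintype.card K := by exact_mod_cast Fintype.card_pos
  rw [Fintype.expect_eq_sum_div_card, le_div_iff₀ h5, inv_mul_le_iff₀ h6]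
  have h7 : ∑ l : Dual K A, ind (l x = 0) =
      ((univ.filter fun l : Dual K A => l x = 0).card : ℝ) := by
    simp [ind]
  rw [h7, mul_comm]
  exact_mod_cast h4

lemma prod [Fintype K] (L : List ι) (hL : L.Nodup) : ∀ (J J' : Finset ι) (x y : A),
    Disjoint J J' → J.Nonempty → (∀ i ∈ J, i ∈ L) → (∀ i ∈ L, i ∈ J ∨ i ∈ J') → x ∈ F.X J →
    y ∈ F.X J' → (Fintype.card K : ℝ)⁻¹ ≤ F.zp L (x * y) := by
  induction L with
  | nil =>
    rintro J J' x y - ⟨i, hi⟩ h -
    exact absurd (h i hi) List.not_mem_nil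
  | cons i L ih =>
    intro J J' x y hd hn h1 h2 hx hy
    rw [List.nodup_cons] at hL
    rw [cons F i L _ hL.1]
    have ne : ∀ a ∈ L, a ≠ i := fun a ha e => hL.1 (e ▸ ha)
    rcases h2 i List.mem_cons_self with hi | hi
    · by_cases hJ : (J.erase i).Nonempty
      · refine le_expect univ_nonempty fun l _ => ?_
        obtain ⟨a1, a2⟩ := ev_mem F hi l hx
        rw [a2 J' hd y hy]
        refine ih hL.2 _ J' _ y (hd.mono_left (erase_subset _ _)) hJ (fun a ha => ?_)
          (fun a ha => ?_) a1 hy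
        · exact (List.mem_cons.1 (h1 a (mem_of_mem_erase ha))).resolve_left (ne_of_mem_erase ha)
        · exact (h2 a (List.mem_cons_of_mem _ ha)).imp_left fun h => mem_erase.2 ⟨ne a ha, h⟩
      · have e : J = {i} := by
          rw [← insert_erase hi, not_nonempty_iff_eq_empty.1 hJ]
          rfl
        subst e
        refine (ker_dens x).trans (expect_le_expect fun l _ => ?_)
        rw [F.ev_mul i l (disjoint_left.1 hd hi) hx hy]
        by_cases h : l x = 0
        · rw [h, zero_smul, zp_zero]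
          simp [ind]
        · rw [ind, if_neg h]
          exact zp_nonneg F _ _
    · refine le_expect univ_nonempty fun l _ => ?_
      obtain ⟨a1, a2⟩ := ev_mem F hi l hy
      rw [mul_comm, a2 J hd.symm x hx, mul_comm]
      refine ih hL.2 J _ x _ (hd.mono_right (erase_subset _ _)) hn (fun a ha => ?_)
        (fun a ha => ?_) hx a1
      · exact (List.mem_cons.1 (h1 a ha)).resolve_left fun e => disjoint_left.1 hd ha (e ▸ hi)
      · exact (h2 a (List.mem_cons_of_mem _ ha)).imp_right fun h => mem_erase.2 ⟨ne a ha, h⟩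

omit [DecidableEq ι] [Fintype ι] [Fintype (Dual K A)] in
lemma mem_mul_basis (S Y : Submodule K A) [Module.Finite K S] {f : A} (hf : f ∈ S * Y) :
    ∃ (x y : Fin (finrank K S) → A), (∀ a, x a ∈ S) ∧ (∀ a, y a ∈ Y) ∧ f = ∑ a, x a * y a := by
  let b := Module.finBasis K S
  suffices h : ∃ y : Fin (finrank K S) → A, (∀ a, y a ∈ Y) ∧ f = ∑ a, (b a : A) * y a by
    obtain ⟨y, h1, h2⟩ := h
    exact ⟨fun a => b a, y, fun a => (b a).2, h1, h2⟩
  refine Submodule.mul_induction_on hf (fun s hs y hy => ?_) ?_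
  · refine ⟨fun a => b.repr ⟨s, hs⟩ a • y, fun a => Y.smul_mem _ hy, ?_⟩
    have := congrArg Subtype.val (b.sum_repr ⟨s, hs⟩)
    simp only [Submodule.coe_sum, Submodule.coe_smul] at this
    refine (congrArg (· * y) this.symm).trans ?_
    beta_reduce
    rw [sum_mul]
    exact sum_congr rfl fun a _ => by rw [smul_mul_assoc, mul_smul_comm]
  · rintro _ _ ⟨y, h1, rfl⟩ ⟨y', h2, rfl⟩
    exact ⟨y + y', fun a => add_mem (h1 a) (h2 a), by simp [mul_add, sum_add_distrib]⟩

lemma sm [Fintype K] [Module.Finite K A] (L : List ι) (j : ι) (f : A) (hL : L.Nodup) (hj : j ∉ L)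
    (E : Sys K ι A) (hE : F.Prp (insert j L.toFinset) E)
    (hf : f ∈ F.idl E (insert j L.toFinset)) :
    (Fintype.card K : ℝ)⁻¹ ^ (∑ J, finrank K (E J)) ≤ F.zp L f := by
  have e : F.idl E (insert j L.toFinset) =
      ⨆ J ∈ (insert j L.toFinset).powerset, E J * F.X (insert j L.toFinset \ J) := by
    simp only [Frame.idl, mem_powerset]
  rw [e, Submodule.mem_iSup_finset_iff_exists_sum] at hf
  obtain ⟨μ, rfl⟩ := hf
  have h0 : (0 : ℝ) ≤ (Fintype.card K : ℝ)⁻¹ := by positivity
  have h1 : (Fintype.card K : ℝ)⁻¹ ≤ 1 :=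
    inv_le_one_of_one_le₀ (by exact_mod_cast Fintype.card_pos)
  refine le_trans (pow_le_pow_of_le_one h0 h1 (sum_le_sum_of_subset (subset_univ _)))
    (zp_sum F L hL h0 _ (fun J => finrank K (E J)) _ fun J _ => ?_)
  by_cases hb : E J = ⊥
  · have : (μ J : A) = 0 := by
      have h : E J * F.X (insert j L.toFinset \ J) = ⊥ := by rw [hb, Submodule.bot_mul]
      exact (Submodule.eq_bot_iff _).1 h _ (μ J).2
    rw [this, zp_zero]
    exact pow_le_one₀ h0 h1
  obtain ⟨hn, hs⟩ := (hE J).2 hb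
  obtain ⟨x, y, hx, hy, e'⟩ := mem_mul_basis _ _ (μ J).2
  rw [e']
  have := zp_sum F L hL h0 (fun a => x a * y a) (fun _ => 1) univ fun a _ => by
    rw [pow_one]
    have cov : ∀ i ∈ L, i ∈ J ∨ i ∈ insert j L.toFinset \ J := fun i hi => by
      by_cases h : i ∈ J
      · exact .inl h
      · exact .inr (mem_sdiff.2 ⟨mem_insert_of_mem (List.mem_toFinset.2 hi), h⟩)
    by_cases hJ : j ∈ J
    · rw [mul_comm]
      refine prod F L hL _ J _ _ sdiff_disjoint (sdiff_nonempty.2 hs.2) (fun i hi => ?_)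
        (fun i hi => (cov i hi).symm) (hy a) ((hE J).1 (hx a))
      obtain ⟨b1, b2⟩ := mem_sdiff.1 hi
      exact List.mem_toFinset.1 ((mem_insert.1 b1).resolve_left fun e => b2 (e ▸ hJ))
    · refine prod F L hL J _ _ _ disjoint_sdiff hn (fun i hi => ?_) cov ((hE J).1 (hx a)) (hy a)
      exact List.mem_toFinset.1 ((mem_insert.1 (hs.1 hi)).resolve_left fun e => hJ (e ▸ hi))
  simpa using this

end ZPb

theorem stZP (p : ℕ) [Fact p.Prime] (ι : Type) [Fintype ι] [DecidableEq ι] : St_ZP p ι := by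
  refine ⟨fun A _ _ _ F i L f hi => ZPb.cons F i L f hi,
    fun A _ _ _ F L f g hL => ZPb.add F L f g hL, fun A _ _ _ _ F L j f r hL hj h => ?_⟩
  obtain ⟨E, h1, h2, h3⟩ := h
  have : Module.Finite (ZMod p) A := Module.Finite.of_finite
  refine le_trans ?_ (ZPb.sm F L j f hL hj E h1 h3)
  have hp : (1 : ℝ) ≤ p := by exact_mod_cast (Fact.out : p.Prime).one_le
  rw [ZMod.card, inv_pow, ← Real.rpow_natCast, ← Real.rpow_neg (by positivity)]
  refine Real.rpow_le_rpow_of_exponent_le hp (neg_le_neg ?_)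
  rw [Nat.cast_sum]
  exact h2

end Pool.Agent.Lib.AD
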