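import Pool.Agent.Lib.AD.LIN
import Pool.Agent.Lib.AD.ZP

/-! Block EVAL: evaluation at a random point of a coset keeps regularity. -/

noncomputable section

open Finset Module
open scoped BigOperators Classical

namespace Pool.Agent.Lib.AD

namespace EVb

variable {p : ℕ} [Fact p.Prime]

lemma card_eq (V : Type) [AddCommGroup V] [Module (ZMod p) V] [Fintype V] :
    (Fintype.card V : ℝ) = (p : ℝ) ^ (finrank (ZMod p) V : ℝ) := by
  rw [Module.card_eq_pow_finrank (K := ZMod p) (V := V), ZMod.card, Real.rpow_natCast]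
  push_cast
  rfl

lemma one_le_p : (1 : ℝ) ≤ p := by exact_mod_cast (Fact.out : p.Prime).one_le

lemma card_le (V : Type) [AddCommGroup V] [Module (ZMod p) V] [Fintype V] {k : ℝ}
    (h : (finrank (ZMod p) V : ℝ) ≤ k) : (Fintype.card V : ℝ) ≤ (p : ℝ) ^ k := by
  rw [card_eq (p := p) V]
  exact Real.rpow_le_rpow_of_exponent_le one_le_p h

variable {ι : Type} [Fintype ι] [DecidableEq ι]

/-- A form whose evaluations are often near `B` has a large vanishing probability. -/
lemma pop (hZ : ZP p ι) {A : Type} [CommRing A] [Algebra (ZMod p) A] [Finite A]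
    [Fintype (Dual (ZMod p) A)] (F : Frame (ZMod p) ι A) (L : List ι) (i j : ι) (hL : L.Nodup)
    (hi : i ∉ L) (hj : j ∉ L) (B : Submodule (ZMod p) A) [Fintype B]
    (U : Submodule (ZMod p) (Dual (ZMod p) A)) (l0 : Dual (ZMod p) A) (x : A) (r : ℝ)
    (S : Finset U) (hS : ∀ u ∈ S, F.Nr (insert j L.toFinset) B (F.ev i (l0 + u) x) r) :
    (S.card : ℝ) * (p : ℝ) ^ (-(r + r)) ≤
      Fintype.card B * Fintype.card (Dual (ZMod p) A) * F.zp (i :: L) x := by
  have : Module.Finite (ZMod p) A := Module.Finite.of_finite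
  choose! b hb hs using hS
  let b' : U → B := fun u => if h : u ∈ S then ⟨b u, hb u h⟩ else 0
  have hb' : ∀ u ∈ S, (b' u : A) = b u := fun u hu => by simp only [b', dif_pos hu]
  have hp0 : (0 : ℝ) ≤ (p : ℝ) ^ (-(r + r)) := by positivity
  have hN : (0 : ℝ) < Fintype.card (Dual (ZMod p) A) := by exact_mod_cast Fintype.card_pos
  have key : ∀ c : B, ((S.filter fun u => b' u = c).card : ℝ) * (p : ℝ) ^ (-(r + r)) ≤
      Fintype.card (Dual (ZMod p) A) * F.zp (i :: L) x := by
    intro c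
    rcases (S.filter fun u => b' u = c).eq_empty_or_nonempty with h | ⟨u0, h0⟩
    · rw [h, card_empty, Nat.cast_zero, zero_mul]
      exact mul_nonneg hN.le (ZPb.zp_nonneg F _ _)
    rw [hZ.cons A F i L x hi, Fintype.expect_eq_sum_div_card, mul_div_cancel₀ _ hN.ne']
    let φ : U ↪ Dual (ZMod p) A := ⟨fun u => (u : Dual (ZMod p) A) - u0, fun u v h =>
      Subtype.ext (sub_left_injective h)⟩
    calc ((S.filter fun u => b' u = c).card : ℝ) * (p : ℝ) ^ (-(r + r))
        = ∑ _u ∈ S.filter fun u => b' u = c, (p : ℝ) ^ (-(r + r)) := by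
          rw [sum_const, nsmul_eq_mul]
      _ ≤ ∑ u ∈ S.filter fun u => b' u = c, F.zp L (F.ev i (φ u) x) := by
          refine sum_le_sum fun u hu => hZ.sm A F L j _ _ hL hj ?_
          obtain ⟨a1, a2⟩ := mem_filter.1 hu
          obtain ⟨a3, a4⟩ := mem_filter.1 h0
          have e : b u = b u0 := by rw [← hb' u a1, ← hb' u0 a3, a2, a4]
          have e2 : F.ev i (φ u) x =
              (F.ev i (l0 + u) x - b u) - (F.ev i (l0 + u0) x - b u0) := by
            have : φ u = (l0 + u) - (l0 + u0) := by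
              show (u : Dual (ZMod p) A) - u0 = _
              abel
            rw [this, map_sub, LinearMap.sub_apply, e]
            abel
          rw [e2]
          exact (hs u a1).sub (hs u0 a3)
      _ = ∑ l ∈ (S.filter fun u => b' u = c).map φ, F.zp L (F.ev i l x) := by rw [sum_map]
      _ ≤ _ := sum_le_sum_of_subset_of_nonneg (subset_univ _) fun l _ _ => ZPb.zp_nonneg F _ _
  rw [card_eq_sum_card_fiberwise (f := b') (t := univ) (fun _ _ => mem_coe.2 (mem_univ _)),
    Nat.cast_sum, sum_mul, mul_assoc]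
  exact (sum_le_card_nsmul _ _ _ fun c _ => key c).trans (by simp)

/-- Union bound over the unpopular elements. -/
lemma few {U W : Type} [Fintype U] [Fintype W] (R : U → W → Prop) (t : ℝ) (ht : 0 ≤ t) :
    ((univ.filter fun u => ∃ x, R u x ∧ ((univ.filter fun v => R v x).card : ℝ) < t).card : ℝ) ≤
      Fintype.card W * t := by
  have h : (univ.filter fun u => ∃ x, R u x ∧ ((univ.filter fun v => R v x).card : ℝ) < t) ⊆
      (univ.filter fun x => ((univ.filter fun v => R v x).card : ℝ) < t).biUnion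
        fun x => univ.filter fun v => R v x := by
    intro u hu
    obtain ⟨x, h1, h2⟩ := (mem_filter.1 hu).2
    exact mem_biUnion.2 ⟨x, mem_filter.2 ⟨mem_univ _, h2⟩, mem_filter.2 ⟨mem_univ _, h1⟩⟩
  have h1 := (card_le_card h).trans card_biUnion_le
  refine le_trans (Nat.cast_le.2 h1) ?_
  rw [Nat.cast_sum]
  refine (sum_le_card_nsmul _ _ t fun x hx => (mem_filter.1 hx).2.le).trans ?_
  rw [nsmul_eq_mul]
  exact mul_le_mul_of_nonneg_right (by exact_mod_cast card_le_univ _) ht

omit [Fintype ι] in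
lemma slots {J : Finset ι} {i j : ι} (hi : i ∉ J) (hj : j ∈ J) : ∃ L : List ι, L.Nodup ∧ i ∉ L ∧
    j ∉ L ∧ insert j L.toFinset = J ∧ L.length + 1 = J.card := by
  refine ⟨(J.erase j).toList, nodup_toList _, fun h => hi (mem_of_mem_erase (mem_toList.1 h)),
    fun h => notMem_erase j J (mem_toList.1 h), by rw [toList_toFinset, insert_erase hj], ?_⟩
  rw [length_toList, card_erase_add_one hj]

lemma log_le {η1 c k : ℝ} (h1 : 0 < η1) (hk : 1 ≤ k) :
    Real.log (1 / (η1 * (p : ℝ) ^ (-(c * k)))) + 1 ≤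
      (|Real.log η1| + 1 + c * Real.log p) * k := by
  have hp : (0 : ℝ) < p := lt_of_lt_of_le one_pos one_le_p
  rw [one_div, Real.log_inv, Real.log_mul h1.ne' (by positivity), Real.log_rpow hp]
  have a1 := neg_abs_le (Real.log η1)
  have a2 := abs_nonneg (Real.log η1)
  nlinarith

end EVb

open EVb in
theorem stEVAL (p : ℕ) [Fact p.Prime] (ι : Type) [Fintype ι] [DecidableEq ι] : St_EVAL p ι := by
  rintro hZ d ⟨C1, hC1, hP⟩ hE η'' η' h'' h'
  obtain ⟨C2, hC2, hL⟩ := stLIN p ι d hE
  have hp1 : (1 : ℝ) ≤ p := one_le_p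
  have hp : (0 : ℝ) < p := lt_of_lt_of_le one_pos hp1
  have hlog : 0 ≤ Real.log p := Real.log_nonneg hp1
  set η1 : ℝ := η' / 2 with hη1
  have h1 : 0 < η1 := by positivity
  set c : ℝ := 3 + 2 / η'' with hc
  have hc0 : 0 ≤ c := by positivity
  set M : ℝ := C2 * (C1 * (|Real.log η1| + 1 + c * Real.log p)) with hM
  have hM0 : 0 ≤ M := by positivity
  refine ⟨η1 / (M + 1), by positivity,
    fun A _ _ _ F J i W B U _ l0 k z hi ⟨j, hj⟩ hd hz hW hR hWk hBk hU => ?_⟩
  have : Module.Finite (ZMod p) A := Module.Finite.of_finite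
  have : Finite (Dual (ZMod p) A) := Module.finite_of_finite (ZMod p)
  let _ : Fintype (Dual (ZMod p) A) := Fintype.ofFinite _
  let _ : Fintype W := Fintype.ofFinite _
  let _ : Fintype B := Fintype.ofFinite _
  have hk0 : 0 ≤ k := (Nat.cast_nonneg _).trans hWk
  by_cases hW0 : W = ⊥
  · refine ⟨0, fun _ => le_rfl, by simpa using by positivity, fun u E _ => ?_⟩
    rw [hW0, bot_inf_eq, finrank_bot, Nat.cast_zero]
    have := sz_nonneg E
    simpa using by positivity
  have hk : 1 ≤ k := by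
    refine le_trans ?_ hWk
    have : finrank (ZMod p) W ≠ 0 := fun h => hW0 (Submodule.finrank_eq_zero.1 h)
    exact_mod_cast Nat.one_le_iff_ne_zero.2 this
  let Kf : U → Sys (ZMod p) ι A → Submodule (ZMod p) A := fun u E =>
    W ⊓ (B ⊔ F.idl E J).comap (F.ev i (l0 + u))
  have hKW : ∀ u E, (finrank (ZMod p) (Kf u E) : ℝ) ≤ k := fun u E =>
    le_trans (by exact_mod_cast Submodule.finrank_mono inf_le_left) hWk
  have hmax : ∀ u : U, ∃ E, F.Prp J E ∧ ∀ E', F.Prp J E' →
      (finrank (ZMod p) (Kf u E') : ℝ) - η'' * sz E' ≤ finrank (ZMod p) (Kf u E) - η'' * sz E :=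
    fun u => Set.exists_max_image {E | F.Prp J E}
      (fun E => (finrank (ZMod p) (Kf u E) : ℝ) - η'' * sz E) (Set.toFinite _)
      ⟨⊥, Frame.prp_bot J⟩
  choose E hE1 hE2 using hmax
  have hz0 : ∀ u, 0 ≤ (finrank (ZMod p) (Kf u (E u)) : ℝ) - η'' * sz (E u) := fun u => by
    refine le_trans ?_ (hE2 u ⊥ (Frame.prp_bot J))
    rw [sz_bot, mul_zero, sub_zero]
    exact Nat.cast_nonneg _
  have hsz : ∀ u, sz (E u) ≤ k / η'' := fun u => by
    rw [le_div_iff₀ h'']
    linarith [hz0 u, hKW u (E u)]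
  refine ⟨fun u => finrank (ZMod p) (Kf u (E u)) - η'' * sz (E u), hz0, ?_, fun u E' hE' => by
    linarith [hE2 u E' hE']⟩
  obtain ⟨L, hLn, hiL, hjL, hLJ, hlen⟩ := slots hi hj
  have hcW : (0 : ℝ) < Fintype.card W := by exact_mod_cast Fintype.card_pos
  have hcU : (0 : ℝ) < Fintype.card U := by exact_mod_cast Fintype.card_pos
  set t : ℝ := η1 * Fintype.card U / Fintype.card W with ht
  have hD : insert j (i :: L).toFinset = insert i J := by
    rw [List.toFinset_cons, insert_comm, hLJ]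
  have hpop : ∀ x : W, t ≤ ((univ.filter fun v : U => (x : A) ∈ Kf v (E v)).card : ℝ) →
      F.Sm (insert i J) (x : A) (C1 * (|Real.log η1| + 1 + c * Real.log p) * k) := by
    intro x hx
    have b1 := pop hZ F L i j hLn hiL hjL B U l0 (x : A) (k / η'')
      (univ.filter fun v : U => (x : A) ∈ Kf v (E v)) fun u hu => by
        obtain ⟨y, hy, w, hw, e⟩ := Submodule.mem_sup.1 (mem_filter.1 hu).2.2
        refine ⟨y, hy, ?_⟩
        rw [hLJ, ← e, add_sub_cancel_left]
        exact (Frame.sm_of_idl (hE1 u) hw).mono (hsz u)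
    have b2 : η1 * (p : ℝ) ^ (-(c * k)) ≤ F.zp (i :: L) (x : A) := by
      have c1 := card_le (p := p) W hWk
      have c2 := card_le (p := p) B hBk
      have c3 : (Fintype.card (Dual (ZMod p) A) : ℝ) ≤ Fintype.card U * (p : ℝ) ^ k := by
        rw [card_eq (p := p) U, ← Real.rpow_add hp]
        exact card_le _ hU
      have c4 := ZPb.zp_nonneg F (i :: L) (x : A)
      have c5 : (0 : ℝ) < (p : ℝ) ^ k := by positivity
      have c6 : η1 * Fintype.card U ≤
          ((univ.filter fun v : U => (x : A) ∈ Kf v (E v)).card : ℝ) * (p : ℝ) ^ k := by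
        rw [ht, div_le_iff₀ hcW] at hx
        exact hx.trans (mul_le_mul_of_nonneg_left c1 (Nat.cast_nonneg _))
      have c7 : (Fintype.card B : ℝ) * Fintype.card (Dual (ZMod p) A) * F.zp (i :: L) (x : A) ≤
          (p : ℝ) ^ k * (Fintype.card U * (p : ℝ) ^ k) * F.zp (i :: L) (x : A) := by gcongr
      have c8 : (p : ℝ) ^ (-(k / η'' + k / η'')) =
          (p : ℝ) ^ (-(c * k)) * ((p : ℝ) ^ k * (p : ℝ) ^ k * (p : ℝ) ^ k) := by
        rw [← Real.rpow_add hp, ← Real.rpow_add hp, ← Real.rpow_add hp, hc]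
        congr 1
        ring
      have c9 : (0 : ℝ) ≤ (p : ℝ) ^ (-(k / η'' + k / η'')) := by positivity
      have c10 := mul_le_mul_of_nonneg_right c6 c9
      have c11 := mul_le_mul_of_nonneg_right (b1.trans c7) c5.le
      have c12 : 0 < Fintype.card U * ((p : ℝ) ^ k * (p : ℝ) ^ k * (p : ℝ) ^ k) := by positivity
      refine le_of_mul_le_mul_right ?_ c12
      calc η1 * (p : ℝ) ^ (-(c * k)) * (Fintype.card U * ((p : ℝ) ^ k * (p : ℝ) ^ k * (p : ℝ) ^ k))
          = η1 * Fintype.card U * (p : ℝ) ^ (-(k / η'' + k / η'')) := by rw [c8]; ring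
        _ ≤ _ := c10
        _ = _ := by ring
        _ ≤ _ := c11
        _ = _ := by ring
    have b3 := hP A F (i :: L) j x _ (List.nodup_cons.2 ⟨hiL, hLn⟩)
      (fun h => (List.mem_cons.1 h).elim (fun e => hi (e ▸ hj)) hjL)
      (by rw [List.length_cons]; omega) (by rw [hD]; exact hW x.2) (by positivity) b2
    rw [hD] at b3
    refine b3.mono ?_
    rw [mul_assoc]
    exact mul_le_mul_of_nonneg_left (log_le h1 hk) hC1
  set Bad := univ.filter fun u : U => ∃ x : W, (x : A) ∈ Kf u (E u) ∧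
    ((univ.filter fun v : U => (x : A) ∈ Kf v (E v)).card : ℝ) < t with hBad
  have hfew : (Bad.card : ℝ) ≤ η1 * Fintype.card U := by
    refine (few (fun (u : U) (x : W) => (x : A) ∈ Kf u (E u)) t (by positivity)).trans ?_
    rw [ht, mul_div_cancel₀ _ hcW.ne']
  have hgood : ∀ u, u ∉ Bad → (finrank (ZMod p) (Kf u (E u)) : ℝ) ≤ z + η1 * k := by
    intro u hu
    let _ : Fintype (Kf u (E u)) := Fintype.ofFinite _
    obtain ⟨S0, a1, a2, a3⟩ := hL A F (insert i J) (Kf u (E u))
      (Kf u (E u)).subtype.toAddMonoidHom (C1 * (|Real.log η1| + 1 + c * Real.log p) * k)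
      (by rw [card_insert_of_notMem hi]; exact hd)
      ⟨fun _ => _, fun g => hpop ⟨g, g.2.1⟩ (not_lt.1 fun h =>
        hu (mem_filter.2 ⟨mem_univ _, ⟨g, g.2.1⟩, g.2, h⟩)), by rw [Fintype.expect_const]⟩
    have a4 := hR S0 a1
    have a5 : (finrank (ZMod p) (Kf u (E u)) : ℝ) ≤
        finrank (ZMod p) (W ⊓ (⊥ ⊔ F.idl S0 (insert i J)) : Submodule (ZMod p) A) := by
      have : Kf u (E u) ≤ W ⊓ (⊥ ⊔ F.idl S0 (insert i J)) := fun g hg =>
        ⟨hg.1, Submodule.mem_sup_right (a3 ⟨g, hg⟩)⟩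
      exact_mod_cast Submodule.finrank_mono this
    have a6 : sz S0 ≤ (M + 1) * k := by
      refine a2.trans ?_
      rw [hM]
      nlinarith
    have a7 : η1 / (M + 1) * sz S0 ≤ η1 * k := by
      calc η1 / (M + 1) * sz S0 ≤ η1 / (M + 1) * ((M + 1) * k) := by gcongr
        _ = η1 * k := by field_simp
    linarith
  rw [Fintype.expect_eq_sum_div_card, div_le_iff₀ hcU]
  calc ∑ u : U, ((finrank (ZMod p) (Kf u (E u)) : ℝ) - η'' * sz (E u))
      ≤ ∑ u : U, (z + η1 * k + if u ∈ Bad then k else 0) := by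
        refine sum_le_sum fun u _ => ?_
        have a1 := mul_nonneg h''.le (sz_nonneg (E u))
        have a2 := mul_nonneg h1.le hk0
        split_ifs with hu
        · linarith [hKW u (E u)]
        · linarith [hgood u hu]
    _ = Fintype.card U * (z + η1 * k) + Bad.card * k := by
        rw [sum_add_distrib, sum_const, card_univ, nsmul_eq_mul, sum_ite_mem, univ_inter,
          sum_const, nsmul_eq_mul]
    _ ≤ (z + η' * k) * Fintype.card U := by
        have := mul_le_mul_of_nonneg_right hfew hk0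
        have e : η' = 2 * η1 := by rw [hη1]; ring
        rw [e]
        nlinarith

end Pool.Agent.Lib.AD
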