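import Pool.Agent.Lib.AD.EngH

/-!
The zigzag and the engine in all degrees.
-/

noncomputable section

open Finset Module
open scoped BigOperators

namespace Pool.Agent.Lib.AD

def EP (F : Type) [Field F] (n : ℕ) (k δ k' δ' : ℝ) : Prop :=
  ∀ (X R L N : Type) [AddCommGroup X] [Module F X] [AddCommGroup R] [Module F R]
    [FiniteDimensional F R] [AddCommMonoid L] [AddCommMonoid N] (c : Eng F X R L N)
    (G : Type) [AddCommGroup G] [Fintype G] (SL SR : Set (AddSubgroup G)) (T : Cube n G → X),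
    SL.Nonempty → SR.Nonempty → c.Bd T k →
    c.Null (cub (n + 1) SL) (cub (n + 1) SR) (cd n T) k δ →
    ∃ b : Cube n.pred G → X, c.Bd b k' ∧ c.Null (cub n SL) (cub n SR) (T - cD n b) k' δ'

def ZZ (F : Type) [Field F] (m n : ℕ) (k δ k' δ' : ℝ) : Prop :=
  ∀ (X R L N : Type) [AddCommGroup X] [Module F X] [AddCommGroup R] [Module F R]
    [FiniteDimensional F R] [AddCommMonoid L] [AddCommMonoid N] (c : Eng F X R L N)
    (G : Type) [AddCommGroup G] [Fintype G] (SL SR : Set (AddSubgroup G))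
    (u : Cube m (Col (n + 1) G) → X), SL.Nonempty → SR.Nonempty → c.Bd u k →
    c.Null (cub (m + 1) (col 0 SL (n + 1))) (cub (m + 1) (col (AddMonoidHom.id G) SR (n + 1)))
      (cd m u) k δ →
    c.Null (cub m (col 0 SL (n + 2))) (cub m (col (AddMonoidHom.id G) SR (n + 2)))
      (dc m (n + 1) u) k δ →
    ∃ a : Cube m.pred (Col (n + 1) G) → X, c.Bd a k' ∧
      c.Null (cub m (col 0 SL (n + 1))) (cub m (col (AddMonoidHom.id G) SR (n + 1)))
        (u - cD m a) k' δ' ∧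
      c.Null (cub m.pred (col 0 SL (n + 2))) (cub m.pred (col (AddMonoidHom.id G) SR (n + 2)))
        (dc m.pred (n + 1) a) k' δ'

lemma mono_ep (F : Type) [Field F] (n : ℕ) : MonoOut (EP F n) := by
  intro k δ k' δ' k'' δ'' h h1 h2 X R L N _ _ _ _ _ _ _ c G _ _ SL SR T a1 a2 a3 a4
  obtain ⟨a, h3, h4⟩ := h X R L N c G SL SR T a1 a2 a3 a4
  exact ⟨a, h3.mono h1, h4.mono h1 h2⟩

lemma mono_zz (F : Type) [Field F] (m n : ℕ) : MonoOut (ZZ F m n) := by
  intro k δ k' δ' k'' δ'' h h1 h2 X R L N _ _ _ _ _ _ _ c G _ _ SL SR T a1 a2 a3 a4 a5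
  obtain ⟨a, h3, h4, h5⟩ := h X R L N c G SL SR T a1 a2 a3 a4 a5
  exact ⟨a, h3.mono h1, h4.mono h1 h2, h5.mono h1 h2⟩

lemma col_ne {G : Type} [AddCommGroup G] (e : G →+ G) {S : Set (AddSubgroup G)} (h : S.Nonempty)
    (n : ℕ) : (col e S n).Nonempty := ⟨_, h.some, h.some_mem, none, rfl⟩

/-- The homotopy formula in column zero. -/
lemma homot {F X R L N : Type} [Field F] [AddCommGroup X] [Module F X] [AddCommGroup R]
    [Module F R] [AddCommMonoid L] [AddCommMonoid N] {c : Eng F X R L N} {G : Type}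
    [AddCommGroup G] [Fintype G] {SL SR : Set (AddSubgroup G)} (hL : SL.Nonempty)
    (hR : SR.Nonempty) {n : ℕ} {T : Cube n G → X} {k δ : ℝ} (hk : 0 ≤ k) (hT : c.Bd T k)
    (h : c.Null (cub (n + 1) SL) (cub (n + 1) SR) (cd n T) k δ) :
    ∃ b : Cube n.pred (Col 1 G) → X, c.Bd b k ∧
      c.Null (cub n (col 0 SL 1)) (cub n (col (AddMonoidHom.id G) SR 1))
        (dc n 0 (fun q => T (cmap n (AddMonoidHom.fst _ _) q)) - cD n b) (3 * k) δ := by
  let p1 : Col 1 G →+ G := AddMonoidHom.mk' (fun z => z.2 0) fun _ _ => rfl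
  let p2 : Col 1 G →+ G := AddMonoidHom.mk' (fun z => z.1 - z.2 0) fun _ _ => by simp; abel
  have s1 : Function.Surjective p1 := fun y => ⟨(0, fun _ => y), rfl⟩
  have s2 : Function.Surjective p2 := fun y => ⟨(y, 0), by simp [p2]⟩
  have s3 : Function.Surjective (p1.prod p2) := fun y =>
    ⟨(y.1 + y.2, fun _ => y.1), by simp [p1, p2]⟩
  obtain ⟨b, hb, e⟩ : ∃ b : Cube n.pred (G × G) → X, c.Bd b k ∧
      ∀ y, cr n T y = cd n T (glue n y) + cD n b y := by
    cases n with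
    | zero => exact ⟨0, Eng.Bd.zero hk, fun y => by rw [cd_zero_glue]; exact (add_zero _).symm⟩
    | succ m =>
      refine ⟨fun y => T (glue m y), hT.pull (glue (G := G) m).toAddMonoidHom
        (glue (G := G) m).surjective,
        fun y => ?_⟩
      rw [cd_succ_glue]; exact (sub_add_cancel _ _).symm
  refine ⟨_, hb.pull _ (cmap_surj _ s3), ?_⟩
  have hg : ∀ (e : G →+ G) (S : Set (AddSubgroup G)), (∀ K : AddSubgroup G, ∀ x ∈ K, e x ∈ K) →
      ∀ K ∈ cub (n + 1) S, ∃ K' ∈ cub n (col e S 1), ∀ κ ∈ K',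
      ((glue n).toAddMonoidHom.comp (cmap n (p1.prod p2))) κ ∈ K := by
    rintro e S he K ⟨K0, h0, hK⟩
    refine ⟨_, cubK_mem n ⟨K0, h0, some 0, rfl⟩, fun κ hκ => (hK _).2 ?_⟩
    rintro ⟨w, v⟩
    obtain ⟨g1, g2⟩ := mem_cubK.1 hκ v
    have g3 : (κ v).2 0 ∈ K0 := by rw [g2 0 rfl]; exact he _ _ g1
    cases w
    · exact g3
    · exact sub_mem g1 g3
  have n1 := h.pull _ ((glue n).surjective.comp (cmap_surj n s3))
    (hg 0 SL fun K _ _ => zero_mem K) (hg (AddMonoidHom.id G) SR fun _ _ hx => hx)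
  have n2 := hT.nullL (SL' := cub n (col 0 SL 1)) (SR' := cub n (col (AddMonoidHom.id G) SR 1)) hk
    _ (cmap_surj n s1) ⟨_, cubK_mem n ⟨_, hL.some_mem, some 0, rfl⟩, fun κ hκ =>
      funext fun v => (mem_cubK.1 hκ v).2 0 rfl⟩
  have n3 := hT.nullR (SL' := cub n (col 0 SL 1)) (SR' := cub n (col (AddMonoidHom.id G) SR 1)) hk
    _ (cmap_surj n s2) ⟨_, cubK_mem n ⟨_, hR.some_mem, some 0, rfl⟩, fun κ hκ =>
      funext fun v => sub_eq_zero.2 ((mem_cubK.1 hκ v).2 0 rfl).symm⟩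
  refine Eng.Null.mono ?_ (show k + k + k ≤ _ by linarith) (show δ + 0 + 0 ≤ _ by linarith)
  convert (n1.add n2).add n3 using 1
  rw [cD_cmap]
  funext q
  have e1 := e (cmap n (p1.prod p2) q)
  have e2 : cmap n (AddMonoidHom.fst G G + AddMonoidHom.snd G G) (cmap n (p1.prod p2) q) =
      cmap n (AddMonoidHom.fst _ _) (cmap n (om 0 0) q) := by
    funext v; simp [p1, p2, om]
  unfold cr at e1
  rw [e2] at e1
  simp only [Pi.sub_apply, Pi.add_apply, dc_apply, Fin.sum_univ_succ, Fin.val_zero, pow_zero,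
    one_smul, Fin.sum_univ_zero, add_zero]
  rw [sub_sub, sub_eq_iff_eq_add] at e1
  rw [e1, add_right_comm, add_sub_cancel_right, add_assoc]
  rfl

variable (F : Type) [Field F]

lemma ep_zero : Lin (EP F 0) := by
  refine ((lin_row0 F).stage (a := 3) (by norm_num) (mono_row0 F) (lin_fin zero_le_one)
    (mono_fin _)).imp ?_
  rintro k δ k' δ' hk hδ ⟨k1, δ1, l1, -, h, f1, f2⟩ X R L N _ _ _ _ _ _ _ c G _ _ SL SR T hL hR hT
    hd
  obtain ⟨b, -, hb⟩ := homot hL hR hk hT hd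
  rw [show cD 0 b = 0 from rfl, sub_zero] at hb
  refine ⟨0, Eng.Bd.zero (by linarith), ?_⟩
  rw [show cD 0 (0 : Cube (Nat.pred 0) G → X) = 0 from rfl, sub_zero]
  exact (Eng.row0c h (hb.mono le_rfl (by linarith))).mono (by linarith) (by linarith)

lemma zz_zero (n : ℕ) : Lin (ZZ F 0 n) := by
  refine ((ep_zero F).stage (a := 1) (by norm_num) (mono_ep F 0) (lin_fin zero_le_one)
    (mono_fin _)).imp ?_
  rintro k δ k' δ' hk hδ ⟨k1, δ1, l1, l2, h, f1, f2⟩ X R L N _ _ _ _ _ _ _ c G _ _ SL SR u hL hR hu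
    hd -
  obtain ⟨b, -, hb⟩ := h X R L N c _ _ _ u (col_ne _ hL _) (col_ne _ hR _) (hu.mono (by linarith))
    (hd.mono (by linarith) (by linarith))
  refine ⟨0, Eng.Bd.zero (by linarith), hb.mono (by linarith) (by linarith), ?_⟩
  rw [dc_zero]; exact Eng.Null.zero (by linarith) (by linarith)

lemma zz_succ (m n : ℕ) (h1 : Lin (EP F (m + 1))) (h2 : Lin (ZZ F m (n + 1))) :
    Lin (ZZ F (m + 1) n) := by
  have h4 := (lin_row F (n + 1)).stage (a := 1) (by norm_num) (mono_row F _)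
    (lin_fin (a := 3 * m + 1) (by positivity)) (mono_fin _)
  have h3 := h2.stage (a := n + 3) (by positivity) (mono_zz F _ _) h4 (mono_stage _ _ (mono_fin _))
  refine (h1.stage (a := 1) (by norm_num) (mono_ep F _) h3
    (mono_stage _ _ (mono_stage _ _ (mono_fin _)))).imp ?_
  rintro k δ k' δ' hk hδ ⟨k1, δ1, l1, l1', e1, k2, δ2, l2, l2', e2, k3, δ3, l3, l3', e3, f1, f2⟩
    X R L N _ _ _ _ _ _ _ c G _ _ SL SR u hL hR hu hd hδu
  have p1 : (0 : ℝ) ≤ n * k1 := by have := hk.trans l1; positivity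
  have p2 : (0 : ℝ) ≤ n * δ1 := by have := hδ.trans l1'; positivity
  have p3 : (0 : ℝ) ≤ m * k3 := by have := ((hk.trans l1).trans l2).trans l3; positivity
  have p4 : (0 : ℝ) ≤ m * δ3 := by have := ((hδ.trans l1').trans l2').trans l3'; positivity
  obtain ⟨b, b1, b2⟩ : ∃ b : Cube m (Col (n + 1) G) → X, c.Bd b k1 ∧
      c.Null (cub (m + 1) (col 0 SL (n + 1))) (cub (m + 1) (col (AddMonoidHom.id G) SR (n + 1)))
        (u - cd m b) k1 δ1 := e1 X R L N c _ _ _ u (col_ne _ hL _) (col_ne _ hR _)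
    (hu.mono (by linarith)) (hd.mono (by linarith) (by linarith))
  obtain ⟨a', a1, a2, a3⟩ := e2 X R L N c G SL SR (dc m (n + 1) b) hL hR
    (b1.dc.mono (by push_cast; linarith)) (by
      have := (hδu.sub b2.dc).mono (k' := (n + 3) * k1) (δ' := (n + 3) * δ1)
        (by push_cast; linarith) (by push_cast; linarith)
      rw [dc_sub, sub_sub_cancel] at this
      rw [cd_dc]; exact this) (by rw [dc_dc]; exact Eng.Null.zero (by linarith) (by linarith))
  obtain ⟨a'', c1, c2⟩ := Eng.rowc e3 (a1.mono (by linarith)) (a3.mono (by linarith) (by linarith))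
  refine ⟨(b - cD m a'' : Cube m _ → X), (b1.sub c1.cD).mono (by linarith), ?_, ?_⟩
  · rw [show cD (m + 1) (b - cD m a'' : Cube m _ → X) = cd m (b - cD m a'') from rfl, cd_sub,
      cd_cD, sub_zero]
    exact b2.mono (by linarith) (by linarith)
  · have := (a2.add c2.cD).mono (k' := k') (δ' := δ') (by linarith) (by linarith)
    rw [cD_sub, cD_dc, sub_add_sub_cancel] at this
    exact (dc_sub m (n + 1) b _) ▸ this

lemma ep_succ (n : ℕ) (h2 : Lin (ZZ F n 1)) : Lin (EP F (n + 1)) := by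
  have h6 := (lin_row0 F).stage (a := 3 * n + 6) (by positivity) (mono_row0 F)
    (lin_fin zero_le_one) (mono_fin _)
  have m6 := mono_stage (3 * n + 6) (Row0 F) (mono_fin 1)
  have h5 := (lin_row F 0).stage (a := 3 * n + 1) (by positivity) (mono_row F _) h6 m6
  have m5 := mono_stage (3 * n + 1) (Row F 0) m6
  have h4 := (lin_row F 1).stage (a := 1) (by norm_num) (mono_row F _) h5 m5
  have m4 := mono_stage 1 (Row F 1) m5
  refine (h2.stage (a := 6) (by norm_num) (mono_zz F _ _) h4 m4).imp ?_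
  rintro k δ k' δ' hk hδ ⟨k1, δ1, l1, l1', e1, k2, δ2, l2, l2', e2, k3, δ3, l3, l3', e3, k4, δ4,
    l4, l4', e4, f1, f2⟩ X R L N _ _ _ _ _ _ _ c G _ _ SL SR T hL hR hT hd
  obtain ⟨b, b1, b2⟩ : ∃ b : Cube n (Col 1 G) → X, c.Bd b k ∧
      c.Null (cub (n + 1) (col 0 SL 1)) (cub (n + 1) (col (AddMonoidHom.id G) SR 1))
        (dc (n + 1) 0 (fun q => T (cmap (n + 1) (AddMonoidHom.fst _ _) q)) - cd n b) (3 * k) δ :=
    homot hL hR hk hT hd
  have p1 : (0 : ℝ) ≤ n * k2 := by have := (hk.trans l1).trans l2; positivity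
  have p2 : (0 : ℝ) ≤ n * δ2 := by have := (hδ.trans l1').trans l2'; positivity
  obtain ⟨a', a1, a2, a3⟩ := e1 X R L N c G SL SR (dc n 1 b) hL hR
    (b1.dc.mono (by push_cast; linarith)) (by
      have := b2.dc.neg.mono (k' := 6 * k) (δ' := 6 * δ)
        (by push_cast; linarith) (by push_cast; linarith)
      rw [dc_sub, dc_dc, zero_sub, neg_neg] at this
      rw [cd_dc]; exact this) (by rw [dc_dc]; exact Eng.Null.zero (by linarith) (by linarith))
  obtain ⟨a'', c1, c2⟩ := Eng.rowc e2 (a1.mono (by linarith)) (a3.mono (by linarith) (by linarith))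
  obtain ⟨a0, d1, d2⟩ := Eng.rowc (u := b - cD n a'') e3 ((b1.sub c1.cD).mono (by linarith)) (by
    have := (a2.add c2.cD).mono (k' := (3 * n + 1) * k2) (δ' := (3 * n + 1) * δ2)
      (by linarith) (by linarith)
    rw [cD_sub, cD_dc, sub_add_sub_cancel] at this
    exact (dc_sub n 1 b _) ▸ this)
  refine ⟨fun q => a0 (cmap n (AddMonoidHom.inl G (Fin 0 → G)) q), (d1.pull _
    (cmap_surj n fun y => ⟨y.1, Prod.ext rfl (Subsingleton.elim _ _)⟩)).mono (by linarith),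
    (Eng.row0c e4 ?_).mono (by linarith) (by linarith)⟩
  have := (b2.add d2.cd).mono (k' := (3 * n + 6) * k3) (δ' := (3 * n + 6) * δ3)
    (by linarith) (by linarith)
  rw [cd_sub, cd_sub, cd_cD, sub_zero, cd_dc, sub_add_sub_cancel, ← dc_sub] at this
  convert this using 2
  funext q
  rw [Pi.sub_apply, Pi.sub_apply]
  congr 1
  refine (congrFun (cd_cmap n a0 (AddMonoidHom.inl G (Fin 0 → G))) _).trans ?_
  congr 1
  funext v
  exact Prod.ext rfl (Subsingleton.elim _ _)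

lemma ep_zz : ∀ n : ℕ, Lin (EP F n) ∧ ∀ j, Lin (ZZ F n j)
  | 0 => ⟨ep_zero F, zz_zero F⟩
  | n + 1 => ⟨ep_succ F n ((ep_zz n).2 1),
      fun j => zz_succ F n j (ep_succ F n ((ep_zz n).2 1)) ((ep_zz n).2 (j + 1))⟩

lemma alw_top {G T : Type} [AddCommGroup G] [Fintype G] [AddCommMonoid T] {sz : T → ℕ}
    (h0 : sz 0 = 0) (ha : ∀ a b, sz (a + b) ≤ sz a + sz b) {m : ℕ} {A : Cube m G → T} {k : ℝ}
    (h : Alw (cub m {⊤}) sz A k) : (∀ q, A q = A 0) ∧ (sz (A 0) : ℝ) ≤ k := by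
  have hc : ∀ q, A q = A 0 := by
    obtain ⟨l, h1, rfl, -⟩ := h
    intro q
    induction l with
    | nil => rfl
    | cons a l ih =>
      obtain ⟨K, ⟨_, rfl, hK⟩, hm⟩ := h1 a List.mem_cons_self
      have := hm 0 q ((hK q).2 fun _ => trivial)
      rw [zero_add] at this
      rw [List.sum_cons, Pi.add_apply, Pi.add_apply, this,
        ih fun b hb => h1 b (List.mem_cons_of_mem _ hb)]
  have := h.size h0 ha
  simp only [hc, Fintype.expect_const] at this
  exact ⟨hc, this⟩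

theorem stENG : St_ENG := by
  intro F _ n
  refine (ep_zz F n).1.imp ?_
  rintro k δ k' δ' hk hδ h X R L N _ _ _ _ _ _ _ c G _ _ T hT ⟨a, B, E, x, r, h1, h2, h3, h4, h5, h6⟩
  obtain ⟨b, b1, A', B', E', x', r', g1, g2, g3, g4, g5, g6⟩ := h X R L N c G {⊤} {⊤} T
    (Set.singleton_nonempty _) (Set.singleton_nonempty _) hT ⟨fun _ => a, fun _ => B, E, x, r,
      Alw.single (cubK_mem _ rfl) (fun _ _ _ => rfl) (by simpa),
      Alw.single (cubK_mem _ rfl) (fun _ _ _ => rfl) (by simpa), h3, h4, h5, h6⟩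
  obtain ⟨i1, i2⟩ := alw_top c.szL_zero c.szL_add g1
  obtain ⟨j1, j2⟩ := alw_top (fr_zero F R) fr_add g2
  exact ⟨b, b1, A' 0, B' 0, E', x', r', i2, j2, g3, g4, g5, fun q => i1 q ▸ j1 q ▸ g6 q⟩

end Pool.Agent.Lib.AD
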