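import Pool.Agent.Lib.AD.LvApi

/-! Merging a block, blockwise maps and averaged smallness (tools for the block FIX). -/

noncomputable section

open Finset Module
open scoped BigOperators

set_option linter.unusedSectionVars false

namespace Pool.Agent.Lib.AD.Fix

open Pool.Agent.Lib.AD.Lv

variable {K ι A : Type} [Field K] [DecidableEq ι] [CommRing A] [Algebra K A] (F : Frame K ι A)

lemma mg_of_disj {I J : Finset ι} {i0 : ι} (h0 : i0 ∈ I) (h : Disjoint J I) : mg I i0 J = J := by
  have : i0 ∉ J := fun e => disjoint_left.1 h e h0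
  simp only [mg, this, if_false]
  exact sdiff_eq_self_of_disjoint h

lemma merge_X (I : Finset ι) (i0 : ι) (J : Finset ι) : (F.merge I i0).X J = F.X (mg I i0 J) := rfl

/-- the merged slot set -/
def md (D I : Finset ι) (i0 : ι) : Finset ι := insert i0 (D \ I)

lemma mg_md_sdiff {D I J : Finset ι} {i0 : ι} (h0 : i0 ∈ I) (hI : I ⊆ D) (hJ : J ⊆ md D I i0) :
    mg I i0 (md D I i0 \ J) = D \ mg I i0 J := by
  ext a
  have h1 := @hI a
  have h2 := @hJ a
  have h3 := hI h0
  unfold mg md at *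
  by_cases c : i0 ∈ J
  · have : i0 ∉ insert i0 (D \ I) \ J := by simp [c]
    rw [if_neg this, if_pos c]
    simp only [mem_sdiff, mem_insert, mem_union] at *
    constructor
    · rintro ⟨⟨h4 | h4, h5⟩, h6⟩
      · exact absurd (h4 ▸ h0) h6
      · tauto
    · tauto
  · have : i0 ∈ insert i0 (D \ I) \ J := by simp [c]
    rw [if_pos this, if_neg c]
    simp only [mem_sdiff, mem_insert, mem_union] at *
    constructor
    · rintro (⟨h4 | h4, h5⟩ | h4)
      · subst h4; tauto
      · tauto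
      · tauto
    · tauto

lemma mg_subset {D I J : Finset ι} {i0 : ι} (hI : I ⊆ D) (h0 : i0 ∈ I) (hJ : J ⊆ md D I i0) :
    mg I i0 J ⊆ D := by
  intro a ha
  have h2 := @hJ a
  have h1 := @hI a
  have h3 := hI h0
  unfold mg md at *
  split_ifs at ha <;> simp only [mem_sdiff, mem_insert, mem_union] at * <;>
    rcases eq_or_ne a i0 with rfl | e <;> tauto

/-- the inverse of `mg` on compatible types -/
def um (I : Finset ι) (i0 : ι) (J : Finset ι) : Finset ι :=
  if I ⊆ J then insert i0 (J \ I) else J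

lemma mg_um {I J : Finset ι} {i0 : ι} (h0 : i0 ∈ I) (h : I ⊆ J ∨ Disjoint J I) :
    mg I i0 (um I i0 J) = J := by
  unfold um
  split_ifs with c
  · ext a
    have := @c a
    simp only [mg, mem_insert_self, if_true, mem_union, mem_insert, mem_sdiff]
    constructor
    · rintro ((rfl | h1) | h1)
      · exact c h0
      · exact h1.1
      · exact this h1
    · tauto
  · exact mg_of_disj h0 (h.resolve_left c)

lemma um_subset {D I J : Finset ι} {i0 : ι} (h : I ⊆ J ∨ Disjoint J I) (hJ : J ⊆ D) :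
    um I i0 J ⊆ md D I i0 := by
  unfold um md
  split_ifs with c
  · exact insert_subset_insert _ (sdiff_subset_sdiff hJ subset_rfl)
  · intro a ha
    have := disjoint_left.1 (h.resolve_left c) ha
    simp [hJ ha, this]

lemma um_mg {D I J : Finset ι} {i0 : ι} (h0 : i0 ∈ I) (hJ : J ⊆ md D I i0) :
    um I i0 (mg I i0 J) = J := by
  have key : ∀ a ∈ J, a ∈ I → a = i0 := fun a ha hi => by
    have := hJ ha
    simp only [md, mem_insert, mem_sdiff] at this
    tauto
  unfold mg
  split_ifs with c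
  · unfold um
    rw [if_pos subset_union_right]
    ext a
    have := key a
    simp only [mem_insert, mem_sdiff, mem_union]
    constructor
    · rintro (rfl | h1)
      · exact c
      · tauto
    · tauto
  · unfold um
    have : ¬ I ⊆ J \ I := fun e => (mem_sdiff.1 (e h0)).2 h0
    rw [if_neg this]
    ext a
    simp only [mem_sdiff]
    exact ⟨fun h => h.1, fun h => ⟨h, fun e => c (key a h e ▸ h)⟩⟩

lemma mg_compat (I : Finset ι) (i0 : ι) (J : Finset ι) :
    I ⊆ mg I i0 J ∨ Disjoint (mg I i0 J) I := by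
  unfold mg
  split_ifs
  · exact Or.inl subset_union_right
  · exact Or.inr sdiff_disjoint

lemma mg_md {D I : Finset ι} {i0 : ι} (h0 : i0 ∈ I) (hI : I ⊆ D) : mg I i0 (md D I i0) = D := by
  have := mg_md_sdiff (J := ∅) h0 hI (empty_subset _)
  simpa [mg] using this

lemma mg_proper {D I J : Finset ι} {i0 : ι} (h0 : i0 ∈ I) (hI : I ⊆ D) (hJ : J ⊆ md D I i0) :
    ((mg I i0 J).Nonempty ∧ mg I i0 J ⊂ D) ↔ (J.Nonempty ∧ J ⊂ md D I i0) := by
  have e0 : mg I i0 (∅ : Finset ι) = ∅ := by simp [mg]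
  have inj : ∀ J', J' ⊆ md D I i0 → mg I i0 J = mg I i0 J' → J = J' := fun J' h e => by
    rw [← um_mg h0 hJ, e, um_mg h0 h]
  rw [nonempty_iff_ne_empty, nonempty_iff_ne_empty, ssubset_iff_subset_ne, ssubset_iff_subset_ne]
  constructor
  · rintro ⟨h1, -, h2⟩
    exact ⟨fun e => h1 (by rw [e, e0]), hJ, fun e => h2 (by rw [e, mg_md h0 hI])⟩
  · rintro ⟨h1, -, h2⟩
    exact ⟨fun e => h1 (inj ∅ (empty_subset _) (by rw [e, e0])), mg_subset hI h0 hJ,
      fun e => h2 (inj _ subset_rfl (by rw [e, mg_md h0 hI]))⟩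

/-- a system with types in `D \ I` generates `X I * (S)_{D \ I}` in the merged frame -/
lemma idl_merge_res (S : Sys K ι A) {D I : Finset ι} {i0 : ι} (h0 : i0 ∈ I) (hI : I ⊆ D) :
    (F.merge I i0).idl (res S (D \ I)) (md D I i0) = F.X I * F.idl S (D \ I) := by
  have key : ∀ J, J ⊆ D \ I → S J * (F.merge I i0).X (md D I i0 \ J) =
      F.X I * (S J * F.X ((D \ I) \ J)) := fun J hJ => by
    have hd : Disjoint J I := disjoint_of_subset_left hJ sdiff_disjoint
    rw [merge_X, mg_md_sdiff h0 hI (hJ.trans (subset_insert _ _)), mg_of_disj h0 hd,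
      mul_left_comm, F.X_mul I _ (disjoint_of_subset_right sdiff_subset disjoint_sdiff)]
    congr 2
    ext a
    have := @hI a
    have := @disjoint_left.1 hd a
    simp only [mem_sdiff, mem_union]; tauto
  apply le_antisymm
  · refine (idl_le_iff _).2 fun J _ => ?_
    by_cases c : J ⊆ D \ I
    · rw [show res S (D \ I) J = S J from if_pos c, key J c]
      exact mul_le_mul_right (mul_le_idl F S c) _
    · rw [show res S (D \ I) J = ⊥ from if_neg c]; simp
  · conv_lhs => unfold Frame.idl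
    rw [Submodule.mul_iSup]
    refine iSup_le fun J => ?_
    rw [Submodule.mul_iSup]
    refine iSup_le fun c => ?_
    rw [← key J c, ← show res S (D \ I) J = S J from if_pos c]
    exact mul_le_idl _ _ (c.trans (subset_insert _ _))

lemma prp_merge_res {S : Sys K ι A} {D I : Finset ι} {i0 : ι} (h0 : i0 ∈ I) (hS : F.Prp D S) :
    (F.merge I i0).Prp (md D I i0) (res S (D \ I)) := by
  intro J
  by_cases c : J ⊆ D \ I
  · rw [show res S (D \ I) J = S J from if_pos c, merge_X,
      mg_of_disj h0 (disjoint_of_subset_left c sdiff_disjoint)]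
    refine ⟨(hS J).1, fun e => ⟨((hS J).2 e).1, c.trans_ssubset (ssubset_insert ?_)⟩⟩
    simp [h0]
  · rw [show res S (D \ I) J = ⊥ from if_neg c]
    exact ⟨bot_le, fun e => absurd rfl e⟩

lemma idl_merge_of_disj (E : Sys K ι A) {I J : Finset ι} {i0 : ι} (h0 : i0 ∈ I)
    (h : Disjoint J I) : (F.merge I i0).idl E J = F.idl E J := by
  unfold Frame.idl
  refine iSup_congr fun J' => iSup_congr fun _ => ?_
  rw [merge_X, mg_of_disj h0 (disjoint_of_subset_left sdiff_subset h)]

lemma bw_le {I J : Finset ι} (κ : A →ₗ[K] A) (h : Disjoint I J) {W Q Y : Submodule K A}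
    (hW : W ≤ F.X I) (hY : Y ≤ F.X J) (hκ : ∀ x ∈ W, κ x ∈ Q) {f : A} (hf : f ∈ W * Y) :
    F.bw I κ f ∈ Q * Y := by
  refine Submodule.mul_induction_on hf (fun x hx y hy => ?_) (fun x y hx hy => ?_)
  · rw [F.bw_mul I J κ h x (hW hx) y (hY hy)]
    exact Submodule.mul_mem_mul (hκ x hx) hy
  · rw [map_add]; exact add_mem hx hy

lemma bw_fix {I J : Finset ι} (κ : A →ₗ[K] A) (h : Disjoint I J) {W Y : Submodule K A}
    (hW : W ≤ F.X I) (hY : Y ≤ F.X J) (hκ : ∀ x ∈ W, κ x = x) {f : A} (hf : f ∈ W * Y) :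
    F.bw I κ f = f := by
  refine Submodule.mul_induction_on hf (fun x hx y hy => ?_) (fun x y hx hy => ?_)
  · rw [F.bw_mul I J κ h x (hW hx) y (hY hy), hκ x hx]
  · rw [map_add, hx, hy]

lemma bw_mul' {I J J' : Finset ι} (κ : A →ₗ[K] A) (hI : I ⊆ J) (h : Disjoint J J') {x y : A}
    (hx : x ∈ F.X J) (hy : y ∈ F.X J') : F.bw I κ (x * y) = F.bw I κ x * y := by
  rw [← X_split F hI] at hx
  refine Submodule.mul_induction_on hx (fun a ha b hb => ?_) (fun a b ha hb => ?_)
  · have h1 : Disjoint (J \ I) J' := disjoint_of_subset_left sdiff_subset h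
    have h2 : b * y ∈ F.X (J \ I ∪ J') := F.X_mul _ _ h1 ▸ Submodule.mul_mem_mul hb hy
    have h3 : Disjoint I (J \ I ∪ J') :=
      disjoint_union_right.2 ⟨disjoint_sdiff, disjoint_of_subset_left hI h⟩
    rw [mul_assoc, F.bw_mul I _ κ h3 a ha _ h2, F.bw_mul I _ κ disjoint_sdiff a ha b hb, mul_assoc]
  · rw [add_mul, map_add, ha, hb, map_add, add_mul]

variable [Fintype ι] [FiniteDimensional K A]

lemma sz_comp_le (E : Sys K ι A) (P : Finset ι → Prop) [DecidablePred P] (g : Finset ι → Finset ι)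
    (hg : ∀ J J', P J → P J' → g J = g J' → J = J') :
    sz (fun J => if P J then E (g J) else ⊥ : Sys K ι A) ≤ sz E := by
  unfold sz
  have e : ∑ J : Finset ι, (finrank K (if P J then E (g J) else ⊥ : Submodule K A) : ℝ) =
      ∑ J ∈ univ.filter P, (finrank K (E (g J)) : ℝ) := by
    rw [sum_filter]
    refine sum_congr rfl fun J _ => ?_
    by_cases c : P J
    · rw [if_pos c, if_pos c]
    · rw [if_neg c, if_neg c, finrank_bot, Nat.cast_zero]
  rw [e, ← sum_image (f := fun J => (finrank K (E J) : ℝ)) (g := g) (fun J hJ J' hJ' h =>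
    hg J J' (mem_filter.1 hJ).2 (mem_filter.1 hJ').2 h)]
  exact sum_le_sum_of_subset_of_nonneg (subset_univ _) fun _ _ _ => Nat.cast_nonneg _

lemma sm_merge_of_smC {D I : Finset ι} {i0 : ι} (h0 : i0 ∈ I) (hI : I ⊆ D) {f : A} {r : ℝ}
    (h : F.SmC D I f r) : (F.merge I i0).Sm (md D I i0) f r := by
  obtain ⟨E, h1, h2, h3, h4⟩ := h
  refine ⟨fun J => if J ⊆ md D I i0 then E (mg I i0 J) else ⊥, fun J => ?_,
    (sz_comp_le E _ _ fun J J' a b e => by rw [← um_mg h0 a, e, um_mg h0 b]).trans h3, ?_⟩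
  · by_cases c : J ⊆ md D I i0
    · simp only [if_pos c]
      exact ⟨(h1 _).1, fun e => (mg_proper h0 hI c).1 ((h1 _).2 e)⟩
    · simp only [if_neg c]
      exact ⟨bot_le, fun e => absurd rfl e⟩
  · refine (idl_le_iff F).2 (fun J hJ => ?_) h4
    by_cases e : E J = ⊥
    · simp [e]
    · have hc := h2 J e
      have hu := um_subset (i0 := i0) hc hJ
      refine le_trans (le_of_eq ?_) (mul_le_idl (F.merge I i0) _ hu)
      simp only [if_pos hu]
      rw [merge_X, mg_md_sdiff h0 hI hu, mg_um h0 hc]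

lemma smC_of_sm_merge {D I : Finset ι} {i0 : ι} (h0 : i0 ∈ I) (hI : I ⊆ D) {f : A} {r : ℝ}
    (h : (F.merge I i0).Sm (md D I i0) f r) : F.SmC D I f r := by
  classical
  obtain ⟨E, h1, h3, h4⟩ := h
  refine ⟨fun J => if (I ⊆ J ∨ Disjoint J I) ∧ J ⊆ D then E (um I i0 J) else ⊥, fun J => ?_,
    fun J e => ?_,
    (sz_comp_le E _ _ fun J J' a b e => by rw [← mg_um h0 a.1, e, mg_um h0 b.1]).trans h3, ?_⟩
  · by_cases c : (I ⊆ J ∨ Disjoint J I) ∧ J ⊆ D
    · simp only [if_pos c]
      have := h1 (um I i0 J)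
      rw [merge_X, mg_um h0 c.1] at this
      refine ⟨this.1, fun e => ?_⟩
      have h5 := (mg_proper h0 hI (um_subset c.1 c.2)).2 (this.2 e)
      rwa [mg_um h0 c.1] at h5
    · simp only [if_neg c]
      exact ⟨bot_le, fun e => absurd rfl e⟩
  · by_contra c
    exact e (if_neg fun a => c a.1)
  · refine (idl_le_iff (F.merge I i0)).2 (fun J hJ => ?_) h4
    have hs := mg_subset hI h0 hJ
    refine le_trans (le_of_eq ?_) (mul_le_idl F _ hs)
    simp only [if_pos (And.intro (mg_compat I i0 J) hs)]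
    rw [merge_X, mg_md_sdiff h0 hI hJ, um_mg h0 hJ]

lemma rr_merge {η z : ℝ} {I J : Finset ι} {i0 : ι} (h0 : i0 ∈ I) (h : Disjoint J I)
    {W B : Submodule K A} (hr : F.RR η z J W B) : (F.merge I i0).RR η z J W B := by
  intro E hE
  rw [idl_merge_of_disj F E h0 h]
  refine hr E fun J' => ⟨?_, (hE J').2⟩
  by_cases e : E J' = ⊥
  · rw [e]; exact bot_le
  · have := (hE J').1
    rwa [merge_X, mg_of_disj h0 (disjoint_of_subset_left ((hE J').2 e).2.subset h)] at this

lemma rr_bot {η z : ℝ} (hη : 0 ≤ η) (hz : 0 ≤ z) (J : Finset ι) (B : Submodule K A) :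
    F.RR η z J ⊥ B := fun E _ => by
  rw [bot_inf_eq, finrank_bot]
  have := mul_nonneg hη (sz_nonneg E)
  push_cast
  linarith

lemma rr_eta {η η' z : ℝ} (hη : η ≤ η') {J : Finset ι} {W B : Submodule K A}
    (h : F.RR η z J W B) : F.RR η' z J W B := fun E hE =>
  (h E hE).trans (by nlinarith [sz_nonneg E])

/-- blockwise maps keep compatible smallness -/
lemma bw_smC {D I : Finset ι} (hI : I ⊆ D) (κ : A →ₗ[K] A) (hκ : ∀ x ∈ F.X I, κ x ∈ F.X I)
    {f : A} {r : ℝ} (h : F.SmC D I f r) : F.Sm D (F.bw I κ f) r := by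
  obtain ⟨E, h1, h2, h3, h4⟩ := h
  set E' : Sys K ι A := fun J => if I ⊆ J then (E J).map (F.bw I κ) else E J with hE'
  refine ⟨E', fun J => ⟨?_, fun e => (h1 J).2 fun e' => e ?_⟩, le_trans ?_ h3, ?_⟩
  · simp only [hE']
    split_ifs with c
    · rintro _ ⟨x, hx, rfl⟩
      have := (h1 J).1 hx
      rw [← X_split F c] at this ⊢
      exact bw_le F κ disjoint_sdiff le_rfl le_rfl hκ this
    · exact (h1 J).1
  · simp only [hE', e']
    split_ifs <;> simp
  · refine sum_le_sum fun J _ => ?_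
    by_cases c : I ⊆ J
    · rw [show E' J = (E J).map (F.bw I κ) from if_pos c]
      exact_mod_cast Submodule.finrank_map_le _ _
    · rw [show E' J = E J from if_neg c]
  · have : F.idl E D ≤ (F.idl E' D).comap (F.bw I κ) := by
      refine (idl_le_iff F).2 fun J hJ => Submodule.mul_le.2 fun x hx y hy => ?_
      rw [Submodule.mem_comap]
      refine mul_le_idl F E' hJ ?_
      by_cases c : I ⊆ J
      · rw [bw_mul' F κ c disjoint_sdiff ((h1 J).1 hx) hy]
        refine Submodule.mul_mem_mul ?_ hy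
        simp only [hE', if_pos c]
        exact Submodule.mem_map_of_mem hx
      · simp only [hE', if_neg c]
        by_cases e : E J = ⊥
        · rw [e, Submodule.mem_bot] at hx
          simp [hx]
        · have hd : Disjoint J I := (h2 J e).resolve_left c
          have hs : I ⊆ D \ J := subset_sdiff.2 ⟨hI, hd.symm⟩
          have hm : x * y ∈ F.X I * (E J * F.X ((D \ J) \ I)) := by
            rw [mul_left_comm, X_split F hs]
            exact Submodule.mul_mem_mul hx hy
          have hY : E J * F.X ((D \ J) \ I) ≤ F.X (J ∪ (D \ J) \ I) := by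
            rw [← F.X_mul _ _ (disjoint_of_subset_right sdiff_subset disjoint_sdiff)]
            exact mul_le_mul_left (h1 J).1 _
          have h5 := bw_le F κ (disjoint_union_right.2 ⟨hd.symm, disjoint_sdiff⟩) le_rfl hY hκ hm
          rwa [mul_left_comm, X_split F hs] at h5
    exact this h4

lemma smA_nonneg {D : Finset ι} {H : Type} [Fintype H] {u : H → A} {k : ℝ} (h : F.SmA D u k) :
    0 ≤ k := by
  obtain ⟨r, h1, h2⟩ := h
  exact (expect_nonneg fun q _ => sm_nonneg (h1 q)).trans h2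

lemma smA_mono {D : Finset ι} {H : Type} [Fintype H] {u : H → A} {k k' : ℝ} (h : F.SmA D u k)
    (hk : k ≤ k') : F.SmA D u k' := by
  obtain ⟨r, h1, h2⟩ := h
  exact ⟨r, h1, h2.trans hk⟩

lemma smA_add {D : Finset ι} {H : Type} [Fintype H] {u v : H → A} {k k' : ℝ} (h : F.SmA D u k)
    (h' : F.SmA D v k') : F.SmA D (u + v) (k + k') := by
  obtain ⟨r, h1, h2⟩ := h
  obtain ⟨s, h3, h4⟩ := h'
  refine ⟨fun q => r q + s q, fun q => sm_add (h1 q) (h3 q), ?_⟩
  rw [expect_add_distrib]; linarith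

lemma smA_sub {D : Finset ι} {H : Type} [Fintype H] {u v : H → A} {k k' : ℝ} (h : F.SmA D u k)
    (h' : F.SmA D v k') : F.SmA D (u - v) (k + k') := by
  obtain ⟨r, h1, h2⟩ := h
  obtain ⟨s, h3, h4⟩ := h'
  refine ⟨fun q => r q + s q, fun q => sm_sub (h1 q) (h3 q), ?_⟩
  rw [expect_add_distrib]; linarith

lemma smA_cd {D : Finset ι} {G : Type} [AddCommGroup G] [Fintype G] {m : ℕ} {u : Cube m G → A}
    {k : ℝ} (h : F.SmA D u k) : F.SmA D (cd m u) (3 * (m + 1) * k) := by
  obtain ⟨r, h1, h2⟩ := h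
  refine ⟨_, sm_cd h1, ?_⟩
  rw [expect_faces]
  exact mul_le_mul_of_nonneg_left h2 (by positivity)

end Pool.Agent.Lib.AD.Fix
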