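import Pool.Agent.Lib.AD.Blue
import Pool.Agent.Lib.AD.FixApi

/-! The block FIX: induction on the number of types. -/

noncomputable section

open Finset Module
open scoped BigOperators

namespace Pool.Agent.Lib.AD

namespace Fix

open Pool.Agent.Lib.AD.Lv

lemma exists_proj {K A : Type} [Field K] [AddCommGroup A] [Module K A] (Z : Submodule K A) :
    ∃ π : A →ₗ[K] A, (∀ x, π x ∈ Z) ∧ ∀ x ∈ Z, π x = x := by
  obtain ⟨Z', h⟩ := Z.exists_isCompl
  refine ⟨Z.subtype ∘ₗ Z.projectionOnto Z' h, fun x => (Z.projectionOnto Z' h x).2,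
    fun x hx => ?_⟩
  exact congrArg Subtype.val (Submodule.projectionOnto_apply_left h ⟨x, hx⟩)

variable (p : ℕ) [Fact p.Prime] (ι : Type) [Fintype ι] [DecidableEq ι]

open Classical in
/-- FIX for systems with at most `m` types -/
def FIXm (n d m : ℕ) : Prop := Shp fun η C η' => ∀ (A : Type) [CommRing A] [Algebra (ZMod p) A]
  [Finite A] (F : Frame (ZMod p) ι A) (D : Finset ι) (S : Sys (ZMod p) ι A) (G : Type)
  [AddCommGroup G] [Fintype G] (y : Cube n G → A) (k δ z : ℝ), D.card ≤ d → 0 ≤ z →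
  (univ.filter fun J => S J ≠ ⊥).card ≤ m →
  F.Prp D S → NoSl S → F.Reg η z S → sz S ≤ k → (∀ q, y q ∈ F.idl S D) → F.SmA D (cd n y) δ →
  ∃ s : Cube n G → A, (∀ q, s q ∈ F.idl S D) ∧ F.SmA D s (C * (δ + z) + η' * k) ∧
    cd n (y - s) = 0

lemma fixm_zero (n d : ℕ) : FIXm p ι n d 0 := by
  classical
  refine ⟨0, le_rfl, fun e he => ⟨1, one_pos, ?_⟩⟩
  intro A _ _ _ F D S G _ _ y k δ z hD hz hm hS hN hR hk hy hsm
  have : FiniteDimensional (ZMod p) A := Module.Finite.of_finite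
  have hk0 : 0 ≤ k := (sz_nonneg S).trans hk
  have h0 : S = ⊥ := by
    funext J
    by_contra c
    have := card_eq_zero.1 (Nat.le_zero.1 hm)
    exact absurd (this ▸ mem_filter.2 ⟨mem_univ J, c⟩) (notMem_empty J)
  have hy0 : y = 0 := funext fun q => by
    have := hy q
    rwa [h0, idl_bot, Submodule.mem_bot] at this
  refine ⟨0, fun q => zero_mem _, ⟨fun _ => 0, fun q => sm_zero D, ?_⟩, ?_⟩
  · have := mul_nonneg he.le hk0
    simpa using this
  · rw [hy0, sub_zero, cd_zero]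

lemma fixm_succ (n d m : ℕ) (hc : COL p ι (d + 1)) (hr : REL p ι n d)
    (hi : FIXm p ι n (d + 1) m) : FIXm p ι n (d + 1) (m + 1) := by
  classical
  obtain ⟨C1, hC1, H1⟩ := hc
  obtain ⟨C2, hC2, H2⟩ := hr
  obtain ⟨C3, hC3, H3⟩ := hi
  set N : ℝ := 1 + C3 * (3 * (n + 1)) with hNdef
  have hN1 : 1 ≤ N := by
    have : 0 ≤ C3 * (3 * (n + 1)) := by positivity
    linarith
  refine ⟨N * (C2 * (C1 + 1)) + C3, by positivity, fun e he => ?_⟩
  obtain ⟨η1, hη1, H1⟩ := H1 (e / (3 * N * (C2 + 1))) (by positivity)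
  obtain ⟨η2, hη2, H2⟩ := H2 (e / (3 * N)) (by positivity)
  obtain ⟨η3, hη3, H3⟩ := H3 (e / 3) (by positivity)
  refine ⟨min η1 (min η2 η3), lt_min hη1 (lt_min hη2 hη3), ?_⟩
  intro A _ _ _ F D S G _ _ y k δ z hD hz hm hS hN hR hk hy hsm
  have : FiniteDimensional (ZMod p) A := Module.Finite.of_finite
  have hk0 : 0 ≤ k := (sz_nonneg S).trans hk
  have hδ : 0 ≤ δ := smA_nonneg F hsm
  have hR1 : F.Reg η1 z S := fun J => rr_eta F (min_le_left _ _) (hR J)
  have hR2 : F.Reg η2 z S := fun J =>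
    rr_eta F ((min_le_right _ _).trans (min_le_left _ _)) (hR J)
  have hR3 : F.Reg η3 z S := fun J =>
    rr_eta F ((min_le_right _ _).trans (min_le_right _ _)) (hR J)
  have hfin : ∀ x1 x2 : ℝ, x1 = C1 * (δ + z) + e / (3 * N * (C2 + 1)) * k →
      x2 = C2 * (x1 + z) + e / (3 * N) * k →
      x2 + (C3 * (δ + 3 * (n + 1) * x2 + z) + e / 3 * k) ≤
        (N * (C2 * (C1 + 1)) + C3) * (δ + z) + e * k := by
    intro x1 x2 h1 h2
    have a1 : N * (C2 * (e / (3 * N * (C2 + 1)) * k)) ≤ e / 3 * k := by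
      have : N * (C2 * (e / (3 * N * (C2 + 1)))) ≤ e / 3 := by
        have : N * (C2 * (e / (3 * N * (C2 + 1)))) = e / 3 * (C2 / (C2 + 1)) := by
          field_simp
        rw [this]
        exact mul_le_of_le_one_right (by positivity) ((div_le_one (by positivity)).2 (by linarith))
      nlinarith
    have a2 : N * (e / (3 * N) * k) = e / 3 * k := by field_simp
    have a3 : x2 + (C3 * (δ + 3 * (n + 1) * x2 + z) + e / 3 * k) =
        N * x2 + C3 * (δ + z) + e / 3 * k := by rw [hNdef]; ring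
    have a4 : N * x2 = N * (C2 * (C1 * (δ + z) + z)) +
        N * (C2 * (e / (3 * N * (C2 + 1)) * k)) + N * (e / (3 * N) * k) := by
      rw [h2, h1]; ring
    have a5 : N * (C2 * (C1 * (δ + z) + z)) ≤ N * (C2 * (C1 + 1)) * (δ + z) := by
      have : 0 ≤ N * C2 * δ := by positivity
      nlinarith
    rw [a3, a4, a2]
    nlinarith
  by_cases hm' : (univ.filter fun J => S J ≠ ⊥).card ≤ m
  · obtain ⟨s, h1, h2, h3⟩ := H3 A F D S G y k δ z hD hz hm' hS hN hR3 hk hy hsm
    refine ⟨s, h1, smA_mono F h2 ?_, h3⟩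
    have a1 : 0 ≤ N * (C2 * (C1 + 1)) * (δ + z) := by positivity
    have a2 : 0 ≤ e * k := by positivity
    nlinarith
  obtain ⟨I, hI⟩ : (univ.filter fun J => S J ≠ ⊥).Nonempty := card_pos.1 (by omega)
  have hI0 : S I ≠ ⊥ := (mem_filter.1 hI).2
  obtain ⟨⟨i0, h0⟩, hID⟩ := (hS I).2 hI0
  have hI2 : 2 ≤ I.card := by
    by_contra c
    have : I = {i0} := eq_singleton_iff_unique_mem.2 ⟨h0, fun x hx =>
      card_le_one.1 (by omega) x hx i0 h0⟩
    exact hI0 (this ▸ hN i0)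
  set S' : Sys (ZMod p) ι A := fun J => if J = I then ⊥ else S J with hS'def
  have hle : S' ≤ S := fun J => by
    simp only [hS'def]; split_ifs <;> simp
  have hS' : F.Prp D S' := Ty.of_le hS hle
  have hN' : NoSl S' := fun i => le_bot_iff.1 ((hle _).trans (hN i).le)
  have hS'I : S' I = ⊥ := if_pos rfl
  have hreg' : ∀ η, 0 ≤ η → F.Reg η z S → F.Reg η z S' := fun η hη h J => by
    by_cases c : J = I
    · rw [c, hS'I]; exact rr_bot F hη hz _ _
    · rw [show S' J = S J from if_neg c]; exact h J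
  have hk' : sz S' ≤ k := (sz_mono hle).trans hk
  have hm2 : (univ.filter fun J => S' J ≠ ⊥).card ≤ m := by
    have : (univ.filter fun J => S' J ≠ ⊥) ⊆ (univ.filter fun J => S J ≠ ⊥).erase I := by
      intro J hJ
      have h1 := (mem_filter.1 hJ).2
      have h2 : J ≠ I := fun c => h1 (c ▸ hS'I)
      refine mem_erase.2 ⟨h2, mem_filter.2 ⟨mem_univ _, ?_⟩⟩
      rwa [show S' J = S J from if_neg h2] at h1
    have h3 := card_le_card this
    rw [card_erase_of_mem hI] at h3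
    omega
  have hsplit : F.idl S D ≤ S I * F.X (D \ I) ⊔ F.idl S' D := by
    refine (idl_le_iff F).2 fun J hJ => ?_
    by_cases c : J = I
    · rw [c]; exact le_sup_left
    · rw [← show S' J = S J from if_neg c]
      exact le_sup_of_le_right (mul_le_idl F S' hJ)
  have hdec : ∀ q, ∃ a ∈ S I * F.X (D \ I), ∃ b ∈ F.idl S' D, a + b = y q := fun q =>
    Submodule.mem_sup.1 (hsplit (hy q))
  choose yI hyI y' hy' hsum using hdec
  have hyy : y = yI + y' := funext fun q => (hsum q).symm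
  obtain ⟨r, hr1, hr2⟩ := hsm
  have hcol : ∀ q, ∃ w ∈ F.X I * F.idl S' (D \ I),
      F.SmC D I (cd n yI q - w) (C1 * (r q + z) + e / (3 * N * (C2 + 1)) * k) := fun q => by
    refine H1 A F D I (S I) S' (cd n yI q) k (r q) z hD ⟨i0, h0⟩ hID hz (hS I).1 hS'
      (hreg' _ hη1.le hR1) (by rw [hS'I]; exact hR1 I) ((le_sz S I).trans hk) hk'
      (cd_mem _ n yI q fun _ _ => hyI _) ⟨-cd n y' q, neg_mem (cd_mem _ n y' q fun _ _ => hy' _), ?_⟩
    have := hr1 q
    rw [hyy, cd_add] at this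
    simpa using this
  choose w hw hw' using hcol
  have hIs : I ⊆ D := hID.subset
  have hcard : (md D I i0).card ≤ d := by
    have h1 := card_insert_le i0 (D \ I)
    have h2 := card_sdiff_add_card_eq_card hIs
    unfold md; omega
  have hsmM : (F.merge I i0).SmA (md D I i0) (cd n yI - w)
      (C1 * (δ + z) + e / (3 * N * (C2 + 1)) * k) := by
    refine ⟨fun q => C1 * (r q + z) + e / (3 * N * (C2 + 1)) * k,
      fun q => sm_merge_of_smC F h0 hIs (hw' q), ?_⟩
    rw [expect_add_distrib, ← mul_expect, expect_add_distrib, expect_const univ_nonempty,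
      expect_const univ_nonempty]
    nlinarith
  have hregM : (F.merge I i0).Reg η2 z (res S' (D \ I)) := fun J => by
    by_cases c : J ⊆ D \ I
    · rw [show res S' (D \ I) J = S' J from if_pos c]
      exact rr_merge F h0 (disjoint_of_subset_left c sdiff_disjoint) (hreg' _ hη2.le hR2 J)
    · rw [show res S' (D \ I) J = ⊥ from if_neg c]
      exact rr_bot _ hη2.le hz _ _
  have hresle : res S' (D \ I) ≤ S' := fun J => by
    unfold res; split_ifs <;> simp
  obtain ⟨s1, hs1, hs1'⟩ := H2 A (F.merge I i0) (md D I i0) (res S' (D \ I)) G yI w k _ z hcard hz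
    (prp_merge_res F h0 hS') (fun i => le_bot_iff.1 ((hresle _).trans (hN' i).le)) hregM
    ((sz_mono hresle).trans hk') (fun q => by rw [idl_merge_res F S' h0 hIs]; exact hw q) hsmM
  obtain ⟨κ, hκ1, hκ2⟩ := exists_proj (S I)
  obtain ⟨r1, hr3, hr4⟩ := hs1
  have hr5 : ∀ q, F.SmC D I (s1 q) (r1 q) := fun q => smC_of_sm_merge F h0 hIs (hr3 q)
  set s2 : Cube n G → A := fun q => F.bw I κ (s1 q) with hs2
  have hs2sm : F.SmA D s2 (C2 * (C1 * (δ + z) + e / (3 * N * (C2 + 1)) * k + z) +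
      e / (3 * N) * k) :=
    ⟨r1, fun q => bw_smC F hIs κ (fun x _ => (hS I).1 (hκ1 x)) (hr5 q), hr4⟩
  have hs2mem : ∀ q, s2 q ∈ S I * F.X (D \ I) := fun q => by
    have h1 : s1 q ∈ F.X D := by
      obtain ⟨E, a1, -, -, a2⟩ := hr5 q
      exact idl_le_X F (fun J => (a1 J).1) D a2
    rw [← X_split F hIs] at h1
    exact bw_le F κ disjoint_sdiff le_rfl le_rfl (fun x _ => hκ1 x) h1
  have hZ : ∀ q, cd n (yI - s2) q ∈ S I * F.idl S' (D \ I) := fun q => by
    have h1 : yI - s2 = fun q => (F.bw I κ).toAddMonoidHom ((yI - s1) q) := funext fun q => by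
      simp only [Pi.sub_apply, LinearMap.toAddMonoidHom_coe, map_sub, hs2]
      rw [bw_fix F κ disjoint_sdiff (hS I).1 le_rfl hκ2 (hyI q)]
    rw [h1, cd_comp]
    have h2 := hs1' q
    rw [idl_merge_res F S' h0 hIs] at h2
    exact bw_le F κ disjoint_sdiff le_rfl (idl_le_X F (fun J => (hS' J).1) _)
      (fun x _ => hκ1 x) h2
  obtain ⟨π, hπ1, hπ2⟩ := exists_proj (S I * F.idl S' (D \ I))
  set β : Cube n G → A := fun q => π.toAddMonoidHom ((yI - s2) q) with hβ
  have hβd : cd n β = cd n (yI - s2) := by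
    rw [hβ, cd_comp]
    exact funext fun q => hπ2 _ (hZ q)
  have hZle : S I * F.idl S' (D \ I) ≤ F.idl S' D := by
    have h1 := idl_mul F S' (J := D \ I) (J' := I) sdiff_disjoint
    rw [sdiff_union_of_subset hIs, mul_comm] at h1
    exact (mul_le_mul_left (hS I).1 _).trans h1
  have hd2 : cd n (β + y') = cd n y - cd n s2 := by
    rw [cd_add, hβd, hyy, cd_add, cd_sub]; abel
  obtain ⟨s3, h1, h2, h3⟩ := H3 A F D S' G (β + y') k _ z hD hz hm2 hS' hN' (hreg' _ hη3.le hR3)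
    hk' (fun q => add_mem (hZle (hπ1 _)) (hy' q))
    (by rw [hd2]; exact smA_sub F ⟨r, hr1, hr2⟩ (smA_cd F hs2sm))
  refine ⟨s2 + s3, fun q => add_mem (mul_le_idl F S hIs (hs2mem q)) (idl_mono F hle D (h1 q)),
    smA_mono F (smA_add F hs2sm h2) (hfin _ _ rfl rfl), ?_⟩
  rw [cd_sub, hd2] at h3
  rw [cd_sub, cd_add, ← h3]; abel

end Fix

theorem stFIX (p : ℕ) [Fact p.Prime] (ι : Type) [Fintype ι] [DecidableEq ι] : St_FIX p ι := by
  intro n d hc hr
  have key : ∀ m, Fix.FIXm p ι n (d + 1) m := fun m => by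
    induction m with
    | zero => exact Fix.fixm_zero p ι n _
    | succ m ih => exact Fix.fixm_succ p ι n d m hc hr ih
  obtain ⟨C, hC, H⟩ := key (Fintype.card (Finset ι))
  refine ⟨C, hC, fun e he => ?_⟩
  obtain ⟨η, hη, H⟩ := H e he
  refine ⟨η, hη, ?_⟩
  intro A _ _ _ F D S G _ _ y k δ z hD hz
  exact H A F D S G y k δ z hD hz (card_le_univ _)

end Pool.Agent.Lib.AD
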