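import Pool.Agent.Lib.AD.Cub

/-!
The abstract two-sided engine: definitions and statement.
-/

noncomputable section

open Finset Module
open scoped BigOperators

namespace Pool.Agent.Lib.AD

/-- Abstract context: `X` values, `R` right space, `L` left data, `N` null data. -/
structure Eng (F X R L N : Type) [Field F] [AddCommGroup X] [Module F X] [AddCommGroup R]
    [Module F R] [AddCommMonoid L] [AddCommMonoid N] where
  lf : L → Submodule F X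
  rt : Submodule F R → Submodule F X
  cl : L → Submodule F R → Submodule F X
  nl : N → Submodule F X
  rn : N → Submodule F R
  rm : (R →ₗ[F] R) → X →ₗ[F] X
  szL : L → ℕ
  szN : N → ℕ
  Sm : X → ℝ → Prop
  szL_zero : szL 0 = 0
  szL_add : ∀ a b, szL (a + b) ≤ szL a + szL b
  szN_zero : szN 0 = 0
  szN_add : ∀ a b, szN (a + b) ≤ szN a + szN b
  lf_add : ∀ a b, lf a ≤ lf (a + b)
  nl_add : ∀ a b, nl a ≤ nl (a + b)
  rn_add : ∀ a b, rn a ≤ rn (a + b)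
  rt_mono : ∀ Q Q', Q ≤ Q' → rt Q ≤ rt Q'
  rt_sup : ∀ Q Q', rt (Q ⊔ Q') ≤ rt Q ⊔ rt Q'
  cl_lf : ∀ a Q, cl a Q ≤ lf a
  cl_rt : ∀ a Q, cl a Q ≤ rt Q
  cl_mono : ∀ a b Q Q', Q ≤ Q' → cl a Q ≤ cl (a + b) Q'
  rm_sub : ∀ φ x, x - rm φ x = rm (LinearMap.id - φ) x
  rm_range : ∀ φ x, rm φ x ∈ rt (LinearMap.range φ)
  rm_rt : ∀ φ Q x, x ∈ rt Q → rm φ x ∈ rt (Q.map φ)
  rm_cl : ∀ φ a Q x, x ∈ cl a Q → rm φ x ∈ cl a (Q.map φ)
  rm_lf : ∀ φ a x, x ∈ lf a → rm φ x ∈ lf a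
  rm_nl : ∀ φ E x, x ∈ nl E → rm φ x ∈ nl E
  sm_nonneg : ∀ x r, Sm x r → 0 ≤ r
  sm_zero : Sm 0 0
  sm_add : ∀ x y r s, Sm x r → Sm y s → Sm (x + y) (r + s)
  sm_neg : ∀ x r, Sm x r → Sm (-x) r
  sm_rm : ∀ φ x r, Sm x r → Sm (rm φ x) r
  sm_rt : ∀ Q x, x ∈ rt Q → Sm x (finrank F Q)

/-- `a` is invariant under translation by `K`. -/
def Meas {H T : Type} [AddCommGroup H] (K : AddSubgroup H) (a : H → T) : Prop :=
  ∀ q, ∀ κ ∈ K, a (q + κ) = a q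

/-- `A` is a sum of pieces, each invariant under a member of `S`, of total average size `≤ k`. -/
def Alw {H T : Type} [AddCommGroup H] [Fintype H] [AddCommMonoid T] (S : Set (AddSubgroup H))
    (sz : T → ℕ) (A : H → T) (k : ℝ) : Prop :=
  ∃ l : List (H → T), (∀ a ∈ l, ∃ K ∈ S, Meas K a) ∧ A = l.sum ∧
    (l.map fun a => 𝔼 q, (sz (a q) : ℝ)).sum ≤ k

/-- Cubes with all labels in a member of `S`. -/
def cub (m : ℕ) {G : Type} [AddCommGroup G] (S : Set (AddSubgroup G)) :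
    Set (AddSubgroup (Cube m G)) :=
  {K' | ∃ K ∈ S, ∀ q, q ∈ K' ↔ ∀ v, q v ∈ K}

namespace Eng

variable {F X R L N : Type} [Field F] [AddCommGroup X] [Module F X] [AddCommGroup R]
  [Module F R] [AddCommMonoid L] [AddCommMonoid N] (c : Eng F X R L N)

/-- The null space attached to left data `a`, right data `B` and null data `E`. -/
def nul (a : L) (B : Submodule F R) (E : N) : Submodule F X :=
  c.lf a ⊔ c.nl E ⊔ c.rt (B ⊔ c.rn E)

/-- `u` has two-sided data of average size `≤ k`. -/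
def Bd {H : Type} [Fintype H] (u : H → X) (k : ℝ) : Prop :=
  ∃ (a : H → L) (Q : H → Submodule F R), (∀ q, u q ∈ c.cl (a q) (Q q)) ∧
    𝔼 q, (c.szL (a q) : ℝ) ≤ k ∧ 𝔼 q, (finrank F (Q q) : ℝ) ≤ k

/-- `u` is null: allowed data of size `≤ k`, error `≤ δ`. -/
def Null {H : Type} [AddCommGroup H] [Fintype H] (SL SR : Set (AddSubgroup H)) (u : H → X)
    (k δ : ℝ) : Prop :=
  ∃ (A : H → L) (B : H → Submodule F R) (E : H → N) (x : H → X) (r : H → ℝ),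
    Alw SL c.szL A k ∧ Alw SR (fun Q => finrank F Q) B k ∧ 𝔼 q, (c.szN (E q) : ℝ) ≤ k ∧
    (∀ q, c.Sm (x q) (r q)) ∧ 𝔼 q, r q ≤ δ ∧ ∀ q, u q - x q ∈ c.nul (A q) (B q) (E q)

/-- Null with FIXED left and right data. -/
def Null0 {H : Type} [Fintype H] (u : H → X) (k δ : ℝ) : Prop :=
  ∃ (a : L) (B : Submodule F R) (E : H → N) (x : H → X) (r : H → ℝ),
    (c.szL a : ℝ) ≤ k ∧ (finrank F B : ℝ) ≤ k ∧ 𝔼 q, (c.szN (E q) : ℝ) ≤ k ∧
    (∀ q, c.Sm (x q) (r q)) ∧ 𝔼 q, r q ≤ δ ∧ ∀ q, u q - x q ∈ c.nul a B (E q)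

end Eng

/-- `S k δ k' δ'` holds with `k' = K k` and `δ' = C δ + η k`, `C` absolute, `η` arbitrary. -/
def Lin (S : ℝ → ℝ → ℝ → ℝ → Prop) : Prop :=
  ∃ C : ℝ, 0 ≤ C ∧ ∀ η : ℝ, 0 < η → ∃ K : ℝ, 0 ≤ K ∧ ∀ k δ : ℝ, 0 ≤ k → 0 ≤ δ →
    S k δ (K * k) (C * δ + η * k)

/-- The engine in degree `n`, fixed data. -/
def Engine (F : Type) [Field F] (n : ℕ) (k δ k' δ' : ℝ) : Prop :=
  ∀ (X R L N : Type) [AddCommGroup X] [Module F X] [AddCommGroup R] [Module F R]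
    [FiniteDimensional F R] [AddCommMonoid L] [AddCommMonoid N] (c : Eng F X R L N)
    (G : Type) [AddCommGroup G] [Fintype G] (T : Cube n G → X),
    c.Bd T k → c.Null0 (cd n T) k δ →
    ∃ b : Cube n.pred G → X, c.Bd b k' ∧ c.Null0 (T - cD n b) k' δ'

def St_ENG : Prop := ∀ (F : Type) [Field F] (n : ℕ), Lin (Engine F n)

end Pool.Agent.Lib.AD
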