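import Pool.Agent.Lib.AD.Defs
import Pool.Agent.Lib.AD.EngDef
import Pool.Agent.Lib.UD.Blue

/-!
Blueprint for the stability theorem `ADc` in all degrees.  Proofs: `/team-store/ad34_paper.md`,
`/team-store/ad_PLAN.md`.
-/

noncomputable section

open Finset Module
open scoped BigOperators

namespace Pool.Agent.Lib.AD

variable (p : ℕ) [Fact p.Prime] (ι : Type) [Fintype ι] [DecidableEq ι]

/-- Partition rank is linear in analytic rank. -/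
def PRAR (d : ℕ) : Prop := ∃ C : ℝ, 0 ≤ C ∧ ∀ (A : Type) [CommRing A] [Algebra (ZMod p) A]
  [Finite A] [Fintype (Dual (ZMod p) A)] (F : Frame (ZMod p) ι A) (L : List ι) (j : ι) (f : A)
  (θ : ℝ), L.Nodup → j ∉ L → L.length + 1 ≤ d → f ∈ F.X (insert j L.toFinset) → 0 < θ →
  θ ≤ F.zp L f → F.Sm (insert j L.toFinset) f (C * (Real.log (1 / θ) + 1))

/-- Small cocycles are coboundaries of small cochains modulo a fixed small ideal. -/
def EX (n d : ℕ) : Prop := ∃ C : ℝ, 0 ≤ C ∧ ∀ (A : Type) [CommRing A] [Algebra (ZMod p) A]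
  [Finite A] (F : Frame (ZMod p) ι A) (D : Finset ι) (G : Type) [AddCommGroup G] [Fintype G]
  (u : Cube n G → A) (k : ℝ), D.card ≤ d → cd n u = 0 → F.SmA D u k →
  ∃ (b : Cube n.pred G → A) (S0 : Sys (ZMod p) ι A), F.SmA D b (C * k) ∧ F.Prp D S0 ∧
    sz S0 ≤ C * k ∧ ∀ q, u q - cD n b q ∈ F.idl S0 D

/-- Evaluation at a random point of a coset keeps regularity. -/
def EVAL (d : ℕ) : Prop := ∀ η'' η' : ℝ, 0 < η'' → 0 < η' → ∃ η : ℝ, 0 < η ∧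
  ∀ (A : Type) [CommRing A] [Algebra (ZMod p) A] [Finite A] (F : Frame (ZMod p) ι A)
  (J : Finset ι) (i : ι) (W B : Submodule (ZMod p) A) (U : Submodule (ZMod p) (Dual (ZMod p) A))
  [Fintype U] (l0 : Dual (ZMod p) A) (k z : ℝ), i ∉ J → J.Nonempty → J.card + 1 ≤ d → 0 ≤ z →
  W ≤ F.X (insert i J) → F.RR η z (insert i J) W ⊥ → (finrank (ZMod p) W : ℝ) ≤ k →
  (finrank (ZMod p) B : ℝ) ≤ k →
  (finrank (ZMod p) (Dual (ZMod p) A) : ℝ) ≤ finrank (ZMod p) U + k →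
  ∃ zf : U → ℝ, (∀ u, 0 ≤ zf u) ∧ 𝔼 u, zf u ≤ z + η' * k ∧ ∀ (u : U) E, F.Prp J E →
    (finrank (ZMod p) (W ⊓ (B ⊔ F.idl E J).comap (F.ev i (l0 + u)) :
      Submodule (ZMod p) A) : ℝ) ≤ zf u + η'' * sz E

/-- The colon lemma. -/
def COL (d : ℕ) : Prop := Shp fun η C η' => ∀ (A : Type) [CommRing A] [Algebra (ZMod p) A]
  [Finite A] (F : Frame (ZMod p) ι A) (D I : Finset ι) (Q : Submodule (ZMod p) A)
  (S : Sys (ZMod p) ι A) (T : A) (k δ z : ℝ), D.card ≤ d → I.Nonempty → I ⊂ D → 0 ≤ z →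
  Q ≤ F.X I → F.Prp D S → F.Reg η z S → F.RR η z I Q (S I) → (finrank (ZMod p) Q : ℝ) ≤ k →
  sz S ≤ k → T ∈ Q * F.X (D \ I) → F.Nr D (F.idl S D) T δ →
  ∃ y ∈ F.X I * F.idl S (D \ I), F.SmC D I (T - y) (C * (δ + z) + η' * k)

/-- The intersection lemma. -/
def INT (d : ℕ) : Prop := Shp fun η C η' => ∀ (A : Type) [CommRing A] [Algebra (ZMod p) A]
  [Finite A] (F : Frame (ZMod p) ι A) (D Act : Finset ι) (S : Sys (ZMod p) ι A)
  (w : Finset ℕ) (Sl : ℕ → Sys (ZMod p) ι A) (T : A) (k δ z : ℝ), D.card ≤ d → 0 ≤ z →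
  Act.card < w.card → F.Prp D S → F.Reg η z S → sz S ≤ k →
  (∀ l ∈ w, F.Prp D (Sl l) ∧ sz (Sl l) ≤ k ∧ (∀ J, Sl l J ≠ ⊥ → J ⊆ Act) ∧
    (∀ J, F.RR η z J (Sl l J) (S J ⊔ ⨆ l' ∈ w.erase l, Sl l' J)) ∧
    F.Nr D (F.idl (S ⊔ Sl l) D) T δ) →
  F.Nr D (F.idl S D) T (C * (δ + z) + η' * k)

/-- Approximate cocycles in a regular ideal are close to cocycles in it. -/
def FIX (n d : ℕ) : Prop := Shp fun η C η' => ∀ (A : Type) [CommRing A] [Algebra (ZMod p) A]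
  [Finite A] (F : Frame (ZMod p) ι A) (D : Finset ι) (S : Sys (ZMod p) ι A) (G : Type)
  [AddCommGroup G] [Fintype G] (y : Cube n G → A) (k δ z : ℝ), D.card ≤ d → 0 ≤ z →
  F.Prp D S → NoSl S → F.Reg η z S → sz S ≤ k → (∀ q, y q ∈ F.idl S D) → F.SmA D (cd n y) δ →
  ∃ s : Cube n G → A, (∀ q, s q ∈ F.idl S D) ∧ F.SmA D s (C * (δ + z) + η' * k) ∧
    cd n (y - s) = 0

/-- Approximate cocycles modulo a regular ideal are close to cocycles modulo it. -/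
def REL (n d : ℕ) : Prop := Shp fun η C η' => ∀ (A : Type) [CommRing A] [Algebra (ZMod p) A]
  [Finite A] (F : Frame (ZMod p) ι A) (D : Finset ι) (S : Sys (ZMod p) ι A) (G : Type)
  [AddCommGroup G] [Fintype G] (u : Cube n G → A) (y : Cube (n + 1) G → A) (k δ z : ℝ),
  D.card ≤ d → 0 ≤ z → F.Prp D S → NoSl S → F.Reg η z S → sz S ≤ k →
  (∀ q, y q ∈ F.idl S D) → F.SmA D (cd n u - y) δ →
  ∃ s : Cube n G → A, F.SmA D s (C * (δ + z) + η' * k) ∧ ∀ q, cd n (u - s) q ∈ F.idl S D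

/-- Additive maps with values near a regular ideal. -/
def RELLIN (d : ℕ) : Prop := Shp fun η C η' => ∀ (A : Type) [CommRing A] [Algebra (ZMod p) A]
  [Finite A] (F : Frame (ZMod p) ι A) (D : Finset ι) (S : Sys (ZMod p) ι A) (G : Type)
  [AddCommGroup G] [Fintype G] (u : G →+ A) (k δ z : ℝ), D.card ≤ d → 0 ≤ z →
  F.Prp D S → F.Reg η z S → sz S ≤ k → (∀ g, F.Nr D (F.idl S D) (u g) δ) →
  ∃ E, F.Prp D E ∧ sz E ≤ C * (δ + z) + η' * k ∧ ∀ g, u g ∈ F.idl S D ⊔ F.idl E D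

/-- Strong regularisation of `S` relative to a fixed system `B`. -/
def REG : Prop := ∀ (ε : ℝ) (h : ℕ → ℝ), 0 < ε → (∀ m, 0 < h m) → ∃ M : ℕ,
  ∀ (A : Type) [CommRing A] [Algebra (ZMod p) A] [Finite A] (F : Frame (ZMod p) ι A)
  (D : Finset ι) (B S : Sys (ZMod p) ι A) (κ : ℝ), F.Prp D B → F.Prp D S → sz S ≤ κ →
  ∃ (S' : Sys (ZMod p) ι A) (m : ℕ), m ≤ M ∧ F.Prp D S' ∧ sz S' ≤ m * κ ∧
    (∀ J, S J ≤ F.idl (B ⊔ S') J) ∧ ∀ J, F.RR (h m) (ε * κ) J (S' J) (B J)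

/-- Removing the slices of a system by a multiplicative family of projections. -/
def PROJ : Prop := ∀ (A : Type) [CommRing A] [Algebra (ZMod p) A] [Finite A]
  (F : Frame (ZMod p) ι A) (S : Sys (ZMod p) ι A), (∀ J, S J ≤ F.X J) →
  ∃ P : Finset ι → A →ₗ[ZMod p] A, (∀ J, ∀ x ∈ F.X J, P J x ∈ F.X J) ∧
    (∀ J J', Disjoint J J' → ∀ x ∈ F.X J, ∀ y ∈ F.X J', P (J ∪ J') (x * y) = P J x * P J' y) ∧
    (∀ i, ∀ x ∈ S {i}, P {i} x = 0) ∧
    ∀ J, ∀ x ∈ F.X J, x - P J x ∈ ⨆ i, ⨆ _ : i ∈ J, S {i} * F.X (J.erase i)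

/-- One pass: a small cocycle is a coboundary modulo a fixed ideal and a much smaller error. -/
def APPROX (n d : ℕ) : Prop := ∀ ε : ℝ, 0 < ε → ∃ C : ℝ, 0 ≤ C ∧ ∀ (A : Type) [CommRing A]
  [Algebra (ZMod p) A] [Finite A] (F : Frame (ZMod p) ι A) (D : Finset ι) (G : Type)
  [AddCommGroup G] [Fintype G] (u : Cube n G → A) (k : ℝ), D.card ≤ d → cd n u = 0 →
  F.SmA D u k → ∃ (b : Cube n.pred G → A) (y : Cube n G → A) (S0 : Sys (ZMod p) ι A),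
    F.SmA D b (C * k) ∧ F.Prp D S0 ∧ sz S0 ≤ C * k ∧ (∀ q, y q ∈ F.idl S0 D) ∧
    F.SmA D (u - cD n b - y) (ε * k)

/-- Facts on the vanishing probability. -/
structure ZP : Prop where
  cons : ∀ (A : Type) [CommRing A] [Algebra (ZMod p) A] [Fintype (Dual (ZMod p) A)]
    (F : Frame (ZMod p) ι A) (i : ι) (L : List ι) (f : A), i ∉ L →
    F.zp (i :: L) f = 𝔼 l, F.zp L (F.ev i l f)
  add : ∀ (A : Type) [CommRing A] [Algebra (ZMod p) A] [Fintype (Dual (ZMod p) A)]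
    (F : Frame (ZMod p) ι A) (L : List ι) (f g : A), L.Nodup →
    F.zp L f * F.zp L g ≤ F.zp L (f + g)
  sm : ∀ (A : Type) [CommRing A] [Algebra (ZMod p) A] [Finite A] [Fintype (Dual (ZMod p) A)]
    (F : Frame (ZMod p) ι A) (L : List ι) (j : ι) (f : A) (r : ℝ), L.Nodup → j ∉ L →
    F.Sm (insert j L.toFinset) f r → (p : ℝ) ^ (-r) ≤ F.zp L f

def St_ZP : Prop := ZP p ι
def St_REG : Prop := REG p ι
def St_PROJ : Prop := PROJ p ι
def St_PRAR : Prop := ZP p ι → ∀ d, PRAR p ι d → EX p ι 0 d → PRAR p ι (d + 1)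
def St_EVAL : Prop := ZP p ι → ∀ d, PRAR p ι d → EX p ι 0 d → EVAL p ι d
def St_COL : Prop := ∀ d, EVAL p ι d → COL p ι d → INT p ι d → RELLIN p ι d → COL p ι (d + 1)
def St_INT : Prop := ∀ d, COL p ι d → INT p ι d
def St_FIX : Prop := ∀ n d, COL p ι (d + 1) → REL p ι n d → FIX p ι n (d + 1)
def St_REL : Prop := ∀ n d, FIX p ι (n + 1) d → EX p ι (n + 1) d → REL p ι n d
def St_RELLIN : Prop := PROJ p ι → ∀ d, FIX p ι 0 d → EX p ι 0 d → RELLIN p ι d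
def St_APPROX : Prop := St_ENG → REG p ι → ∀ n d, COL p ι d → APPROX p ι n d
def St_HALF : Prop := REG p ι → PROJ p ι → ∀ n d, APPROX p ι n d → FIX p ι n d → EX p ι n d
def St_BASE : Prop := PRAR p ι 0 ∧ COL p ι 0 ∧ ∀ n, FIX p ι n 0
def St_FINAL : Prop := ∀ d : ℕ, ZP p (Fin (d + 1)) → PRAR p (Fin (d + 1)) (d + 1) →
  EX p (Fin (d + 1)) 1 (d + 1) → ∀ R : UD.RC, R.A = UD.PolyA → UD.ADc R p (d + 1)

end Pool.Agent.Lib.AD
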