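import Pool.Agent.Lib.AD.Api
import Pool.Agent.Lib.AD.Blue

/-! Removing the slices of a proper system: consequences of `PROJ`. -/

noncomputable section

open Finset Module
open scoped BigOperators

namespace Pool.Agent.Lib.AD

theorem slp {p : ℕ} [Fact p.Prime] {ι : Type} [Fintype ι] [DecidableEq ι] (hP : PROJ p ι)
    {A : Type} [CommRing A] [Algebra (ZMod p) A] [Finite A] (F : Frame (ZMod p) ι A)
    {D : Finset ι} {S : Sys (ZMod p) ι A} (hS : F.Prp D S) :
    ∃ (P : A →ₗ[ZMod p] A) (S' : Sys (ZMod p) ι A), F.Prp D S' ∧ NoSl S' ∧ sz S' ≤ sz S ∧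
      (∀ f ∈ F.idl S D, P f ∈ F.idl S' D) ∧ F.idl S' D ≤ F.idl S D ∧
      (∀ f ∈ F.X D, f - P f ∈ F.idl S D) ∧ (∀ f r, F.Sm D f r → F.Sm D (P f) r) ∧
      ∀ η z : ℝ, 0 ≤ η → F.Reg η z S → F.Reg η (z + η * sz S) S' := by
  have : FiniteDimensional (ZMod p) A := Module.Finite.of_finite
  obtain ⟨P, hX, hmul, hsl, hdiff⟩ := hP A F S hS.le
  have hprp : ∀ (E : Sys (ZMod p) ι A), F.Prp D E → F.Prp D fun J => (E J).map (P J) := by
    intro E hE J
    refine ⟨?_, fun h => (hE J).2 fun e => h (by simp [e])⟩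
    rintro _ ⟨x, hx, rfl⟩
    exact hX J x (hE.le J hx)
  have hidl : ∀ (E : Sys (ZMod p) ι A), F.Prp D E → ∀ f ∈ F.idl E D,
      P D f ∈ F.idl (fun J => (E J).map (P J)) D := by
    intro E hE
    have : F.idl E D ≤ (F.idl (fun J => (E J).map (P J)) D).comap (P D) := by
      refine F.idl_le fun J hJ => Submodule.mul_le.2 fun x hx y hy => ?_
      have h1 := hmul J (D \ J) disjoint_sdiff x (hE.le J hx) y hy
      rw [union_sdiff_of_subset hJ] at h1
      rw [Submodule.mem_comap, h1]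
      exact F.le_idl (fun J => (E J).map (P J)) hJ
        (Submodule.mul_mem_mul (Submodule.mem_map_of_mem hx) (hX _ y hy))
    exact fun f hf => this hf
  have hd : ∀ (J : Finset ι) (T : Sys (ZMod p) ι A), (∀ i ∈ J, S {i} ≤ T {i}) →
      ∀ x ∈ F.X J, x - P J x ∈ F.idl T J := by
    intro J T hT x hx
    refine (iSup₂_le fun i hi => ?_ : (⨆ i, ⨆ _ : i ∈ J, S {i} * F.X (J.erase i)) ≤ F.idl T J)
      (hdiff J x hx)
    have := F.le_idl T (singleton_subset_iff.2 hi)
    rw [sdiff_singleton_eq_erase] at this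
    exact (mul_le_mul_left (hT i hi) _).trans this
  refine ⟨P D, fun J => (S J).map (P J), hprp S hS, fun i => ?_, sz_map S P, hidl S hS, ?_,
    hd D S fun _ _ => le_rfl, ?_, ?_⟩
  · rw [eq_bot_iff]
    rintro _ ⟨x, hx, rfl⟩
    exact (Submodule.mem_bot _).2 (hsl i x hx)
  · refine F.idl_le_idl fun J _ => ?_
    rintro _ ⟨x, hx, rfl⟩
    have : P J x = x - (x - P J x) := by abel
    rw [this]
    exact sub_mem (F.self_le_idl S J hx) (hd J S (fun _ _ => le_rfl) x (hS.le J hx))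
  · rintro f r ⟨E, h1, h2, h3⟩
    exact ⟨_, hprp E h1, (sz_map E P).trans h2, hidl E h1 f h3⟩
  · intro η z hη hR J E hE
    have hz : 0 ≤ z := (Nat.cast_nonneg _).trans (hR J).inf
    have hs := sz_nonneg S
    have hs' := sz_nonneg E
    by_cases h1 : ∃ i, J = {i}
    · obtain ⟨i, rfl⟩ := h1
      have : (S {i}).map (P {i}) = ⊥ := by
        rw [eq_bot_iff]
        rintro _ ⟨x, hx, rfl⟩
        exact (Submodule.mem_bot _).2 (hsl i x hx)
      beta_reduce
      rw [this, bot_inf_eq, finrank_bot, Nat.cast_zero]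
      positivity
    · let T : Sys (ZMod p) ι A := fun J' => if J' ⊂ J then S J' else ⊥
      have hTS : T ≤ S := fun J' => by simp only [T]; split_ifs <;> simp
      have hT : F.Prp J T := fun J' => ⟨(hTS J').trans (hS.le J'), fun h => by
        by_cases c : J' ⊂ J
        · exact ⟨((hS J').2 fun e => h (by simp [T, e])).1, c⟩
        · exact absurd (by simp [T, c]) h⟩
      have h2 := hR J (E ⊔ T) (hE.sup hT)
      have h3 : ((S J).map (P J) ⊓ (⊥ ⊔ F.idl E J) : Submodule (ZMod p) A) ≤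
          (S J ⊓ (⊥ ⊔ F.idl (E ⊔ T) J) : Submodule (ZMod p) A).map (P J) := by
        rintro _ ⟨⟨x, hx, rfl⟩, hy⟩
        refine ⟨x, ⟨hx, ?_⟩, rfl⟩
        rw [bot_sup_eq] at hy ⊢
        have e : x = P J x + (x - P J x) := by abel
        rw [F.idl_sup, SetLike.mem_coe, e]
        refine Submodule.add_mem_sup hy (hd J T (fun i hi => ?_) x (hS.le J hx))
        have : ({i} : Finset ι) ⊂ J :=
          (singleton_subset_iff.2 hi).ssubset_of_ne fun e => h1 ⟨i, e.symm⟩
        simp [T, this]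
      have h4 := (Submodule.finrank_mono h3).trans (Submodule.finrank_map_le _ _)
      have h5 : sz (E ⊔ T) ≤ sz E + sz S := (sz_sup E T).trans (by linarith [sz_mono hTS])
      have h6 := mul_le_mul_of_nonneg_left h5 hη
      have h7 : (finrank (ZMod p) ((S J).map (P J) ⊓ (⊥ ⊔ F.idl E J) : Submodule (ZMod p) A) : ℝ) ≤
          finrank (ZMod p) (S J ⊓ (⊥ ⊔ F.idl (E ⊔ T) J) : Submodule (ZMod p) A) := by
        exact_mod_cast h4
      beta_reduce
      linarith

end Pool.Agent.Lib.AD
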