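import Pool.Agent.Lib.AD.LEV
import Pool.Agent.Lib.AD.SLP

/-! Halving the size of a cocycle, and the exact statement by iteration. -/

noncomputable section

open Finset Module
open scoped BigOperators

namespace Pool.Agent.Lib.AD

variable (p : ℕ) [Fact p.Prime] (ι : Type) [Fintype ι] [DecidableEq ι]

/-- one halving step -/
def HLF (n d : ℕ) : Prop := ∃ C : ℝ, 0 ≤ C ∧ ∀ (A : Type) [CommRing A] [Algebra (ZMod p) A]
  [Finite A] (F : Frame (ZMod p) ι A) (D : Finset ι) (G : Type) [AddCommGroup G] [Fintype G]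
  (u : Cube n G → A) (k : ℝ), D.card ≤ d → cd n u = 0 → F.SmA D u k →
  ∃ (b : Cube n.pred G → A) (S0 : Sys (ZMod p) ι A) (e : Cube n G → A), F.SmA D b (C * k) ∧
    F.Prp D S0 ∧ sz S0 ≤ C * k ∧ cd n e = 0 ∧ F.SmA D e (k / 2) ∧
    ∀ q, u q - cD n b q - e q ∈ F.idl S0 D

theorem hlf_of (hR : REG p ι) (hP : PROJ p ι) (n d : ℕ) (hA : APPROX p ι n d)
    (hF : FIX p ι n d) : HLF p ι n d := by
  obtain ⟨CF, hCF, hF⟩ := hF
  obtain ⟨a, ha⟩ : ∃ a : ℝ, a = 3 * (n + 1) := ⟨_, rfl⟩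
  have a0 : 0 ≤ a := by rw [ha]; positivity
  obtain ⟨Ca, hCa, hA⟩ := hA (1 / (8 * (1 + CF * a))) (by positivity)
  choose η hη hF using fun m : ℕ => hF (1 / (8 * (m * Ca + 1))) (by positivity)
  obtain ⟨M, hR⟩ := hR (1 / (8 * (CF * Ca + 1)))
    (fun m => min (η m) (1 / (8 * (CF * (m * Ca) + 1)))) (by positivity)
    (fun m => lt_min (hη m) (by positivity))
  refine ⟨(M + 1) * Ca, by positivity, fun A _ _ _ F D G _ _ u k hD hu hk => ?_⟩
  have : FiniteDimensional (ZMod p) A := Module.Finite.of_finite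
  have k0 := hk.nonneg
  have hCk : 0 ≤ Ca * k := by positivity
  obtain ⟨b, y, S0, hb, hS0, sS0, hy, he⟩ := hA A F D G u k hD hu hk
  obtain ⟨S', m, hm, hS', sS', hle, hrr⟩ := hR A F D ⊥ S0 (Ca * k) (Frame.prp_bot D) hS0 sS0
  have hm' : (m : ℝ) ≤ M := by exact_mod_cast hm
  obtain ⟨P, S'', p1, p2, p3, p4, p5, p6, p7, p8⟩ := slp hP F hS'
  have hy' : ∀ q, y q ∈ F.idl S' D := fun q =>
    F.idl_le_idl (fun J _ => by simpa using hle J) (hy q)
  obtain ⟨h, hh⟩ : ∃ h, h = min (η m) (1 / (8 * (CF * (m * Ca) + 1))) := ⟨_, rfl⟩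
  rw [← hh] at hrr
  have h0 : 0 ≤ h := hh ▸ (lt_min (hη m) (by positivity)).le
  have hPe : F.SmA D (fun q => P ((u - cD n b - y) q)) (1 / (8 * (1 + CF * a)) * k) :=
    he.imp fun q r => p7 _ r
  have hcd : ∀ w : Cube n G → A, cd n (fun q => P (w q)) = fun q => P (cd n w q) :=
    fun w => cd_comp n w P.toAddMonoidHom
  have e0 : cd n (u - cD n b - y) = -cd n y := by rw [cd_sub, cd_sub, hu, cd_cD]; abel
  have hsz0 := sz_nonneg S'
  obtain ⟨s, s1, s2, s3⟩ := hF m A F D S'' G (fun q => P (y q)) (m * (Ca * k))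
    (a * (1 / (8 * (1 + CF * a)) * k)) (1 / (8 * (CF * Ca + 1)) * (Ca * k) + h * sz S') hD
    (by positivity) p1 p2 ((p8 h _ h0 hrr).mono (hh ▸ min_le_left _ _) le_rfl le_rfl)
    (p3.trans sS') (fun q => p4 _ (hy' q)) (by
      have := hPe.cd.neg
      rw [hcd, e0, ← ha] at this
      rw [hcd]
      convert this using 1
      funext q
      simp)
  refine ⟨b, S', (fun q => P ((u - cD n b - y) q)) + s, hb.mono (by nlinarith), hS',
    sS'.trans (by nlinarith), ?_, (hPe.add s2).mono ?_, fun q => ?_⟩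
  · rw [cd_sub, hcd] at s3
    rw [cd_add, hcd, e0, ← sub_eq_zero.1 s3]
    funext q
    simp
  · have e1 : 1 / (8 * (1 + CF * a)) * k + CF * (a * (1 / (8 * (1 + CF * a)) * k)) = k / 8 := by
      field_simp
    have key : ∀ x : ℝ, 0 ≤ x → x * (1 / (8 * (x + 1))) * k ≤ k / 8 := fun x hx => by
      have : x * (1 / (8 * (x + 1))) ≤ 1 / 8 := by
        rw [mul_one_div, div_le_div_iff₀ (by positivity) (by positivity)]; linarith
      nlinarith
    have e2 := key (CF * Ca) (by positivity)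
    have e3 := key (m * Ca) (by positivity)
    have e4 := key (CF * (m * Ca)) (by positivity)
    have e5 : h * sz S' ≤ 1 / (8 * (CF * (m * Ca) + 1)) * (m * (Ca * k)) :=
      mul_le_mul (hh ▸ min_le_right _ _) sS' hsz0 (by positivity)
    nlinarith [mul_le_mul_of_nonneg_left e5 hCF]
  · have hX : u q - cD n b q ∈ F.X D := sub_mem (hk.mem_X q) (hb.cD.mem_X q)
    have e1 : u q - cD n b q - ((fun q => P ((u - cD n b - y) q)) + s) q =
        (u q - cD n b q - P (u q - cD n b q)) + (P (y q) - s q) := by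
      simp only [Pi.add_apply, Pi.sub_apply, map_sub]; abel
    rw [e1]
    exact add_mem (p6 _ hX) (p5 (sub_mem (p4 _ (hy' q)) (s1 q)))

theorem ex_of_hlf (n d : ℕ) (h : HLF p ι n d) : EX p ι n d := by
  obtain ⟨C, hC, h⟩ := h
  refine ⟨2 * C, by positivity, fun A _ _ _ F D G _ _ u k hD hu hk => ?_⟩
  have : FiniteDimensional (ZMod p) A := Module.Finite.of_finite
  have hc : (0 : ℝ) < Fintype.card (Cube n G) := by exact_mod_cast Fintype.card_pos
  obtain ⟨m, hm⟩ := pow_unbounded_of_one_lt (k * Fintype.card (Cube n G)) (one_lt_two (α := ℝ))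
  induction m generalizing u k with
  | zero =>
    have k0 := hk.nonneg
    obtain ⟨r, h1, h2⟩ := hk
    refine ⟨0, ⊥, Frame.smA_zero (by positivity), Frame.prp_bot D, sz_bot.trans_le (by positivity),
      fun q => ?_⟩
    have e1 : r q ≤ ∑ q, r q := single_le_sum (fun q _ => (h1 q).nonneg) (mem_univ q)
    rw [expect_eq_sum_div_card, card_univ, div_le_iff₀ hc] at h2
    have e2 : cD n (0 : Cube n.pred G → A) = 0 := by
      cases n with
      | zero => rfl
      | succ n => exact cd_zero n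
    rw [(h1 q).eq_zero_of_lt_one (by linarith [pow_zero (2 : ℝ)]), e2]
    simp
  | succ m ih =>
    obtain ⟨b, S0, e, a1, a2, a3, a4, a5, a6⟩ := h A F D G u k hD hu hk
    obtain ⟨b', S0', c1, c2, c3, c4⟩ := ih e (k / 2) a4 a5 (by rw [pow_succ] at hm; linarith)
    refine ⟨b + b', S0 ⊔ S0', (a1.add c1).mono (by linarith), a2.sup c2,
      (sz_sup _ _).trans (by linarith), fun q => ?_⟩
    have e1 : u q - cD n (b + b') q = (u q - cD n b q - e q) + (e q - cD n b' q) := by
      rw [LEVb.cD_add]; simp only [Pi.add_apply]; abel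
    rw [e1, F.idl_sup]
    exact Submodule.add_mem_sup (a6 q) (c4 q)

theorem stHALF : St_HALF p ι := fun hR hP n d hA hF => ex_of_hlf p ι n d (hlf_of p ι hR hP n d hA hF)

end Pool.Agent.Lib.AD
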