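import Pool.Agent.Lib.AD.Blue
import Pool.Agent.Lib.AD.LvApi

/-! The intersection lemma from the colon lemma. -/

noncomputable section

open Finset Module
open scoped BigOperators

set_option linter.unusedSectionVars false

namespace Pool.Agent.Lib.AD

namespace IntB

open Lv

section basic

variable {K ι A : Type} [Field K] [DecidableEq ι] [Fintype ι] [CommRing A] [Algebra K A]
  [FiniteDimensional K A] {F : Frame K ι A}

lemma rr_mono {η η' z z' : ℝ} {J : Finset ι} {W W' B B' : Submodule K A} (h : F.RR η z J W B)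
    (h1 : η ≤ η') (h2 : z ≤ z') (hW : W' ≤ W) (hB : B' ≤ B) : F.RR η' z' J W' B' := by
  intro E hE
  have h3 : (finrank K (W' ⊓ (B' ⊔ F.idl E J) : Submodule K A) : ℝ) ≤
      finrank K (W ⊓ (B ⊔ F.idl E J) : Submodule K A) := by
    exact_mod_cast Submodule.finrank_mono (inf_le_inf hW (sup_le_sup_right hB _))
  have h4 := mul_le_mul_of_nonneg_right h1 (sz_nonneg E)
  linarith [h E hE]

lemma dim_sup_inf (W B I : Submodule K A) :
    finrank K ((W ⊔ B) ⊓ I : Submodule K A) ≤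
      finrank K (W ⊓ (B ⊔ I) : Submodule K A) + finrank K (B ⊓ I : Submodule K A) := by
  have h0 : (W ⊔ B) ⊓ I ≤ ((W ⊓ (B ⊔ I)) ⊔ B) ⊓ I := by
    rintro x ⟨hx, hI⟩
    obtain ⟨w, hw, b, hb, rfl⟩ := Submodule.mem_sup.1 hx
    refine ⟨Submodule.add_mem_sup ⟨hw, ?_⟩ hb, hI⟩
    have : w = -b + (w + b) := by abel
    rw [this]
    exact Submodule.add_mem_sup (neg_mem hb) hI
  have h1 := Submodule.finrank_mono h0
  have h2 := Submodule.finrank_sup_add_finrank_inf_eq ((W ⊓ (B ⊔ I)) ⊔ B) I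
  have h3 := Submodule.finrank_sup_add_finrank_inf_eq (W ⊓ (B ⊔ I)) B
  have h4 := Submodule.finrank_sup_add_finrank_inf_eq B I
  have h5 : finrank K (B ⊔ I : Submodule K A) ≤
      finrank K (((W ⊓ (B ⊔ I)) ⊔ B) ⊔ I : Submodule K A) :=
    Submodule.finrank_mono (sup_le_sup_right le_sup_right _)
  omega

lemma rr_sup {η η' z z' : ℝ} {J : Finset ι} {W B : Submodule K A} (h : F.RR η z J W B)
    (h' : F.RR η' z' J B ⊥) : F.RR (η + η') (z + z') J (B ⊔ W) ⊥ := by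
  intro E hE
  have h1 := h E hE
  have h2 := h' E hE
  rw [bot_sup_eq] at h2 ⊢
  have h3 : (finrank K ((W ⊔ B) ⊓ F.idl E J : Submodule K A) : ℝ) ≤
      finrank K (W ⊓ (B ⊔ F.idl E J) : Submodule K A) +
        finrank K (B ⊓ F.idl E J : Submodule K A) := by exact_mod_cast dim_sup_inf W B _
  rw [sup_comm B W]
  linarith

lemma nr_mono {D : Finset ι} {Y Y' : Submodule K A} {f : A} {r s : ℝ} (h : F.Nr D Y f r)
    (hY : Y ≤ Y') (hs : r ≤ s) : F.Nr D Y' f s := by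
  obtain ⟨y, hy, h⟩ := h
  exact ⟨y, hY hy, sm_mono h hs⟩

lemma nr_nonneg {D : Finset ι} {Y : Submodule K A} {f : A} {r : ℝ} (h : F.Nr D Y f r) : 0 ≤ r := by
  obtain ⟨y, -, h⟩ := h
  exact sm_nonneg h

lemma smc_sm {D I : Finset ι} {f : A} {r : ℝ} (h : F.SmC D I f r) : F.Sm D f r := by
  obtain ⟨E, h1, -, h2, h3⟩ := h
  exact ⟨E, h1, h2, h3⟩

lemma res_le (S : Sys K ι A) (J0 : Finset ι) : res S J0 ≤ S := by
  intro J
  unfold res
  split_ifs
  · exact le_rfl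
  · exact bot_le

lemma upd_le (S : Sys K ι A) (J : Finset ι) : Function.update S J ⊥ ≤ S := by
  intro J'
  by_cases e : J' = J
  · subst e; simp
  · simp [e]

lemma idl_split (S S1 : Sys K ι A) (D J : Finset ι) :
    F.idl (S ⊔ S1) D ≤ F.idl (S ⊔ Function.update S1 J ⊥) D ⊔ S1 J * F.X (D \ J) := by
  rw [idl_sup, idl_sup]
  refine sup_le (le_sup_of_le_left le_sup_left) ((idl_le_iff F).2 fun J' hJ' => ?_)
  by_cases e : J' = J
  · subst e; exact le_sup_right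
  · refine le_sup_of_le_left (le_sup_of_le_right ?_)
    have := mul_le_idl F (Function.update S1 J ⊥) hJ'
    rwa [Function.update_of_ne e] at this

lemma mul_idl_res (B S : Sys K ι A) {D J : Finset ι} (hJ : J ⊆ D) :
    F.X J * F.idl (B ⊔ S) (D \ J) ≤ F.idl (B ⊔ res S (D \ J)) D := by
  have h1 : F.idl (B ⊔ S) (D \ J) ≤ F.idl (B ⊔ res S (D \ J)) (D \ J) := by
    refine (idl_le_iff F).2 fun J' hJ' => ?_
    have := mul_le_idl F (B ⊔ res S (D \ J)) hJ'
    simpa [res, hJ'] using this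
  have h2 := idl_mul F (B ⊔ res S (D \ J)) (J := D \ J) (J' := J) sdiff_disjoint
  rw [sdiff_union_of_subset hJ] at h2
  rw [mul_comm]
  exact (mul_le_mul_left h1 _).trans h2

end basic

variable (p : ℕ) [Fact p.Prime] (ι : Type) [Fintype ι] [DecidableEq ι]

/-- The statement with at most `a` active slots. -/
def Ia (d a : ℕ) : Prop := Shp fun η C η' => ∀ (A : Type) [CommRing A] [Algebra (ZMod p) A]
  [Finite A] (F : Frame (ZMod p) ι A) (D Act : Finset ι) (S : Sys (ZMod p) ι A)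
  (w : Finset ℕ) (Sl : ℕ → Sys (ZMod p) ι A) (T : A) (k δ z : ℝ), Act.card ≤ a →
  D.card ≤ d → 0 ≤ z →
  Act.card < w.card → F.Prp D S → F.Reg η z S → sz S ≤ k →
  (∀ l ∈ w, F.Prp D (Sl l) ∧ sz (Sl l) ≤ k ∧ (∀ J, Sl l J ≠ ⊥ → J ⊆ Act) ∧
    (∀ J, F.RR η z J (Sl l J) (S J ⊔ ⨆ l' ∈ w.erase l, Sl l' J)) ∧
    F.Nr D (F.idl (S ⊔ Sl l) D) T δ) →
  F.Nr D (F.idl S D) T (C * (δ + z) + η' * k)

/-- One sample has at most `m` types. -/
def Ib (d a m : ℕ) : Prop := Shp fun η C η' => ∀ (A : Type) [CommRing A] [Algebra (ZMod p) A]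
  [Finite A] (F : Frame (ZMod p) ι A) (D Act : Finset ι) (S : Sys (ZMod p) ι A)
  (w : Finset ℕ) (Sl : ℕ → Sys (ZMod p) ι A) (T : A) (k δ z : ℝ) (l0 : ℕ)
  (Ts : Finset (Finset ι)), l0 ∈ w → Ts.card ≤ m → (∀ J, Sl l0 J ≠ ⊥ → J ∈ Ts) →
  Act.card ≤ a → D.card ≤ d → 0 ≤ z →
  Act.card < w.card → F.Prp D S → F.Reg η z S → sz S ≤ k →
  (∀ l ∈ w, F.Prp D (Sl l) ∧ sz (Sl l) ≤ k ∧ (∀ J, Sl l J ≠ ⊥ → J ⊆ Act) ∧
    (∀ J, F.RR η z J (Sl l J) (S J ⊔ ⨆ l' ∈ w.erase l, Sl l' J)) ∧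
    F.Nr D (F.idl (S ⊔ Sl l) D) T δ) →
  F.Nr D (F.idl S D) T (C * (δ + z) + η' * k)

lemma ib_zero (d a : ℕ) : Ib p ι d a 0 := by
  refine ⟨1, zero_le_one, fun η' hη' => ⟨1, one_pos, ?_⟩⟩
  intro A _ _ _ F D Act S w Sl T k δ z l0 Ts hl0 hTs hT _ _ hz _ _ _ hk h
  have e : Sl l0 = ⊥ := by
    funext J
    by_contra e
    have := hT J e
    rw [card_eq_zero.1 (Nat.le_zero.1 hTs)] at this
    simp at this
  have h1 := (h l0 hl0).2.2.2.2
  rw [e, sup_bot_eq] at h1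
  have hk0 : 0 ≤ k := (sz_nonneg S).trans hk
  refine nr_mono h1 le_rfl ?_
  nlinarith [mul_nonneg hη'.le hk0]

lemma ia_zero (d : ℕ) : Ia p ι d 0 := by
  obtain ⟨C, hC, h⟩ := ib_zero p ι d 0
  refine ⟨C, hC, fun η' hη' => ?_⟩
  obtain ⟨η, hη, h⟩ := h η' hη'
  refine ⟨η, hη, ?_⟩
  intro A _ _ _ F D Act S w Sl T k δ z ha hD hz hw hS hR hk hl
  obtain ⟨l0, hl0⟩ : w.Nonempty := card_pos.1 (by omega)
  refine h A F D Act S w Sl T k δ z l0 ∅ hl0 (by simp) (fun J e => ?_) ha hD hz hw hS hR hk hl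
  have h1 := (hl l0 hl0).2.2.1 J e
  have h2 := ((hl l0 hl0).1 J).2 e
  rw [card_eq_zero.1 (Nat.le_zero.1 ha), subset_empty] at h1
  exact absurd h2.1 (by simp [h1])

lemma ia_of_ib (d a : ℕ) (h : Ib p ι d a (Fintype.card (Finset ι))) : Ia p ι d a := by
  obtain ⟨C, hC, h⟩ := h
  refine ⟨C, hC, fun η' hη' => ?_⟩
  obtain ⟨η, hη, h⟩ := h η' hη'
  refine ⟨η, hη, ?_⟩
  intro A _ _ _ F D Act S w Sl T k δ z ha hD hz hw hS hR hk hl
  obtain ⟨l0, hl0⟩ : w.Nonempty := card_pos.1 (by omega)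
  exact h A F D Act S w Sl T k δ z l0 univ hl0 (by simp) (fun J _ => mem_univ J) ha hD hz hw hS
    hR hk hl

lemma ib_succ (d a m : ℕ) (hc : COL p ι d) (ha : Ia p ι d a) (hb : Ib p ι d (a + 1) m) :
    Ib p ι d (a + 1) (m + 1) := by
  obtain ⟨C1, hC1, hc⟩ := hc
  obtain ⟨C2, hC2, ha⟩ := ha
  obtain ⟨C3, hC3, hb⟩ := hb
  refine ⟨C3 * (1 + C2 * (3 * C1 + 2)), by positivity, fun η' hη' => ?_⟩
  obtain ⟨e1, he1, hc⟩ := hc (η' / (3 * (3 * C3 * C2 + 1))) (by positivity)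
  obtain ⟨e2, he2, ha⟩ := ha (η' / (3 * (2 * C3 + 1))) (by positivity)
  obtain ⟨e3, he3, hb⟩ := hb (η' / 3) (by positivity)
  refine ⟨min (e1 / 3) (min (e2 / 2) e3), by positivity, ?_⟩
  set η := min (e1 / 3) (min (e2 / 2) e3) with hη
  have hη0 : 0 < η := by positivity
  have hη1 : η ≤ e1 / 3 := min_le_left _ _
  have hη2 : η ≤ e2 / 2 := (min_le_right _ _).trans (min_le_left _ _)
  have hη3 : η ≤ e3 := (min_le_right _ _).trans (min_le_right _ _)
  intro A _ _ _ F D Act S w Sl T k δ z l0 Ts hl0 hTs hT hA hD hz hw hS hR hk hl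
  have hk0 : 0 ≤ k := (sz_nonneg S).trans hk
  have hδ : 0 ≤ δ := nr_nonneg (hl l0 hl0).2.2.2.2
  have hR3 : F.Reg e3 z S := fun J => rr_mono (hR J) hη3 le_rfl le_rfl le_rfl
  by_cases hex : ∀ J, Sl l0 J = ⊥
  · refine nr_mono (hb A F D Act S w Sl T k δ z l0 ∅ hl0 (by simp) (fun J e => absurd (hex J) e)
      hA hD hz hw hS hR3 hk fun l hl' => ⟨(hl l hl').1, (hl l hl').2.1, (hl l hl').2.2.1,
        fun J => rr_mono ((hl l hl').2.2.2.1 J) hη3 le_rfl le_rfl le_rfl,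
        (hl l hl').2.2.2.2⟩) le_rfl ?_
    have h1 : 0 ≤ C3 * (C2 * (3 * C1 + 2)) * (δ + z) := by positivity
    have h2 : 0 ≤ η' * k := by positivity
    nlinarith
  push Not at hex
  obtain ⟨J, hJ⟩ := hex
  obtain ⟨hP0, hk1, hA0, hR0, y, hy, hTy⟩ := hl l0 hl0
  obtain ⟨hJne, hJD⟩ := (hP0 J).2 hJ
  have hJA := hA0 J hJ
  set S1 := Function.update (Sl l0) J ⊥ with hS1
  have hS1le : S1 ≤ Sl l0 := upd_le _ _
  obtain ⟨y0, hy0, zz, hzz, rfl⟩ := Submodule.mem_sup.1 (idl_split S (Sl l0) D J hy)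
  have hPB : F.Prp D (S ⊔ S1) := Ty.sup hS (Ty.of_le hP0 hS1le)
  have hRB : F.Reg (η + η) (z + z) (S ⊔ S1) := fun J' =>
    rr_sup (rr_mono (hR0 J') le_rfl le_rfl (hS1le J') le_sup_left) (hR J')
  have hkB : sz (S ⊔ S1) ≤ 2 * k := by linarith [sz_sup S S1, sz_mono hS1le]
  have hsub : ∀ l ∈ w.erase l0, ∀ J', (S ⊔ S1) J' ≤ S J' ⊔ ⨆ l' ∈ w.erase l, Sl l' J' := by
    intro l hl' J'
    refine sup_le le_sup_left (le_sup_of_le_right ((hS1le J').trans ?_))
    exact le_iSup₂_of_le (f := fun l' (_ : l' ∈ w.erase l) => Sl l' J') l0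
      (mem_erase.2 ⟨(ne_of_mem_erase hl').symm, hl0⟩) le_rfl
  set δ1 := C1 * ((δ + δ) + (z + (z + z))) + η' / (3 * (3 * C3 * C2 + 1)) * (3 * k) with hδ1
  have key : F.Nr D (F.idl (S ⊔ S1) D) zz
      (C2 * (δ1 + (z + z)) + η' / (3 * (2 * C3 + 1)) * (2 * k)) := by
    have hcard : (Act \ J).card < Act.card :=
      card_lt_card (sdiff_ssubset hJA hJne)
    refine ha A F D (Act \ J) (S ⊔ S1) (w.erase l0) (fun l => res (Sl l) (D \ J)) zz (2 * k) δ1
      (z + z) (by omega) hD (by linarith) (by rw [card_erase_of_mem hl0]; omega) hPB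
      (fun J' => rr_mono (hRB J') (by linarith) le_rfl le_rfl le_rfl) hkB fun l hl' => ?_
    obtain ⟨hP, hk2, hA2, hR2, y2, hy2, hTy2⟩ := hl l (mem_of_mem_erase hl')
    refine ⟨Ty.of_le hP (res_le _ _), by linarith [sz_mono (res_le (Sl l) (D \ J))],
      fun J' e => ?_, fun J' => ?_, ?_⟩
    · by_cases e2 : J' ⊆ D \ J
      · have e3 : Sl l J' ≠ ⊥ := by simpa [res, e2] using e
        exact subset_sdiff.2 ⟨hA2 J' e3, (subset_sdiff.1 e2).2⟩
      · simp [res, e2] at e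
    · refine rr_mono (hR2 J') (by linarith) (by linarith) (res_le _ _ J')
        (sup_le (hsub l hl' J') (le_sup_of_le_right (iSup₂_le fun l' hl'' => ?_)))
      refine le_iSup₂_of_le (f := fun l' (_ : l' ∈ w.erase l) => Sl l' J') l'
        (mem_erase.2 ⟨ne_of_mem_erase hl'', mem_of_mem_erase (mem_of_mem_erase hl'')⟩)
        (res_le _ _ J')
    · have hN : F.Nr D (F.idl ((S ⊔ S1) ⊔ Sl l) D) zz (δ + δ) := by
        refine ⟨y2 - y0, sub_mem (idl_mono F (sup_le_sup_right le_sup_left _) D hy2)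
          (idl_mono F le_sup_left D hy0), ?_⟩
        have := sm_sub hTy2 hTy
        convert this using 1
        abel
      have hQ : F.RR e1 (z + (z + z)) J (Sl l0 J) (((S ⊔ S1) ⊔ Sl l) J) := by
        refine rr_mono (hR0 J) (by linarith) (by linarith) le_rfl ?_
        refine sup_le (sup_le le_sup_left ?_) (le_sup_of_le_right ?_)
        · simp [hS1]
        · exact le_iSup₂_of_le (f := fun l' (_ : l' ∈ w.erase l0) => Sl l' J) l hl' le_rfl
      obtain ⟨y', hy', hs⟩ := hc A F D J (Sl l0 J) ((S ⊔ S1) ⊔ Sl l) zz (3 * k) (δ + δ)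
        (z + (z + z)) hD hJne hJD (by linarith) (hP0 J).1 (Ty.sup hPB hP)
        (fun J' => rr_mono (rr_sup (rr_mono (hR2 J') le_rfl le_rfl le_rfl (hsub l hl' J'))
          (hRB J')) (by linarith) le_rfl le_rfl le_rfl) hQ
        (by linarith [le_sz (Sl l0) J]) (by linarith [sz_sup (S ⊔ S1) (Sl l)]) hzz hN
      exact ⟨y', mul_idl_res _ _ hJD.subset hy', smc_sm hs⟩
  set δ2 := C2 * (δ1 + (z + z)) + η' / (3 * (2 * C3 + 1)) * (2 * k) with hδ2
  have hδ20 : 0 ≤ δ2 := nr_nonneg key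
  obtain ⟨y3, hy3, hs3⟩ := key
  have hle : ∀ l, Function.update Sl l0 S1 l ≤ Sl l := by
    intro l
    by_cases e : l = l0
    · subst e; simpa using hS1le
    · simp [e]
  have fin := hb A F D Act S w (Function.update Sl l0 S1) T k (δ + δ2) z l0 (Ts.erase J) hl0
    (by rw [card_erase_of_mem (hT J hJ)]; omega) (fun J' e => ?_) hA hD hz hw hS hR3 hk
    fun l hl' => ?_
  · refine nr_mono fin le_rfl ?_
    have a1 : C3 * C2 * (η' / (3 * (3 * C3 * C2 + 1)) * (3 * k)) ≤ η' / 3 * k := by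
      have : C3 * C2 * (η' / (3 * (3 * C3 * C2 + 1)) * (3 * k)) =
          (3 * C3 * C2 / (3 * C3 * C2 + 1)) * (η' / 3 * k) := by field_simp
      rw [this]
      exact mul_le_of_le_one_left (by positivity) ((div_le_one (by positivity)).2 (by linarith))
    have a2 : C3 * (η' / (3 * (2 * C3 + 1)) * (2 * k)) ≤ η' / 3 * k := by
      have : C3 * (η' / (3 * (2 * C3 + 1)) * (2 * k)) =
          (2 * C3 / (2 * C3 + 1)) * (η' / 3 * k) := by field_simp
      rw [this]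
      exact mul_le_of_le_one_left (by positivity) ((div_le_one (by positivity)).2 (by linarith))
    have a3 : 0 ≤ C3 * C2 * C1 * δ := by positivity
    have a4 : 0 ≤ C3 * C2 * δ := by positivity
    rw [hδ2, hδ1]
    nlinarith
  · rw [Function.update_self] at e
    have e1 : J' ≠ J := by
      rintro rfl
      simp [hS1] at e
    exact mem_erase.2 ⟨e1, hT J' fun e2 => e (le_bot_iff.1 (e2 ▸ hS1le J'))⟩
  · obtain ⟨hP, hk2, hA2, hR2, hN⟩ := hl l hl'
    refine ⟨Ty.of_le hP (hle l), (sz_mono (hle l)).trans hk2,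
      fun J' e => hA2 J' fun e2 => e (le_bot_iff.1 (e2 ▸ hle l J')),
      fun J' => rr_mono (hR2 J') hη3 le_rfl (hle l J')
        (sup_le_sup_left (iSup₂_mono fun l' _ => hle l' J') _), ?_⟩
    by_cases e : l = l0
    · subst e
      rw [Function.update_self]
      refine ⟨y0 + y3, add_mem hy0 hy3, ?_⟩
      have := sm_add hTy hs3
      convert this using 1
      abel
    · rw [Function.update_of_ne e]
      exact nr_mono hN le_rfl (by linarith)

lemma ia_all (d : ℕ) (hc : COL p ι d) (a : ℕ) : Ia p ι d a := by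
  induction a with
  | zero => exact ia_zero p ι d
  | succ a ih =>
    refine ia_of_ib p ι d (a + 1) ?_
    generalize Fintype.card (Finset ι) = m
    induction m with
    | zero => exact ib_zero p ι d _
    | succ m ihm => exact ib_succ p ι d a m hc ih ihm

end IntB

theorem stINT (p : ℕ) [Fact p.Prime] (ι : Type) [Fintype ι] [DecidableEq ι] : St_INT p ι := by
  intro d hc
  obtain ⟨C, hC, h⟩ := IntB.ia_all p ι d hc (Fintype.card ι)
  refine ⟨C, hC, fun η' hη' => ?_⟩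
  obtain ⟨η, hη, h⟩ := h η' hη'
  refine ⟨η, hη, ?_⟩
  intro A _ _ _ F D Act S w Sl T k δ z hD hz hw hS hR hk hl
  exact h A F D Act S w Sl T k δ z (card_le_univ _) hD hz hw hS hR hk hl

end Pool.Agent.Lib.AD
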