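import Pool.Agent.Lib.AD.Api2
import Pool.Agent.Lib.AD.ZP

/-! Block PRAR: partition rank is linear in analytic rank, induction step. -/

noncomputable section

open Finset Module
open scoped BigOperators

namespace Pool.Agent.Lib.AD

open Pool.Agent.Lib.U4 Pool.Agent.Lib.UD

namespace PRb

section span

variable {K ι A : Type} [Field K] [DecidableEq ι] [CommRing A] [Algebra K A] (F : Frame K ι A)

lemma ginv {V W : Type} [AddCommGroup V] [Module K V] [AddCommGroup W] [Module K W]
    (φ : V →ₗ[K] W) : ∃ s : W →ₗ[K] V, ∀ x, φ (s (φ x)) = φ x := by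
  obtain ⟨r, hr⟩ := φ.rangeRestrict.exists_rightInverse_of_surjective φ.range_rangeRestrict
  obtain ⟨q, hq⟩ := (LinearMap.range φ).subtype.exists_leftInverse_of_injective
    (Submodule.ker_subtype _)
  refine ⟨r ∘ₗ q, fun x => ?_⟩
  have h1 : q (φ x) = φ.rangeRestrict x := LinearMap.congr_fun hq (φ.rangeRestrict x)
  have h2 := congrArg Subtype.val (LinearMap.congr_fun hr (φ.rangeRestrict x))
  simpa [h1] using h2

/-- If all evaluations at functionals in `U` lie in `Z`, then `f` lies in `X i * Z` up to the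
common kernel of `U`. -/
lemma evspan [Fintype ι] [FiniteDimensional K A] {i : ι} {J : Finset ι} (hi : i ∉ J)
    (U : Submodule K (Dual K A)) (Z : Submodule K A) {f : A} (hf : f ∈ F.X (insert i J))
    (h : ∀ l ∈ U, F.ev i l f ∈ Z) :
    f ∈ F.X {i} * Z ⊔ (U.dualCoannihilator ⊓ F.X {i}) * F.X J := by
  have hd : Disjoint {i} J := disjoint_singleton_left.2 hi
  have hf' : f ∈ F.X {i} * F.X J := (F.X_insert hi).ge hf
  have : Module.Free K U := Module.Free.of_divisionRing K U
  let e := Module.finBasis K U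
  let φ : A →ₗ[K] (Fin (finrank K U) → K) := LinearMap.pi fun a => (e a).1
  obtain ⟨s, hs⟩ := ginv (φ ∘ₗ (F.X {i}).subtype)
  let κ : A →ₗ[K] A := ∑ a, (e a).1.smulRight (s (Pi.single a 1)).1
  have hκ : ∀ x, κ x = (s (φ x)).1 := fun x => by
    have : φ x = ∑ a, (e a).1 x • (Pi.single a 1 : Fin (finrank K U) → K) := by
      ext b; simp [φ, Pi.single_apply]
    rw [this]; simp [κ]
  have h1 : F.bw {i} κ f ∈ F.X {i} * Z := by
    simp only [κ, map_sum, LinearMap.sum_apply]
    refine sum_mem fun a _ => ?_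
    have : F.bw {i} ((e a).1.smulRight (s (Pi.single a 1)).1) f =
        (s (Pi.single a 1)).1 * F.ev i (e a).1 f := by
      refine Submodule.mul_induction_on hf' (fun x hx y hy => ?_) fun x y hx hy => ?_
      · rw [F.bw_mul _ _ _ hd x hx y hy, F.ev_mul i _ hi hx hy]; simp
      · rw [map_add, map_add, hx, hy, mul_add]
    rw [this]
    exact Submodule.mul_mem_mul (s _).2 (h _ (e a).2)
  have h2 : F.bw {i} (LinearMap.id - κ) f ∈ (U.dualCoannihilator ⊓ F.X {i}) * F.X J := by
    refine F.bw_mem' hd _ le_rfl le_rfl (fun x hx => Submodule.mem_inf.2 ⟨?_, ?_⟩) hf'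
    · rw [Submodule.mem_dualCoannihilator]
      intro l hl
      have h0 : ∀ a, (e a).1 ((LinearMap.id - κ : A →ₗ[K] A) x) = 0 := fun a => by
        have := congrFun (hs ⟨x, hx⟩) a
        simp only [LinearMap.comp_apply, Submodule.subtype_apply, φ, LinearMap.pi_apply] at this
        simp [hκ, φ, this]
      have e1 : l = ∑ a, e.repr ⟨l, hl⟩ a • (e a).1 := by
        have := congrArg U.subtype (e.sum_repr ⟨l, hl⟩)
        rw [map_sum] at this
        exact this.symm
      rw [e1, LinearMap.sum_apply]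
      exact sum_eq_zero fun a _ => by rw [LinearMap.smul_apply, h0, smul_zero]
    · simp only [LinearMap.sub_apply, LinearMap.id_apply, hκ]
      exact sub_mem hx (s _).2
  have h3 : f = F.bw {i} κ f + F.bw {i} (LinearMap.id - κ) f := by
    rw [map_sub, LinearMap.sub_apply, F.bw_id (by simp) hf]; abel
  rw [h3]
  exact Submodule.add_mem_sup h1 h2

end span

/-- A subgroup in which few elements are bad: every element is a sum of two good ones. -/
lemma two {G : Type} [AddCommGroup G] [Fintype G] (H : AddSubgroup G) (P : G → Prop)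
    (h : 2 * 𝔼 a, ind (a ∈ H ∧ P a) < 𝔼 a, ind (a ∈ H)) {l : G} (hl : l ∈ H) :
    ∃ a, ¬ P a ∧ ¬ P (l - a) := by
  by_contra c
  push Not at c
  have e1 : 𝔼 a, ind (l - a ∈ H ∧ P (l - a)) = 𝔼 a, ind (a ∈ H ∧ P a) :=
    Fintype.expect_equiv (Equiv.subLeft l) _ _ fun _ => rfl
  have h2 : 𝔼 a, ind (a ∈ H) ≤ 𝔼 a, (ind (a ∈ H ∧ P a) + ind (l - a ∈ H ∧ P (l - a))) := by
    refine expect_le_expect fun a _ => ?_
    have n1 := BI1.ind_nonneg (a ∈ H ∧ P a)
    have n2 := BI1.ind_nonneg (l - a ∈ H ∧ P (l - a))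
    by_cases ha : a ∈ H
    · by_cases hp : P a
      · have := BI1.ind_mono (P := a ∈ H) (Q := a ∈ H ∧ P a) fun _ => ⟨ha, hp⟩
        linarith
      · have := BI1.ind_mono (P := a ∈ H) (Q := l - a ∈ H ∧ P (l - a))
          fun _ => ⟨sub_mem hl ha, c a hp⟩
        linarith
    · rw [ind, if_neg ha]; linarith
  rw [expect_add_distrib, e1] at h2
  linarith

/-- The codimension of a dense subspace. -/
lemma codim {p : ℕ} [Fact p.Prime] {G : Type} [AddCommGroup G] [Module (ZMod p) G] [Fintype G]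
    (H : Submodule (ZMod p) G) {θ : ℝ} (h0 : 0 < θ) (h : θ / 2 ≤ 𝔼 a, ind (a ∈ H)) :
    (finrank (ZMod p) G : ℝ) ≤ finrank (ZMod p) H + 2 * (Real.log (1 / θ) + 1) := by
  classical
  have e1 : 𝔼 a, ind (a ∈ H) = (Fintype.card H : ℝ) / Fintype.card G := by
    rw [Fintype.expect_eq_sum_div_card]
    congr 1
    simp [ind, Fintype.card_subtype]
  rw [e1, card_eq_pow_finrank (K := ZMod p) (V := H), card_eq_pow_finrank (K := ZMod p) (V := G),
    ZMod.card] at h
  obtain ⟨c, hc⟩ := Nat.exists_eq_add_of_le (Submodule.finrank_le H)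
  have hp : (2 : ℝ) ≤ p := by exact_mod_cast (Fact.out : p.Prime).two_le
  have hp0 : (0 : ℝ) < p := by linarith
  rw [hc] at h ⊢
  push_cast at h ⊢
  have h2 : (2 : ℝ) ^ c ≤ 2 * (1 / θ) := by
    have h3 : (p : ℝ) ^ c ≤ 2 * (1 / θ) := by
      rw [pow_add, div_mul_eq_div_div, div_self (by positivity), div_le_div_iff₀ (by positivity)
        (by positivity)] at h
      rw [mul_one_div, le_div_iff₀ h0]; linarith
    exact (pow_le_pow_left₀ (by norm_num) hp c).trans h3
  have h4 := Real.log_le_log (by positivity) h2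
  rw [Real.log_pow, Real.log_mul (by norm_num) (by positivity)] at h4
  have h5 := Real.log_two_gt_d9
  have h6 := Real.log_two_lt_d9
  have h7 : (0 : ℝ) ≤ c := Nat.cast_nonneg c
  nlinarith

/-- The popularity lemma. -/
lemma klem {K G W Ω : Type} [Field K] [AddCommGroup G] [Module K G] [Fintype G] [AddCommGroup W]
    [Module K W] [Fintype Ω] [Nonempty Ω] (T : Ω → G →ₗ[K] W) {θ : ℝ} (h0 : 0 < θ)
    (h : θ ≤ 𝔼 l, 𝔼 w, ind (T w l = 0)) : ∃ H : Submodule K G, θ / 2 ≤ 𝔼 a, ind (a ∈ H) ∧
      ∀ l ∈ H, ∃ a, θ / 8 ≤ 𝔼 w, ind (T w a = 0) ∧ θ / 8 ≤ 𝔼 w, ind (T w (l - a) = 0) := by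
  let P : G → Prop := fun a => 𝔼 w, ind (T w a = 0) < θ / 8
  have h1 : 𝔼 w, 𝔼 a, ind (T w a = 0 ∧ P a) ≤ θ / 8 := by
    rw [expect_comm]
    refine expect_le univ_nonempty fun a _ => ?_
    by_cases c : P a
    · simpa only [c, and_true] using c.le
    · simp only [c, and_false, ind, if_false, expect_const_zero]; linarith
  rw [expect_comm] at h
  have h2 : θ / 2 ≤ 𝔼 w, ((𝔼 a, ind (T w a = 0)) - 4 * 𝔼 a, ind (T w a = 0 ∧ P a)) := by
    rw [expect_sub_distrib, ← mul_expect]; linarith
  obtain ⟨w, -, hw⟩ := exists_le_of_le_expect univ_nonempty h2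
  have n1 : 0 ≤ 𝔼 a, ind (T w a = 0 ∧ P a) := expect_nonneg fun _ _ => BI1.ind_nonneg _
  refine ⟨LinearMap.ker (T w), by simp only [LinearMap.mem_ker]; linarith, fun l hl => ?_⟩
  obtain ⟨a, h3, h4⟩ := two (LinearMap.ker (T w)).toAddSubgroup P
    (by simp only [Submodule.mem_toAddSubgroup, LinearMap.mem_ker]; linarith) (l := l) hl
  exact ⟨a, not_lt.1 h3, not_lt.1 h4⟩

end PRb

theorem stPRAR (p : ℕ) [Fact p.Prime] (ι : Type) [Fintype ι] [DecidableEq ι] : St_PRAR p ι := by
  rintro hZ d ⟨C1, hC1, h1⟩ ⟨C2, hC2, h2⟩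
  refine ⟨C2 * (C1 * 6) + 2, by positivity, fun A _ _ _ _ F L j f θ hL hj hd hf h0 hθ => ?_⟩
  have : Module.Finite (ZMod p) A := Module.Finite.of_finite
  have hθ1 : θ ≤ 1 := hθ.trans (expect_le univ_nonempty fun w _ => by split_ifs <;> norm_num)
  have hlog : 0 ≤ Real.log (1 / θ) := Real.log_nonneg (by rw [le_div_iff₀ h0]; linarith)
  cases L with
  | nil =>
    have : f = 0 := by
      by_contra c
      have : F.zp [] f = 0 := by simp [Frame.zp, Frame.evL, c]
      linarith
    rw [this]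
    exact Frame.sm_zero _ (by positivity)
  | cons i L =>
    classical
    rw [List.nodup_cons] at hL
    rw [List.mem_cons, not_or] at hj
    have hi : i ∉ insert j L.toFinset := by simp [hL.1, Ne.symm hj.1]
    have eD : insert j (i :: L).toFinset = insert i (insert j L.toFinset) := by
      rw [List.toFinset_cons, insert_comm]
    rw [eD] at hf ⊢
    set D := insert j L.toFinset with hD
    let u : Dual (ZMod p) A →ₗ[ZMod p] A := LinearMap.applyₗ f ∘ₗ F.ev i
    have hu : ∀ l, u l = F.ev i l f := fun _ => rfl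
    rw [hZ.cons A F i L f hL.1] at hθ
    obtain ⟨H, hH, hH2⟩ := PRb.klem (fun w : ι → Dual (ZMod p) A => F.evL L w ∘ₗ u) h0 hθ
    have hs : ∀ l ∈ H, F.Sm D (u l) (C1 * 6 * (Real.log (1 / θ) + 1)) := fun l hl => by
      obtain ⟨a, ha, hb⟩ := hH2 l hl
      have h3 := hZ.add A F L (u a) (u (l - a)) hL.2
      rw [← map_add, add_sub_cancel] at h3
      have h4 : θ / 8 * (θ / 8) ≤ F.zp L (u l) :=
        (mul_le_mul ha hb (by positivity) (ZPb.zp_nonneg F L _)).trans h3
      refine (h1 A F L j (u l) _ hL.2 hj.2 (by simpa using hd) (F.ev_mem_X hi l hf)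
        (by positivity) h4).mono ?_
      have e : 1 / (θ / 8 * (θ / 8)) = 2 ^ 6 * (1 / θ) ^ 2 := by field_simp; norm_num
      rw [e, Real.log_mul (by norm_num) (by positivity), Real.log_pow, Real.log_pow, mul_assoc]
      have := Real.log_two_lt_d9
      push_cast
      exact mul_le_mul_of_nonneg_left (by linarith) hC1
    have hcard : D.card ≤ d := by
      have := List.toFinset_card_le L
      have := card_insert_le j L.toFinset
      simp only [List.length_cons] at hd
      rw [hD]
      omega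
    obtain ⟨b, S0, -, h5, h6, h7⟩ := h2 A F D H (fun q => u (q ()).1) _ hcard
      (by ext q; simp [cd]) (Frame.smA_of_forall fun q => hs _ (q ()).2)
    have h8 := PRb.evspan F hi H (F.idl S0 D) hf fun l hl => by
      simpa [cD, hu] using h7 fun _ => ⟨l, hl⟩
    obtain ⟨x, hx, y, hy, rfl⟩ := Submodule.mem_sup.1 h8
    have hx' : F.Sm (insert i D) x (sz S0) := by
      refine Frame.sm_of_idl (h5.mono (subset_insert _ _)) ?_
      have := F.X_mul_idl S0 (I := {i}) (D := insert i D) (by simp)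
      rw [← erase_eq, erase_insert hi] at this
      exact this hx
    have hy' := Frame.sm_of_mul (F := F) (J := {i}) (D := insert i D)
      (W := H.dualCoannihilator ⊓ F.X {i}) inf_le_right (singleton_nonempty i)
      ⟨by simp, fun c => hi (by
        have := mem_singleton.1 (c (mem_insert_of_mem (mem_insert_self j _)))
        rw [← this]; exact mem_insert_self j _)⟩ (f := y)
      (by rwa [← erase_eq, erase_insert hi])
    have h9 := PRb.codim H h0 hH
    have h10 : (finrank (ZMod p) H : ℝ) + finrank (ZMod p) H.dualCoannihilator =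
        finrank (ZMod p) (Dual (ZMod p) A) := by
      rw [Subspace.dual_finrank_eq]
      exact_mod_cast Subspace.finrank_add_finrank_dualCoannihilator_eq H
    have h11 : (finrank (ZMod p) (H.dualCoannihilator ⊓ F.X {i} : Submodule (ZMod p) A) : ℝ) ≤
        finrank (ZMod p) H.dualCoannihilator := by
      exact_mod_cast Submodule.finrank_mono inf_le_left
    refine (hx'.add hy').mono ?_
    nlinarith

end Pool.Agent.Lib.AD
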