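import Pool.Agent.Lib.AD.Blue

/-! The block `PROJ`: a multiplicative family of projections killing the slices. -/

noncomputable section

open Finset Module
open scoped BigOperators

namespace Pool.Agent.Lib.AD

namespace Proj27

variable {K ι A : Type} [Field K] [DecidableEq ι] [CommRing A] [Algebra K A] (F : Frame K ι A)

lemma prod_mem {x : ι → A} (hx : ∀ i, x i ∈ F.X {i}) (J : Finset ι) : ∏ i ∈ J, x i ∈ F.X J := by
  induction J using Finset.induction_on with
  | empty => rw [prod_empty, F.X_empty]; exact Submodule.one_le.1 le_rfl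
  | insert i J hi ih =>
    rw [prod_insert hi, insert_eq, ← F.X_mul _ _ (by simpa using hi)]
    exact Submodule.mul_mem_mul (hx i) ih

/-- A subspace containing all pure products contains `X J`. -/
lemma X_le (J : Finset ι) : ∀ Y : Submodule K A,
    (∀ x : ι → A, (∀ i, x i ∈ F.X {i}) → ∏ i ∈ J, x i ∈ Y) → F.X J ≤ Y := by
  induction J using Finset.induction_on with
  | empty =>
    intro Y h
    rw [F.X_empty]
    exact Submodule.one_le.2 (by simpa using h 0 fun _ => zero_mem _)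
  | insert i J hi ih =>
    intro Y h
    rw [insert_eq, ← F.X_mul _ _ (by simpa using hi)]
    refine Submodule.mul_le.2 fun m hm n hn => ?_
    refine ih (Y.comap (LinearMap.mulLeft K m)) (fun x hx => ?_) hn
    have h1 := h (Function.update x i m) fun j => by
      by_cases e : j = i
      · subst e; simpa using hm
      · simpa [Function.update_of_ne e] using hx j
    rw [prod_insert hi, Function.update_self, prod_congr rfl fun j hj =>
      Function.update_of_ne (fun e : j = i => hi (e ▸ hj)) m x] at h1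
    exact h1

/-- Apply `π i` in each slot of a list. -/
def app (π : ι → A →ₗ[K] A) : List ι → A →ₗ[K] A
  | [] => LinearMap.id
  | i :: L => F.bw {i} (π i) ∘ₗ app π L

lemma app_prod {π : ι → A →ₗ[K] A} (hπ : ∀ i, ∀ x ∈ F.X {i}, π i x ∈ F.X {i}) {x : ι → A}
    (hx : ∀ i, x i ∈ F.X {i}) (J : Finset ι) : ∀ L : List ι, L.Nodup → (∀ i ∈ L, i ∈ J) →
    app F π L (∏ i ∈ J, x i) = ∏ i ∈ J, if i ∈ L then π i (x i) else x i
  | [], _, _ => by simp [app]
  | i :: L, hL, hJ => by
    have hi : i ∈ J := hJ i List.mem_cons_self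
    have hiL : i ∉ L := (List.nodup_cons.1 hL).1
    have hx' : ∀ j, (if j ∈ L then π j (x j) else x j) ∈ F.X {j} := fun j => by
      split_ifs
      · exact hπ j _ (hx j)
      · exact hx j
    rw [app, LinearMap.comp_apply, app_prod hπ hx J L (List.nodup_cons.1 hL).2
      fun j hj => hJ j (List.mem_cons_of_mem _ hj), ← mul_prod_erase J _ hi,
      F.bw_mul {i} (J.erase i) _ (by simp) _ (hx' i) _ (prod_mem F hx' _), if_neg hiL,
      ← mul_prod_erase J _ hi, if_pos List.mem_cons_self]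
    congr 1
    refine prod_congr rfl fun j hj => ?_
    simp [List.mem_cons, ne_of_mem_erase hj]

/-- Apply `π i` in each slot of `J`. -/
def P (π : ι → A →ₗ[K] A) (J : Finset ι) : A →ₗ[K] A := app F π J.toList

lemma P_prod {π : ι → A →ₗ[K] A} (hπ : ∀ i, ∀ x ∈ F.X {i}, π i x ∈ F.X {i}) {x : ι → A}
    (hx : ∀ i, x i ∈ F.X {i}) (J : Finset ι) : P F π J (∏ i ∈ J, x i) = ∏ i ∈ J, π i (x i) := by
  rw [P, app_prod F hπ hx J _ J.nodup_toList fun i hi => mem_toList.1 hi]
  exact prod_congr rfl fun i hi => if_pos (mem_toList.2 hi)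

lemma P_mem {π : ι → A →ₗ[K] A} (hπ : ∀ i, ∀ x ∈ F.X {i}, π i x ∈ F.X {i}) (J : Finset ι) :
    ∀ x ∈ F.X J, P F π J x ∈ F.X J :=
  X_le F J ((F.X J).comap (P F π J)) fun x hx => by
    rw [Submodule.mem_comap, P_prod F hπ hx]
    exact prod_mem F (fun i => hπ i _ (hx i)) J

lemma P_mul {π : ι → A →ₗ[K] A} (hπ : ∀ i, ∀ x ∈ F.X {i}, π i x ∈ F.X {i}) (J J' : Finset ι)
    (h : Disjoint J J') : ∀ x ∈ F.X J, ∀ y ∈ F.X J',
    P F π (J ∪ J') (x * y) = P F π J x * P F π J' y := by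
  intro x hx y hy
  have key : ∀ b : ι → A, (∀ i, b i ∈ F.X {i}) →
      P F π (J ∪ J') (x * ∏ i ∈ J', b i) = P F π J x * P F π J' (∏ i ∈ J', b i) := by
    intro b hb
    refine X_le F J (LinearMap.eqLocus (P F π (J ∪ J') ∘ₗ LinearMap.mulRight K (∏ i ∈ J', b i))
      (LinearMap.mulRight K (P F π J' (∏ i ∈ J', b i)) ∘ₗ P F π J)) (fun a ha => ?_) hx
    have hc : ∀ i, (if i ∈ J then a i else b i) ∈ F.X {i} := fun i => by
      split_ifs
      · exact ha i
      · exact hb i
    have e : ∀ g : ι → A → A, ∏ i ∈ J ∪ J', g i (if i ∈ J then a i else b i) =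
        (∏ i ∈ J, g i (a i)) * ∏ i ∈ J', g i (b i) := fun g => by
      rw [prod_union h]
      congr 1
      · exact prod_congr rfl fun i hi => by rw [if_pos hi]
      · exact prod_congr rfl fun i hi => by rw [if_neg (disjoint_right.1 h hi)]
    show P F π (J ∪ J') ((∏ i ∈ J, a i) * ∏ i ∈ J', b i) =
      P F π J (∏ i ∈ J, a i) * P F π J' (∏ i ∈ J', b i)
    rw [← e fun _ t => t, P_prod F hπ hc, P_prod F hπ ha, P_prod F hπ hb, e fun i t => π i t]
  exact X_le F J' (LinearMap.eqLocus (P F π (J ∪ J') ∘ₗ LinearMap.mulLeft K x)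
    (LinearMap.mulLeft K (P F π J x) ∘ₗ P F π J')) key hy

lemma P_single {π : ι → A →ₗ[K] A} (hπ : ∀ i, ∀ x ∈ F.X {i}, π i x ∈ F.X {i}) (i : ι) {x : A}
    (hx : x ∈ F.X {i}) : P F π {i} x = π i x := by
  have := P_prod F hπ (x := Pi.single i x) (fun j => by
    by_cases e : j = i
    · subst e; simpa using hx
    · simp [Pi.single_eq_of_ne e]) {i}
  simpa using this

lemma prod_sub {W : ι → Submodule K A} {a b : ι → A} (ha : ∀ i, a i ∈ F.X {i})
    (hb : ∀ i, b i ∈ F.X {i}) (hW : ∀ i, a i - b i ∈ W i) (J : Finset ι) :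
    ∏ i ∈ J, a i - ∏ i ∈ J, b i ∈ ⨆ i, ⨆ _ : i ∈ J, W i * F.X (J.erase i) := by
  induction J using Finset.induction_on with
  | empty => simp
  | insert i J hi ih =>
    rw [prod_insert hi, prod_insert hi, show a i * ∏ j ∈ J, a j - b i * ∏ j ∈ J, b j =
      (a i - b i) * ∏ j ∈ J, a j + b i * (∏ j ∈ J, a j - ∏ j ∈ J, b j) by ring]
    refine add_mem ?_ ?_
    · refine le_iSup₂_of_le (f := fun j (_ : j ∈ insert i J) => W j * F.X ((insert i J).erase j))
        i (mem_insert_self i J) le_rfl ?_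
      rw [erase_insert hi]
      exact Submodule.mul_mem_mul (hW i) (prod_mem F ha J)
    · have : (⨆ j, ⨆ _ : j ∈ J, W j * F.X (J.erase j)) ≤
          (⨆ j, ⨆ _ : j ∈ insert i J, W j * F.X ((insert i J).erase j)).comap
            (LinearMap.mulLeft K (b i)) := by
        refine iSup₂_le fun j hj => Submodule.mul_le.2 fun m hm n hn => ?_
        refine le_iSup₂_of_le (f := fun j (_ : j ∈ insert i J) =>
          W j * F.X ((insert i J).erase j)) j (mem_insert_of_mem hj) le_rfl ?_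
        rw [LinearMap.mulLeft_apply, mul_left_comm,
          erase_insert_of_ne (fun e : i = j => hi (e ▸ hj)), insert_eq,
          ← F.X_mul _ _ (by simp [hi])]
        exact Submodule.mul_mem_mul hm (Submodule.mul_mem_mul (hb i) hn)
      exact this ih

omit [DecidableEq ι] in
lemma exists_proj (Y : Submodule K A) :
    ∃ ρ : A →ₗ[K] A, (∀ x, ρ x ∈ Y) ∧ ∀ x ∈ Y, ρ x = x := by
  obtain ⟨f, hf⟩ := Y.subtype.exists_leftInverse_of_injective Y.ker_subtype
  refine ⟨Y.subtype ∘ₗ f, fun x => (f x).2, fun x hx => ?_⟩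
  exact congrArg Subtype.val (LinearMap.congr_fun hf ⟨x, hx⟩)

theorem main (S : Sys K ι A) (hS : ∀ J, S J ≤ F.X J) :
    ∃ P : Finset ι → A →ₗ[K] A, (∀ J, ∀ x ∈ F.X J, P J x ∈ F.X J) ∧
    (∀ J J', Disjoint J J' → ∀ x ∈ F.X J, ∀ y ∈ F.X J', P (J ∪ J') (x * y) = P J x * P J' y) ∧
    (∀ i, ∀ x ∈ S {i}, P {i} x = 0) ∧
    ∀ J, ∀ x ∈ F.X J, x - P J x ∈ ⨆ i, ⨆ _ : i ∈ J, S {i} * F.X (J.erase i) := by
  choose ρ h1 h2 using fun i : ι => exists_proj (S {i})
  have hπ : ∀ i, ∀ x ∈ F.X {i}, (LinearMap.id - ρ i : A →ₗ[K] A) x ∈ F.X {i} :=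
    fun i x hx => sub_mem hx (hS _ (h1 i x))
  refine ⟨P F fun i => LinearMap.id - ρ i, P_mem F hπ, P_mul F hπ, fun i x hx => ?_,
    fun J => ?_⟩
  · rw [P_single F hπ i (hS _ hx)]
    simp [h2 i x hx]
  · refine X_le F J ((⨆ i, ⨆ _ : i ∈ J, S {i} * F.X (J.erase i)).comap
      (LinearMap.id - P F (fun i => LinearMap.id - ρ i) J)) fun x hx => ?_
    rw [Submodule.mem_comap, LinearMap.sub_apply, LinearMap.id_apply, P_prod F hπ hx]
    exact prod_sub F hx (fun i => hπ i _ (hx i)) (fun i => by simpa using h1 i (x i)) J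

end Proj27

theorem stPROJ (p : ℕ) [Fact p.Prime] (ι : Type) [Fintype ι] [DecidableEq ι] : St_PROJ p ι :=
  fun _ _ _ _ F S hS => Proj27.main F S hS

end Pool.Agent.Lib.AD
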