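import Pool.Agent.Lib.AD.Blue
import Pool.Agent.Lib.AD.LvApi

/-! The regularisation block. -/

namespace Pool.Agent.Lib.AD

theorem stREG (p : ℕ) [Fact p.Prime] (ι : Type) [Fintype ι] [DecidableEq ι] : St_REG p ι := by
  intro ε h hε hh
  obtain ⟨M, hM⟩ := Lv.reg (ZMod p) ι h hh ε hε
  refine ⟨M, fun A _ _ _ F D B S κ _ hS hκ => ?_⟩
  haveI : FiniteDimensional (ZMod p) A := Module.Finite.of_finite
  exact hM A F (fun J => J.Nonempty ∧ J ⊂ D) κ B S (Lv.prp_down D) hS hκ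

end Pool.Agent.Lib.AD
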