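import Pool.Agent.Lib.AD.R34

/-! Block `REL`. -/

noncomputable section

open Finset Module
open scoped BigOperators

namespace Pool.Agent.Lib.AD

open R34

theorem stREL (p : ℕ) [Fact p.Prime] (ι : Type) [Fintype ι] [DecidableEq ι] : St_REL p ι := by
  intro n d ⟨C1, hC1, hF⟩ ⟨C2, hC2, hE⟩
  refine ⟨2 * C2 * (1 + C1 * (3 * (n + 1 + 1) + 1)), by positivity, fun e he => ?_⟩
  obtain ⟨η, hη, hF⟩ := hF (e / (2 * C2 + 1)) (by positivity)
  refine ⟨η, hη, ?_⟩
  intro A _ _ _ F D S G _ _ u y k δ z hD hz hS hN hR hk hy hsm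
  have : FiniteDimensional (ZMod p) A := Module.Finite.of_finite
  have hδ : 0 ≤ δ := sma_nonneg F hsm
  have hk0 : 0 ≤ k := (sz_nonneg S).trans hk
  have h1 : cd (n + 1) y = -cd (n + 1) (cd n u - y) := by
    rw [cd_sub, cd_cd]; simp
  have h2 : F.SmA D (cd (n + 1) y) (3 * ((n + 1 : ℕ) + 1) * δ) := by
    rw [h1]; exact sma_neg F (sma_cd F (n + 1) hsm)
  obtain ⟨s1, hs1, hs1', hs1''⟩ := hF A F D S G y k _ z hD hz hS hN hR hk hy h2
  set x : ℝ := C1 * (3 * ((n + 1 : ℕ) + 1) * δ + z) + e / (2 * C2 + 1) * k with hx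
  have h3 : cd (n + 1) (cd n u - y + s1) = 0 := by
    have : cd n u - y + s1 = cd n u - (y - s1) := by abel
    rw [this, cd_sub, cd_cd, hs1'']; simp
  obtain ⟨b, S1, hb, hS1, hS1', hmem⟩ := hE A F D G _ (δ + x) hD h3 (sma_add F hsm hs1')
  obtain ⟨π, hπ, hπ'⟩ := exists_proj (F.idl S D ⊔ F.idl S1 D)
  let b' : Cube n G → A := b
  have hb' : F.SmA D b' (C2 * (δ + x)) := hb
  have hmem' : ∀ q, (cd n u - y + s1) q - cd n b' q ∈ F.idl S1 D := hmem
  have h4 : ∀ q, ∃ β ∈ F.idl S D, ∃ ψ ∈ F.idl S1 D, β + ψ = π ((u - b') q) := fun q =>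
    Submodule.mem_sup.1 (hπ _)
  choose β hβ ψ hψ hβψ using h4
  refine ⟨b' + ψ, ?_, fun q => ?_⟩
  · refine sma_mono F (sma_add F hb' (sma_const F fun q => ⟨S1, hS1, hS1', hψ q⟩)) ?_
    have h5 : e / (2 * C2 + 1) * k * (2 * C2) ≤ e * k := by
      have : e / (2 * C2 + 1) * (2 * C2) ≤ e := by
        rw [div_mul_eq_mul_div, div_le_iff₀ (by positivity)]; nlinarith
      nlinarith
    have h6 : δ + C1 * (3 * ((n + 1 : ℕ) + 1) * δ + z) ≤
        (1 + C1 * (3 * (n + 1 + 1) + 1)) * (δ + z) := by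
      push_cast
      have hn : (0 : ℝ) ≤ n := Nat.cast_nonneg n
      have a1 : 0 ≤ C1 * δ := by positivity
      have a2 : 0 ≤ C1 * (3 * (n + 1 + 1)) * z := by positivity
      nlinarith
    have h7 := mul_le_mul_of_nonneg_left h6 (show 0 ≤ 2 * C2 by positivity)
    rw [hx]; nlinarith
  · have h5 : cd n (u - b') q ∈ F.idl S D ⊔ F.idl S1 D := by
      have : cd n (u - b') q = (y q - s1 q) + ((cd n u - y + s1) q - cd n b' q) := by
        rw [cd_sub]; simp only [Pi.sub_apply, Pi.add_apply]; abel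
      rw [this]
      exact Submodule.add_mem_sup (sub_mem (hy q) (hs1 q)) (hmem' q)
    have h6 : cd n (u - b') q = cd n (β + ψ) q := by
      have h7 : β + ψ = fun q => π.toAddMonoidHom ((u - b') q) := funext hβψ
      rw [h7, cd_comp]
      exact (hπ' _ h5).symm
    have h8 : cd n (u - (b' + ψ)) q = cd n β q := by
      have : u - (b' + ψ) = (u - b') - ψ := by abel
      rw [this, cd_sub, Pi.sub_apply, h6, cd_add, Pi.add_apply]; abel
    rw [h8]
    exact cd_mem _ n β q fun _ _ => hβ _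

end Pool.Agent.Lib.AD
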