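import Pool.Agent.Lib.AD.Blue

/-! Small lemmas on ideals and ranks used by the blocks `REL`, `RELLIN`. -/

noncomputable section

open Finset Module
open scoped BigOperators

namespace Pool.Agent.Lib.AD.R34

variable {K ι A : Type} [Field K] [Fintype ι] [DecidableEq ι] [CommRing A] [Algebra K A]

omit [Fintype ι] in
lemma le_idl (F : Frame K ι A) (S : Sys K ι A) {J D : Finset ι} (h : J ⊆ D) :
    S J * F.X (D \ J) ≤ F.idl S D :=
  le_iSup₂_of_le (f := fun J (_ : J ⊆ D) => S J * F.X (D \ J)) J h le_rfl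

omit [Fintype ι] in
lemma idl_le (F : Frame K ι A) {S : Sys K ι A} {D : Finset ι} {W : Submodule K A}
    (h : ∀ J, J ⊆ D → S J * F.X (D \ J) ≤ W) : F.idl S D ≤ W :=
  iSup₂_le h

omit [Fintype ι] in
lemma idl_mono (F : Frame K ι A) {S T : Sys K ι A} (D : Finset ι) (h : ∀ J, J ⊆ D → S J ≤ T J) :
    F.idl S D ≤ F.idl T D :=
  idl_le F fun J hJ => (mul_le_mul_left (h J hJ) _).trans (le_idl F T hJ)

omit [Fintype ι] in
lemma idl_sup (F : Frame K ι A) (S T : Sys K ι A) (D : Finset ι) :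
    F.idl (S ⊔ T) D = F.idl S D ⊔ F.idl T D := by
  apply le_antisymm
  · refine idl_le F fun J hJ => ?_
    rw [Pi.sup_apply, Submodule.sup_mul]
    exact sup_le_sup (le_idl F S hJ) (le_idl F T hJ)
  · exact sup_le (idl_mono F D fun J _ => le_sup_left) (idl_mono F D fun J _ => le_sup_right)

omit [Fintype ι] in
lemma idl_le_X (F : Frame K ι A) {S : Sys K ι A} (D : Finset ι) (h : ∀ J, S J ≤ F.X J) :
    F.idl S D ≤ F.X D := by
  refine idl_le F fun J hJ => (mul_le_mul_left (h J) _).trans ?_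
  rw [F.X_mul J (D \ J) disjoint_sdiff, union_sdiff_of_subset hJ]

omit [Fintype ι] in
lemma prp_sup (F : Frame K ι A) {D : Finset ι} {S T : Sys K ι A} (hS : F.Prp D S)
    (hT : F.Prp D T) : F.Prp D (S ⊔ T) := by
  intro J
  refine ⟨sup_le (hS J).1 (hT J).1, fun h => ?_⟩
  by_cases h1 : S J = ⊥
  · exact (hT J).2 fun h2 => h (by rw [Pi.sup_apply, h1, h2, bot_sup_eq])
  · exact (hS J).2 h1

omit [Fintype ι] in
lemma prp_bot (F : Frame K ι A) (D : Finset ι) : F.Prp D (⊥ : Sys K ι A) :=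
  fun _ => ⟨bot_le, fun h => absurd rfl h⟩

omit [DecidableEq ι] in
lemma sz_nonneg (S : Sys K ι A) : 0 ≤ sz S := sum_nonneg fun _ _ => Nat.cast_nonneg _

omit [DecidableEq ι] in
lemma sz_bot : sz (⊥ : Sys K ι A) = 0 := by simp [sz]

variable [FiniteDimensional K A]

omit [DecidableEq ι] in
lemma sz_sup (S T : Sys K ι A) : sz (S ⊔ T) ≤ sz S + sz T := by
  unfold sz
  rw [← sum_add_distrib]
  refine sum_le_sum fun J _ => ?_
  have := Submodule.finrank_sup_add_finrank_inf_eq (S J) (T J)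
  have h2 : finrank K (S J ⊔ T J : Submodule K A) ≤ finrank K (S J) + finrank K (T J) := by omega
  exact_mod_cast h2

omit [DecidableEq ι] in
lemma sz_mono {S T : Sys K ι A} (h : ∀ J, finrank K (S J) ≤ finrank K (T J)) : sz S ≤ sz T :=
  sum_le_sum fun J _ => by exact_mod_cast h J

omit [FiniteDimensional K A] in
lemma sm_mono (F : Frame K ι A) {D : Finset ι} {f : A} {r s : ℝ} (h : F.Sm D f r) (hr : r ≤ s) :
    F.Sm D f s := by
  obtain ⟨E, h1, h2, h3⟩ := h
  exact ⟨E, h1, h2.trans hr, h3⟩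

omit [FiniteDimensional K A] in
lemma sm_nonneg (F : Frame K ι A) {D : Finset ι} {f : A} {r : ℝ} (h : F.Sm D f r) : 0 ≤ r := by
  obtain ⟨E, -, h2, -⟩ := h
  exact (sz_nonneg E).trans h2

omit [FiniteDimensional K A] in
lemma sm_X (F : Frame K ι A) {D : Finset ι} {f : A} {r : ℝ} (h : F.Sm D f r) : f ∈ F.X D := by
  obtain ⟨E, h1, -, h3⟩ := h
  exact idl_le_X F D (fun J => (h1 J).1) h3

omit [FiniteDimensional K A] in
lemma sm_zero (F : Frame K ι A) (D : Finset ι) : F.Sm D 0 0 :=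
  ⟨⊥, prp_bot F D, sz_bot.le, zero_mem _⟩

lemma sm_add (F : Frame K ι A) {D : Finset ι} {f g : A} {r s : ℝ} (h : F.Sm D f r)
    (h' : F.Sm D g s) : F.Sm D (f + g) (r + s) := by
  obtain ⟨E, h1, h2, h3⟩ := h
  obtain ⟨E', h1', h2', h3'⟩ := h'
  refine ⟨E ⊔ E', prp_sup F h1 h1', (sz_sup E E').trans (add_le_add h2 h2'), ?_⟩
  rw [idl_sup]
  exact Submodule.add_mem_sup h3 h3'

omit [FiniteDimensional K A] in
lemma sm_neg (F : Frame K ι A) {D : Finset ι} {f : A} {r : ℝ} (h : F.Sm D f r) :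
    F.Sm D (-f) r := by
  obtain ⟨E, h1, h2, h3⟩ := h
  exact ⟨E, h1, h2, neg_mem h3⟩

omit [FiniteDimensional K A] in
lemma sm_zsmul (F : Frame K ι A) {D : Finset ι} {f : A} {r : ℝ} (c : ℤ) (h : F.Sm D f r) :
    F.Sm D (c • f) r := by
  obtain ⟨E, h1, h2, h3⟩ := h
  exact ⟨E, h1, h2, zsmul_mem h3 c⟩

lemma sm_sub (F : Frame K ι A) {D : Finset ι} {f g : A} {r s : ℝ} (h : F.Sm D f r)
    (h' : F.Sm D g s) : F.Sm D (f - g) (r + s) := by
  rw [sub_eq_add_neg]; exact sm_add F h (sm_neg F h')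

lemma sm_sum (F : Frame K ι A) {D : Finset ι} {σ : Type} (s : Finset σ) (f : σ → A) (r : σ → ℝ)
    (h : ∀ l ∈ s, F.Sm D (f l) (r l)) : F.Sm D (∑ l ∈ s, f l) (∑ l ∈ s, r l) := by
  classical
  induction s using Finset.induction_on with
  | empty => simpa using sm_zero F D
  | insert a s ha ih =>
    rw [sum_insert ha, sum_insert ha]
    exact sm_add F (h a (mem_insert_self _ _)) (ih fun l hl => h l (mem_insert_of_mem hl))

omit [FiniteDimensional K A] in
lemma sma_mono (F : Frame K ι A) {D : Finset ι} {H : Type} [Fintype H] {u : H → A} {r s : ℝ}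
    (h : F.SmA D u r) (hr : r ≤ s) : F.SmA D u s := by
  obtain ⟨t, h1, h2⟩ := h
  exact ⟨t, h1, h2.trans hr⟩

omit [FiniteDimensional K A] in
lemma sma_nonneg (F : Frame K ι A) {D : Finset ι} {H : Type} [Fintype H] {u : H → A} {r : ℝ}
    (h : F.SmA D u r) : 0 ≤ r := by
  obtain ⟨t, h1, h2⟩ := h
  exact (expect_nonneg fun q _ => sm_nonneg F (h1 q)).trans h2

lemma sma_add (F : Frame K ι A) {D : Finset ι} {H : Type} [Fintype H] {u v : H → A} {r s : ℝ}
    (h : F.SmA D u r) (h' : F.SmA D v s) : F.SmA D (u + v) (r + s) := by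
  obtain ⟨t, h1, h2⟩ := h
  obtain ⟨t', h1', h2'⟩ := h'
  refine ⟨fun q => t q + t' q, fun q => sm_add F (h1 q) (h1' q), ?_⟩
  rw [expect_add_distrib]
  exact add_le_add h2 h2'

omit [FiniteDimensional K A] in
lemma sma_neg (F : Frame K ι A) {D : Finset ι} {H : Type} [Fintype H] {u : H → A} {r : ℝ}
    (h : F.SmA D u r) : F.SmA D (-u) r := by
  obtain ⟨t, h1, h2⟩ := h
  exact ⟨t, fun q => sm_neg F (h1 q), h2⟩

omit [FiniteDimensional K A] in
lemma sma_const (F : Frame K ι A) {D : Finset ι} {H : Type} [Fintype H] [Nonempty H] {u : H → A}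
    {r : ℝ} (h : ∀ q, F.Sm D (u q) r) : F.SmA D u r :=
  ⟨fun _ => r, h, by rw [Fintype.expect_const]⟩

lemma sma_cd (F : Frame K ι A) {D : Finset ι} {G : Type} [AddCommGroup G] [Fintype G] (n : ℕ)
    {u : Cube n G → A} {r : ℝ} (h : F.SmA D u r) : F.SmA D (cd n u) (3 * (n + 1) * r) := by
  obtain ⟨t, h1, h2⟩ := h
  refine ⟨fun q => ∑ i : Fin (n + 1), (t (fc n i none q) + t (fc n i (some false) q) +
    t (fc n i (some true) q)), fun q => ?_, ?_⟩
  · exact sm_sum F _ _ _ fun i _ => sm_zsmul F _ (sm_sub F (sm_sub F (h1 _) (h1 _)) (h1 _))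
  · rw [expect_sum_comm]
    have : ∀ i : Fin (n + 1), 𝔼 q : Cube (n + 1) G, (t (fc n i none q) +
        t (fc n i (some false) q) + t (fc n i (some true) q)) = 3 * 𝔼 q, t q := by
      intro i
      rw [expect_add_distrib, expect_add_distrib, expect_surj _ (fc_surj n i _),
        expect_surj _ (fc_surj n i _), expect_surj _ (fc_surj n i _)]
      ring
    simp only [this, sum_const, card_univ, Fintype.card_fin, nsmul_eq_mul]
    push_cast
    nlinarith [(Nat.cast_nonneg n : (0 : ℝ) ≤ n)]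

omit [Fintype ι] [DecidableEq ι] [FiniteDimensional K A] in
lemma exists_proj (Y : Submodule K A) :
    ∃ π : A →ₗ[K] A, (∀ x, π x ∈ Y) ∧ ∀ x ∈ Y, π x = x := by
  obtain ⟨C, hC⟩ := Submodule.exists_isCompl Y
  refine ⟨Y.subtype ∘ₗ Y.projectionOnto C hC, fun x => (Y.projectionOnto C hC x).2,
    fun x hx => ?_⟩
  have := Submodule.projectionOnto_apply_left hC ⟨x, hx⟩
  simp only [LinearMap.comp_apply]
  rw [show x = ((⟨x, hx⟩ : Y) : A) from rfl, this]
  rfl

end Pool.Agent.Lib.AD.R34
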