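import Pool.Agent.Lib.AD.SLP
import Pool.Agent.Lib.AD.R34

/-! Block `RELLIN`. -/

noncomputable section

open Finset Module
open scoped BigOperators

namespace Pool.Agent.Lib.AD

theorem stRELLIN (p : ℕ) [Fact p.Prime] (ι : Type) [Fintype ι] [DecidableEq ι] :
    St_RELLIN p ι := by
  intro hP d ⟨C1, hC1, hF⟩ ⟨C2, hC2, hE⟩
  refine ⟨C2 * (1 + 3 * C1), by positivity, fun e he => ?_⟩
  obtain ⟨η, hη, hF⟩ := hF (e / (2 * (C2 + 1))) (by positivity)
  refine ⟨min η (e / (2 * (C2 + 1) * (C1 + 1))), by positivity, ?_⟩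
  intro A _ _ _ F D S G _ _ u k δ z hD hz hS hR hk hu
  have : FiniteDimensional (ZMod p) A := Module.Finite.of_finite
  set η' := min η (e / (2 * (C2 + 1) * (C1 + 1))) with hη'
  have hη'0 : 0 ≤ η' := by positivity
  have hk0 : 0 ≤ k := (sz_nonneg S).trans hk
  obtain ⟨P, S', hS', hN, hsz, hidl, hle, hdiff, hsm, hreg⟩ := slp hP F hS
  choose y hy hy' using hu
  have hδ : 0 ≤ δ := (hy' 0).nonneg
  let w : Cube 0 G → A := fun q => P (u (q ()))
  let ev : Cube 0 G → A := fun q => P (u (q ()) - y (q ()))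
  let yy : Cube 0 G → A := fun q => P (y (q ()))
  have hw : cd 0 w = 0 := by
    funext q
    obtain ⟨q, rfl⟩ := (glue 0).surjective q
    rw [cd_zero_glue]
    simp [cr, w]
  have hyy : yy = w - ev := by
    funext q; simp [yy, w, ev]
  have hev : F.SmA D ev δ := R34.sma_const F fun q => hsm _ _ (hy' _)
  have h2 : F.SmA D (cd 0 yy) (3 * δ) := by
    rw [hyy, cd_sub, hw, zero_sub]
    simpa using R34.sma_neg F (R34.sma_cd F 0 hev)
  have hR' : F.Reg η (z + η' * k) S' :=
    (hreg η' z hη'0 hR).mono (min_le_left _ _) (by nlinarith) le_rfl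
  obtain ⟨s, hs, hs', hs''⟩ := hF A F D S' G yy k _ (z + η' * k) hD (by positivity) hS' hN hR'
    (hsz.trans hk) (fun q => hidl _ (hy _)) h2
  have h3 : cd 0 (ev + s) = 0 := by
    have : ev + s = w - (yy - s) := by rw [hyy]; abel
    rw [this, cd_sub, hw, hs'', sub_zero]
  obtain ⟨b, S0, -, hS0, hS0', hmem⟩ := hE A F D G _ _ hD h3 (R34.sma_add F hev hs')
  refine ⟨S0, hS0, hS0'.trans ?_, fun g => ?_⟩
  · have a1 : C2 * (e / (2 * (C2 + 1))) ≤ e / 2 := by
      rw [mul_div_assoc', div_le_div_iff₀ (by positivity) (by positivity)]; nlinarith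
    have a2 : C2 * C1 * η' ≤ e / 2 := by
      refine (mul_le_mul_of_nonneg_left (min_le_right _ _) (by positivity)).trans ?_
      rw [mul_div_assoc', div_le_div_iff₀ (by positivity) (by positivity)]
      have : 0 ≤ e * C1 := by positivity
      have : 0 ≤ e * C2 := by positivity
      nlinarith
    have a3 := mul_le_mul_of_nonneg_right a1 hk0
    have a4 := mul_le_mul_of_nonneg_right a2 hk0
    have a5 : 0 ≤ C2 * z := by positivity
    have a6 : 0 ≤ C2 * C1 * z := by positivity
    nlinarith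
  · have hX : u g ∈ F.X D := by
      have : u g = y g + (u g - y g) := by abel
      rw [this]
      exact add_mem (hS.idl_le D (hy g)) (hy' g).mem_X
    have h5 : (ev + s) (fun _ => g) ∈ F.idl S0 D := by simpa [cD] using hmem fun _ => g
    have : u g = ((u g - P (u g)) + (P (y g) - s fun _ => g)) + (ev + s) fun _ => g := by
      simp only [ev, Pi.add_apply, map_sub]; abel
    rw [this]
    exact Submodule.add_mem_sup (add_mem (hdiff _ hX)
      (hle (sub_mem (hidl _ (hy g)) (hs _)))) h5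

end Pool.Agent.Lib.AD
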