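import Pool.Agent.Lib.AD.Asm
import Pool.Agent.Lib.AD.EngMain
import Pool.Agent.Lib.AD.ZP
import Pool.Agent.Lib.AD.REG
import Pool.Agent.Lib.AD.PROJ
import Pool.Agent.Lib.AD.PRAR
import Pool.Agent.Lib.AD.EVAL
import Pool.Agent.Lib.AD.COL
import Pool.Agent.Lib.AD.INT
import Pool.Agent.Lib.AD.FIX
import Pool.Agent.Lib.AD.REL
import Pool.Agent.Lib.AD.RELLIN
import Pool.Agent.Lib.AD.APPROX
import Pool.Agent.Lib.AD.HALF
import Pool.Agent.Lib.AD.BASE
import Pool.Agent.Lib.AD.FINAL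

/-! The polynomial inverse theorem in all degrees. -/

noncomputable section

namespace Pool.Agent.Lib.AD

theorem blocks (p : ℕ) [Fact p.Prime] (ι : Type) [Fintype ι] [DecidableEq ι] : Blocks p ι :=
  ⟨stZP p ι, stREG p ι, stPROJ p ι, stPRAR p ι, stEVAL p ι, stCOL p ι, stINT p ι, stFIX p ι,
    stREL p ι, stRELLIN p ι, stAPPROX p ι, stHALF p ι, stBASE p ι⟩

/-- The inverse theorem for `U^{s+1}` over `F_p^n`, `s < p`, with polynomial bounds. -/
theorem polyInverse (p : ℕ) [Fact p.Prime] (s : ℕ) (h1 : 1 ≤ s) (hs : s < p) :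
    MP_3a84e0_co.PolyInverse p s s :=
  polyInverse_of_blocks (fun _ => blocks p _) stENG (stFINAL p) s h1 hs

end Pool.Agent.Lib.AD
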