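import Pool.Agent.Lib.AD.Defs

/-! Basic facts on frames: ideals, sizes, partition rank, regularity. -/

noncomputable section

open Finset Module
open scoped BigOperators

namespace Pool.Agent.Lib.AD

variable {K ι A : Type} [Field K] [DecidableEq ι] [CommRing A] [Algebra K A]

/-- The system with one type. -/
def sgl (J : Finset ι) (W : Submodule K A) : Sys K ι A := fun J' => if J' = J then W else ⊥

@[simp] lemma sgl_self (J : Finset ι) (W : Submodule K A) : sgl J W J = W := by simp [sgl]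

lemma sgl_ne {J J' : Finset ι} (W : Submodule K A) (h : J' ≠ J) : sgl J W J' = ⊥ := by
  simp [sgl, h]

lemma res_le (S : Sys K ι A) (J0 : Finset ι) : res S J0 ≤ S := fun J => by
  unfold res; split_ifs <;> simp

lemma res_of {S : Sys K ι A} {J0 J : Finset ι} (h : J ⊆ J0) : res S J0 J = S J := by simp [res, h]

lemma res_of_not {S : Sys K ι A} {J0 J : Finset ι} (h : ¬J ⊆ J0) : res S J0 J = ⊥ := by
  simp [res, h]

section size

variable [Fintype ι]

lemma sz_nonneg (S : Sys K ι A) : 0 ≤ sz S := sum_nonneg fun _ _ => Nat.cast_nonneg _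

lemma sz_bot : sz (⊥ : Sys K ι A) = 0 := by simp [sz]

lemma finrank_le_sz (S : Sys K ι A) (J : Finset ι) : (finrank K (S J) : ℝ) ≤ sz S :=
  single_le_sum (f := fun J => (finrank K (S J) : ℝ)) (fun _ _ => Nat.cast_nonneg _) (mem_univ J)

lemma sz_sgl (J : Finset ι) (W : Submodule K A) : sz (sgl J W) = finrank K W := by
  unfold sz
  rw [sum_eq_single J (fun J' _ h => by rw [sgl_ne W h]; simp) (by simp), sgl_self]

lemma sz_le_of {S S' : Sys K ι A} (h : ∀ J, finrank K (S J) ≤ finrank K (S' J)) : sz S ≤ sz S' :=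
  sum_le_sum fun J _ => by exact_mod_cast h J

variable [FiniteDimensional K A]

lemma sz_mono {S S' : Sys K ι A} (h : S ≤ S') : sz S ≤ sz S' :=
  sz_le_of fun J => Submodule.finrank_mono (h J)

lemma finrank_sup_le (W B : Submodule K A) :
    (finrank K (W ⊔ B : Submodule K A) : ℝ) ≤ finrank K W + finrank K B := by
  exact_mod_cast Submodule.finrank_add_le_finrank_add_finrank W B

lemma sz_sup (S S' : Sys K ι A) : sz (S ⊔ S') ≤ sz S + sz S' := by
  unfold sz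
  rw [← sum_add_distrib]
  exact sum_le_sum fun J _ => finrank_sup_le _ _

lemma sz_res (S : Sys K ι A) (J0 : Finset ι) : sz (res S J0) ≤ sz S := sz_mono (res_le S J0)

lemma sz_map (S : Sys K ι A) (f : Finset ι → A →ₗ[K] A) :
    sz (fun J => (S J).map (f J)) ≤ sz S := sz_le_of fun J => Submodule.finrank_map_le _ _

lemma eq_bot_of_sz_lt_one {S : Sys K ι A} (h : sz S < 1) : S = ⊥ := by
  funext J
  have h1 : (finrank K (S J) : ℝ) < 1 := (finrank_le_sz S J).trans_lt h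
  have h2 : finrank K (S J) = 0 := by
    have : finrank K (S J) < 1 := by exact_mod_cast h1
    omega
  exact Submodule.finrank_eq_zero.1 h2

end size

namespace Frame

variable (F : Frame K ι A)

lemma X_split {J D : Finset ι} (h : J ⊆ D) : F.X J * F.X (D \ J) = F.X D := by
  rw [F.X_mul _ _ disjoint_sdiff, union_sdiff_of_subset h]

lemma X_insert {i : ι} {J : Finset ι} (h : i ∉ J) : F.X {i} * F.X J = F.X (insert i J) := by
  rw [F.X_mul _ _ (by simpa using h), insert_eq]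

lemma mul_mem_X {J J' : Finset ι} (h : Disjoint J J') {x y : A} (hx : x ∈ F.X J)
    (hy : y ∈ F.X J') : x * y ∈ F.X (J ∪ J') := F.X_mul _ _ h ▸ Submodule.mul_mem_mul hx hy

lemma mul_le_X {J J' : Finset ι} (h : Disjoint J J') {W Y : Submodule K A} (hW : W ≤ F.X J)
    (hY : Y ≤ F.X J') : W * Y ≤ F.X (J ∪ J') := F.X_mul _ _ h ▸ mul_le_mul' hW hY

lemma le_idl (S : Sys K ι A) {J D : Finset ι} (h : J ⊆ D) : S J * F.X (D \ J) ≤ F.idl S D :=
  le_iSup₂_of_le (f := fun J (_ : J ⊆ D) => S J * F.X (D \ J)) J h le_rfl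

lemma idl_le {S : Sys K ι A} {D : Finset ι} {Y : Submodule K A}
    (h : ∀ J, J ⊆ D → S J * F.X (D \ J) ≤ Y) : F.idl S D ≤ Y := iSup₂_le h

lemma idl_mono' {S S' : Sys K ι A} {D : Finset ι} (h : ∀ J, J ⊆ D → S J ≤ S' J) :
    F.idl S D ≤ F.idl S' D :=
  F.idl_le fun J hJ => (mul_le_mul' (h J hJ) le_rfl).trans (F.le_idl S' hJ)

lemma idl_mono {S S' : Sys K ι A} (D : Finset ι) (h : S ≤ S') : F.idl S D ≤ F.idl S' D :=
  F.idl_mono' fun J _ => h J

lemma idl_bot (D : Finset ι) : F.idl ⊥ D = ⊥ := le_bot_iff.1 (F.idl_le fun J _ => by simp)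

lemma idl_sup (S S' : Sys K ι A) (D : Finset ι) : F.idl (S ⊔ S') D = F.idl S D ⊔ F.idl S' D := by
  refine le_antisymm (F.idl_le fun J hJ => ?_)
    (sup_le (F.idl_mono D le_sup_left) (F.idl_mono D le_sup_right))
  rw [Pi.sup_apply, Submodule.sup_mul]
  exact sup_le_sup (F.le_idl S hJ) (F.le_idl S' hJ)

lemma idl_le_X {S : Sys K ι A} (h : ∀ J, S J ≤ F.X J) (D : Finset ι) : F.idl S D ≤ F.X D :=
  F.idl_le fun J hJ => (mul_le_mul' (h J) le_rfl).trans (F.X_split hJ).le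

lemma self_le_idl (S : Sys K ι A) (D : Finset ι) : S D ≤ F.idl S D := by
  have := F.le_idl S (Subset.refl D)
  rwa [sdiff_self, bot_eq_empty, F.X_empty, mul_one] at this

lemma idl_mul_X (S : Sys K ι A) {D D' : Finset ι} (h : Disjoint D D') :
    F.idl S D * F.X D' ≤ F.idl S (D ∪ D') := by
  unfold idl
  rw [Submodule.iSup_mul]
  refine iSup_le fun J => ?_
  rw [Submodule.iSup_mul]
  refine iSup_le fun hJ => ?_
  have e : D \ J ∪ D' = (D ∪ D') \ J := by
    rw [union_sdiff_distrib, sdiff_eq_self_of_disjoint (h.symm.mono_right hJ)]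
  rw [mul_assoc, F.X_mul _ _ (h.mono_left sdiff_subset), e]
  exact F.le_idl S (hJ.trans subset_union_left)

lemma idl_mul_X' (S : Sys K ι A) {J D : Finset ι} (h : J ⊆ D) :
    F.idl S J * F.X (D \ J) ≤ F.idl S D := by
  have := F.idl_mul_X S (disjoint_sdiff : Disjoint J (D \ J))
  rwa [union_sdiff_of_subset h] at this

lemma X_mul_idl (S : Sys K ι A) {I D : Finset ι} (h : I ⊆ D) :
    F.X I * F.idl S (D \ I) ≤ F.idl S D := by
  have := F.idl_mul_X S (sdiff_disjoint : Disjoint (D \ I) I)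
  rwa [sdiff_union_of_subset h, mul_comm] at this

lemma idl_le_idl {S S' : Sys K ι A} {D : Finset ι} (h : ∀ J, J ⊆ D → S J ≤ F.idl S' J) :
    F.idl S D ≤ F.idl S' D :=
  F.idl_le fun J hJ => (mul_le_mul' (h J hJ) le_rfl).trans (F.idl_mul_X' S' hJ)

lemma idl_res (S : Sys K ι A) {D D0 : Finset ι} (h : D ⊆ D0) : F.idl (res S D0) D = F.idl S D :=
  le_antisymm (F.idl_mono D (res_le S D0)) (F.idl_mono' fun _ hJ => (res_of (hJ.trans h)).ge)

lemma idl_sgl {J D : Finset ι} (h : J ⊆ D) (W : Submodule K A) :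
    F.idl (sgl J W) D = W * F.X (D \ J) := by
  refine le_antisymm (F.idl_le fun J' _ => ?_) (by simpa using F.le_idl (sgl J W) h)
  by_cases e : J' = J
  · subst e; simp
  · simp [sgl_ne W e]

variable {F}

lemma Prp.le {D : Finset ι} {S : Sys K ι A} (h : F.Prp D S) (J : Finset ι) : S J ≤ F.X J := (h J).1

lemma Prp.eq_bot {D J : Finset ι} {S : Sys K ι A} (h : F.Prp D S) (hJ : ¬(J.Nonempty ∧ J ⊂ D)) :
    S J = ⊥ := by
  by_contra e
  exact hJ ((h J).2 e)

lemma Prp.empty {D : Finset ι} {S : Sys K ι A} (h : F.Prp D S) : S ∅ = ⊥ := h.eq_bot (by simp)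

lemma Prp.top {D : Finset ι} {S : Sys K ι A} (h : F.Prp D S) : S D = ⊥ := h.eq_bot (by simp)

lemma Prp.idl_le {D : Finset ι} {S : Sys K ι A} (h : F.Prp D S) (D' : Finset ι) :
    F.idl S D' ≤ F.X D' := F.idl_le_X h.le D'

lemma prp_bot (D : Finset ι) : F.Prp D ⊥ := fun _ => ⟨bot_le, fun h => absurd rfl h⟩

lemma Prp.anti {D : Finset ι} {S S' : Sys K ι A} (h : F.Prp D S) (hs : S' ≤ S) : F.Prp D S' :=
  fun J => ⟨(hs J).trans (h J).1, fun e => (h J).2 fun e' => e (le_bot_iff.1 (e' ▸ hs J))⟩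

lemma Prp.sup {D : Finset ι} {S S' : Sys K ι A} (h : F.Prp D S) (h' : F.Prp D S') :
    F.Prp D (S ⊔ S') := fun J => ⟨sup_le (h J).1 (h' J).1, fun e => by
  by_contra c
  exact e (by rw [Pi.sup_apply, h.eq_bot c, h'.eq_bot c, sup_idem])⟩

lemma Prp.mono {D D' : Finset ι} {S : Sys K ι A} (h : F.Prp D S) (hD : D ⊆ D') : F.Prp D' S :=
  fun J => ⟨(h J).1, fun e => ⟨((h J).2 e).1, ((h J).2 e).2.trans_subset hD⟩⟩

lemma prp_sgl {J D : Finset ι} {W : Submodule K A} (hW : W ≤ F.X J) (h0 : J.Nonempty)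
    (h1 : J ⊂ D) : F.Prp D (sgl J W) := fun J' => by
  by_cases e : J' = J
  · subst e; exact ⟨by simpa using hW, fun _ => ⟨h0, h1⟩⟩
  · simp [sgl_ne W e]

lemma Prp.eq_bot_of_card {D : Finset ι} {S : Sys K ι A} (h : F.Prp D S) (hD : D.card ≤ 1) :
    S = ⊥ := by
  funext J
  refine h.eq_bot fun c => ?_
  have h1 := card_lt_card c.2
  have h2 := c.1.card_pos
  omega

variable [Fintype ι]

lemma mem_idl {S : Sys K ι A} {D : Finset ι} {f : A} (h : f ∈ F.idl S D) :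
    ∃ g : Finset ι → A, (∀ J, g J ∈ S J * F.X (D \ J)) ∧ (∀ J, ¬J ⊆ D → g J = 0) ∧
      f = ∑ J, g J := by
  refine Submodule.iSup_induction _ (motive := fun f => ∃ g : Finset ι → A,
    (∀ J, g J ∈ S J * F.X (D \ J)) ∧ (∀ J, ¬J ⊆ D → g J = 0) ∧ f = ∑ J, g J) h ?_
    ⟨0, fun _ => zero_mem _, fun _ _ => rfl, by simp⟩ ?_
  · intro J x hx
    by_cases hJ : J ⊆ D
    · rw [iSup_pos hJ] at hx
      refine ⟨Pi.single J x, fun J' => ?_, fun J' h' => ?_, by simp⟩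
      · by_cases e : J' = J
        · subst e; simpa using hx
        · simp [Pi.single_eq_of_ne e]
      · exact Pi.single_eq_of_ne (fun e : J' = J => h' (by rw [e]; exact hJ)) _
    · rw [iSup_neg hJ] at hx
      exact ⟨0, fun _ => zero_mem _, fun _ _ => rfl, by simpa using hx⟩
  · rintro x y ⟨g, h1, h2, rfl⟩ ⟨g', h1', h2', rfl⟩
    exact ⟨g + g', fun J => add_mem (h1 J) (h1' J), fun J hJ => by simp [h2 J hJ, h2' J hJ],
      by simp [sum_add_distrib]⟩

/-- Transfer principle for subadditive notions of size. -/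
lemma idl_transfer {Y : Type} [AddCommMonoid Y] (P : Y → ℝ → Prop) (h0 : ∀ r, 0 ≤ r → P 0 r)
    (hadd : ∀ x y r s, P x r → P y s → P (x + y) (r + s)) (φ : A →+ Y) {E : Sys K ι A}
    {D : Finset ι}
    (h : ∀ J, J ⊆ D → E J ≠ ⊥ → ∀ x ∈ E J * F.X (D \ J), P (φ x) (finrank K (E J))) {f : A}
    (hf : f ∈ F.idl E D) : P (φ f) (sz E) := by
  obtain ⟨g, h1, h2, rfl⟩ := mem_idl hf
  have hJ : ∀ J, P (φ (g J)) (finrank K (E J)) := fun J => by
    by_cases c : J ⊆ D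
    · by_cases e : E J = ⊥
      · have : g J = 0 := by simpa [e] using h1 J
        rw [this, map_zero]; exact h0 _ (Nat.cast_nonneg _)
      · exact h J c e _ (h1 J)
    · rw [h2 J c, map_zero]; exact h0 _ (Nat.cast_nonneg _)
  rw [map_sum]
  unfold sz
  induction (univ : Finset (Finset ι)) using Finset.induction_on with
  | empty => simpa using h0 0 le_rfl
  | insert J s hs ih => rw [sum_insert hs, sum_insert hs]; exact hadd _ _ _ _ (hJ J) ih

lemma Sm.nonneg {D : Finset ι} {f : A} {r : ℝ} (h : F.Sm D f r) : 0 ≤ r := by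
  obtain ⟨E, -, h, -⟩ := h
  exact (sz_nonneg E).trans h

lemma sm_zero (D : Finset ι) {r : ℝ} (h : 0 ≤ r) : F.Sm D 0 r :=
  ⟨⊥, prp_bot D, sz_bot.trans_le h, zero_mem _⟩

lemma Sm.mono {D : Finset ι} {f : A} {r s : ℝ} (h : F.Sm D f r) (hs : r ≤ s) : F.Sm D f s := by
  obtain ⟨E, h1, h2, h3⟩ := h
  exact ⟨E, h1, h2.trans hs, h3⟩

lemma Sm.neg {D : Finset ι} {f : A} {r : ℝ} (h : F.Sm D f r) : F.Sm D (-f) r := by
  obtain ⟨E, h1, h2, h3⟩ := h
  exact ⟨E, h1, h2, neg_mem h3⟩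

lemma Sm.smul {D : Finset ι} {f : A} {r : ℝ} (h : F.Sm D f r) (c : K) : F.Sm D (c • f) r := by
  obtain ⟨E, h1, h2, h3⟩ := h
  exact ⟨E, h1, h2, Submodule.smul_mem _ c h3⟩

lemma Sm.zsmul {D : Finset ι} {f : A} {r : ℝ} (h : F.Sm D f r) (c : ℤ) : F.Sm D (c • f) r := by
  obtain ⟨E, h1, h2, h3⟩ := h
  exact ⟨E, h1, h2, zsmul_mem h3 c⟩

lemma Sm.mem_X {D : Finset ι} {f : A} {r : ℝ} (h : F.Sm D f r) : f ∈ F.X D := by
  obtain ⟨E, h1, -, h3⟩ := h
  exact h1.idl_le D h3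

lemma sm_of_idl {D : Finset ι} {E : Sys K ι A} (h : F.Prp D E) {f : A} (hf : f ∈ F.idl E D) :
    F.Sm D f (sz E) := ⟨E, h, le_rfl, hf⟩

lemma sm_of_mul {J D : Finset ι} {W : Submodule K A} (hW : W ≤ F.X J) (h0 : J.Nonempty)
    (h1 : J ⊂ D) {f : A} (hf : f ∈ W * F.X (D \ J)) : F.Sm D f (finrank K W) :=
  ⟨sgl J W, prp_sgl hW h0 h1, (sz_sgl J W).le, by rwa [F.idl_sgl h1.subset]⟩

lemma Sm.eq_zero_of_card {D : Finset ι} {f : A} {r : ℝ} (h : F.Sm D f r) (hD : D.card ≤ 1) :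
    f = 0 := by
  obtain ⟨E, h1, -, h3⟩ := h
  rw [h1.eq_bot_of_card hD, F.idl_bot] at h3
  simpa using h3

lemma Sm.mul_X {D D' : Finset ι} {f g : A} {r : ℝ} (h : F.Sm D f r) (hd : Disjoint D D')
    (hg : g ∈ F.X D') : F.Sm (D ∪ D') (f * g) r := by
  obtain ⟨E, h1, h2, h3⟩ := h
  exact ⟨E, h1.mono subset_union_left, h2, F.idl_mul_X E hd (Submodule.mul_mem_mul h3 hg)⟩

lemma SmC.sm {D I : Finset ι} {f : A} {r : ℝ} (h : F.SmC D I f r) : F.Sm D f r := by
  obtain ⟨E, h1, -, h2, h3⟩ := h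
  exact ⟨E, h1, h2, h3⟩

lemma smC_zero (D I : Finset ι) {r : ℝ} (h : 0 ≤ r) : F.SmC D I 0 r :=
  ⟨⊥, prp_bot D, fun _ e => absurd rfl e, sz_bot.trans_le h, zero_mem _⟩

lemma SmC.mono {D I : Finset ι} {f : A} {r s : ℝ} (h : F.SmC D I f r) (hs : r ≤ s) :
    F.SmC D I f s := by
  obtain ⟨E, h1, hc, h2, h3⟩ := h
  exact ⟨E, h1, hc, h2.trans hs, h3⟩

lemma SmC.neg {D I : Finset ι} {f : A} {r : ℝ} (h : F.SmC D I f r) : F.SmC D I (-f) r := by
  obtain ⟨E, h1, hc, h2, h3⟩ := h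
  exact ⟨E, h1, hc, h2, neg_mem h3⟩

lemma smC_of_mul {I J D : Finset ι} {W : Submodule K A} (hW : W ≤ F.X J) (h0 : J.Nonempty)
    (h1 : J ⊂ D) (hc : I ⊆ J ∨ Disjoint J I) {f : A} (hf : f ∈ W * F.X (D \ J)) :
    F.SmC D I f (finrank K W) := by
  refine ⟨sgl J W, prp_sgl hW h0 h1, fun J' e => ?_, (sz_sgl J W).le,
    by rwa [F.idl_sgl h1.subset]⟩
  by_cases e' : J' = J
  · exact e' ▸ hc
  · exact absurd (sgl_ne W e') e

lemma Sm.smC_single {D : Finset ι} {f : A} {r : ℝ} (h : F.Sm D f r) (i : ι) :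
    F.SmC D {i} f r := by
  obtain ⟨E, h1, h2, h3⟩ := h
  exact ⟨E, h1, fun J _ => by by_cases c : i ∈ J <;> simp [c], h2, h3⟩

lemma RR.mono {η z η' z' : ℝ} {J : Finset ι} {W B W' B' : Submodule K A} [FiniteDimensional K A]
    (h : F.RR η z J W B) (hη : η ≤ η') (hz : z ≤ z') (hW : W' ≤ W) (hB : B' ≤ B) :
    F.RR η' z' J W' B' := fun E hE => by
  have h1 : finrank K (W' ⊓ (B' ⊔ F.idl E J) : Submodule K A) ≤
      finrank K (W ⊓ (B ⊔ F.idl E J) : Submodule K A) :=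
    Submodule.finrank_mono (inf_le_inf hW (sup_le_sup_right hB _))
  have h2 := h E hE
  have h3 := mul_le_mul_of_nonneg_right hη (sz_nonneg E)
  have h4 : (finrank K (W' ⊓ (B' ⊔ F.idl E J) : Submodule K A) : ℝ) ≤
      finrank K (W ⊓ (B ⊔ F.idl E J) : Submodule K A) := by exact_mod_cast h1
  linarith

lemma rr_bot {η z : ℝ} (hη : 0 ≤ η) (hz : 0 ≤ z) (J : Finset ι) (B : Submodule K A) :
    F.RR η z J ⊥ B := fun E _ => by
  rw [bot_inf_eq, finrank_bot]
  have := mul_nonneg hη (sz_nonneg E)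
  push_cast
  linarith

lemma RR.inf {η z : ℝ} {J : Finset ι} {W B : Submodule K A} (h : F.RR η z J W B) :
    (finrank K (W ⊓ B : Submodule K A) : ℝ) ≤ z := by
  have := h ⊥ (prp_bot J)
  rwa [F.idl_bot, sup_bot_eq, sz_bot, mul_zero, add_zero] at this

lemma Reg.mono {η z η' z' : ℝ} {S S' : Sys K ι A} [FiniteDimensional K A] (h : F.Reg η z S)
    (hη : η ≤ η') (hz : z ≤ z') (hS : S' ≤ S) : F.Reg η' z' S' :=
  fun J => (h J).mono hη hz (hS J) le_rfl

variable [FiniteDimensional K A]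

lemma Sm.add {D : Finset ι} {f g : A} {r s : ℝ} (h : F.Sm D f r) (h' : F.Sm D g s) :
    F.Sm D (f + g) (r + s) := by
  obtain ⟨E, h1, h2, h3⟩ := h
  obtain ⟨E', h1', h2', h3'⟩ := h'
  exact ⟨E ⊔ E', h1.sup h1', (sz_sup E E').trans (add_le_add h2 h2'),
    add_mem (F.idl_mono D le_sup_left h3) (F.idl_mono D le_sup_right h3')⟩

lemma Sm.sub {D : Finset ι} {f g : A} {r s : ℝ} (h : F.Sm D f r) (h' : F.Sm D g s) :
    F.Sm D (f - g) (r + s) := by
  rw [sub_eq_add_neg]; exact h.add h'.neg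

lemma sm_sum {T : Type} {D : Finset ι} (s : Finset T) {f : T → A} {r : T → ℝ}
    (h : ∀ t ∈ s, F.Sm D (f t) (r t)) : F.Sm D (∑ t ∈ s, f t) (∑ t ∈ s, r t) := by
  classical
  induction s using Finset.induction_on with
  | empty => simpa using sm_zero D le_rfl
  | insert a s ha ih =>
    rw [sum_insert ha, sum_insert ha]
    exact (h a (mem_insert_self _ _)).add (ih fun t ht => h t (mem_insert_of_mem ht))

lemma Sm.eq_zero_of_lt_one {D : Finset ι} {f : A} {r : ℝ} (h : F.Sm D f r) (hr : r < 1) :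
    f = 0 := by
  obtain ⟨E, -, h2, h3⟩ := h
  rw [eq_bot_of_sz_lt_one (h2.trans_lt hr), F.idl_bot] at h3
  simpa using h3

lemma SmC.add {D I : Finset ι} {f g : A} {r s : ℝ} (h : F.SmC D I f r) (h' : F.SmC D I g s) :
    F.SmC D I (f + g) (r + s) := by
  obtain ⟨E, h1, hc, h2, h3⟩ := h
  obtain ⟨E', h1', hc', h2', h3'⟩ := h'
  refine ⟨E ⊔ E', h1.sup h1', fun J e => ?_, (sz_sup E E').trans (add_le_add h2 h2'),
    add_mem (F.idl_mono D le_sup_left h3) (F.idl_mono D le_sup_right h3')⟩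
  by_cases c : E J = ⊥
  · exact hc' J fun c' => e (by rw [Pi.sup_apply, c, c', sup_idem])
  · exact hc J c

lemma SmC.sub {D I : Finset ι} {f g : A} {r s : ℝ} (h : F.SmC D I f r) (h' : F.SmC D I g s) :
    F.SmC D I (f - g) (r + s) := by
  rw [sub_eq_add_neg]; exact h.add h'.neg

omit [Fintype ι] [DecidableEq ι] in
lemma _root_.Pool.Agent.Lib.AD.finrank_sup_inf_le (W B Y : Submodule K A) :
    finrank K ((W ⊔ B) ⊓ Y : Submodule K A) ≤
      finrank K (W ⊓ (B ⊔ Y) : Submodule K A) + finrank K (B ⊓ Y : Submodule K A) := by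
  have e1 := Submodule.finrank_sup_add_finrank_inf_eq (W ⊔ B) Y
  have e2 := Submodule.finrank_sup_add_finrank_inf_eq W (B ⊔ Y)
  have e3 := Submodule.finrank_sup_add_finrank_inf_eq B Y
  have e4 := Submodule.finrank_add_le_finrank_add_finrank W B
  rw [sup_assoc] at e1
  change finrank K (W ⊔ B : Submodule K A) ≤ _ at e4
  omega

lemma RR.sup {η z η' z' : ℝ} {J : Finset ι} {W B B0 : Submodule K A} (h : F.RR η z J W (B ⊔ B0))
    (h' : F.RR η' z' J B B0) : F.RR (η + η') (z + z') J (W ⊔ B) B0 := fun E hE => by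
  have h1 := h E hE
  have h2 := h' E hE
  have h3 : (finrank K ((W ⊔ B) ⊓ (B0 ⊔ F.idl E J) : Submodule K A) : ℝ) ≤
      finrank K (W ⊓ (B ⊔ (B0 ⊔ F.idl E J)) : Submodule K A) +
        finrank K (B ⊓ (B0 ⊔ F.idl E J) : Submodule K A) := by
    exact_mod_cast finrank_sup_inf_le W B _
  rw [← sup_assoc] at h3
  linarith

lemma RR.sup_bot {η z η' z' : ℝ} {J : Finset ι} {W B : Submodule K A} (h : F.RR η z J W B)
    (h' : F.RR η' z' J B ⊥) : F.RR (η + η') (z + z') J (W ⊔ B) ⊥ :=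
  RR.sup (by rwa [sup_bot_eq]) h'

/-- Regularity modulo an additional proper system. -/
lemma RR.shift {η z : ℝ} {J : Finset ι} {W B : Submodule K A} (h : F.RR η z J W B) (hη : 0 ≤ η)
    {E0 : Sys K ι A} (h0 : F.Prp J E0) : F.RR η (z + η * sz E0) J W (B ⊔ F.idl E0 J) :=
  fun E hE => by
  have h1 := h (E0 ⊔ E) (h0.sup hE)
  rw [F.idl_sup, ← sup_assoc] at h1
  have h2 := mul_le_mul_of_nonneg_left (sz_sup E0 E) hη
  linarith

end Frame

end Pool.Agent.Lib.AD
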