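import Pool.Agent.Lib.AD.Api

/-! Basic facts on frames: averages, blockwise maps, evaluation, merging. -/

noncomputable section

open Finset Module
open scoped BigOperators

namespace Pool.Agent.Lib.AD

variable {K ι A : Type} [Field K] [DecidableEq ι] [CommRing A] [Algebra K A]

lemma mg_of_disjoint {I J : Finset ι} {i0 : ι} (h0 : i0 ∈ I) (h : Disjoint J I) :
    mg I i0 J = J := by
  have : i0 ∉ J := fun c => disjoint_left.1 h c h0
  simp [mg, this, sdiff_eq_self_of_disjoint h]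

lemma mg_insert {I J : Finset ι} {i0 : ι} (h0 : i0 ∈ I) : mg I i0 (insert i0 J) = I ∪ J := by
  ext a
  simp only [mg, mem_insert_self, if_true, mem_union, mem_insert]
  constructor
  · rintro ((rfl | h) | h) <;> simp [*]
  · tauto

lemma mg_single {I : Finset ι} {i0 : ι} (h0 : i0 ∈ I) : mg I i0 {i0} = I := by
  simpa using mg_insert (J := ∅) h0

lemma card_merge_le {I D : Finset ι} {i0 : ι} (h : I ⊆ D) :
    (insert i0 (D \ I)).card ≤ D.card - I.card + 1 := by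
  rw [← card_sdiff_of_subset h]; exact card_insert_le _ _

namespace Frame

variable (F : Frame K ι A)

section bw

lemma bw_mem {I J : Finset ι} (h : Disjoint I J) (κ : A →ₗ[K] A) {W Y : Submodule K A}
    (hW : W ≤ F.X I) (hY : Y ≤ F.X J) {f : A} (hf : f ∈ W * Y) : F.bw I κ f ∈ W.map κ * Y := by
  refine Submodule.mul_induction_on hf (fun x hx y hy => ?_) fun x y hx hy => ?_
  · rw [F.bw_mul I J κ h x (hW hx) y (hY hy)]
    exact Submodule.mul_mem_mul (Submodule.mem_map_of_mem hx) hy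
  · rw [map_add]; exact add_mem hx hy

lemma bw_mem' {I J : Finset ι} (h : Disjoint I J) (κ : A →ₗ[K] A) {W W' Y : Submodule K A}
    (hW : W ≤ F.X I) (hY : Y ≤ F.X J) (hκ : ∀ x ∈ W, κ x ∈ W') {f : A} (hf : f ∈ W * Y) :
    F.bw I κ f ∈ W' * Y :=
  mul_le_mul' (Submodule.map_le_iff_le_comap.2 hκ) le_rfl (F.bw_mem h κ hW hY hf)

lemma bw_congr {I J : Finset ι} (h : Disjoint I J) {κ κ' : A →ₗ[K] A} {W Y : Submodule K A}
    (hW : W ≤ F.X I) (hY : Y ≤ F.X J) (hκ : ∀ x ∈ W, κ x = κ' x) {f : A} (hf : f ∈ W * Y) :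
    F.bw I κ f = F.bw I κ' f := by
  refine Submodule.mul_induction_on hf (fun x hx y hy => ?_) fun x y hx hy => ?_
  · rw [F.bw_mul I J κ h x (hW hx) y (hY hy), F.bw_mul I J κ' h x (hW hx) y (hY hy), hκ x hx]
  · rw [map_add, map_add, hx, hy]

lemma bw_fix {I J : Finset ι} (h : Disjoint I J) {κ : A →ₗ[K] A} {W Y : Submodule K A}
    (hW : W ≤ F.X I) (hY : Y ≤ F.X J) (hκ : ∀ x ∈ W, κ x = x) {f : A} (hf : f ∈ W * Y) :
    F.bw I κ f = f := by
  refine Submodule.mul_induction_on hf (fun x hx y hy => ?_) fun x y hx hy => ?_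
  · rw [F.bw_mul I J κ h x (hW hx) y (hY hy), hκ x hx]
  · rw [map_add, hx, hy]

lemma bw_kill {I J : Finset ι} (h : Disjoint I J) {κ : A →ₗ[K] A} {W Y : Submodule K A}
    (hW : W ≤ F.X I) (hY : Y ≤ F.X J) (hκ : ∀ x ∈ W, κ x = 0) {f : A} (hf : f ∈ W * Y) :
    F.bw I κ f = 0 := by
  have := F.bw_mem' (W' := ⊥) h κ hW hY hκ hf
  simpa using this

lemma bw_id {I D : Finset ι} (h : I ⊆ D) {f : A} (hf : f ∈ F.X D) :
    F.bw I LinearMap.id f = f :=
  F.bw_fix disjoint_sdiff le_rfl le_rfl (fun _ _ => rfl) ((F.X_split h).ge hf)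

lemma bw_mul_right {I J J' : Finset ι} (h : Disjoint I J) (h' : Disjoint (I ∪ J) J')
    (κ : A →ₗ[K] A) {x y : A} (hx : x ∈ F.X (I ∪ J)) (hy : y ∈ F.X J') :
    F.bw I κ (x * y) = F.bw I κ x * y := by
  rw [← F.X_mul _ _ h] at hx
  rw [disjoint_union_left] at h'
  refine Submodule.mul_induction_on hx (fun a ha b hb => ?_) fun a b ha hb => ?_
  · rw [mul_assoc, F.bw_mul I (J ∪ J') κ (disjoint_union_right.2 ⟨h, h'.1⟩) a ha _
      (F.mul_mem_X h'.2 hb hy), F.bw_mul I J κ h a ha b hb, mul_assoc]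
  · rw [add_mul, map_add, map_add, ha, hb, add_mul]

lemma bw_mul_sub {I J J' : Finset ι} (h : I ⊆ J) (h' : Disjoint J J')
    (κ : A →ₗ[K] A) {x y : A} (hx : x ∈ F.X J) (hy : y ∈ F.X J') :
    F.bw I κ (x * y) = F.bw I κ x * y :=
  F.bw_mul_right (J := J \ I) disjoint_sdiff (by rwa [union_sdiff_of_subset h]) κ
    (by rwa [union_sdiff_of_subset h]) hy

lemma bw_mem_map {I J J' : Finset ι} (h : I ⊆ J) (h' : Disjoint J J') (κ : A →ₗ[K] A)
    {W Y : Submodule K A} (hW : W ≤ F.X J) (hY : Y ≤ F.X J') {f : A} (hf : f ∈ W * Y) :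
    F.bw I κ f ∈ W.map (F.bw I κ) * Y := by
  refine Submodule.mul_induction_on hf (fun x hx y hy => ?_) fun x y hx hy => ?_
  · rw [F.bw_mul_sub h h' κ (hW hx) (hY hy)]
    exact Submodule.mul_mem_mul (Submodule.mem_map_of_mem hx) hy
  · rw [map_add]; exact add_mem hx hy

lemma bw_mem_X {I I' D : Finset ι} (h : I ⊆ D) (h' : Disjoint I' (D \ I)) {κ : A →ₗ[K] A}
    (hκ : ∀ x ∈ F.X I, κ x ∈ F.X I') {f : A} (hf : f ∈ F.X D) :
    F.bw I κ f ∈ F.X (I' ∪ D \ I) :=
  (F.X_mul _ _ h').le (F.bw_mem' disjoint_sdiff κ le_rfl le_rfl hκ ((F.X_split h).ge hf))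

variable {F}

/-- Blockwise maps preserve compatible smallness. -/
lemma SmC.bw [Fintype ι] [FiniteDimensional K A] {D I I' : Finset ι} {f : A} {r : ℝ}
    (hs : F.SmC D I f r) (h : I ⊆ D) (h0 : I'.Nonempty) (h' : Disjoint I' (D \ I))
    {κ : A →ₗ[K] A} (hκ : ∀ x ∈ F.X I, κ x ∈ F.X I') :
    F.SmC (I' ∪ D \ I) I' (F.bw I κ f) r := by
  obtain ⟨E, h1, hc, h2, h3⟩ := hs
  refine SmC.mono ?_ h2
  refine idl_transfer (fun x r => F.SmC (I' ∪ D \ I) I' x r) (fun r hr => smC_zero _ _ hr)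
    (fun _ _ _ _ a b => a.add b) (F.bw I κ).toAddMonoidHom (fun J hJ e x hx => ?_) h3
  obtain ⟨hne, hss⟩ := (h1 J).2 e
  have hd := disjoint_left.1 h'
  rcases hc J e with c | c
  · have hd1 : Disjoint I' (J \ I) := h'.mono_right (sdiff_subset_sdiff hJ Subset.rfl)
    have e1 : (I' ∪ D \ I) \ (I' ∪ J \ I) = D \ J := by
      ext a
      have := @hd a; have := @c a
      simp only [mem_sdiff, mem_union] at *; tauto
    refine SmC.mono (smC_of_mul (J := I' ∪ J \ I) (W := (E J).map (F.bw I κ)) ?_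
      (h0.mono subset_union_left) ?_ (Or.inl subset_union_left) ?_)
      (by exact_mod_cast Submodule.finrank_map_le _ _)
    · rintro _ ⟨w, hw, rfl⟩
      exact F.bw_mem_X c hd1 hκ (h1.le J hw)
    · refine ⟨union_subset_union Subset.rfl (sdiff_subset_sdiff hJ Subset.rfl), fun c' => ?_⟩
      obtain ⟨a, ha, ha'⟩ := exists_of_ssubset hss
      have : a ∈ (I' ∪ D \ I) \ (I' ∪ J \ I) := e1 ▸ mem_sdiff.2 ⟨ha, ha'⟩
      exact (mem_sdiff.1 this).2 (c' (mem_sdiff.1 this).1)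
    · rw [e1]
      exact F.bw_mem_map c disjoint_sdiff κ (h1.le J) le_rfl hx
  · have hc' := disjoint_left.1 c
    have hJ' : J ⊆ D \ I := subset_sdiff.2 ⟨hJ, c⟩
    have hI : I ⊆ D \ J := subset_sdiff.2 ⟨h, c.symm⟩
    have e1 : (I' ∪ D \ I) \ J = I' ∪ (D \ J) \ I := by
      ext a
      have := @hd a; have := @hJ' a
      simp only [mem_sdiff, mem_union] at *; tauto
    refine smC_of_mul (h1.le J) hne ?_ (Or.inr (h'.mono_right hJ').symm) ?_
    · refine ⟨hJ'.trans subset_union_right, fun c' => ?_⟩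
      obtain ⟨a, ha⟩ := h0
      exact hd ha (hJ' (c' (mem_union_left _ ha)))
    · rw [e1, mul_comm]
      rw [mul_comm] at hx
      have hle : (F.X (D \ J)).map (F.bw I κ) ≤ F.X (I' ∪ (D \ J) \ I) := by
        rintro _ ⟨w, hw, rfl⟩
        exact F.bw_mem_X hI (h'.mono_right (sdiff_subset_sdiff sdiff_subset Subset.rfl)) hκ hw
      exact mul_le_mul' hle le_rfl (F.bw_mem_map hI sdiff_disjoint κ le_rfl (h1.le J) hx)

lemma SmC.bw_self [Fintype ι] [FiniteDimensional K A] {D I : Finset ι} {f : A} {r : ℝ}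
    (hs : F.SmC D I f r) (h : I ⊆ D) (h0 : I.Nonempty) {κ : A →ₗ[K] A}
    (hκ : ∀ x ∈ F.X I, κ x ∈ F.X I) : F.SmC D I (F.bw I κ f) r := by
  have := hs.bw h h0 disjoint_sdiff hκ
  rwa [union_sdiff_of_subset h] at this

end bw

section ev

lemma ev_eq (i : ι) (l : Dual K A) : F.ev i l = F.bw {i} (l.smulRight 1) := rfl

lemma ev_mem {i : ι} {J : Finset ι} (hi : i ∉ J) (l : Dual K A) {Y : Submodule K A}
    (hY : Y ≤ F.X J) {f : A} (hf : f ∈ F.X {i} * Y) : F.ev i l f ∈ Y := by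
  have := F.bw_mem' (W' := 1) (disjoint_singleton_left.2 hi) (l.smulRight 1) le_rfl hY
    (fun x _ => Submodule.smul_mem _ _ (Submodule.one_le.1 le_rfl)) hf
  rwa [one_mul] at this

lemma ev_mem_X {i : ι} {J : Finset ι} (hi : i ∉ J) (l : Dual K A) {f : A}
    (hf : f ∈ F.X (insert i J)) : F.ev i l f ∈ F.X J :=
  F.ev_mem hi l le_rfl ((F.X_insert hi).ge hf)

lemma ev_kill {i : ι} {J : Finset ι} (hi : i ∉ J) {l : Dual K A} {W Y : Submodule K A}
    (hW : W ≤ F.X {i}) (hY : Y ≤ F.X J) (hl : ∀ x ∈ W, l x = 0) {f : A} (hf : f ∈ W * Y) :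
    F.ev i l f = 0 :=
  F.bw_kill (disjoint_singleton_left.2 hi) hW hY (fun x hx => by simp [hl x hx]) hf

lemma ev_mul_right {i : ι} {J J' : Finset ι} (hi : i ∈ J) (h : Disjoint J J') (l : Dual K A)
    {x y : A} (hx : x ∈ F.X J) (hy : y ∈ F.X J') : F.ev i l (x * y) = F.ev i l x * y :=
  F.bw_mul_sub (singleton_subset_iff.2 hi) h _ hx hy

lemma ev_mem_map {i : ι} {J J' : Finset ι} (hi : i ∈ J) (h : Disjoint J J') (l : Dual K A)
    {W Y : Submodule K A} (hW : W ≤ F.X J) (hY : Y ≤ F.X J') {f : A} (hf : f ∈ W * Y) :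
    F.ev i l f ∈ W.map (F.ev i l) * Y :=
  F.bw_mem_map (singleton_subset_iff.2 hi) h _ hW hY hf

end ev

section merge

variable {I : Finset ι} {i0 : ι}

lemma merge_X (J : Finset ι) : (F.merge I i0).X J = F.X (mg I i0 J) := rfl

lemma merge_bw (J : Finset ι) : (F.merge I i0).bw J = F.bw (mg I i0 J) := rfl

lemma merge_X_of (h0 : i0 ∈ I) {J : Finset ι} (h : Disjoint J I) :
    (F.merge I i0).X J = F.X J := by rw [merge_X, mg_of_disjoint h0 h]

lemma merge_X_single (h0 : i0 ∈ I) : (F.merge I i0).X {i0} = F.X I := by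
  rw [merge_X, mg_single h0]

lemma merge_bw_single (h0 : i0 ∈ I) : (F.merge I i0).bw {i0} = F.bw I := by
  rw [merge_bw, mg_single h0]

lemma merge_X_insert (h0 : i0 ∈ I) (J : Finset ι) :
    (F.merge I i0).X (insert i0 J) = F.X (I ∪ J) := by rw [merge_X, mg_insert h0]

lemma merge_X_top (h0 : i0 ∈ I) {D : Finset ι} (h : I ⊆ D) :
    (F.merge I i0).X (insert i0 (D \ I)) = F.X D := by
  rw [merge_X_insert _ h0, union_sdiff_of_subset h]

lemma merge_idl (h0 : i0 ∈ I) (S : Sys K ι A) {J : Finset ι} (h : Disjoint J I) :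
    (F.merge I i0).idl S J = F.idl S J := by
  unfold idl
  refine iSup_congr fun J' => iSup_congr fun _ => ?_
  rw [F.merge_X_of h0 (h.mono_left sdiff_subset)]

lemma merge_prp (h0 : i0 ∈ I) {S : Sys K ι A} {J : Finset ι} (h : Disjoint J I) :
    (F.merge I i0).Prp J S ↔ F.Prp J S := by
  refine forall_congr' fun J' => ?_
  by_cases e : S J' = ⊥
  · simp [e]
  · constructor <;> intro c
    · exact ⟨(F.merge_X_of h0 (h.mono_left (c.2 e).2.subset)) ▸ c.1, c.2⟩
    · exact ⟨(F.merge_X_of h0 (h.mono_left (c.2 e).2.subset)).symm ▸ c.1, c.2⟩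

/-- A system with types outside `I` is proper in the merged frame. -/
lemma merge_prp_of (h0 : i0 ∈ I) {S : Sys K ι A} {R : Finset ι} (hR : Disjoint R I)
    (h1 : ∀ J, S J ≤ F.X J) (h2 : ∀ J, S J ≠ ⊥ → J.Nonempty ∧ J ⊆ R) :
    (F.merge I i0).Prp (insert i0 R) S := fun J => by
  by_cases e : S J = ⊥
  · simp [e]
  · have hi : i0 ∉ R := fun c => disjoint_left.1 hR c h0
    exact ⟨(F.merge_X_of h0 (hR.mono_left (h2 J e).2)).symm ▸ h1 J,
      fun _ => ⟨(h2 J e).1, (h2 J e).2.trans_ssubset (ssubset_insert hi)⟩⟩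

lemma merge_prp_res (h0 : i0 ∈ I) {S : Sys K ι A} {D : Finset ι} (h : F.Prp D S) :
    (F.merge I i0).Prp (insert i0 (D \ I)) (res S (D \ I)) := by
  refine F.merge_prp_of h0 sdiff_disjoint (fun J => (res_le S _ J).trans (h.le J)) fun J e => ?_
  by_cases c : J ⊆ D \ I
  · exact ⟨((h J).2 (by rwa [res_of c] at e)).1, c⟩
  · exact absurd (res_of_not c) e

lemma merge_idl_of (h0 : i0 ∈ I) {S : Sys K ι A} {R : Finset ι} (hR : Disjoint R I)
    (h2 : ∀ J, S J ≠ ⊥ → J ⊆ R) :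
    (F.merge I i0).idl S (insert i0 R) = F.X I * F.idl S R := by
  have hi : i0 ∉ R := fun c => disjoint_left.1 hR c h0
  have key : ∀ J, J ⊆ R → S J * (F.merge I i0).X (insert i0 R \ J) =
      F.X I * (S J * F.X (R \ J)) := fun J hJ => by
    rw [insert_sdiff_of_notMem _ (fun c => hi (hJ c)), F.merge_X_insert h0,
      ← F.X_mul _ _ (hR.symm.mono_right sdiff_subset), mul_left_comm]
  refine le_antisymm (idl_le _ fun J _ => ?_) ?_
  · by_cases e : S J = ⊥
    · simp [e]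
    · rw [key J (h2 J e)]; exact mul_le_mul' le_rfl (F.le_idl S (h2 J e))
  · conv_lhs => unfold idl
    rw [Submodule.mul_iSup]
    refine iSup_le fun J => ?_
    rw [Submodule.mul_iSup]
    refine iSup_le fun hJ => ?_
    rw [← key J hJ]
    exact le_idl _ S (hJ.trans (subset_insert _ _))

lemma merge_idl_res (h0 : i0 ∈ I) (S : Sys K ι A) (D : Finset ι) :
    (F.merge I i0).idl (res S (D \ I)) (insert i0 (D \ I)) = F.X I * F.idl S (D \ I) := by
  rw [F.merge_idl_of h0 sdiff_disjoint, F.idl_res S Subset.rfl]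
  intro J e
  by_contra c
  exact e (res_of_not c)

variable [Fintype ι]

lemma merge_rr (h0 : i0 ∈ I) {η z : ℝ} {J : Finset ι} (h : Disjoint J I) {W B : Submodule K A} :
    (F.merge I i0).RR η z J W B ↔ F.RR η z J W B :=
  forall_congr' fun E => by rw [F.merge_prp h0 h, F.merge_idl h0 E h]

lemma merge_reg_of (h0 : i0 ∈ I) {η z : ℝ} (hη : 0 ≤ η) (hz : 0 ≤ z) {S : Sys K ι A}
    (h2 : ∀ J, S J ≠ ⊥ → Disjoint J I) (h : F.Reg η z S) : (F.merge I i0).Reg η z S := fun J => by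
  by_cases e : S J = ⊥
  · rw [e]; exact rr_bot hη hz J ⊥
  · exact (F.merge_rr h0 (h2 J e)).2 (h J)

lemma merge_reg_res (h0 : i0 ∈ I) {η z : ℝ} (hη : 0 ≤ η) (hz : 0 ≤ z) {S : Sys K ι A}
    (h : F.Reg η z S) (D : Finset ι) : (F.merge I i0).Reg η z (res S (D \ I)) := fun J => by
  by_cases c : J ⊆ D \ I
  · rw [res_of c]; exact (F.merge_rr h0 (subset_sdiff.1 c).2).2 (h J)
  · rw [res_of_not c]; exact rr_bot hη hz J ⊥

lemma merge_sm [FiniteDimensional K A] (h0 : i0 ∈ I) {D : Finset ι} (h : I ⊆ D) {f : A} {r : ℝ} :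
    (F.merge I i0).Sm (insert i0 (D \ I)) f r ↔ F.SmC D I f r := by
  have hi : i0 ∉ D \ I := fun c => (mem_sdiff.1 c).2 h0
  constructor
  · rintro ⟨E, h1, h2, h3⟩
    refine SmC.mono ?_ h2
    refine idl_transfer (fun x r => F.SmC D I x r) (fun r hr => smC_zero _ _ hr)
      (fun _ _ _ _ a b => a.add b) (AddMonoidHom.id A) (fun J hJ e x hx => ?_) h3
    obtain ⟨hne, hss⟩ := (h1 J).2 e
    have e1 : mg I i0 (insert i0 (D \ I) \ J) = D \ mg I i0 J := by
      ext a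
      have := @hJ a; have := @h a
      by_cases c : i0 ∈ J <;> by_cases c' : a = i0 <;> simp [mg, c, c', h0, h h0] at * <;> tauto
    obtain ⟨a, ha, ha'⟩ := exists_of_ssubset hss
    refine smC_of_mul (J := mg I i0 J) (h1.le J) ?_ ⟨fun b hb => ?_, fun c => ?_⟩ ?_
      (by rwa [merge_X, e1] at hx)
    · obtain ⟨b, hb⟩ := hne
      have := hJ hb
      by_cases c : i0 ∈ J
      · exact ⟨b, by simp [mg, c, hb]⟩
      · refine ⟨b, ?_⟩
        have : b ≠ i0 := fun e => c (e ▸ hb)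
        simp [mg, c] at *; tauto
    · have := @hJ b; have := @h b
      by_cases c : i0 ∈ J <;> by_cases c' : b = i0 <;> simp [mg, c, c', h0, h h0] at * <;> tauto
    · have := @c a; have := @c i0
      by_cases c : i0 ∈ J <;> by_cases c' : a = i0 <;> simp [mg, c, c', h0, h h0] at * <;> tauto
    · by_cases c : i0 ∈ J
      · exact Or.inl (by simp [mg, c])
      · exact Or.inr (by simp [mg, c, sdiff_disjoint])
  · rintro ⟨E, h1, hc, h2, h3⟩
    refine Sm.mono ?_ h2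
    refine idl_transfer (fun x r => (F.merge I i0).Sm (insert i0 (D \ I)) x r)
      (fun r hr => sm_zero _ hr) (fun _ _ _ _ a b => a.add b) (AddMonoidHom.id A)
      (fun J hJ e x hx => ?_) h3
    obtain ⟨hne, hss⟩ := (h1 J).2 e
    rcases hc J e with c | c
    · obtain ⟨a, ha, ha'⟩ := exists_of_ssubset hss
      have e1 : insert i0 (D \ I) \ insert i0 (J \ I) = D \ J := by
        ext b
        have := @c b
        by_cases c' : b = i0 <;> simp [c', c h0] at *; tauto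
      refine sm_of_mul (J := insert i0 (J \ I)) ?_ (insert_nonempty _ _)
        ⟨insert_subset_insert _ (sdiff_subset_sdiff hJ Subset.rfl), fun c' => ?_⟩ ?_
      · rw [F.merge_X_insert h0, union_sdiff_of_subset c]; exact h1.le J
      · have : a ∈ insert i0 (D \ I) \ insert i0 (J \ I) := e1 ▸ mem_sdiff.2 ⟨ha, ha'⟩
        exact (mem_sdiff.1 this).2 (c' (mem_sdiff.1 this).1)
      · rwa [e1, F.merge_X_of h0 (sdiff_disjoint.mono_right c)]
    · have hJ' : J ⊆ D \ I := subset_sdiff.2 ⟨hJ, c⟩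
      refine sm_of_mul (J := J) ((F.merge_X_of h0 c).symm ▸ h1.le J) hne
        (hJ'.trans_ssubset (ssubset_insert hi)) ?_
      have e1 : I ∪ (D \ I) \ J = D \ J := by
        ext b
        have := @h b; have := @disjoint_left.1 c b
        simp only [mem_sdiff, mem_union] at *; tauto
      rwa [insert_sdiff_of_notMem _ (fun c' => hi (hJ' c')), F.merge_X_insert h0, e1]

end merge

section avg

variable {F} [Fintype ι] {D : Finset ι} {H : Type} [Fintype H]

lemma SmA.mono {u : H → A} {k k' : ℝ} (h : F.SmA D u k) (hk : k ≤ k') : F.SmA D u k' := by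
  obtain ⟨r, h1, h2⟩ := h
  exact ⟨r, h1, h2.trans hk⟩

lemma SmA.nonneg {u : H → A} {k : ℝ} (h : F.SmA D u k) : 0 ≤ k := by
  obtain ⟨r, h1, h2⟩ := h
  exact (expect_nonneg fun q _ => (h1 q).nonneg).trans h2

lemma SmA.mem_X {u : H → A} {k : ℝ} (h : F.SmA D u k) (q : H) : u q ∈ F.X D := by
  obtain ⟨r, h1, -⟩ := h
  exact (h1 q).mem_X

lemma smA_of_forall [Nonempty H] {u : H → A} {k : ℝ} (h : ∀ q, F.Sm D (u q) k) : F.SmA D u k :=
  ⟨fun _ => k, h, by simp⟩

lemma smA_zero [Nonempty H] {k : ℝ} (h : 0 ≤ k) : F.SmA D (0 : H → A) k :=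
  smA_of_forall fun _ => sm_zero D h

lemma SmA.neg {u : H → A} {k : ℝ} (h : F.SmA D u k) : F.SmA D (-u) k := by
  obtain ⟨r, h1, h2⟩ := h
  exact ⟨r, fun q => (h1 q).neg, h2⟩

lemma SmA.imp {F' : Frame K ι A} {D' : Finset ι} {u u' : H → A} {k : ℝ} (h : F.SmA D u k)
    (h' : ∀ q r, F.Sm D (u q) r → F'.Sm D' (u' q) r) : F'.SmA D' u' k := by
  obtain ⟨r, h1, h2⟩ := h
  exact ⟨r, fun q => h' q _ (h1 q), h2⟩

lemma SmA.comp [AddCommGroup H] {H' : Type} [AddCommGroup H'] [Fintype H'] {u : H → A} {k : ℝ}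
    (h : F.SmA D u k) (f : H' →+ H) (hf : Function.Surjective f) :
    F.SmA D (fun q => u (f q)) k := by
  obtain ⟨r, h1, h2⟩ := h
  exact ⟨fun q => r (f q), fun q => h1 _, (expect_surj f hf r).trans_le h2⟩

variable [FiniteDimensional K A]

lemma SmA.add {u v : H → A} {k k' : ℝ} (h : F.SmA D u k) (h' : F.SmA D v k') :
    F.SmA D (u + v) (k + k') := by
  obtain ⟨r, h1, h2⟩ := h
  obtain ⟨s, h1', h2'⟩ := h'
  exact ⟨fun q => r q + s q, fun q => (h1 q).add (h1' q), by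
    rw [expect_add_distrib]; exact add_le_add h2 h2'⟩

lemma SmA.sub {u v : H → A} {k k' : ℝ} (h : F.SmA D u k) (h' : F.SmA D v k') :
    F.SmA D (u - v) (k + k') := by
  rw [sub_eq_add_neg]; exact h.add h'.neg

lemma SmA.cd {G : Type} [AddCommGroup G] [Fintype G] {n : ℕ} {u : Cube n G → A} {k : ℝ}
    (h : F.SmA D u k) : F.SmA D (cd n u) (3 * (n + 1) * k) := by
  obtain ⟨r, h1, h2⟩ := h
  refine ⟨fun q => ∑ i : Fin (n + 1), (r (fc n i none q) + r (fc n i (some false) q) +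
    r (fc n i (some true) q)), fun q => sm_sum _ fun i _ =>
      (((h1 _).sub (h1 _)).sub (h1 _)).zsmul _, ?_⟩
  rw [expect_sum_comm]
  simp only [expect_add_distrib, expect_surj _ (fc_surj n _ _) r, sum_const, card_univ,
    Fintype.card_fin, nsmul_eq_mul]
  have : (0 : ℝ) ≤ n + 1 := by positivity
  push_cast
  nlinarith

lemma SmA.cD {G : Type} [AddCommGroup G] [Fintype G] {n : ℕ} {u : Cube n.pred G → A} {k : ℝ}
    (h : F.SmA D u k) : F.SmA D (cD n u) (3 * n * k) := by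
  cases n with
  | zero => exact smA_zero (by simp)
  | succ n => push_cast; exact SmA.cd (n := n) h

omit [FiniteDimensional K A] in
lemma Nr.nonneg {Y : Submodule K A} {f : A} {r : ℝ} (h : F.Nr D Y f r) : 0 ≤ r := by
  obtain ⟨y, -, h⟩ := h
  exact h.nonneg

omit [FiniteDimensional K A] in
lemma Nr.mono {Y Y' : Submodule K A} {f : A} {r s : ℝ} (h : F.Nr D Y f r) (hY : Y ≤ Y')
    (hs : r ≤ s) : F.Nr D Y' f s := by
  obtain ⟨y, hy, h⟩ := h
  exact ⟨y, hY hy, h.mono hs⟩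

lemma Nr.add {Y : Submodule K A} {f g : A} {r s : ℝ} (h : F.Nr D Y f r) (h' : F.Nr D Y g s) :
    F.Nr D Y (f + g) (r + s) := by
  obtain ⟨y, hy, h⟩ := h
  obtain ⟨y', hy', h'⟩ := h'
  exact ⟨y + y', add_mem hy hy', by rw [add_sub_add_comm]; exact h.add h'⟩

lemma Nr.sub {Y : Submodule K A} {f g : A} {r s : ℝ} (h : F.Nr D Y f r) (h' : F.Nr D Y g s) :
    F.Nr D Y (f - g) (r + s) := by
  obtain ⟨y, hy, h⟩ := h
  obtain ⟨y', hy', h'⟩ := h'
  exact ⟨y - y', sub_mem hy hy', by rw [sub_sub_sub_comm]; exact h.sub h'⟩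

omit [FiniteDimensional K A] in
lemma nr_of_mem {Y : Submodule K A} {f : A} (h : f ∈ Y) : F.Nr D Y f 0 :=
  ⟨f, h, by rw [sub_self]; exact sm_zero D le_rfl⟩

omit [FiniteDimensional K A] in
lemma Sm.nr {f : A} {r : ℝ} (h : F.Sm D f r) (Y : Submodule K A) : F.Nr D Y f r :=
  ⟨0, zero_mem _, by rwa [sub_zero]⟩

end avg

end Frame

end Pool.Agent.Lib.AD
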