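import Pool.Agent.Lib.AD.Api2

/-! Projections and the spanning lemma for evaluations. -/

noncomputable section

open Finset Module
open scoped BigOperators

namespace Pool.Agent.Lib.AD

section lin

variable {K M : Type} [Field K] [AddCommGroup M] [Module K M]

/-- A projection onto a complement of `W ⊓ Y` in `W` that kills `Y`. -/
lemma exists_prj (W Y : Submodule K M) : ∃ π : M →ₗ[K] M, (∀ x, π x ∈ W) ∧ (∀ y ∈ Y, π y = 0) ∧
    (∀ x ∈ W, x - π x ∈ W ⊓ Y) ∧ ∀ x ∈ W ⊔ Y, x - π x ∈ Y := by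
  let f : W →ₗ[K] M ⧸ Y := Y.mkQ ∘ₗ W.subtype
  obtain ⟨g, hg⟩ := f.rangeRestrict.exists_rightInverse_of_surjective f.range_rangeRestrict
  obtain ⟨e, he⟩ := (LinearMap.range f).subtype.exists_leftInverse_of_injective
    (Submodule.ker_subtype _)
  have h3 : ∀ x ∈ W, x - (W.subtype ∘ₗ g ∘ₗ e ∘ₗ Y.mkQ) x ∈ Y := fun x hx => by
    have h1 : e (Y.mkQ x) = f.rangeRestrict ⟨x, hx⟩ := LinearMap.congr_fun he (f.rangeRestrict ⟨x, hx⟩)
    have h2 : f (g (f.rangeRestrict ⟨x, hx⟩)) = f ⟨x, hx⟩ :=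
      congrArg Subtype.val (LinearMap.congr_fun hg (f.rangeRestrict ⟨x, hx⟩))
    rw [← Submodule.Quotient.eq]
    simp only [LinearMap.comp_apply, h1]
    exact h2.symm
  have h0 : ∀ y ∈ Y, (W.subtype ∘ₗ g ∘ₗ e ∘ₗ Y.mkQ) y = 0 := fun y hy => by
    simp [(Submodule.Quotient.mk_eq_zero Y).2 hy]
  refine ⟨W.subtype ∘ₗ g ∘ₗ e ∘ₗ Y.mkQ, fun x => Subtype.prop _, h0,
    fun x hx => ⟨sub_mem hx (Subtype.prop _), h3 x hx⟩, fun x hx => ?_⟩
  obtain ⟨w, hw, y, hy, rfl⟩ := Submodule.mem_sup.1 hx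
  rw [map_add, h0 y hy, add_zero, add_sub_right_comm]
  exact add_mem (h3 w hw) hy

/-- A projection onto `W` that maps `Y` into itself. -/
lemma exists_prj' (W Y : Submodule K M) : ∃ π : M →ₗ[K] M, (∀ x, π x ∈ W) ∧
    (∀ x ∈ W, π x = x) ∧ ∀ y ∈ Y, π y ∈ W ⊓ Y := by
  obtain ⟨ρ, h1, h2, h3, -⟩ := exists_prj Y W
  obtain ⟨e, he⟩ := W.subtype.exists_leftInverse_of_injective (Submodule.ker_subtype _)
  have he' : ∀ x ∈ W, (e x : M) = x := fun x hx =>
    congrArg Subtype.val (LinearMap.congr_fun he ⟨x, hx⟩)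
  refine ⟨W.subtype ∘ₗ e ∘ₗ (LinearMap.id - ρ), fun x => Subtype.prop _,
    fun x hx => by simp [h2 x hx, he' x hx], fun y hy => ?_⟩
  have h := h3 y hy
  have e : (W.subtype ∘ₗ e ∘ₗ (LinearMap.id - ρ)) y = y - ρ y := he' _ h.2
  rw [e]; exact ⟨h.2, h.1⟩

lemma exists_fin_basis {P : Type} [AddCommGroup P] [Module K P] [FiniteDimensional K P]
    (R : Submodule K P) : ∃ n : ℕ, Nonempty (Basis (Fin n) K R) := ⟨_, ⟨Module.finBasis K R⟩⟩

lemma exists_pairing_family {Q : Type} [AddCommGroup Q] [Module K Q] [FiniteDimensional K Q]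
    (B : M →ₗ[K] Dual K Q) : ∃ (n : ℕ) (x : Fin n → M) (v : Fin n → Q),
      ∀ w, B (w - ∑ a, B w (v a) • x a) = 0 := by
  obtain ⟨n, ⟨b⟩⟩ := exists_fin_basis (P := Q →ₗ[K] K) (LinearMap.range B)
  have hs : ∀ a, ∃ v : Q, ∀ r : LinearMap.range B, (r : Dual K Q) v = b.repr r a := fun a => by
    obtain ⟨g, hg⟩ := (b.coord a).exists_extend
    obtain ⟨x, rfl⟩ := (Module.evalEquiv K Q).surjective g
    exact ⟨x, fun r => LinearMap.congr_fun hg r⟩
  choose v hv using hs
  choose x hx using fun a => (b a).2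
  refine ⟨_, x, v, fun w => ?_⟩
  have e := congrArg Subtype.val (b.sum_repr ⟨B w, LinearMap.mem_range_self _ _⟩)
  rw [Submodule.coe_sum] at e
  rw [map_sub, map_sum, sub_eq_zero]
  refine e.symm.trans (sum_congr rfl fun a _ => ?_)
  rw [map_smul, hx, ← hv]; rfl

/-- Functionals from `U` dual to a family spanning `W` modulo the common kernel. -/
lemma exists_dual_family [FiniteDimensional K M] (W : Submodule K M) (U : Submodule K (Dual K M)) :
    ∃ (n : ℕ) (x : Fin n → M) (v : Fin n → Dual K M), (∀ a, x a ∈ W) ∧ (∀ a, v a ∈ U) ∧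
      ∀ w ∈ W, w - ∑ a, v a w • x a ∈ W ⊓ U.dualCoannihilator := by
  obtain ⟨n, x, v, h⟩ := exists_pairing_family (Q := U)
    ((U.subtype.flip : M →ₗ[K] Dual K U) ∘ₗ W.subtype)
  refine ⟨n, fun a => x a, fun a => v a, fun a => (x a).2, fun a => (v a).2, fun w hw =>
    ⟨sub_mem hw (Submodule.sum_mem _ fun a _ => Submodule.smul_mem _ _ (x a).2), ?_⟩⟩
  rw [SetLike.mem_coe, Submodule.mem_dualCoannihilator]
  intro u hu
  simpa using LinearMap.congr_fun (h ⟨w, hw⟩) ⟨u, hu⟩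

lemma finrank_coann [FiniteDimensional K M] (U : Submodule K (Dual K M)) :
    finrank K U + finrank K U.dualCoannihilator = finrank K (Dual K M) := by
  rw [Subspace.dual_finrank_eq]; exact Subspace.finrank_add_finrank_dualCoannihilator_eq U

end lin

variable {K ι A : Type} [Field K] [DecidableEq ι] [CommRing A] [Algebra K A]

namespace Frame

variable (F : Frame K ι A)

lemma ev_mul' (i : ι) (l : Dual K A) {J : Finset ι} (hi : i ∉ J) {x y : A} (hx : x ∈ F.X {i})
    (hy : y ∈ F.X J) : F.ev i l (x * y) = l x • y := by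
  rw [F.ev_eq, F.bw_mul {i} J _ (by simpa using hi) x hx y hy]; simp

/-- If all evaluations from `U` lie in `Z`, the element lies in `X {i} * Z` up to slices. -/
lemma evspan [FiniteDimensional K A] {i : ι} {J : Finset ι} (hi : i ∉ J) {W : Submodule K A}
    (hW : W ≤ F.X {i}) {f : A} (hf : f ∈ W * F.X J) (U : Submodule K (Dual K A))
    {Z : Submodule K A} (h : ∀ v ∈ U, F.ev i v f ∈ Z) :
    f ∈ W * Z ⊔ (W ⊓ U.dualCoannihilator) * F.X J := by
  obtain ⟨n, x, v, hx, hv, hw⟩ := exists_dual_family W U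
  have key : f - ∑ a, x a * F.ev i (v a) f ∈ (W ⊓ U.dualCoannihilator) * F.X J := by
    clear h
    refine Submodule.mul_induction_on hf (fun w hw' y hy => ?_) fun a b ha hb => ?_
    · have : w * y - ∑ a, x a * F.ev i (v a) (w * y) = (w - ∑ a, v a w • x a) * y := by
        simp only [F.ev_mul' i _ hi (hW hw') hy, sub_mul, sum_mul, smul_mul_assoc, mul_smul_comm]
      rw [this]
      exact Submodule.mul_mem_mul (hw w hw') hy
    · simp only [map_add, mul_add, sum_add_distrib]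
      rw [add_sub_add_comm]; exact add_mem ha hb
  rw [← add_sub_cancel (∑ a, x a * F.ev i (v a) f) f]
  exact Submodule.add_mem_sup (Submodule.sum_mem _ fun a _ =>
    Submodule.mul_mem_mul (hx a) (h _ (hv a))) key

/-- Cofactors: an element of `W * X {i}` only uses `finrank W` dimensions of `X {i}`. -/
lemma exists_cofactor [FiniteDimensional K A] {W Y : Submodule K A} {f : A} (hf : f ∈ W * Y) :
    ∃ Y' ≤ Y, finrank K Y' ≤ finrank K W ∧ f ∈ W * Y' := by
  let b := Module.finBasis K W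
  have : ∃ y : Fin (finrank K W) → A, (∀ a, y a ∈ Y) ∧ f = ∑ a, (b a : A) * y a := by
    refine Submodule.mul_induction_on hf (fun w hw y hy => ?_) ?_
    · refine ⟨fun a => b.repr ⟨w, hw⟩ a • y, fun a => Y.smul_mem _ hy, ?_⟩
      have := congrArg Subtype.val (b.sum_repr ⟨w, hw⟩)
      simp only [Submodule.coe_sum, Submodule.coe_smul] at this
      conv_lhs => rw [← this, sum_mul]
      simp
    · rintro _ _ ⟨y, hy, rfl⟩ ⟨y', hy', rfl⟩
      exact ⟨y + y', fun a => add_mem (hy a) (hy' a), by simp [mul_add, sum_add_distrib]⟩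
  obtain ⟨y, hy, rfl⟩ := this
  refine ⟨Submodule.span K (Set.range y), Submodule.span_le.2 (Set.range_subset_iff.2 hy),
    (finrank_range_le_card (R := K) y).trans (by simp), Submodule.sum_mem _ fun a _ =>
      Submodule.mul_mem_mul (b a).2 (Submodule.subset_span ⟨a, rfl⟩)⟩

end Frame

end Pool.Agent.Lib.AD
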