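import Pool.Agent.Lib.AD.Blue2
import Pool.Agent.Lib.UD.Red

/-! The induction on the number of slots. -/

noncomputable section

namespace Pool.Agent.Lib.AD

variable (p : ℕ) [Fact p.Prime]

/-- All blocks for one set of slots. -/
structure Blocks (ι : Type) [Fintype ι] [DecidableEq ι] : Prop where
  zp : St_ZP p ι
  reg : St_REG p ι
  proj : St_PROJ p ι
  prar : St_PRAR p ι
  eval : St_EVAL p ι
  col : St_COL p ι
  int : St_INT p ι
  fix : St_FIX p ι
  rel : St_REL p ι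
  rellin : St_RELLIN p ι
  approx : St_APPROX p ι
  half : St_HALF p ι
  base : St_BASE p ι

variable {p}

theorem Blocks.all {ι : Type} [Fintype ι] [DecidableEq ι] (h : Blocks p ι) (he : St_ENG) (d : ℕ) :
    PRAR p ι d ∧ COL p ι d ∧ ∀ n, FIX p ι n d ∧ EX p ι n d := by
  have ex : ∀ d n, COL p ι d → FIX p ι n d → EX p ι n d := fun d n hc hf =>
    h.half h.reg h.proj n d (h.approx he h.reg n d hc) hf
  induction d with
  | zero => exact ⟨h.base.1, h.base.2.1, fun n => ⟨h.base.2.2 n, ex 0 n h.base.2.1 (h.base.2.2 n)⟩⟩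
  | succ d ih =>
    obtain ⟨h1, h2, h3⟩ := ih
    have hc : COL p ι (d + 1) := h.col d (h.eval h.zp d h1 (h3 0).2) h2 (h.int d h2)
      (h.rellin h.proj d (h3 0).1 (h3 0).2)
    have hf : ∀ n, FIX p ι n (d + 1) := fun n =>
      h.fix n d hc (h.rel n d (h3 (n + 1)).1 (h3 (n + 1)).2)
    exact ⟨h.prar h.zp d h1 (h3 0).2, hc, fun n => ⟨hf n, ex _ n hc (hf n)⟩⟩

theorem polyInverse_of_blocks (h : ∀ d : ℕ, Blocks p (Fin (d + 1))) (he : St_ENG)
    (hf : St_FINAL p) (s : ℕ) (h1 : 1 ≤ s) (hs : s < p) : MP_3a84e0_co.PolyInverse p s s := by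
  refine UD.polyInverse_of_adc p s h1 hs fun R hR d h2 _ => ?_
  obtain ⟨d, rfl⟩ : ∃ e, d = e + 1 := ⟨d - 1, by omega⟩
  have := (h d).all he (d + 1)
  exact hf d (h d).zp this.1 (this.2.2 1).2 R hR

end Pool.Agent.Lib.AD
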