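import Pool.Agent.Lib.AD.Blue
import Pool.Agent.Lib.AD.Api

/-!
Finer blueprint: sub-blocks of `APPROX`, `COL` and `HALF`.  Proofs in words: `/team-store/ad_PLAN.md`.
-/

noncomputable section

open Finset Module
open scoped BigOperators Classical

namespace Pool.Agent.Lib.AD

section defs

variable {K ι A : Type} [Field K] [Fintype ι] [DecidableEq ι] [CommRing A] [Algebra K A]

/-- the part of a system whose types satisfy `P` -/
def flt (P : Finset ι → Prop) (S : Sys K ι A) : Sys K ι A := fun J => if P J then S J else ⊥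

/-- total order on types, larger types first -/
def rk (J : Finset ι) : ℕ :=
  (Fintype.card ι - J.card) * Fintype.card (Finset ι) + Fintype.equivFin (Finset ι) J

/-- strict upper bound for `rk` -/
def rkB (ι : Type) [Fintype ι] : ℕ := (Fintype.card ι + 1) * Fintype.card (Finset ι)

/-- lexicographic rank of a pair of types -/
def pk (B1 B2 : Finset ι) : ℕ := rk B1 * rkB ι + rk B2

/-- admissible ordered pairs of blocks -/
def Pair (D B1 B2 : Finset ι) : Prop :=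
  B1.Nonempty ∧ B2.Nonempty ∧ B1 ⊆ D ∧ B2 ⊆ D ∧ Disjoint B1 B2 ∧ rk B1 < rk B2

namespace Frame

variable (F : Frame K ι A)

/-- `f` lies in `Y` up to `I`-compatible partition rank `r` -/
def NrC (D I : Finset ι) (Y : Submodule K A) (f : A) (r : ℝ) : Prop :=
  ∃ y ∈ Y, F.SmC D I (f - y) r

/-- products of a form of `P` on `B1`, a form of `Q` on `B2` and a form in the other slots -/
def two (D B1 B2 : Finset ι) (P Q : Submodule K A) : Submodule K A :=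
  P * Q * F.X (D \ (B1 ∪ B2))

/-- the pairs of rank at least `l` -/
def prs (D : Finset ι) (l : ℕ) (S : Sys K ι A) : Submodule K A :=
  ⨆ B1, ⨆ B2, ⨆ (_ : Pair D B1 B2 ∧ l ≤ pk B1 B2), F.two D B1 B2 (S B1) (S B2)

/-- the null space at the level `(B1, B2)` -/
def nul (D B1 B2 : Finset ι) (S1 : Sys K ι A) (P Q : Submodule K A) (L1 L2 N : Sys K ι A) :
    Submodule K A :=
  (P ⊔ F.idl L1 B1) * F.X (D \ B1) ⊔ (Q ⊔ F.idl L2 B2) * F.X (D \ B2) ⊔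
    F.X B1 * F.X B2 * F.idl (S1 ⊔ N) (D \ (B1 ∪ B2))

/-- admissible null data at the level `(B1, B2)` -/
def NulD (D B1 B2 : Finset ι) (L1 L2 N : Sys K ι A) : Prop :=
  F.Prp B1 L1 ∧ F.Prp B2 L2 ∧ F.Prp D N ∧ ∀ J, N J ≠ ⊥ → rk B1 < rk J

/-- two-sided data of average size at most `k` -/
def Bd2 (D B1 B2 : Finset ι) {H : Type} [Fintype H] (u : H → A) (k : ℝ) : Prop :=
  ∃ P Q : H → Submodule K A,
    (∀ q, P q ≤ F.X B1 ∧ Q q ≤ F.X B2 ∧ u q ∈ F.two D B1 B2 (P q) (Q q)) ∧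
    𝔼 q, (finrank K (P q) : ℝ) ≤ k ∧ 𝔼 q, (finrank K (Q q) : ℝ) ≤ k

/-- null with fixed left and right data -/
def Nul0 (D B1 B2 : Finset ι) (S1 : Sys K ι A) {H : Type} [Fintype H] (u : H → A) (k δ : ℝ) :
    Prop :=
  ∃ (P Q : Submodule K A) (L1 L2 N : H → Sys K ι A) (r : H → ℝ), P ≤ F.X B1 ∧ Q ≤ F.X B2 ∧
    (finrank K P : ℝ) ≤ k ∧ (finrank K Q : ℝ) ≤ k ∧ (∀ q, F.NulD D B1 B2 (L1 q) (L2 q) (N q)) ∧
    𝔼 q, (sz (L1 q) + sz (L2 q) + sz (N q)) ≤ k ∧ 𝔼 q, r q ≤ δ ∧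
    ∀ q, F.NrC D B2 (F.nul D B1 B2 S1 P Q (L1 q) (L2 q) (N q)) (u q) (r q)

/-- the state of the approximation at level `l` -/
def Lev (D : Finset ι) {G : Type} [AddCommGroup G] [Fintype G] (n l : ℕ) (c : Cube n G → A)
    (k δ : ℝ) : Prop :=
  ∃ (b : Cube n.pred G → A) (S0 : Sys K ι A) (S : Cube n G → Sys K ι A) (e : Cube n G → A),
    F.SmA D b k ∧ F.Prp D S0 ∧ sz S0 ≤ k ∧ (∀ q, F.Prp D (S q)) ∧ 𝔼 q, sz (S q) ≤ k ∧
    F.SmA D e δ ∧ ∀ q, c q - cD n b q - e q ∈ F.idl S0 D ⊔ F.prs D l (S q)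

end Frame

end defs

section statements

variable (p : ℕ) [Fact p.Prime] (ι : Type) [Fintype ι] [DecidableEq ι]

/-- additive families of small partition rank lie in a fixed small ideal -/
def LIN (d : ℕ) : Prop := ∃ C : ℝ, 0 ≤ C ∧ ∀ (A : Type) [CommRing A] [Algebra (ZMod p) A]
  [Finite A] (F : Frame (ZMod p) ι A) (D : Finset ι) (G : Type) [AddCommGroup G] [Fintype G]
  (u : G →+ A) (k : ℝ), D.card ≤ d → F.SmA D u k →
  ∃ S0 : Sys (ZMod p) ι A, F.Prp D S0 ∧ sz S0 ≤ C * k ∧ ∀ g, u g ∈ F.idl S0 D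

/-- several jointly regular samples for a finite family of spaces -/
def SAMP (d : ℕ) : Prop := ∀ (T : Type) [Fintype T] (w : ℕ), ∃ C : ℝ, 0 ≤ C ∧
  ∀ η'' η' : ℝ, 0 < η'' → 0 < η' → ∃ η : ℝ, 0 < η ∧
  ∀ (A : Type) [CommRing A] [Algebra (ZMod p) A] [Finite A] (F : Frame (ZMod p) ι A)
    (J : T → Finset ι) (i : ι) (W B : T → Submodule (ZMod p) A)
    (U : Submodule (ZMod p) (Dual (ZMod p) A)) (l0 : Dual (ZMod p) A) (k z : ℝ), 0 ≤ z →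
    (finrank (ZMod p) (Dual (ZMod p) A) : ℝ) ≤ finrank (ZMod p) U + k →
    (∀ t, W t = ⊥ ∨ (i ∉ J t ∧ (J t).Nonempty ∧ (J t).card + 1 ≤ d ∧
      W t ≤ F.X (insert i (J t)) ∧ F.RR η z (insert i (J t)) (W t) ⊥ ∧
      (finrank (ZMod p) (W t) : ℝ) ≤ k ∧ (finrank (ZMod p) (B t) : ℝ) ≤ k)) →
    ∃ v : ℕ → Dual (ZMod p) A, (∀ l, v l - l0 ∈ U) ∧
      ∀ t, ∀ l ∈ range w, ∀ E, F.Prp (J t) E →
        (finrank (ZMod p) (W t ⊓ ((B t ⊔ ⨆ l' ∈ (range w).erase l, (W t).map (F.ev i (v l'))) ⊔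
          F.idl E (J t)).comap (F.ev i (v l)) : Submodule (ZMod p) A) : ℝ) ≤
        C * z + η' * k + η'' * sz E

/-- the colon lemma for the blocks `I` satisfying `R` -/
def COLR (R : Finset ι → Prop) (d : ℕ) : Prop := Shp fun η C η' => ∀ (A : Type) [CommRing A]
  [Algebra (ZMod p) A] [Finite A] (F : Frame (ZMod p) ι A) (D I : Finset ι)
  (Q : Submodule (ZMod p) A) (S : Sys (ZMod p) ι A) (T : A) (k δ z : ℝ), R I → D.card ≤ d →
  I.Nonempty → I ⊂ D → 0 ≤ z →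
  Q ≤ F.X I → F.Prp D S → F.Reg η z S → F.RR η z I Q (S I) → (finrank (ZMod p) Q : ℝ) ≤ k →
  sz S ≤ k → T ∈ Q * F.X (D \ I) → F.Nr D (F.idl S D) T δ →
  ∃ y ∈ F.X I * F.idl S (D \ I), F.SmC D I (T - y) (C * (δ + z) + η' * k)

def COL1 (d : ℕ) : Prop := COLR p ι (fun I => I.card = 1) d
def COL2 (d : ℕ) : Prop := COLR p ι (fun I => 2 ≤ I.card) d

/-- the double colon lemma with the regularisation built in -/
def PT (d : ℕ) : Prop := ∃ C : ℝ, 0 ≤ C ∧ ∀ ε : ℝ, 0 < ε → ∃ M : ℝ, 0 ≤ M ∧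
  ∀ (A : Type) [CommRing A] [Algebra (ZMod p) A] [Finite A] (F : Frame (ZMod p) ι A)
    (D : Finset ι) (S0 : Sys (ZMod p) ι A) (k0 : ℝ), D.card ≤ d → F.Prp D S0 → sz S0 ≤ k0 →
    ∃ S1 : Sys (ZMod p) ι A, F.Prp D S1 ∧ sz S1 ≤ M * k0 ∧
    ∀ (B1 B2 : Finset ι) (S : Sys (ZMod p) ι A) (T : A) (δ : ℝ), Pair D B1 B2 → F.Prp D S →
      T ∈ F.two D B1 B2 (S B1) (S B2) →
      F.Nr D (F.idl S0 D ⊔ F.prs D (pk B1 B2 + 1) S) T δ →
      ∃ L1 L2 N : Sys (ZMod p) ι A, F.NulD D B1 B2 L1 L2 N ∧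
        sz L1 + sz L2 + sz N ≤ M * (sz S + k0) ∧
        F.NrC D B2 (F.nul D B1 B2 S1 (S1 B1) (S1 B2) L1 L2 N) T (C * δ + ε * (sz S + k0))

/-- the engine inside a frame -/
def ENGF (n : ℕ) : Prop := Lin fun k δ k' δ' =>
  ∀ (A : Type) [CommRing A] [Algebra (ZMod p) A] [Finite A] (F : Frame (ZMod p) ι A)
    (D B1 B2 : Finset ι) (S1 : Sys (ZMod p) ι A) (G : Type) [AddCommGroup G] [Fintype G]
    (T : Cube n G → A), Pair D B1 B2 → F.Prp D S1 → F.Bd2 D B1 B2 T k →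
    F.Nul0 D B1 B2 S1 (cd n T) k δ →
    ∃ b : Cube n.pred G → A, F.Bd2 D B1 B2 b k' ∧ F.Nul0 D B1 B2 S1 (T - cD n b) k' δ'

/-- the projection at the end of a level -/
def LAST : Prop :=
  ∀ (A : Type) [CommRing A] [Algebra (ZMod p) A] [Finite A] (F : Frame (ZMod p) ι A)
    (D B1 B2 : Finset ι) (S1 L1 L2 N : Sys (ZMod p) ι A) (P Q P' Q' : Submodule (ZMod p) A)
    (Z : A) (r : ℝ), Pair D B1 B2 →
    F.Prp D S1 → F.NulD D B1 B2 L1 L2 N → P ≤ F.X B1 → Q ≤ F.X B2 → P' ≤ F.X B1 →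
    Q' ≤ F.X B2 → Z ∈ F.two D B1 B2 P' Q' → F.NrC D B2 (F.nul D B1 B2 S1 P Q L1 L2 N) Z r →
    F.Nr D (F.idl (S1 ⊔ sgl B1 P ⊔ sgl B2 Q) D ⊔
      F.prs D (pk B1 B2 + 1) (sgl B1 P' ⊔ sgl B2 Q' ⊔ L1 ⊔ L2 ⊔ N)) Z r

/-- one level -/
def LEV (n d : ℕ) : Prop := Lin fun k δ k' δ' =>
  ∀ (A : Type) [CommRing A] [Algebra (ZMod p) A] [Finite A] (F : Frame (ZMod p) ι A)
    (D : Finset ι) (G : Type) [AddCommGroup G] [Fintype G] (c : Cube n G → A) (l : ℕ),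
    D.card ≤ d → cd n c = 0 → F.Lev D n l c k δ → F.Lev D n (l + 1) c k' δ'

def St_LIN : Prop := ∀ d, EX p ι 0 d → LIN p ι d
def St_SAMP : Prop := ∀ d, EVAL p ι d → SAMP p ι d
def St_COL1 : Prop := ∀ d, SAMP p ι d → INT p ι d → RELLIN p ι d → COL1 p ι (d + 1)
def St_COL2 : Prop := ∀ d, SAMP p ι d → COL p ι d → INT p ι d → COL2 p ι (d + 1)
def St_PT : Prop := REG p ι → ∀ d, COL p ι d → PT p ι d
def St_ENGF : Prop := St_ENG → ∀ n, ENGF p ι n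
def St_LAST : Prop := LAST p ι
def St_LEV : Prop := LAST p ι → ∀ n d, ENGF p ι n → PT p ι d → LEV p ι n d
def St_APX : Prop := ∀ n d, LEV p ι n d → APPROX p ι n d

theorem approx_of (h1 : St_PT p ι) (h2 : St_ENGF p ι) (h3 : St_LAST p ι) (h4 : St_LEV p ι)
    (h5 : St_APX p ι) : St_APPROX p ι :=
  fun he hr n d hc => h5 n d (h4 h3 n d (h2 he n) (h1 hr d hc))

theorem col_of (h1 : St_SAMP p ι) (h2 : St_COL1 p ι) (h3 : St_COL2 p ι) : St_COL p ι := by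
  intro d he hc hi hr
  obtain ⟨C1, hC1, H1⟩ := h2 d (h1 d he) hi hr
  obtain ⟨C2, hC2, H2⟩ := h3 d (h1 d he) hc hi
  refine ⟨C1 + C2, by positivity, fun η' hη' => ?_⟩
  obtain ⟨η1, hη1, H1⟩ := H1 η' hη'
  obtain ⟨η2, hη2, H2⟩ := H2 η' hη'
  refine ⟨min η1 η2, lt_min hη1 hη2, ?_⟩
  intro A _ _ _ F D I Q S T k δ z hD hI hID hz hQ hS hreg hrr hk hsz hT hN
  have hsz0 : ∀ E : Sys (ZMod p) ι A, 0 ≤ sz E := fun E => sum_nonneg fun _ _ => Nat.cast_nonneg _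
  have hmono : ∀ η, min η1 η2 ≤ η → ∀ J W B, F.RR (min η1 η2) z J W B → F.RR η z J W B :=
    fun η hη J W B h E hE => (h E hE).trans (by nlinarith [hsz0 E])
  have hδ : 0 ≤ δ := by
    obtain ⟨_, _, E, _, hE, _⟩ := hN
    exact (hsz0 E).trans hE
  rcases Nat.lt_or_ge I.card 2 with h | h
  · have h1 : I.card = 1 := by have := hI.card_pos; omega
    obtain ⟨y, hy, E, e1, e2, e3, e4⟩ := H1 A F D I Q S T k δ z h1 hD hI hID hz hQ hS
      (fun J => hmono _ (min_le_left _ _) _ _ _ (hreg J)) (hmono _ (min_le_left _ _) _ _ _ hrr)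
      hk hsz hT hN
    exact ⟨y, hy, E, e1, e2, e3.trans (by nlinarith), e4⟩
  · obtain ⟨y, hy, E, e1, e2, e3, e4⟩ := H2 A F D I Q S T k δ z h hD hI hID hz hQ hS
      (fun J => hmono _ (min_le_right _ _) _ _ _ (hreg J)) (hmono _ (min_le_right _ _) _ _ _ hrr)
      hk hsz hT hN
    exact ⟨y, hy, E, e1, e2, e3.trans (by nlinarith), e4⟩

end statements

end Pool.Agent.Lib.AD
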