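import Pool.Agent.Lib.AD.Defs

/-! Basic facts on frames used by the colon lemma. -/

noncomputable section

open Finset Module
open scoped BigOperators

namespace Pool.Agent.Lib.AD.Col

variable {K ι A : Type} [Field K] [DecidableEq ι] [CommRing A] [Algebra K A] (F : Frame K ι A)

lemma xmul {J J' : Finset ι} (h : Disjoint J J') {x y : A} (hx : x ∈ F.X J) (hy : y ∈ F.X J') :
    x * y ∈ F.X (J ∪ J') := F.X_mul J J' h ▸ Submodule.mul_mem_mul hx hy

lemma xsplit {I J : Finset ι} (h : I ⊆ J) : F.X J = F.X I * F.X (J \ I) := by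
  rw [F.X_mul _ _ disjoint_sdiff, union_sdiff_of_subset h]

lemma bw_left {I J L : Finset ι} (κ : A →ₗ[K] A) (h : I ⊆ L) (hd : Disjoint J L) {a b : A}
    (ha : a ∈ F.X J) (hb : b ∈ F.X L) : F.bw I κ (a * b) = a * F.bw I κ b := by
  rw [xsplit F h] at hb
  refine Submodule.mul_induction_on hb (fun x hx y hy => ?_) fun x y hx hy => by
    rw [mul_add, map_add, map_add, hx, hy, mul_add]
  have h1 : Disjoint J (L \ I) := hd.mono_right sdiff_subset
  rw [F.bw_mul I _ κ disjoint_sdiff x hx y hy, mul_left_comm,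
    F.bw_mul I _ κ (disjoint_union_right.2 ⟨(hd.mono_right h).symm, disjoint_sdiff⟩) x hx _
      (xmul F h1 ha hy), mul_left_comm]

lemma bw_mem {I I' L : Finset ι} {κ : A →ₗ[K] A} (hκ : ∀ x ∈ F.X I, κ x ∈ F.X I') (h : I ⊆ L)
    (hd : Disjoint I' (L \ I)) {b : A} (hb : b ∈ F.X L) : F.bw I κ b ∈ F.X (I' ∪ L \ I) := by
  rw [xsplit F h] at hb
  refine Submodule.mul_induction_on hb (fun x hx y hy => ?_) fun x y hx hy => by
    rw [map_add]; exact add_mem hx hy
  rw [F.bw_mul I _ κ disjoint_sdiff x hx y hy]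
  exact xmul F hd (hκ x hx) hy

lemma bw_prod {I J : Finset ι} (κ : A →ₗ[K] A) (hd : Disjoint I J) {W Y : Submodule K A}
    (hW : W ≤ F.X I) (hY : Y ≤ F.X J) {f : A} (hf : f ∈ W * Y) : F.bw I κ f ∈ W.map κ * Y := by
  refine Submodule.mul_induction_on hf (fun x hx y hy => ?_) fun x y hx hy => by
    rw [map_add]; exact add_mem hx hy
  rw [F.bw_mul I J κ hd x (hW hx) y (hY hy)]
  exact Submodule.mul_mem_mul ⟨x, hx, rfl⟩ hy

lemma ev_eq (i : ι) (l : Dual K A) : F.ev i l = F.bw {i} (l.smulRight (1 : A)) := rfl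

lemma ev_mem {i : ι} {L : Finset ι} (h : i ∈ L) (l : Dual K A) {b : A} (hb : b ∈ F.X L) :
    F.ev i l b ∈ F.X (L.erase i) := by
  have := bw_mem F (I := {i}) (I' := ∅) (κ := l.smulRight (1 : A)) (fun x _ => by
    rw [F.X_empty]
    exact Submodule.smul_mem _ _ (Submodule.one_le.1 le_rfl)) (singleton_subset_iff.2 h)
    (disjoint_empty_left _) hb
  rwa [empty_union, sdiff_singleton_eq_erase] at this

lemma ev_left {i : ι} {J L : Finset ι} (l : Dual K A) (h : i ∈ L) (hd : Disjoint J L) {a b : A}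
    (ha : a ∈ F.X J) (hb : b ∈ F.X L) : F.ev i l (a * b) = a * F.ev i l b :=
  bw_left F _ (singleton_subset_iff.2 h) hd ha hb

lemma le_idl (S : Sys K ι A) {J D : Finset ι} (h : J ⊆ D) : S J * F.X (D \ J) ≤ F.idl S D :=
  le_iSup₂_of_le (f := fun J (_ : J ⊆ D) => S J * F.X (D \ J)) J h le_rfl

lemma idl_le {S : Sys K ι A} {D : Finset ι} {Y : Submodule K A}
    (h : ∀ J ⊆ D, S J * F.X (D \ J) ≤ Y) : F.idl S D ≤ Y := iSup₂_le h

lemma idl_mono {S S' : Sys K ι A} {D : Finset ι} (h : ∀ J ⊆ D, S J ≤ S' J) :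
    F.idl S D ≤ F.idl S' D :=
  idl_le F fun J hJ => (mul_le_mul_left (h J hJ) _).trans (le_idl F S' hJ)

lemma idl_sup (S S' : Sys K ι A) (D : Finset ι) :
    F.idl (S ⊔ S') D = F.idl S D ⊔ F.idl S' D := by
  refine le_antisymm (idl_le F fun J hJ => ?_) (sup_le (idl_mono F fun _ _ => le_sup_left)
    (idl_mono F fun _ _ => le_sup_right))
  rw [Pi.sup_apply, Submodule.sup_mul]
  exact sup_le_sup (le_idl F S hJ) (le_idl F S' hJ)

lemma idl_le_X {S : Sys K ι A} (h : ∀ J, S J ≤ F.X J) (D : Finset ι) : F.idl S D ≤ F.X D :=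
  idl_le F fun J hJ => by rw [xsplit F hJ]; exact mul_le_mul_left (h J) _

lemma X_mul_idl (S : Sys K ι A) {I D : Finset ι} (h : Disjoint I D) :
    F.X I * F.idl S D ≤ F.idl S (I ∪ D) := by
  unfold Frame.idl
  simp only [Submodule.mul_iSup]
  refine iSup₂_le fun J hJ => ?_
  rw [mul_left_comm, F.X_mul _ _ (h.mono_right sdiff_subset)]
  have : I ∪ D \ J = (I ∪ D) \ J := by
    rw [union_sdiff_distrib, (h.mono_right hJ).sdiff_eq_left]
  rw [this]
  exact le_idl F S (hJ.trans subset_union_right)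

lemma prp_sup {D : Finset ι} {S S' : Sys K ι A} (h : F.Prp D S) (h' : F.Prp D S') :
    F.Prp D (S ⊔ S') := fun J => ⟨sup_le (h J).1 (h' J).1, fun hne => by
  by_cases h1 : S J = ⊥
  · exact (h' J).2 fun h2 => hne (by simp [h1, h2])
  · exact (h J).2 h1⟩

lemma prp_bot (D : Finset ι) : F.Prp D ⊥ := fun _ => ⟨bot_le, fun h => (h rfl).elim⟩

/-- Cofactors. -/
lemma cof [FiniteDimensional K A] {W Y : Submodule K A} {f : A} (hf : f ∈ W * Y) :
    ∃ C ≤ Y, finrank K C ≤ finrank K W ∧ f ∈ W * C := by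
  let b := Module.finBasis K W
  have : ∃ y : Fin (finrank K W) → A, (∀ a, y a ∈ Y) ∧ f = ∑ a, (b a : A) * y a := by
    refine Submodule.mul_induction_on hf (fun x hx y hy => ?_) ?_
    · refine ⟨fun a => b.repr ⟨x, hx⟩ a • y, fun a => Y.smul_mem _ hy, ?_⟩
      have := congrArg Subtype.val (b.sum_repr ⟨x, hx⟩)
      simp only [Submodule.coe_sum, Submodule.coe_smul] at this
      calc x * y = (∑ a, b.repr ⟨x, hx⟩ a • (b a : A)) * y := by rw [this]
        _ = _ := by simp [sum_mul]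
    · rintro _ _ ⟨y, hy, rfl⟩ ⟨y', hy', rfl⟩
      exact ⟨y + y', fun a => add_mem (hy a) (hy' a), by simp [mul_add, sum_add_distrib]⟩
  obtain ⟨y, hy, rfl⟩ := this
  refine ⟨Submodule.span K (Set.range y), Submodule.span_le.2 (Set.range_subset_iff.2 hy),
    by simpa [Set.finrank] using finrank_range_le_card (R := K) y, Submodule.sum_mem _ fun a _ =>
      Submodule.mul_mem_mul (b a).2 (Submodule.subset_span ⟨a, rfl⟩)⟩

variable [Fintype ι]

lemma idl_sum {S : Sys K ι A} {D : Finset ι} {f : A} (hf : f ∈ F.idl S D) :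
    ∃ g : Finset ι → A, (∀ J, g J ∈ S J * F.X (D \ J)) ∧ (∀ J, ¬J ⊆ D → g J = 0) ∧
      f = ∑ J, g J := by
  refine Submodule.iSup_induction (motive := fun f => ∃ g : Finset ι → A,
    (∀ J, g J ∈ S J * F.X (D \ J)) ∧ (∀ J, ¬J ⊆ D → g J = 0) ∧ f = ∑ J, g J) _ hf
    (fun J x hx => ?_) ⟨0, fun _ => zero_mem _, fun _ _ => rfl, by simp⟩ ?_
  · by_cases hJ : J ⊆ D
    · rw [iSup_pos hJ] at hx
      refine ⟨Pi.single J x, fun J' => ?_, fun J' h => Pi.single_eq_of_ne (by rintro rfl; exact h hJ) _,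
        by simp⟩
      by_cases h : J' = J
      · subst h; simpa using hx
      · rw [Pi.single_eq_of_ne h]; exact zero_mem _
    · rw [iSup_neg hJ, Submodule.mem_bot] at hx
      exact ⟨0, fun _ => zero_mem _, fun _ _ => rfl, by simp [hx]⟩
  · rintro _ _ ⟨g, h1, h2, rfl⟩ ⟨g', h1', h2', rfl⟩
    exact ⟨g + g', fun J => add_mem (h1 J) (h1' J), fun J h => by simp [h2 J h, h2' J h],
      by simp [sum_add_distrib]⟩

omit [DecidableEq ι] in
lemma sz_nonneg (S : Sys K ι A) : 0 ≤ sz S := sum_nonneg fun _ _ => Nat.cast_nonneg _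

omit [DecidableEq ι] in
lemma le_sz (S : Sys K ι A) (J : Finset ι) : (finrank K (S J) : ℝ) ≤ sz S :=
  single_le_sum (f := fun J => (finrank K (S J) : ℝ)) (fun _ _ => Nat.cast_nonneg _) (mem_univ J)

omit [DecidableEq ι] in
lemma sz_sup [FiniteDimensional K A] (S S' : Sys K ι A) : sz (S ⊔ S') ≤ sz S + sz S' := by
  unfold sz
  rw [← sum_add_distrib]
  refine sum_le_sum fun J _ => ?_
  exact_mod_cast Submodule.finrank_add_le_finrank_add_finrank (S J) (S' J)

omit [DecidableEq ι] in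
lemma sz_bot : sz (⊥ : Sys K ι A) = 0 := by simp [sz]

lemma sz_single (J : Finset ι) (W : Submodule K A) :
    sz (Pi.single J W : Sys K ι A) = finrank K W := by
  unfold sz
  rw [sum_eq_single J (fun J' _ h => by rw [Pi.single_eq_of_ne h]; simp) (by simp), Pi.single_eq_same]

lemma smC_zero (D I : Finset ι) : F.SmC D I 0 0 :=
  ⟨⊥, prp_bot F D, fun _ h => (h rfl).elim, sz_bot.le, zero_mem _⟩

lemma smC_mono {D I : Finset ι} {f : A} {r r' : ℝ} (h : F.SmC D I f r) (hr : r ≤ r') :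
    F.SmC D I f r' := by
  obtain ⟨E, h1, h2, h3, h4⟩ := h
  exact ⟨E, h1, h2, h3.trans hr, h4⟩

lemma smC_add [FiniteDimensional K A] {D I : Finset ι} {f g : A} {r s : ℝ} (h : F.SmC D I f r)
    (h' : F.SmC D I g s) : F.SmC D I (f + g) (r + s) := by
  obtain ⟨E, h1, h2, h3, h4⟩ := h
  obtain ⟨E', h1', h2', h3', h4'⟩ := h'
  refine ⟨E ⊔ E', prp_sup F h1 h1', fun J hJ => ?_, (sz_sup E E').trans (add_le_add h3 h3'), ?_⟩
  · by_cases h : E J = ⊥
    · exact h2' J fun h' => hJ (by simp [h, h'])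
    · exact h2 J h
  · rw [idl_sup]; exact Submodule.add_mem_sup h4 h4'

lemma smC_single {D I J : Finset ι} {W : Submodule K A} (hW : W ≤ F.X J) (hJ : J.Nonempty)
    (hD : J ⊂ D) (hI : I ⊆ J ∨ Disjoint J I) {f : A} (hf : f ∈ W * F.X (D \ J)) :
    F.SmC D I f (finrank K W) := by
  have key : ∀ J', (Pi.single J W : Sys K ι A) J' ≠ ⊥ → J' = J := fun J' h => by
    by_contra h'
    exact h (Pi.single_eq_of_ne h' _)
  refine ⟨Pi.single J W, fun J' => ⟨?_, fun h => key J' h ▸ ⟨hJ, hD⟩⟩, fun J' h => key J' h ▸ hI,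
    (sz_single J W).le, le_idl F _ hD.subset (by simpa using hf)⟩
  by_cases h : J' = J
  · subst h; simpa using hW
  · rw [Pi.single_eq_of_ne h]; exact bot_le

lemma smC_sum [FiniteDimensional K A] {D I : Finset ι} {τ : Type} (s : Finset τ) {g : τ → A}
    {r : τ → ℝ} (h : ∀ t ∈ s, F.SmC D I (g t) (r t)) :
    F.SmC D I (∑ t ∈ s, g t) (∑ t ∈ s, r t) := by
  classical
  induction s using Finset.induction_on with
  | empty => simpa using smC_zero F D I
  | insert a s ha ih =>
    rw [sum_insert ha, sum_insert ha]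
    exact smC_add F (h a (mem_insert_self _ _)) (ih fun t ht => h t (mem_insert_of_mem ht))

/-- A blockwise map from the block `I.erase i` to the block `I` keeps compatible smallness. -/
lemma smC_bw [FiniteDimensional K A] {D I : Finset ι} {i : ι} (hi : i ∈ I) (hID : I ⊆ D)
    {κ : A →ₗ[K] A} (hκ : ∀ x ∈ F.X (I.erase i), κ x ∈ F.X I) {f : A} {r : ℝ}
    (h : F.SmC (D.erase i) (I.erase i) f r) : F.SmC D I (F.bw (I.erase i) κ f) r := by
  obtain ⟨E, h1, h2, h3, h4⟩ := h
  obtain ⟨g, hg, -, rfl⟩ := idl_sum F h4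
  rw [map_sum]
  refine smC_mono F (smC_sum F _ fun J _ => ?_) h3
  by_cases hE : E J = ⊥
  · have : g J = 0 := by simpa [hE] using hg J
    rw [this, map_zero]
    exact smC_mono F (smC_zero F D I) (Nat.cast_nonneg _)
  obtain ⟨hne, hJ⟩ := (h1 J).2 hE
  have hiJ : i ∉ J := fun h => by simpa using hJ.subset h
  rcases h2 J hE with hc | hc
  · have e1 : D \ insert i J = D.erase i \ J := by ext a; simp; tauto
    have e2 : I ∪ J \ I.erase i = insert i J := by
      ext a
      have := @hc a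
      simp only [mem_erase, mem_union, mem_sdiff, mem_insert] at this ⊢
      by_cases h : a = i
      · simp [h, hi]
      · tauto
    have hd : Disjoint I (J \ I.erase i) := by
      rw [disjoint_left]
      intro a ha hb
      simp only [mem_erase, mem_sdiff] at hb
      exact hb.2 ⟨by rintro rfl; exact hiJ hb.1, ha⟩
    refine smC_mono F (smC_single F (J := insert i J) (W := (E J).map (F.bw (I.erase i) κ)) ?_
      (insert_nonempty _ _) ?_ (Or.inl (e2 ▸ subset_union_left)) ?_) ?_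
    · rintro _ ⟨x, hx, rfl⟩
      exact e2 ▸ bw_mem F hκ hc hd ((h1 J).1 hx)
    · obtain ⟨a, ha, ha'⟩ := exists_of_ssubset hJ
      refine (ssubset_iff_of_subset (insert_subset (hID hi)
        (hJ.subset.trans (erase_subset _ _)))).2 ⟨a, mem_of_mem_erase ha, ?_⟩
      simp [ha', ne_of_mem_erase ha]
    · rw [e1]
      refine Submodule.mul_induction_on (hg J) (fun x hx y hy => ?_) fun x y hx hy => by
        rw [map_add]; exact add_mem hx hy
      rw [mul_comm x y, bw_left F κ hc sdiff_disjoint hy ((h1 J).1 hx), mul_comm y]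
      exact Submodule.mul_mem_mul ⟨x, hx, rfl⟩ hy
    · exact_mod_cast Submodule.finrank_map_le _ _
  · have hs : I.erase i ⊆ D.erase i \ J := fun a ha =>
      mem_sdiff.2 ⟨erase_subset_erase _ hID ha, disjoint_right.1 hc ha⟩
    have hd : Disjoint J I := by
      rw [← insert_erase hi, disjoint_insert_right]; exact ⟨hiJ, hc⟩
    have e2 : I ∪ (D.erase i \ J) \ I.erase i = D \ J := by
      ext a
      have := @hID a
      have : a ∈ I → a ∉ J := fun h => disjoint_right.1 hd h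
      simp only [mem_erase, mem_union, mem_sdiff]
      by_cases h : a = i
      · simp [h, hi, hiJ, hID hi]
      · tauto
    refine smC_single F (h1 J).1 hne (hJ.trans_subset (erase_subset _ _)) (Or.inr hd) ?_
    refine Submodule.mul_induction_on (hg J) (fun x hx y hy => ?_) fun x y hx hy => by
      rw [map_add]; exact add_mem hx hy
    rw [bw_left F κ hs disjoint_sdiff ((h1 J).1 hx) hy]
    refine Submodule.mul_mem_mul hx (e2 ▸ bw_mem F hκ hs ?_ hy)
    rw [disjoint_left]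
    intro a ha hb
    simp only [mem_erase, mem_sdiff] at hb
    exact hb.2 ⟨hb.1.1.1, ha⟩

end Pool.Agent.Lib.AD.Col
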