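import Pool.Agent.Lib.AD.ColBase

/-! Evaluation of ideals, regularity bookkeeping and the cut lemma. -/

noncomputable section

open Finset Module
open scoped BigOperators

namespace Pool.Agent.Lib.AD.Col

section lin

variable {K A B : Type} [Field K] [AddCommGroup A] [Module K A] [AddCommGroup B] [Module K B]

lemma ginv (e : A →ₗ[K] B) (Q : Submodule K A) :
    ∃ g : B →ₗ[K] A, (∀ x, g x ∈ Q) ∧ ∀ q ∈ Q, e (q - g (e q)) = 0 := by
  obtain ⟨r, hr⟩ := (e.domRestrict Q).rangeRestrict.exists_rightInverse_of_surjective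
    (LinearMap.range_rangeRestrict _)
  obtain ⟨g, hg⟩ := r.exists_extend
  refine ⟨Q.subtype ∘ₗ g, fun x => (g x).2, fun q hq => ?_⟩
  have h1 := LinearMap.congr_fun hg ⟨e q, ⟨q, hq⟩, rfl⟩
  have h2 := congrArg Subtype.val (LinearMap.congr_fun hr ⟨e q, ⟨q, hq⟩, rfl⟩)
  simp only [LinearMap.comp_apply, Submodule.subtype_apply] at h1
  rw [map_sub, sub_eq_zero, LinearMap.comp_apply, h1]
  exact h2.symm

variable [FiniteDimensional K A]

lemma dim_sup_inf (W P N : Submodule K A) : (finrank K ((W ⊔ P) ⊓ N : Submodule K A) : ℝ) ≤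
    finrank K (W ⊓ (P ⊔ N) : Submodule K A) + finrank K (P ⊓ N : Submodule K A) := by
  have h1 := Submodule.finrank_sup_add_finrank_inf_eq (W ⊔ P) N
  have h2 := Submodule.finrank_sup_add_finrank_inf_eq W (P ⊔ N)
  have h3 := Submodule.finrank_sup_add_finrank_inf_eq P N
  have h4 := Submodule.finrank_add_le_finrank_add_finrank W P
  rw [sup_assoc] at h1
  norm_cast; omega

lemma dim_inf_sup (Q P N : Submodule K A) : (finrank K (Q ⊓ (P ⊔ N) : Submodule K A) : ℝ) ≤
    finrank K (Q ⊓ P : Submodule K A) + finrank K N := by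
  have h1 := Submodule.finrank_sup_add_finrank_inf_eq Q (P ⊔ N)
  have h2 := Submodule.finrank_sup_add_finrank_inf_eq Q P
  have h3 := Submodule.finrank_add_le_finrank_add_finrank P N
  have h4 : finrank K (Q ⊔ P : Submodule K A) ≤ finrank K (Q ⊔ (P ⊔ N) : Submodule K A) :=
    Submodule.finrank_mono (sup_le_sup_left le_sup_left _)
  norm_cast; omega

lemma dim_sup (P N : Submodule K A) :
    (finrank K (P ⊔ N : Submodule K A) : ℝ) ≤ finrank K P + finrank K N := by
  exact_mod_cast Submodule.finrank_add_le_finrank_add_finrank P N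

lemma dim_mono {P N : Submodule K A} (h : P ≤ N) : (finrank K P : ℝ) ≤ finrank K N := by
  exact_mod_cast Submodule.finrank_mono h

lemma dim_map (f : A →ₗ[K] A) (P : Submodule K A) : (finrank K (P.map f) : ℝ) ≤ finrank K P := by
  exact_mod_cast Submodule.finrank_map_le f P

lemma dim_map_inf (f : A →ₗ[K] A) (P N : Submodule K A) :
    (finrank K (P.map f ⊓ N : Submodule K A) : ℝ) ≤ finrank K (P ⊓ N.comap f : Submodule K A) := by
  rw [Submodule.map_inf_eq_map_inf_comap]; exact dim_map _ _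

lemma codim_ann (C : Submodule K A) :
    (finrank K (Dual K A) : ℝ) ≤ finrank K C.dualAnnihilator + finrank K C := by
  have := Subspace.finrank_add_finrank_dualAnnihilator_eq C
  rw [Subspace.dual_finrank_eq]
  norm_cast; omega

lemma dim_biSup {τ : Type} (s : Finset τ) (P : τ → Submodule K A) {r : ℝ}
    (h : ∀ t, (finrank K (P t) : ℝ) ≤ r) :
    (finrank K (⨆ t ∈ s, P t : Submodule K A) : ℝ) ≤ s.card * r := by
  classical
  induction s using Finset.induction_on with
  | empty => simp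
  | insert a s ha ih =>
    rw [Finset.iSup_insert, card_insert_of_notMem ha]
    refine (dim_sup _ _).trans ?_
    push_cast
    linarith [h a]

end lin

variable {K ι A : Type} [Field K] [DecidableEq ι] [CommRing A] [Algebra K A] (F : Frame K ι A)

/-- The types strictly inside `D`. -/
def s0 (S : Sys K ι A) (D : Finset ι) : Sys K ι A := fun J => if J ⊂ D then S J else ⊥

/-- The evaluated generators. -/
def sp (S : Sys K ι A) (D : Finset ι) (i : ι) (l : Dual K A) : Sys K ι A := fun J =>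
  if J.Nonempty ∧ J ⊂ D then (S (insert i J)).map (F.ev i l) else ⊥

omit [DecidableEq ι] in
lemma s0_le (S : Sys K ι A) (D J : Finset ι) [Decidable (J ⊂ D)] :
    (if J ⊂ D then S J else ⊥) ≤ S J := by split_ifs <;> simp

lemma prp_s0 {D D' : Finset ι} {S : Sys K ι A} (h : F.Prp D S) : F.Prp D' (s0 S D') := fun J =>
  ⟨(s0_le S D' J).trans (h J).1, fun hne => by
    unfold s0 at hne
    split_ifs at hne with h1
    · exact ⟨((h J).2 hne).1, h1⟩
    · exact (hne rfl).elim⟩

lemma prp_sp {D D' : Finset ι} {S : Sys K ι A} (h : F.Prp D S) {i : ι} (hi : i ∉ D')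
    (l : Dual K A) : F.Prp D' (sp F S D' i l) := fun J => by
  unfold sp
  split_ifs with h1
  · refine ⟨?_, fun _ => h1⟩
    rintro _ ⟨x, hx, rfl⟩
    have := ev_mem F (mem_insert_self i J) l ((h _).1 hx)
    rwa [erase_insert fun h2 => hi (h1.2.subset h2)] at this
  · exact ⟨bot_le, fun h => (h rfl).elim⟩

lemma ev_mul (i : ι) (l : Dual K A) {J : Finset ι} (hi : i ∉ J) {x y : A} (hx : x ∈ F.X {i})
    (hy : y ∈ F.X J) : F.ev i l (x * y) = l x • y := by
  rw [ev_eq, F.bw_mul {i} J _ (by simpa using hi) x hx y hy]; simp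

lemma ev_zero {i : ι} {J : Finset ι} (hi : i ∉ J) {C Y : Submodule K A} (hC : C ≤ F.X {i})
    (hY : Y ≤ F.X J) {l : Dual K A} (hl : ∀ x ∈ C, l x = 0) {f : A} (hf : f ∈ C * Y) :
    F.ev i l f = 0 :=
  Submodule.mul_induction_on hf (fun x hx y hy => by
    rw [ev_mul F i l hi (hC hx) (hY hy), hl x hx, zero_smul]) fun x y hx hy => by
    rw [map_add, hx, hy, add_zero]

lemma ev_right {i : ι} {J : Finset ι} (hi : i ∉ J) {C Y : Submodule K A} (hC : C ≤ F.X {i})
    (hY : Y ≤ F.X J) (l : Dual K A) {f : A} (hf : f ∈ C * Y) : F.ev i l f ∈ Y :=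
  Submodule.mul_induction_on hf (fun x hx y hy => by
    rw [ev_mul F i l hi (hC hx) (hY hy)]; exact Y.smul_mem _ hy) fun x y hx hy => by
    rw [map_add]; exact add_mem hx hy

lemma ev_prod {i : ι} {I J : Finset ι} (hi : i ∈ I) (hd : Disjoint J I) {W Y : Submodule K A}
    (hW : W ≤ F.X I) (hY : Y ≤ F.X J) (l : Dual K A) {f : A} (hf : f ∈ W * Y) :
    F.ev i l f ∈ W.map (F.ev i l) * Y :=
  Submodule.mul_induction_on hf (fun x hx y hy => by
    rw [mul_comm x y, ev_left F l hi hd (hY hy) (hW hx), mul_comm y]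
    exact Submodule.mul_mem_mul ⟨x, hx, rfl⟩ hy) fun x y hx hy => by
    rw [map_add]; exact add_mem hx hy

lemma idl_bot (D : Finset ι) : F.idl ⊥ D = ⊥ := le_bot_iff.1 (idl_le F fun _ _ => by simp)

lemma top_le_idl (S : Sys K ι A) (D : Finset ι) : S D ≤ F.idl S D := by
  have := le_idl F S (subset_refl D)
  rwa [sdiff_self, bot_eq_empty, F.X_empty, mul_one] at this

variable [FiniteDimensional K A]

/-- The cut lemma. -/
lemma cut {i : ι} {J : Finset ι} (hi : i ∉ J) {Q C Y : Submodule K A} (hQ : Q ≤ F.X {i}) {T : A}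
    (hT : T ∈ Q * F.X J) (h : ∀ l ∈ C.dualAnnihilator, F.ev i l T ∈ Y) :
    ∃ t ∈ F.X {i} * Y, T - t ∈ (Q ⊓ C) * F.X J := by
  obtain ⟨g, hg, hg'⟩ := ginv C.mkQ Q
  let b := Module.finBasis K Q
  let lam : Fin (finrank K Q) → Dual K A := fun a =>
    b.coord a ∘ₗ (g.codRestrict Q hg) ∘ₗ C.mkQ
  refine ⟨∑ a, (b a : A) * F.ev i (lam a) T, Submodule.sum_mem _ fun a _ =>
    Submodule.mul_mem_mul (hQ (b a).2) (h _ ?_), ?_⟩
  · rw [Submodule.mem_dualAnnihilator]
    intro x hx
    have : C.mkQ x = 0 := (Submodule.Quotient.mk_eq_zero C).2 hx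
    show b.coord a (g.codRestrict Q hg (C.mkQ x)) = 0
    rw [this, map_zero, map_zero]
  · refine Submodule.mul_induction_on hT (fun x hx y hy => ?_) fun x y hx hy => ?_
    · have h1 : ∑ a, lam a x • (b a : A) = g (C.mkQ x) := by
        have := congrArg Subtype.val (b.sum_repr (g.codRestrict Q hg (C.mkQ x)))
        rw [Submodule.coe_sum] at this
        exact this
      have : x * y - ∑ a, (b a : A) * F.ev i (lam a) (x * y) = (x - g (C.mkQ x)) * y := by
        simp only [ev_mul F i _ hi (hQ hx) hy, ← h1, sub_mul, sum_mul, mul_smul_comm,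
          smul_mul_assoc]
      rw [this]
      refine Submodule.mul_mem_mul ⟨sub_mem hx (hg _), ?_⟩ hy
      exact (Submodule.Quotient.mk_eq_zero C).1 (hg' x hx)
    · have := add_mem hx hy
      simp only [map_add, mul_add, sum_add_distrib]
      rwa [sub_add_sub_comm] at this

/-- Inverting an evaluation blockwise. -/
lemma unev {i : ι} {I J : Finset ι} (hi : i ∈ I) (hd : Disjoint J I) {Q : Submodule K A}
    (hQ : Q ≤ F.X I) (l : Dual K A) : ∃ κ : A →ₗ[K] A, (∀ x, κ x ∈ F.X I) ∧ ∀ T ∈ Q * F.X J,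
      T - F.bw (I.erase i) κ (F.ev i l T) ∈ (Q ⊓ LinearMap.ker (F.ev i l)) * F.X J := by
  obtain ⟨g, hg, hg'⟩ := ginv (F.ev i l) Q
  refine ⟨g, fun x => hQ (hg x), fun T hT => ?_⟩
  refine Submodule.mul_induction_on hT (fun x hx y hy => ?_) fun x y hx hy => ?_
  · rw [mul_comm x y, ev_left F l hi hd hy (hQ hx), mul_comm y, mul_comm y,
      F.bw_mul _ J g (hd.mono_right (erase_subset _ _)).symm _ (ev_mem F hi l (hQ hx)) y hy,
      ← sub_mul]
    exact Submodule.mul_mem_mul ⟨sub_mem hx (hg _), hg' x hx⟩ hy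
  · have := add_mem hx hy
    simp only [map_add]
    rwa [sub_add_sub_comm] at this

variable [Fintype ι]

/-- Evaluation of an element of an ideal. -/
lemma decomp {D : Finset ι} {S : Sys K ι A} (hS : F.Prp D S) {i : ι} (hi : i ∈ D) {f : A}
    (hf : f ∈ F.idl S D) : ∃ C ≤ F.X {i}, ∃ f1 ∈ C * S (D.erase i),
      (finrank K C : ℝ) ≤ sz S ∧ ∀ l : Dual K A, (∀ x ∈ S {i}, l x = 0) →
        F.ev i l (f - f1) ∈ F.idl (s0 S (D.erase i) ⊔ sp F S (D.erase i) i l) (D.erase i) := by
  obtain ⟨g, hg, -, rfl⟩ := idl_sum F hf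
  obtain ⟨C, hC, hd, hf1⟩ := cof (hg (D.erase i))
  rw [sdiff_erase_self hi] at hC
  refine ⟨C, hC, g (D.erase i), mul_comm C _ ▸ hf1,
    le_trans (by exact_mod_cast hd) (le_sz S _), fun l hl => ?_⟩
  rw [← sum_erase_eq_sub (mem_univ _), map_sum]
  refine Submodule.sum_mem _ fun J hJ => ?_
  by_cases hE : S J = ⊥
  · have : g J = 0 := by simpa [hE] using hg J
    simp [this]
  obtain ⟨hne, hJD⟩ := (hS J).2 hE
  by_cases hiJ : i ∈ J
  · by_cases h1 : J = {i}
    · subst h1
      rw [ev_zero F (J := D \ {i}) (by simp) (hS _).1 le_rfl hl (hg _)]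
      exact zero_mem _
    have h2 : (J.erase i).Nonempty ∧ J.erase i ⊂ D.erase i := by
      refine ⟨?_, ?_⟩
      · rw [nonempty_iff_ne_empty]
        intro h
        exact h1 (by rw [← insert_erase hiJ, h]; rfl)
      · obtain ⟨a, ha, ha'⟩ := exists_of_ssubset hJD
        exact (ssubset_iff_of_subset (erase_subset_erase _ hJD.subset)).2
          ⟨a, mem_erase.2 ⟨by rintro rfl; exact ha' hiJ, ha⟩, fun h => ha' (mem_of_mem_erase h)⟩
    refine le_idl F _ h2.2.subset ?_
    have e1 : D.erase i \ J.erase i = D \ J := by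
      ext a; by_cases h : a = i <;> simp [h, hiJ]
    rw [e1]
    have h3 : (S J).map (F.ev i l) ≤ (s0 S (D.erase i) ⊔ sp F S (D.erase i) i l) (J.erase i) := by
      refine le_sup_of_le_right ?_
      rw [show sp F S (D.erase i) i l (J.erase i) = _ from if_pos h2, insert_erase hiJ]
    exact (mul_le_mul_left h3 _ :) (ev_prod F hiJ sdiff_disjoint (hS J).1 le_rfl l (hg J))
  · have h2 : J ⊂ D.erase i :=
      Finset.ssubset_iff_subset_ne.2 ⟨subset_erase.2 ⟨hJD.subset, hiJ⟩, ne_of_mem_erase hJ⟩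
    refine le_idl F _ h2.subset ?_
    have e1 : D.erase i \ J = (D \ J).erase i := by ext a; simp; tauto
    rw [e1]
    refine Submodule.mul_induction_on (hg J) (fun x hx y hy => ?_) fun x y hx hy => by
      rw [map_add]; exact add_mem hx hy
    have h3 : i ∈ D \ J := mem_sdiff.2 ⟨hi, hiJ⟩
    rw [ev_left F l h3 disjoint_sdiff ((hS J).1 hx) hy]
    refine Submodule.mul_mem_mul (Submodule.mem_sup_left ?_) (ev_mem F h3 l hy)
    rwa [show s0 S (D.erase i) J = _ from if_pos h2]

lemma sz_le {S S' : Sys K ι A} (h : ∀ J, S J ≤ S' J) : sz S ≤ sz S' :=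
  sum_le_sum fun J _ => dim_mono (h J)

lemma sz_s0 (S : Sys K ι A) (D : Finset ι) : sz (s0 S D) ≤ sz S := sz_le fun J => s0_le S D J

lemma sz_sp (S : Sys K ι A) (D : Finset ι) (i : ι) (l : Dual K A) :
    sz (sp F S D i l) ≤ Fintype.card (Finset ι) * sz S := by
  refine (sum_le_card_nsmul _ _ (sz S) fun J _ => ?_).trans (by simp)
  by_cases h : J.Nonempty ∧ J ⊂ D
  · rw [show sp F S D i l J = _ from if_pos h]
    exact (dim_map _ _).trans (le_sz S _)
  · rw [show sp F S D i l J = _ from if_neg h, finrank_bot, Nat.cast_zero]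
    exact sz_nonneg S

variable {F}

lemma rr_mono {η η' z z' : ℝ} {J : Finset ι} {W W' B B' : Submodule K A} (h : F.RR η z J W B)
    (h1 : η ≤ η') (h2 : z ≤ z') (h3 : W' ≤ W) (h4 : B' ≤ B) : F.RR η' z' J W' B' := fun E hE =>
  (dim_mono (inf_le_inf h3 (sup_le_sup_right h4 _))).trans ((h E hE).trans
    (add_le_add h2 (mul_le_mul_of_nonneg_right h1 (sz_nonneg E))))

lemma rr_sup {η η' z z' : ℝ} {J : Finset ι} {W B : Submodule K A} (h : F.RR η z J W B)
    (h' : F.RR η' z' J B ⊥) : F.RR (η + η') (z + z') J (W ⊔ B) ⊥ := fun E hE => by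
  have h1 := h E hE
  have h2 := h' E hE
  rw [bot_sup_eq] at h2 ⊢
  linarith [dim_sup_inf W B (F.idl E J)]

omit [FiniteDimensional K A] in
lemma rr_bot {η z : ℝ} (h1 : 0 ≤ η) (h2 : 0 ≤ z) (J : Finset ι) (B : Submodule K A) :
    F.RR η z J ⊥ B := fun E _ => by
  have := mul_nonneg h1 (sz_nonneg E)
  rw [bot_inf_eq, finrank_bot]; push_cast; linarith

omit [FiniteDimensional K A] in
lemma rr_inf {η z : ℝ} {J : Finset ι} {W B : Submodule K A} (h : F.RR η z J W B) :
    (finrank K (W ⊓ B : Submodule K A) : ℝ) ≤ z := by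
  have := h ⊥ (prp_bot F J)
  rwa [idl_bot, sup_bot_eq, sz_bot, mul_zero, add_zero] at this

lemma reg_s0 {η η' z z' : ℝ} {S : Sys K ι A} (h : F.Reg η z S) (h1 : η ≤ η') (h2 : z ≤ z')
    (D : Finset ι) : F.Reg η' z' (s0 S D) := fun J =>
  rr_mono (h J) h1 h2 (s0_le S D J) le_rfl

end Pool.Agent.Lib.AD.Col
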