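import Pool.Agent.Lib.AD.ColLin

/-! Transfer between a frame and the frame in which a block is merged. -/

noncomputable section

open Finset Module
open scoped BigOperators

namespace Pool.Agent.Lib.AD.Col

variable {K ι A : Type} [Field K] [DecidableEq ι] [CommRing A] [Algebra K A] (F : Frame K ι A)
  {D I : Finset ι} {i : ι}

lemma mg_out (hi : i ∈ I) {J : Finset ι} (h : J ⊆ D \ I) : mg I i J = J := by
  have h1 : Disjoint J I := disjoint_sdiff_self_left.mono_left h
  rw [mg, if_neg (disjoint_right.1 h1 hi), h1.sdiff_eq_left]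

lemma mg_X (hi : i ∈ I) {J : Finset ι} (h : J ⊆ D \ I) : (F.merge I i).X J = F.X J :=
  congrArg F.X (mg_out hi h)

lemma mg_sdiff (hi : i ∈ I) (hID : I ⊆ D) {J : Finset ι} (h : J ⊆ insert i (D \ I)) :
    mg I i (insert i (D \ I) \ J) = D \ mg I i J := by
  ext a
  have h1 := @h a
  have h2 := @hID a
  unfold mg
  by_cases hJ : i ∈ J <;> by_cases ha : a = i <;>
    simp only [mem_sdiff, mem_insert, mem_union, hJ, ha, hi, hID hi, true_or, not_true, and_false,
      if_false, if_true, not_false_iff, and_true, false_or, or_true] at h1 ⊢ <;> tauto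

lemma mg_idl (hi : i ∈ I) (E : Sys K ι A) {J : Finset ι} (h : J ⊆ D \ I) :
    (F.merge I i).idl E J = F.idl E J := by
  unfold Frame.idl
  refine iSup_congr fun J' => iSup_congr fun _ => ?_
  rw [mg_X F hi (sdiff_subset.trans h)]

lemma mg_idl_top (hi : i ∈ I) (S : Sys K ι A) :
    (F.merge I i).idl (res S (D \ I)) (insert i (D \ I)) = F.X I * F.idl S (D \ I) := by
  have key : ∀ J ⊆ D \ I, (F.merge I i).X (insert i (D \ I) \ J) = F.X I * F.X ((D \ I) \ J) := by
    intro J hJ
    rw [F.X_mul _ _ (disjoint_sdiff.mono_right sdiff_subset)]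
    refine congrArg F.X ?_
    have hiJ : i ∉ J := fun h => (mem_sdiff.1 (hJ h)).2 hi
    rw [mg, if_pos (by simp [hiJ])]
    ext a
    by_cases ha : a = i <;> simp [ha, hi]
    tauto
  refine le_antisymm (idl_le _ fun J _ => ?_) ?_
  · by_cases hJ : J ⊆ D \ I
    · rw [show res S (D \ I) J = _ from if_pos hJ, key J hJ, mul_left_comm]
      exact mul_le_mul_right (le_idl F S hJ) _
    · rw [show res S (D \ I) J = _ from if_neg hJ, Submodule.bot_mul]; exact bot_le
  · unfold Frame.idl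
    simp only [Submodule.mul_iSup]
    refine iSup₂_le fun J hJ => ?_
    rw [mul_left_comm, ← key J hJ, ← show res S (D \ I) J = _ from if_pos hJ]
    exact le_idl (F.merge I i) _ (hJ.trans (subset_insert _ _))

lemma mg_prp (hi : i ∈ I) {D0 : Finset ι} {S : Sys K ι A} (h : F.Prp D0 S) :
    (F.merge I i).Prp (insert i (D \ I)) (res S (D \ I)) := fun J => by
  by_cases hJ : J ⊆ D \ I
  · rw [show res S (D \ I) J = _ from if_pos hJ, mg_X F hi hJ]
    exact ⟨(h J).1, fun hne => ⟨((h J).2 hne).1,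
      hJ.trans_ssubset (ssubset_insert (by simp [hi]))⟩⟩
  · rw [show res S (D \ I) J = _ from if_neg hJ]
    exact ⟨bot_le, fun h => (h rfl).elim⟩

variable [Fintype ι]

lemma mg_rr (hi : i ∈ I) {η z : ℝ} {J : Finset ι} (hJ : J ⊆ D \ I) {W B : Submodule K A}
    (h : F.RR η z J W B) : (F.merge I i).RR η z J W B := fun E hE => by
  rw [mg_idl F hi E hJ]
  refine h E fun J' => ⟨?_, (hE J').2⟩
  by_cases h0 : E J' = ⊥
  · rw [h0]; exact bot_le
  · rw [← mg_X F hi (((hE J').2 h0).2.subset.trans hJ)]; exact (hE J').1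

variable [FiniteDimensional K A]

lemma smC_of_mg (hi : i ∈ I) (hID : I ⊆ D) {f : A} {r : ℝ}
    (h : (F.merge I i).Sm (insert i (D \ I)) f r) : F.SmC D I f r := by
  obtain ⟨E, h1, h3, h4⟩ := h
  obtain ⟨g, hg, -, rfl⟩ := idl_sum _ h4
  refine smC_mono F (smC_sum F _ fun J _ => ?_) h3
  by_cases hE : E J = ⊥
  · have : g J = 0 := by simpa [hE] using hg J
    rw [this]
    exact smC_mono F (smC_zero F D I) (Nat.cast_nonneg _)
  obtain ⟨hne, hJ⟩ := (h1 J).2 hE
  have hg' : g J ∈ E J * F.X (D \ mg I i J) := by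
    rw [← mg_sdiff hi hID hJ.subset]; exact hg J
  obtain ⟨a, ha, ha'⟩ := exists_of_ssubset hJ
  by_cases hiJ : i ∈ J
  · have e : mg I i J = J ∪ I := if_pos hiJ
    refine smC_single F (h1 J).1 (e ▸ hne.mono subset_union_left) ?_
      (Or.inl (e ▸ subset_union_right)) hg'
    have ha2 : a ∈ D \ I := (mem_insert.1 ha).resolve_left (by rintro rfl; exact ha' hiJ)
    rw [e]
    refine (ssubset_iff_of_subset (union_subset (hJ.subset.trans ?_) hID)).2
      ⟨a, (mem_sdiff.1 ha2).1, by simp [ha', (mem_sdiff.1 ha2).2]⟩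
    exact insert_subset (hID hi) sdiff_subset
  · have hs : J ⊆ D \ I := (subset_insert_iff_of_notMem hiJ).1 hJ.subset
    have hx := (h1 J).1
    rw [mg_X F hi hs] at hx
    rw [mg_out hi hs] at hg'
    exact smC_single F hx hne ((ssubset_iff_of_subset (hs.trans sdiff_subset)).2
      ⟨i, hID hi, hiJ⟩) (Or.inr (disjoint_sdiff_self_left.mono_left hs)) hg'

lemma mg_of_smC (hi : i ∈ I) (hID : I ⊆ D) {f : A} {r : ℝ} (h : F.SmC D I f r) :
    (F.merge I i).Sm (insert i (D \ I)) f r := by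
  obtain ⟨E, h1, h2, h3, h4⟩ := h
  obtain ⟨g, hg, -, rfl⟩ := idl_sum _ h4
  suffices H : (F.merge I i).SmC (insert i (D \ I)) ∅ (∑ J, g J) r by
    obtain ⟨E', h1', -, h3', h4'⟩ := H
    exact ⟨E', h1', h3', h4'⟩
  refine smC_mono _ (smC_sum _ _ fun J _ => ?_) h3
  by_cases hE : E J = ⊥
  · have : g J = 0 := by simpa [hE] using hg J
    rw [this]
    exact smC_mono _ (smC_zero _ _ _) (Nat.cast_nonneg _)
  obtain ⟨hne, hJ⟩ := (h1 J).2 hE
  have key : ∀ J' : Finset ι, J'.Nonempty → J' ⊂ insert i (D \ I) → mg I i J' = J →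
      (F.merge I i).SmC (insert i (D \ I)) ∅ (g J) (finrank K (E J)) := by
    intro J' h0 hs e
    refine smC_single _ (J := J') (e ▸ (h1 J).1 : E J ≤ F.X (mg I i J')) h0 hs
      (Or.inl (empty_subset _)) ?_
    show g J ∈ E J * F.X (mg I i (insert i (D \ I) \ J'))
    rw [mg_sdiff hi hID hs.subset, e]
    exact hg J
  rcases h2 J hE with hc | hc
  · obtain ⟨a, ha, ha'⟩ := exists_of_ssubset hJ
    refine key (insert i (J \ I)) (insert_nonempty _ _) ((ssubset_iff_of_subset
      (insert_subset_insert _ (sdiff_subset_sdiff hJ.subset subset_rfl))).2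
        ⟨a, mem_insert_of_mem (mem_sdiff.2 ⟨ha, fun h => ha' (hc h)⟩), ?_⟩) ?_
    · simp only [mem_insert, mem_sdiff, not_or]
      exact ⟨by rintro rfl; exact ha' (hc hi), fun h => ha' h.1⟩
    · rw [mg, if_pos (mem_insert_self _ _), insert_union, sdiff_union_of_subset hc,
        insert_eq_of_mem (hc hi)]
  · have hs : J ⊆ D \ I := subset_sdiff.2 ⟨hJ.subset, hc⟩
    exact key J hne (hs.trans_ssubset (ssubset_insert (by simp [hi]))) (mg_out hi hs)

end Pool.Agent.Lib.AD.Col
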