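import Pool.Agent.Lib.AD.ColSamp

/-! The colon lemma for a single slot. -/

noncomputable section

open Finset Module Function
open scoped BigOperators

namespace Pool.Agent.Lib.AD.Col

section

variable {K ι A : Type} [Field K] [DecidableEq ι] [CommRing A] [Algebra K A] (F : Frame K ι A)
  [Fintype ι] [FiniteDimensional K A]

/-- Evaluation of an element near an ideal. -/
lemma decomp_nr {D : Finset ι} {S : Sys K ι A} (hS : F.Prp D S) {i : ι} (hi : i ∈ D) {T : A}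
    {δ : ℝ} (h : F.Nr D (F.idl S D) T δ) : ∃ C1 ≤ F.X {i}, ∃ f1 ∈ C1 * S (D.erase i),
      ∃ C2 : Submodule K A, (finrank K C1 : ℝ) ≤ sz S ∧ (finrank K C2 : ℝ) ≤ 2 * δ ∧
      ∀ l ∈ (S {i} ⊔ C2).dualAnnihilator, F.Nr (D.erase i)
        (F.idl (s0 S (D.erase i) ⊔ sp F S (D.erase i) i l) (D.erase i)) (F.ev i l (T - f1))
        ((1 + Fintype.card (Finset ι)) * δ) := by
  obtain ⟨y, hy, E, hE, hδ, he⟩ := h
  obtain ⟨C1, hC1, f1, hf1, d1, h1⟩ := decomp F hS hi hy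
  obtain ⟨C2, hC2, f2, hf2, d2, h2⟩ := decomp F hE hi he
  refine ⟨C1, hC1, f1, hf1, E {i} ⊔ C2, d1, (dim_sup _ _).trans (by linarith [le_sz E {i}]),
    fun l hl => ?_⟩
  rw [Submodule.mem_dualAnnihilator] at hl
  refine ⟨_, h1 l fun x hx => hl x (Submodule.mem_sup_left hx), _,
    prp_sup F (prp_s0 F hE) (prp_sp F hE (notMem_erase i D) l), (sz_sup _ _).trans ?_, ?_⟩
  · have := (sz_sp F E (D.erase i) i l).trans (mul_le_mul_of_nonneg_left hδ (Nat.cast_nonneg _))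
    linarith [sz_s0 E (D.erase i)]
  · have h3 := h2 l fun x hx => hl x (Submodule.mem_sup_right (Submodule.mem_sup_left hx))
    rw [map_sub, ev_zero F (notMem_erase i D) hC2 (hE _).1
      (fun x hx => hl x (Submodule.mem_sup_right (Submodule.mem_sup_right hx))) hf2, sub_zero] at h3
    rwa [← map_sub, sub_sub_sub_cancel_right]

omit [Fintype ι] [FiniteDimensional K A] in
lemma sp_sub {S : Sys K ι A} {D J : Finset ι} {i : ι} {l : Dual K A} (h : sp F S D i l J ≠ ⊥) :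
    J.Nonempty ∧ J ⊂ D := by
  by_contra h'
  exact h (if_neg h')

variable {F}

/-- Joint regularity of the evaluated generators. -/
lemma rr_sp {D : Finset ι} {S W : Sys K ι A} {i : ι} {n : ℕ} {v : Fin n → Dual K A} {η z : ℝ}
    (hη : 0 ≤ η) (hz : 0 ≤ z) (hW : ∀ J, S (insert i J) ≤ W J)
    (h : ∀ l (J : Finset ι) E, J.Nonempty → J ⊂ D → F.Prp J E →
      (finrank K (W J ⊓ (S J ⊔ (⨆ l' ∈ univ.erase l, (W J).map (F.ev i (v l'))) ⊔
        F.idl E J).comap (F.ev i (v l)) : Submodule K A) : ℝ) ≤ z + η * sz E) (l : Fin n)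
    (J : Finset ι) : F.RR η z J (sp F S D i (v l) J)
      (S J ⊔ ⨆ l' ∈ univ.erase l, sp F S D i (v l') J) := by
  by_cases hJ : J.Nonempty ∧ J ⊂ D
  · intro E hE
    refine le_trans (dim_mono (inf_le_inf ?_ (sup_le_sup_right (sup_le_sup_left
      (iSup₂_mono fun l' _ => ?_) _) _))) ((dim_map_inf _ _ _).trans (h l J E hJ.1 hJ.2 hE)) <;>
    exact (if_pos hJ).trans_le (Submodule.map_mono (hW J))
  · rw [show sp F S D i (v l) J = _ from if_neg hJ]
    exact rr_bot hη hz _ _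

end

variable (p : ℕ) [Fact p.Prime] (ι : Type) [Fintype ι] [DecidableEq ι]

/-- The colon lemma for blocks satisfying `P`, with `δ ≤ k`. -/
def ColB (P : Finset ι → Prop) (d : ℕ) (η C η' : ℝ) : Prop := ∀ (A : Type) [CommRing A]
  [Algebra (ZMod p) A] [Finite A] (F : Frame (ZMod p) ι A) (D I : Finset ι)
  (Q : Submodule (ZMod p) A) (S : Sys (ZMod p) ι A) (T : A) (k δ z : ℝ), P I → 0 ≤ δ → δ ≤ k →
  D.card ≤ d → I ⊂ D → 0 ≤ z →
  Q ≤ F.X I → F.Prp D S → F.Reg η z S → F.RR η z I Q (S I) → (finrank (ZMod p) Q : ℝ) ≤ k →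
  sz S ≤ k → T ∈ Q * F.X (D \ I) → F.Nr D (F.idl S D) T δ →
  ∃ y ∈ F.X I * F.idl S (D \ I), F.SmC D I (T - y) (C * (δ + z) + η' * k)

variable {p ι}

lemma colOne {d : ℕ} (h1 : EVAL p ι d) (h2 : INT p ι d) (h3 : RELLIN p ι d) :
    Shp (ColB p ι (fun I => I.card = 1) (d + 1)) := by
  obtain ⟨C0, hC0, h1⟩ := samp h1 (Fintype.card ι + 1)
  obtain ⟨C2, hC2, h2⟩ := intB h2
  obtain ⟨C3, hC3, h3⟩ := h3
  obtain ⟨N, hN⟩ : ∃ N : ℝ, N = Fintype.card (Finset ι) := ⟨_, rfl⟩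
  have hN0 : 0 ≤ N := by rw [hN]; positivity
  refine ⟨2 + C3 + C3 * C2 * (1 + N + C0), by positivity, fun η' hη' => ?_⟩
  obtain ⟨ε, hε, hε'⟩ : ∃ ε : ℝ, 0 < ε ∧ ε * (C3 * C2 * 5 + C3 * (1 + N) + 1) = η' :=
    ⟨η' / (C3 * C2 * 5 + C3 * (1 + N) + 1), by positivity, by field_simp⟩
  obtain ⟨η2, hη2, h2⟩ := h2 ε hε
  obtain ⟨η3, hη3, h3⟩ := h3 ε hε
  obtain ⟨η1, hη1, h1⟩ := h1 η2 ε hη2 hε
  refine ⟨min η1 (min η2 η3), by positivity,
    fun A _ _ _ F D I Q S T k δ z hI hδ hδk hD hID hz hQ hS hR hQR hQk hSk hT hTn => ?_⟩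
  obtain ⟨i, rfl⟩ := card_eq_one.1 hI
  have hi : i ∈ D := hID.subset (mem_singleton_self i)
  have hi' := notMem_erase i D
  have hk : 0 ≤ k := hδ.trans hδk
  have hD' : (D.erase i).card ≤ d := by rw [card_erase_of_mem hi]; omega
  rw [sdiff_singleton_eq_erase] at hT ⊢
  obtain ⟨C1, hC1, f1, hf1, C2', d1, d2, hdec⟩ := decomp_nr F hS hi hTn
  have hT' : T - f1 ∈ (Q ⊔ C1) * F.X (D.erase i) :=
    sub_mem ((mul_le_mul_left (le_sup_left : Q ≤ Q ⊔ C1) _ :) hT)
      ((mul_le_mul' (le_sup_right : C1 ≤ Q ⊔ C1) (hS _).1 :) hf1)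
  haveI : Finite (Dual (ZMod p) A) := Finite.of_injective _ DFunLike.coe_injective
  letI : Fintype (S {i} ⊔ C2').dualAnnihilator := Fintype.ofFinite _
  have key : ∀ l0 ∈ (S {i} ⊔ C2').dualAnnihilator, F.Nr (D.erase i)
      (F.idl (s0 S (D.erase i)) (D.erase i)) (F.ev i l0 (T - f1))
      (C2 * ((1 + N) * δ + (z + (C0 * z + ε * (5 * k)))) + ε * ((1 + N) * k)) := by
    intro l0 hl0
    obtain ⟨v, hv, hv'⟩ := h1 A F (D.erase i) i (fun J => S (insert i J)) S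
      (S {i} ⊔ C2' ⊔ (Q ⊔ C1)) l0 (5 * k) z hi' hD' hz
      (fun J _ _ => ⟨(hS _).1, rr_mono (hR _) (min_le_left _ _) le_rfl le_rfl le_rfl⟩)
      (fun J => by linarith [le_sz S (insert i J)]) (fun J => by linarith [le_sz S J])
      (by linarith [dim_sup (S {i} ⊔ C2') (Q ⊔ C1), dim_sup (S {i}) C2', dim_sup Q C1, le_sz S {i}])
    have hz1 : 0 ≤ C0 * z + ε * (5 * k) := by positivity
    refine h2 A F (D.erase i) (D.erase i) _ _ (fun l => sp F S (D.erase i) i (v l)) _ _ _ _ hD'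
      (by positivity) (Nat.lt_succ_of_le (card_le_univ _)) (prp_s0 F hS)
      (reg_s0 hR ((min_le_right _ _).trans (min_le_left _ _)) (by linarith) _)
      ((sz_s0 _ _).trans (by nlinarith)) fun l => ⟨prp_sp F hS hi' _, (sz_sp F _ _ _ _).trans
        (by rw [← hN]; nlinarith), fun J hJ => (sp_sub F hJ).2.subset, fun J => rr_mono
          (rr_sp hη2.le hz1 (fun _ => le_rfl) hv' l J) le_rfl (by linarith) le_rfl
          (sup_le_sup_right (s0_le S _ J) _), ?_⟩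
    have e : F.ev i l0 (T - f1) = F.ev i (v l) (T - f1) := by
      have := ev_zero F hi' (sup_le hQ hC1) le_rfl (l := v l - l0) (fun x hx =>
        (Submodule.mem_dualAnnihilator _).1 (hv l) x (Submodule.mem_sup_right hx)) hT'
      rw [map_sub (F.ev i), LinearMap.sub_apply, sub_eq_zero] at this
      exact this.symm
    rw [e, hN]
    refine hdec _ ?_
    have := add_mem (Submodule.dualAnnihilator_anti le_sup_left (hv l)) hl0
    rwa [sub_add_cancel] at this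
  obtain ⟨E0, hE0, hE0s, hE0m⟩ := h3 A F (D.erase i) (s0 S (D.erase i))
    (S {i} ⊔ C2').dualAnnihilator
    ((F.ev i).flip (T - f1) ∘ₗ (S {i} ⊔ C2').dualAnnihilator.subtype).toAddMonoidHom k _ z hD' hz
    (prp_s0 F hS) (reg_s0 hR ((min_le_right _ _).trans (min_le_right _ _)) le_rfl _)
    ((sz_s0 _ _).trans hSk) fun g => key g g.2
  obtain ⟨t, ht, ht'⟩ := cut F hi' hQ hT (C := S {i} ⊔ C2')
    (Y := F.idl S (D.erase i) ⊔ F.idl E0 (D.erase i)) fun l hl => by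
      have e : F.ev i l T = F.ev i l (T - f1) + F.ev i l f1 := by rw [map_sub, sub_add_cancel]
      rw [e]
      exact add_mem (sup_le_sup_right (idl_mono F fun J _ => s0_le S _ J) _ (hE0m ⟨l, hl⟩))
        (Submodule.mem_sup_left (top_le_idl F S _ (ev_right F hi' hC1 (hS _).1 l hf1)))
  rw [Submodule.mul_sup] at ht
  obtain ⟨y, hy, e, he, rfl⟩ := Submodule.mem_sup.1 ht
  refine ⟨y, hy, ?_⟩
  have a1 : F.SmC D {i} (T - (y + e)) _ := smC_single F (inf_le_left.trans hQ)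
    (singleton_nonempty i) hID (Or.inl subset_rfl) (by rwa [sdiff_singleton_eq_erase])
  have a2 : F.SmC D {i} e (sz E0) := by
    refine ⟨E0, fun J => ⟨(hE0 J).1, fun h => ⟨((hE0 J).2 h).1,
      ((hE0 J).2 h).2.trans_subset (erase_subset _ _)⟩⟩, fun J _ => ?_, le_rfl, ?_⟩
    · rw [singleton_subset_iff, disjoint_singleton_right]; exact em _
    · have := X_mul_idl F E0 (disjoint_singleton_left.2 hi') he
      rwa [← insert_eq, insert_erase hi] at this
  have a3 := smC_add F a1 a2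
  rw [show T - (y + e) + e = T - y by ring] at a3
  refine smC_mono F a3 ?_
  have a4 := dim_inf_sup Q (S {i}) C2'
  have a5 := rr_inf hQR
  rw [← hε']
  have b1 : 0 ≤ C3 * δ := by positivity
  have b2 : 0 ≤ C3 * C2 * C0 * δ := by positivity
  have b3 : 0 ≤ C3 * C2 * N * z := by positivity
  nlinarith

end Pool.Agent.Lib.AD.Col
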