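import Pool.Agent.Lib.AD.ColMg
import Pool.Agent.Lib.AD.Blue

/-! Jointly regular samples. -/

noncomputable section

open Finset Module Function
open scoped BigOperators

namespace Pool.Agent.Lib.AD.Col

lemma expect_upd {Ω τ : Type} [Fintype Ω] [Nonempty Ω] [Fintype τ] [DecidableEq τ] (l : τ)
    (g : (τ → Ω) → Ω → ℝ) (hg : ∀ v u, g (update v l u) = g v) {c : ℝ}
    (h : ∀ v, 𝔼 u, g v u ≤ c) : 𝔼 v : τ → Ω, g v (v l) ≤ c := by
  let σ : (τ → Ω) × Ω ≃ (τ → Ω) × Ω := Involutive.toPerm (fun x => (update x.1 l x.2, x.1 l))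
    fun x => by simp
  have h1 : 𝔼 x : (τ → Ω) × Ω, g x.1 (x.1 l) = 𝔼 x : (τ → Ω) × Ω, g x.1 x.2 :=
    Fintype.expect_equiv σ _ _ fun x => by simp [σ, hg]
  rw [← univ_product_univ, expect_product, expect_product] at h1
  simp only [Fintype.expect_const] at h1
  rw [h1]
  exact expect_le univ_nonempty fun v _ => h v

variable (p : ℕ) [Fact p.Prime] (ι : Type) [Fintype ι] [DecidableEq ι]

/-- Samples that are jointly regular. -/
def SampB (d n : ℕ) (η'' η C η' : ℝ) : Prop := ∀ (A : Type) [CommRing A] [Algebra (ZMod p) A]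
  [Finite A] (F : Frame (ZMod p) ι A) (D : Finset ι) (i : ι) (W B : Sys (ZMod p) ι A)
  (C0 : Submodule (ZMod p) A) (l0 : Dual (ZMod p) A) (k z : ℝ), i ∉ D → D.card ≤ d → 0 ≤ z →
  (∀ J : Finset ι, J.Nonempty → J ⊂ D →
    W J ≤ F.X (insert i J) ∧ F.RR η z (insert i J) (W J) ⊥) →
  (∀ J, (finrank (ZMod p) (W J) : ℝ) ≤ k) → (∀ J, (finrank (ZMod p) (B J) : ℝ) ≤ k) →
  (finrank (ZMod p) C0 : ℝ) ≤ k →
  ∃ v : Fin n → Dual (ZMod p) A, (∀ l, v l - l0 ∈ C0.dualAnnihilator) ∧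
    ∀ l (J : Finset ι) E, J.Nonempty → J ⊂ D → F.Prp J E →
      (finrank (ZMod p) (W J ⊓ (B J ⊔ (⨆ l' ∈ univ.erase l, (W J).map (F.ev i (v l'))) ⊔
        F.idl E J).comap (F.ev i (v l)) : Submodule (ZMod p) A) : ℝ) ≤
        C * z + η' * k + η'' * sz E

variable {p ι}

lemma samp {d : ℕ} (h : EVAL p ι d) (n : ℕ) : ∃ C : ℝ, 0 ≤ C ∧ ∀ η'' η' : ℝ, 0 < η'' → 0 < η' →
    ∃ η : ℝ, 0 < η ∧ SampB p ι d n η'' η C η' := by
  obtain ⟨N, hN⟩ : ∃ N : ℝ, N = n * Fintype.card (Finset ι) := ⟨_, rfl⟩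
  have hN0 : 0 ≤ N := by rw [hN]; positivity
  refine ⟨N, hN0, fun η'' η' h1 h2 => ?_⟩
  obtain ⟨η, h0, h⟩ := h η'' (η' / ((N + 1) * (n + 1))) h1 (by positivity)
  refine ⟨η, h0, fun A _ _ _ F D i W B C0 l0 k z hi hD hz hW hWk hBk hC => ?_⟩
  haveI : Finite (Dual (ZMod p) A) := Finite.of_injective _ DFunLike.coe_injective
  letI : Fintype C0.dualAnnihilator := Fintype.ofFinite _
  have hk : 0 ≤ k := (Nat.cast_nonneg _).trans hC
  have hkk : k ≤ (n + 1) * k := by nlinarith [(Nat.cast_nonneg n : (0 : ℝ) ≤ n)]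
  have H : ∀ (J : Finset ι) (B' : Submodule (ZMod p) A), ∃ zf : C0.dualAnnihilator → ℝ,
      (∀ u, 0 ≤ zf u) ∧ 𝔼 u, zf u ≤ z + η' / ((N + 1) * (n + 1)) * ((n + 1) * k) ∧
      (J.Nonempty → J ⊂ D → (finrank (ZMod p) B' : ℝ) ≤ (n + 1) * k →
        ∀ (u : C0.dualAnnihilator) E, F.Prp J E → (finrank (ZMod p)
          (W J ⊓ (B' ⊔ F.idl E J).comap (F.ev i (l0 + u)) : Submodule (ZMod p) A) : ℝ) ≤
          zf u + η'' * sz E) := by
    intro J B'
    by_cases hv : J.Nonempty ∧ J ⊂ D ∧ (finrank (ZMod p) B' : ℝ) ≤ (n + 1) * k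
    · obtain ⟨zf, a1, a2, a3⟩ := h A F J i (W J) B' C0.dualAnnihilator l0 ((n + 1) * k) z
        (fun h => hi (hv.2.1.subset h)) hv.1 ((card_lt_card hv.2.1).trans_le hD) hz
        (hW J hv.1 hv.2.1).1 (hW J hv.1 hv.2.1).2 ((hWk J).trans hkk) hv.2.2
        ((codim_ann C0).trans (by linarith))
      exact ⟨zf, a1, a2, fun _ _ _ => a3⟩
    · exact ⟨0, fun _ => le_rfl, by simp only [Pi.zero_apply, expect_const_zero]; positivity,
        fun a b c => (hv ⟨a, b, c⟩).elim⟩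
  choose zf a1 a2 a3 using H
  let Bf : Fin n → Finset ι → (Fin n → C0.dualAnnihilator) → Submodule (ZMod p) A :=
    fun l J v => B J ⊔ ⨆ l' ∈ univ.erase l, (W J).map (F.ev i (l0 + v l'))
  have hav : 𝔼 v : Fin n → C0.dualAnnihilator, ∑ l, ∑ J, zf J (Bf l J v) (v l) ≤
      N * z + η' * k := by
    simp only [expect_sum_comm]
    calc _ ≤ ∑ _l : Fin n, ∑ _J : Finset ι, (z + η' / ((N + 1) * (n + 1)) * ((n + 1) * k)) :=
          sum_le_sum fun l _ => sum_le_sum fun J _ =>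
            expect_upd l (fun v u => zf J (Bf l J v) u) (fun v u => by
              have : Bf l J (update v l u) = Bf l J v := by
                refine congrArg (B J ⊔ ·) (iSup_congr fun l' => iSup_congr fun hl => ?_)
                rw [update_of_ne (ne_of_mem_erase hl)]
              rw [this]) fun v => a2 J _
      _ = N * z + N / (N + 1) * (η' * k) := by
          simp only [sum_const, card_univ, Fintype.card_fin, nsmul_eq_mul]
          rw [← mul_assoc, ← hN]; field_simp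
      _ ≤ _ := by
          have : N / (N + 1) ≤ 1 := by rw [div_le_one (by positivity)]; linarith
          nlinarith [mul_nonneg h2.le hk]
  obtain ⟨v, -, hv⟩ := exists_le_of_expect_le univ_nonempty hav
  refine ⟨fun l => l0 + v l, fun l => by simp, fun l J E b1 b2 b3 => ?_⟩
  refine (a3 J (Bf l J v) b1 b2 ?_ (v l) E b3).trans (add_le_add_left (le_trans ?_ hv) _)
  · refine (dim_sup _ _).trans ?_
    have := dim_biSup (univ.erase l) (fun l' => (W J).map (F.ev i (l0 + v l')))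
      fun l' => (dim_map _ _).trans (hWk J)
    have h3 : (((univ.erase l).card : ℕ) : ℝ) ≤ n := by
      exact_mod_cast (card_le_univ _).trans (by simp)
    nlinarith [hBk J]
  · exact (single_le_sum (f := fun J => zf J (Bf l J v) (v l)) (fun _ _ => a1 _ _ _)
      (mem_univ J)).trans (single_le_sum (f := fun l => ∑ J, zf J (Bf l J v) (v l))
        (fun _ _ => sum_nonneg fun _ _ => a1 _ _ _) (mem_univ l))

variable (p ι)

/-- The intersection lemma for samples indexed by `Fin n`. -/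
def IntB (d : ℕ) (η C η' : ℝ) : Prop := ∀ (A : Type) [CommRing A] [Algebra (ZMod p) A]
  [Finite A] (F : Frame (ZMod p) ι A) (D Act : Finset ι) (S : Sys (ZMod p) ι A) (n : ℕ)
  (Sl : Fin n → Sys (ZMod p) ι A) (T : A) (k δ z : ℝ), D.card ≤ d → 0 ≤ z →
  Act.card < n → F.Prp D S → F.Reg η z S → sz S ≤ k →
  (∀ l, F.Prp D (Sl l) ∧ sz (Sl l) ≤ k ∧ (∀ J, Sl l J ≠ ⊥ → J ⊆ Act) ∧
    (∀ J, F.RR η z J (Sl l J) (S J ⊔ ⨆ l' ∈ univ.erase l, Sl l' J)) ∧
    F.Nr D (F.idl (S ⊔ Sl l) D) T δ) →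
  F.Nr D (F.idl S D) T (C * (δ + z) + η' * k)

variable {p ι}

lemma intB {d : ℕ} (h : INT p ι d) : Shp (IntB p ι d) := by
  obtain ⟨C, hC, h⟩ := h
  refine ⟨C, hC, fun η' h1 => ?_⟩
  obtain ⟨η, h0, h⟩ := h η' h1
  refine ⟨η, h0, fun A _ _ _ F D Act S n Sl T k δ z a1 a2 a3 a4 a5 a6 a7 => ?_⟩
  refine h A F D Act S (range n) (fun m => if hm : m < n then Sl ⟨m, hm⟩ else ⊥) T k δ z a1 a2
    (by simpa using a3) a4 a5 a6 fun l hl => ?_
  have hl' := mem_range.1 hl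
  obtain ⟨b1, b2, b3, b4, b5⟩ := a7 ⟨l, hl'⟩
  simp only [dif_pos hl']
  refine ⟨b1, b2, b3, fun J => rr_mono (b4 J) le_rfl le_rfl le_rfl (sup_le_sup_left
    (iSup₂_le fun m hm => ?_) _), b5⟩
  have hm' := mem_range.1 (mem_of_mem_erase hm)
  rw [dif_pos hm']
  exact le_iSup₂_of_le (f := fun l' (_ : l' ∈ univ.erase (⟨l, hl'⟩ : Fin n)) => Sl l' J) ⟨m, hm'⟩
    (by simpa using ne_of_mem_erase hm) le_rfl

end Pool.Agent.Lib.AD.Col
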