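import Mathlib

/-!
The unnormalised cubical cochain complex of a finite abelian group.
-/

noncomputable section

open Finset
open scoped BigOperators

namespace Pool.Agent.Lib.AD

/-- Vertices of the `m`-cube. -/
def Vtx : ℕ → Type
  | 0 => Unit
  | m + 1 => Bool × Vtx m

instance vtxFin : ∀ m, Fintype (Vtx m)
  | 0 => inferInstanceAs (Fintype Unit)
  | m + 1 => letI := vtxFin m; inferInstanceAs (Fintype (Bool × Vtx m))

instance vtxDec : ∀ m, DecidableEq (Vtx m)
  | 0 => inferInstanceAs (DecidableEq Unit)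
  | m + 1 => letI := vtxDec m; inferInstanceAs (DecidableEq (Bool × Vtx m))

/-- Labelled cubes. -/
abbrev Cube (m : ℕ) (G : Type) : Type := Vtx m → G

/-- Insert the bit `b` at position `i`. -/
def ins : ∀ m, Fin (m + 1) → Bool → Vtx m → Vtx (m + 1)
  | 0, _, b, v => (b, v)
  | m + 1, i, b, v => Fin.cases (b, v) (fun j => (v.1, ins m j b v.2)) i

/-- Delete position `i`. -/
def del : ∀ m, Fin (m + 1) → Vtx (m + 1) → Bool × Vtx m
  | 0, _, v => v
  | m + 1, i, v => Fin.cases v (fun j => ((del m j v.2).1, (v.1, (del m j v.2).2))) i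

lemma ins_zero (m : ℕ) (b : Bool) (v : Vtx m) : ins m 0 b v = (b, v) := by
  cases m <;> rfl

lemma del_ins : ∀ (m : ℕ) (i : Fin (m + 1)) (b : Bool) (v : Vtx m), del m i (ins m i b v) = (b, v)
  | 0, _, _, _ => rfl
  | m + 1, i, b, v => by
    refine Fin.cases ?_ (fun j => ?_) i
    · rfl
    · show ((del m j (ins m j b v.2)).1, (v.1, (del m j (ins m j b v.2)).2)) = (b, v)
      rw [del_ins m j b v.2]; rfl

variable {G G' : Type} [AddCommGroup G] [AddCommGroup G']

/-- The three face maps in direction `i`: the sum of the two faces, and the two faces. -/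
def fc (m : ℕ) (i : Fin (m + 1)) : Option Bool → (Cube (m + 1) G →+ Cube m G)
  | none => ⟨⟨fun q v => q (ins m i false v) + q (ins m i true v), by ext; simp⟩,
      by intro x y; ext; simp; abel⟩
  | some b => ⟨⟨fun q v => q (ins m i b v), by ext; simp⟩, by intro x y; ext; simp⟩

@[simp] lemma fc_none (m : ℕ) (i : Fin (m + 1)) (q : Cube (m + 1) G) (v : Vtx m) :
    fc m i none q v = q (ins m i false v) + q (ins m i true v) := rfl

@[simp] lemma fc_some (m : ℕ) (i : Fin (m + 1)) (b : Bool) (q : Cube (m + 1) G) (v : Vtx m) :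
    fc m i (some b) q v = q (ins m i b v) := rfl

lemma fc_surj (m : ℕ) (i : Fin (m + 1)) (c : Option Bool) :
    Function.Surjective (fc (G := G) m i c) := by
  intro y
  cases c with
  | none =>
    refine ⟨fun w => if (del m i w).1 then 0 else y (del m i w).2, ?_⟩
    ext v; simp [del_ins]
  | some b =>
    refine ⟨fun w => y (del m i w).2, ?_⟩
    ext v; simp [del_ins]

/-- Functoriality of cubes. -/
def cmap (m : ℕ) (f : G →+ G') : Cube m G →+ Cube m G' :=
  ⟨⟨fun q v => f (q v), by ext; simp⟩, by intro x y; ext; simp⟩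

@[simp] lemma cmap_apply (m : ℕ) (f : G →+ G') (q : Cube m G) (v : Vtx m) :
    cmap m f q v = f (q v) := rfl

lemma fc_cmap (m : ℕ) (i : Fin (m + 1)) (c : Option Bool) (f : G →+ G') (q : Cube (m + 1) G) :
    fc m i c (cmap (m + 1) f q) = cmap m f (fc m i c q) := by
  cases c <;> (ext v; simp)

variable {X Y : Type} [AddCommGroup X] [AddCommGroup Y]

/-- The cubical differential. -/
def cd (m : ℕ) (F : Cube m G → X) : Cube (m + 1) G → X := fun q =>
  ∑ i : Fin (m + 1), (-1 : ℤ) ^ (i : ℕ) •
    (F (fc m i none q) - F (fc m i (some false) q) - F (fc m i (some true) q))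

lemma cd_cmap (m : ℕ) (F : Cube m G' → X) (f : G →+ G') :
    cd m (fun q => F (cmap m f q)) = fun q => cd m F (cmap (m + 1) f q) := by
  ext q; simp only [cd, fc_cmap]

lemma cd_add (m : ℕ) (F F' : Cube m G → X) : cd m (F + F') = cd m F + cd m F' := by
  ext q; simp only [cd, Pi.add_apply, ← sum_add_distrib, ← smul_add]
  exact sum_congr rfl fun i _ => by congr 1; abel

lemma cd_sub (m : ℕ) (F F' : Cube m G → X) : cd m (F - F') = cd m F - cd m F' := by
  ext q; simp only [cd, Pi.sub_apply, ← sum_sub_distrib, ← smul_sub]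
  exact sum_congr rfl fun i _ => by congr 1; abel

lemma cd_zero (m : ℕ) : cd m (0 : Cube m G → X) = 0 := by
  ext q; simp [cd]

lemma cd_comp (m : ℕ) (F : Cube m G → X) (φ : X →+ Y) :
    cd m (fun q => φ (F q)) = fun q => φ (cd m F q) := by
  ext q; simp only [cd, map_sum, map_zsmul, map_sub]

lemma cd_mem {S : Type} [SetLike S X] [AddSubgroupClass S X] (P : S) (m : ℕ) (F : Cube m G → X)
    (q : Cube (m + 1) G) (h : ∀ i c, F (fc m i c q) ∈ P) : cd m F q ∈ P :=
  sum_mem fun i _ => zsmul_mem (sub_mem (sub_mem (h i _) (h i _)) (h i _)) _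

/-- Glue two `m`-cubes along a new first direction. -/
def glue (m : ℕ) : Cube m (G × G) ≃+ Cube (m + 1) G where
  toFun q w := if w.1 then (q w.2).2 else (q w.2).1
  invFun q v := (q (false, v), q (true, v))
  left_inv q := by ext v <;> simp
  right_inv q := by
    funext w
    obtain ⟨b, v⟩ := w
    cases b <;> simp
  map_add' x y := by
    funext w
    obtain ⟨b, v⟩ := w
    cases b <;> simp

lemma glue_false (m : ℕ) (q : Cube m (G × G)) (v : Vtx m) : glue m q (false, v) = (q v).1 := rfl
lemma glue_true (m : ℕ) (q : Cube m (G × G)) (v : Vtx m) : glue m q (true, v) = (q v).2 := rfl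

lemma fc_succ_glue (m : ℕ) (i : Fin (m + 1)) (c : Option Bool) (q : Cube (m + 1) (G × G)) :
    fc (m + 1) i.succ c (glue (m + 1) q) = glue m (fc m i c q) := by
  funext w
  obtain ⟨b, v⟩ := w
  cases c <;> cases b <;> rfl

/-- The cross effect, as a cochain over `G × G`. -/
def cr (m : ℕ) (F : Cube m G → X) : Cube m (G × G) → X := fun q =>
  F (cmap m (AddMonoidHom.fst G G + AddMonoidHom.snd G G) q) - F (cmap m (AddMonoidHom.fst G G) q)
    - F (cmap m (AddMonoidHom.snd G G) q)

lemma fc_zero_glue (m : ℕ) (F : Cube m G → X) (q : Cube m (G × G)) :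
    F (fc m 0 none (glue m q)) - F (fc m 0 (some false) (glue m q)) -
      F (fc m 0 (some true) (glue m q)) = cr m F q := by
  have h1 : fc m 0 none (glue m q) =
      cmap m (AddMonoidHom.fst G G + AddMonoidHom.snd G G) q := by
    ext v; simp [ins_zero, glue_false, glue_true]
  have h2 : fc m 0 (some false) (glue m q) = cmap m (AddMonoidHom.fst G G) q := by
    ext v; simp [ins_zero, glue_false]
  have h3 : fc m 0 (some true) (glue m q) = cmap m (AddMonoidHom.snd G G) q := by
    ext v; simp [ins_zero, glue_true]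
  rw [h1, h2, h3]; rfl

lemma cd_zero_glue (F : Cube 0 G → X) (q : Cube 0 (G × G)) : cd 0 F (glue 0 q) = cr 0 F q := by
  simp [cd, fc_zero_glue]

/-- The homotopy formula. -/
lemma cd_succ_glue (m : ℕ) (F : Cube (m + 1) G → X) (q : Cube (m + 1) (G × G)) :
    cd (m + 1) F (glue (m + 1) q) = cr (m + 1) F q - cd m (fun r => F (glue m r)) q := by
  unfold cd
  rw [Fin.sum_univ_succ, fc_zero_glue]
  simp only [fc_succ_glue, Fin.val_zero, pow_zero, one_smul, Fin.val_succ, pow_succ, mul_neg,
    mul_one, neg_smul, sum_neg_distrib, sub_eq_add_neg]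

lemma cd_cr (m : ℕ) (F : Cube m G → X) : cd m (cr m F) = cr (m + 1) (cd m F) := by
  have h : cr m F = (fun q => F (cmap m (AddMonoidHom.fst G G + AddMonoidHom.snd G G) q)) -
      (fun q => F (cmap m (AddMonoidHom.fst G G) q)) -
      (fun q => F (cmap m (AddMonoidHom.snd G G) q)) := rfl
  rw [h, cd_sub, cd_sub, cd_cmap, cd_cmap, cd_cmap]; rfl

lemma cd_cd : ∀ (m : ℕ) (G : Type) [AddCommGroup G] (F : Cube m G → X),
    cd (m + 1) (cd m F) = 0
  | 0, G, _, F => by
    ext q
    obtain ⟨q, rfl⟩ := (glue 1).surjective q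
    rw [cd_succ_glue, funext (cd_zero_glue F), cd_cr]; simp
  | m + 1, G, _, F => by
    ext q
    obtain ⟨q, rfl⟩ := (glue (m + 2)).surjective q
    have h : (fun r => cd (m + 1) F (glue (m + 1) r)) =
        cr (m + 1) F - cd m (fun r => F (glue m r)) := funext (cd_succ_glue m F)
    rw [cd_succ_glue, h, cd_sub, cd_cr, cd_cd m]; simp

/-- The differential into degree `n` (zero for `n = 0`). -/
def cD : ∀ n : ℕ, (Cube n.pred G → X) → Cube n G → X
  | 0, _ => 0
  | n + 1, b => cd n b

lemma cd_cD (n : ℕ) (b : Cube n.pred G → X) : cd n (cD n b) = 0 := by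
  cases n with
  | zero => exact cd_zero 0
  | succ n => exact cd_cd n G b

/-- Averages are preserved by surjective homomorphisms. -/
lemma expect_surj {A B : Type} [AddCommGroup A] [AddCommGroup B] [Fintype A] [Fintype B]
    (f : A →+ B) (hf : Function.Surjective f) (g : B → ℝ) : 𝔼 a, g (f a) = 𝔼 b, g b := by
  classical
  have hc : ∀ b : B, (univ.filter fun a => f a = b).card = (univ.filter fun a => f a = 0).card := by
    intro b
    obtain ⟨a0, rfl⟩ := hf b
    refine card_bij (fun a _ => a - a0) ?_ ?_ ?_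
    · intro a ha; simp only [mem_filter, mem_univ, true_and] at ha ⊢; simp [ha]
    · intro a _ a' _ h; exact sub_left_injective h
    · intro a ha; simp only [mem_filter, mem_univ, true_and] at ha ⊢
      exact ⟨a + a0, by simp [ha], by simp⟩
  set c := (univ.filter fun a => f a = 0).card
  have h1 : ∀ g : B → ℝ, ∑ a, g (f a) = c * ∑ b, g b := by
    intro g
    rw [← sum_fiberwise_of_maps_to (t := univ) (g := f) (fun _ _ => mem_univ _), mul_sum]
    refine sum_congr rfl fun b _ => ?_
    rw [sum_congr rfl (g := fun _ => g b) (fun a ha => by rw [(mem_filter.1 ha).2]), sum_const,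
      hc, nsmul_eq_mul]
  have h2 := h1 fun _ => 1
  simp only [sum_const, card_univ, nsmul_eq_mul, mul_one] at h2
  have hB : (0 : ℝ) < Fintype.card B := by exact_mod_cast Fintype.card_pos
  have hA : (0 : ℝ) < Fintype.card A := by exact_mod_cast Fintype.card_pos
  have hc0 : (c : ℝ) ≠ 0 := by rintro h; rw [h] at h2; simp at h2
  rw [Fintype.expect_eq_sum_div_card, Fintype.expect_eq_sum_div_card, h1, h2]
  field_simp

end Pool.Agent.Lib.AD
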