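import Pool.Agent.Lib.AD.Cub

/-!
Frames: an abstract multilinear algebra inside one commutative algebra.
`X J` plays the role of the forms that are linear in each slot of `J`.
-/

noncomputable section

open Finset Module
open scoped BigOperators

namespace Pool.Agent.Lib.AD

/-- A frame on the slots `ι` inside the commutative algebra `A`. -/
structure Frame (K ι A : Type) [Field K] [DecidableEq ι] [CommRing A] [Algebra K A] where
  X : Finset ι → Submodule K A
  bw : Finset ι → (A →ₗ[K] A) →ₗ[K] (A →ₗ[K] A)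
  X_empty : X ∅ = 1
  X_mul : ∀ J J', Disjoint J J' → X J * X J' = X (J ∪ J')
  bw_mul : ∀ I J κ, Disjoint I J → ∀ x ∈ X I, ∀ y ∈ X J, bw I κ (x * y) = κ x * y

/-- Systems of generators, one subspace for each type. -/
abbrev Sys (K ι A : Type) [Field K] [CommRing A] [Algebra K A] : Type := Finset ι → Submodule K A

/-- The slots of the original frame covered by a type of the merged frame. -/
def mg {ι : Type} [DecidableEq ι] (I : Finset ι) (i0 : ι) (J : Finset ι) : Finset ι :=
  if i0 ∈ J then J ∪ I else J \ I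

lemma mg_disjoint {ι : Type} [DecidableEq ι] (I : Finset ι) (i0 : ι) {J J' : Finset ι}
    (h : Disjoint J J') : Disjoint (mg I i0 J) (mg I i0 J') := by
  rw [disjoint_left] at h ⊢
  intro a ha hb
  have h0 := @h i0
  have h1 := @h a
  unfold mg at ha hb
  split_ifs at ha hb <;> simp only [mem_union, mem_sdiff] at ha hb <;> tauto

lemma mg_union {ι : Type} [DecidableEq ι] (I : Finset ι) (i0 : ι) (J J' : Finset ι) :
    mg I i0 (J ∪ J') = mg I i0 J ∪ mg I i0 J' := by
  ext a
  unfold mg
  by_cases h : i0 ∈ J <;> by_cases h' : i0 ∈ J' <;> simp [h, h'] <;> tauto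

section

variable {K ι A : Type} [Field K] [DecidableEq ι] [CommRing A] [Algebra K A]

/-- Total dimension of a system. -/
def sz [Fintype ι] (S : Sys K ι A) : ℝ := ∑ J : Finset ι, (finrank K (S J) : ℝ)

/-- The part of a system with types inside `J0`. -/
def res (S : Sys K ι A) (J0 : Finset ι) : Sys K ι A := fun J => if J ⊆ J0 then S J else ⊥

/-- A system without generators in a single slot. -/
def NoSl (S : Sys K ι A) : Prop := ∀ i, S {i} = ⊥

namespace Frame

variable (F : Frame K ι A)

/-- The block `I` becomes the single slot `i0`; the other slots of `I` become idle. -/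
def merge (I : Finset ι) (i0 : ι) : Frame K ι A where
  X J := F.X (mg I i0 J)
  bw J := F.bw (mg I i0 J)
  X_empty := by simpa [mg] using F.X_empty
  X_mul J J' h := by rw [mg_union]; exact F.X_mul _ _ (mg_disjoint I i0 h)
  bw_mul J J' κ h x hx y hy := F.bw_mul _ _ κ (mg_disjoint I i0 h) x hx y hy

/-- The `D`-component of the ideal generated by `S`. -/
def idl (S : Sys K ι A) (D : Finset ι) : Submodule K A :=
  ⨆ J, ⨆ _ : J ⊆ D, S J * F.X (D \ J)

/-- `S` is a system with nonempty proper types inside `D`. -/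
def Prp (D : Finset ι) (S : Sys K ι A) : Prop :=
  ∀ J, S J ≤ F.X J ∧ (S J ≠ ⊥ → J.Nonempty ∧ J ⊂ D)

/-- Evaluation of the slot `i` at the functional `l`. -/
def ev (i : ι) : Dual K A →ₗ[K] (A →ₗ[K] A) :=
  F.bw {i} ∘ₗ (LinearMap.smulRightₗ.flip (1 : A))

/-- Evaluation of the slots in a list. -/
def evL : List ι → (ι → Dual K A) → A →ₗ[K] A
  | [], _ => LinearMap.id
  | i :: L, w => evL L w ∘ₗ F.ev i (w i)

variable [Fintype ι]

/-- Partition rank at most `r` on the slots `D`. -/
def Sm (D : Finset ι) (f : A) (r : ℝ) : Prop :=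
  ∃ E, F.Prp D E ∧ sz E ≤ r ∧ f ∈ F.idl E D

/-- Partition rank at most `r`, using only types containing `I` or disjoint from `I`. -/
def SmC (D I : Finset ι) (f : A) (r : ℝ) : Prop :=
  ∃ E, F.Prp D E ∧ (∀ J, E J ≠ ⊥ → I ⊆ J ∨ Disjoint J I) ∧ sz E ≤ r ∧ f ∈ F.idl E D

/-- `f` lies in `Y` up to partition rank `r`. -/
def Nr (D : Finset ι) (Y : Submodule K A) (f : A) (r : ℝ) : Prop :=
  ∃ y ∈ Y, F.Sm D (f - y) r

/-- Average partition rank at most `k`. -/
def SmA (D : Finset ι) {H : Type} [Fintype H] (u : H → A) (k : ℝ) : Prop :=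
  ∃ r : H → ℝ, (∀ q, F.Sm D (u q) (r q)) ∧ 𝔼 q, r q ≤ k

/-- Penalised regularity of `W` relative to `B` in type `J`. -/
def RR (η z : ℝ) (J : Finset ι) (W B : Submodule K A) : Prop :=
  ∀ E, F.Prp J E → (finrank K (W ⊓ (B ⊔ F.idl E J) : Submodule K A) : ℝ) ≤ z + η * sz E

/-- Penalised regularity of a system. -/
def Reg (η z : ℝ) (S : Sys K ι A) : Prop := ∀ J, F.RR η z J (S J) ⊥

open Classical in
/-- Probability that evaluating the slots of `L` at random kills `f`. -/
def zp [Fintype (Dual K A)] (L : List ι) (f : A) : ℝ :=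
  𝔼 w : ι → Dual K A, if F.evL L w f = 0 then (1 : ℝ) else 0

lemma ev_mul (i : ι) (l : Dual K A) {J : Finset ι} (hi : i ∉ J) {x y : A} (hx : x ∈ F.X {i})
    (hy : y ∈ F.X J) : F.ev i l (x * y) = l x • y := by
  have := F.bw_mul {i} J (LinearMap.smulRightₗ.flip (1 : A) l) (by simpa using hi) x hx y hy
  simpa [ev] using this

end Frame

end

/-- `P η C η'` holds in the order: `C` absolute, `η'` arbitrary, `η` small enough. -/
def Shp (P : ℝ → ℝ → ℝ → Prop) : Prop :=
  ∃ C : ℝ, 0 ≤ C ∧ ∀ η' : ℝ, 0 < η' → ∃ η : ℝ, 0 < η ∧ P η C η'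

end Pool.Agent.Lib.AD

theorem Pool.Agent.Lib.AD.Defs.rlz0 : True := by
  have := @Pool.Agent.Lib.AD.Frame.evL.eq_def
  trivial
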