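import Pool.Agent.Lib.AD.Blue2
import Pool.Agent.Lib.AD.LvApi

/-! The abstract engine instantiated inside a frame. -/

noncomputable section

open Finset Module
open scoped BigOperators

set_option linter.unusedSectionVars false

namespace Pool.Agent.Lib.AD.EngF

variable {K ι A : Type} [Field K] [DecidableEq ι] [CommRing A] [Algebra K A] (F : Frame K ι A)

lemma bw_mem {I J : Finset ι} (h : Disjoint I J) (κ : A →ₗ[K] A) {U Y : Submodule K A}
    (hU : U ≤ F.X I) (hY : Y ≤ F.X J) {x : A} (hx : x ∈ U * Y) :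
    F.bw I κ x ∈ U.map κ * Y := by
  have : U * Y ≤ (U.map κ * Y).comap (F.bw I κ) := Submodule.mul_le.2 fun a ha y hy => by
    rw [Submodule.mem_comap, F.bw_mul I J κ h a (hU ha) y (hY hy)]
    exact Submodule.mul_mem_mul (Submodule.mem_map_of_mem ha) hy
  exact this hx

lemma bw_stab {I J : Finset ι} (h : Disjoint I J) {κ : A →ₗ[K] A} (hκ : ∀ a, κ a ∈ F.X I)
    {Y : Submodule K A} (hY : Y ≤ F.X J) {x : A} (hx : x ∈ F.X I * Y) :
    F.bw I κ x ∈ F.X I * Y := by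
  refine mul_le_mul_left (?_ : (F.X I).map κ ≤ F.X I) Y (bw_mem F h κ le_rfl hY hx)
  rintro _ ⟨a, -, rfl⟩
  exact hκ a

lemma bw_X {I J : Finset ι} (h : I ⊆ J) {κ : A →ₗ[K] A} (hκ : ∀ a, κ a ∈ F.X I) {x : A}
    (hx : x ∈ F.X J) : F.bw I κ x ∈ F.X J := by
  rw [← Lv.X_split F h] at hx ⊢
  exact bw_stab F disjoint_sdiff hκ le_rfl hx

lemma bw_mul' {I J J' : Finset ι} (h : I ⊆ J) (h' : Disjoint J J') (κ : A →ₗ[K] A) {e y : A}
    (he : e ∈ F.X J) (hy : y ∈ F.X J') : F.bw I κ (e * y) = F.bw I κ e * y := by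
  rw [← Lv.X_split F h] at he
  refine Submodule.mul_induction_on he (fun a ha z hz => ?_) (fun a b ha hb => ?_)
  · have h1 : z * y ∈ F.X (J \ I ∪ J') :=
      F.X_mul _ _ (h'.mono_left sdiff_subset) ▸ Submodule.mul_mem_mul hz hy
    rw [mul_assoc, F.bw_mul I _ κ (disjoint_union_right.2 ⟨disjoint_sdiff, h'.mono_left h⟩) a ha _ h1,
      F.bw_mul I _ κ disjoint_sdiff a ha z hz, mul_assoc]
  · rw [add_mul, map_add, map_add, ha, hb, add_mul]

lemma bw_id {I J : Finset ι} (h : I ⊆ J) {κ : A →ₗ[K] A} (hκ : ∀ a ∈ F.X I, κ a = a) {x : A}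
    (hx : x ∈ F.X J) : F.bw I κ x = x := by
  rw [← Lv.X_split F h] at hx
  refine Submodule.mul_induction_on hx (fun a ha z hz => ?_) (fun a b ha hb => ?_)
  · rw [F.bw_mul I _ κ disjoint_sdiff a ha z hz, hκ a ha]
  · rw [map_add, ha, hb]

lemma comap_sup {W U V : Submodule K A} (hU : U ≤ W) (hV : V ≤ W) :
    (U ⊔ V).comap W.subtype = U.comap W.subtype ⊔ V.comap W.subtype := by
  refine le_antisymm (fun x hx => ?_)
    (sup_le (Submodule.comap_mono le_sup_left) (Submodule.comap_mono le_sup_right))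
  obtain ⟨a, ha, b, hb, e⟩ := Submodule.mem_sup.1 hx
  exact Submodule.mem_sup.2 ⟨⟨a, hU ha⟩, ha, ⟨b, hV hb⟩, hb, Subtype.ext e⟩

lemma map_comap {W U : Submodule K A} (hU : U ≤ W) : (U.comap W.subtype).map W.subtype = U := by
  rw [Submodule.map_comap_subtype, inf_eq_right.2 hU]

lemma finrank_comap {W U : Submodule K A} (hU : U ≤ W) :
    finrank K (U.comap W.subtype) = finrank K U :=
  (Submodule.comapSubtypeEquivOfLe hU).finrank_eq

/-- a fixed retraction onto a subspace -/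
def pr (W : Submodule K A) : A →ₗ[K] W :=
  W.projectionOnto (Submodule.exists_isCompl W).choose (Submodule.exists_isCompl W).choose_spec

lemma pr_coe (W : Submodule K A) (x : W) : pr W x = x := Submodule.projectionOnto_apply_left _ x

/-- extension of an endomorphism of a subspace -/
def kap (W : Submodule K A) (φ : W →ₗ[K] W) : A →ₗ[K] A := W.subtype ∘ₗ φ ∘ₗ pr W

lemma kap_mem (W : Submodule K A) (φ : W →ₗ[K] W) (a : A) : kap W φ a ∈ W := (φ (pr W a)).2

lemma kap_coe (W : Submodule K A) (φ : W →ₗ[K] W) (a : W) : kap W φ a = φ a := by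
  simp only [kap, LinearMap.comp_apply, pr_coe, Submodule.subtype_apply]

lemma kap_sub (W : Submodule K A) (φ ψ : W →ₗ[K] W) : kap W (φ - ψ) = kap W φ - kap W ψ := by
  ext a
  simp [kap]

lemma map_kap (W : Submodule K A) (φ : W →ₗ[K] W) (Q : Submodule K W) :
    (Q.map W.subtype).map (kap W φ) ≤ (Q.map φ).map W.subtype := by
  rintro _ ⟨_, ⟨a, ha, rfl⟩, rfl⟩
  exact ⟨φ a, ⟨a, ha, rfl⟩, (kap_coe W φ a).symm⟩

variable [Fintype ι] [FiniteDimensional K A]

lemma smC_add {D I : Finset ι} {f g : A} {r s : ℝ} (h : F.SmC D I f r) (h' : F.SmC D I g s) :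
    F.SmC D I (f + g) (r + s) := by
  obtain ⟨E, h1, hc, h2, h3⟩ := h
  obtain ⟨E', h1', hc', h2', h3'⟩ := h'
  refine ⟨E ⊔ E', Lv.Ty.sup h1 h1', fun J e => ?_, (Lv.sz_sup E E').trans (add_le_add h2 h2'), ?_⟩
  · by_cases e1 : E J = ⊥
    · exact hc' J fun e2 => e (by rw [Pi.sup_apply, e1, e2, sup_idem])
    · exact hc J e1
  · rw [Lv.idl_sup]
    exact Submodule.add_mem_sup h3 h3'

lemma smC_bw {D I : Finset ι} (hI : I ⊆ D) {κ : A →ₗ[K] A} (hκ : ∀ a, κ a ∈ F.X I) {f : A}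
    {r : ℝ} (h : F.SmC D I f r) : F.SmC D I (F.bw I κ f) r := by
  obtain ⟨E, h1, hc, h2, h3⟩ := h
  let E' : Sys K ι A := fun J => if I ⊆ J then (E J).map (F.bw I κ) else E J
  have hne : ∀ J, E' J ≠ ⊥ → E J ≠ ⊥ := fun J e e' => e (by simp [E', e'])
  refine ⟨E', fun J => ⟨?_, fun e => (h1 J).2 (hne J e)⟩, fun J e => hc J (hne J e),
    le_trans (sum_le_sum fun J _ => ?_) h2, ?_⟩
  · by_cases c : I ⊆ J
    · rw [show E' J = _ from if_pos c]
      rintro _ ⟨a, ha, rfl⟩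
      exact bw_X F c hκ ((h1 J).1 ha)
    · rw [show E' J = _ from if_neg c]
      exact (h1 J).1
  · by_cases c : I ⊆ J
    · rw [show E' J = _ from if_pos c]
      exact_mod_cast Submodule.finrank_map_le _ _
    · rw [show E' J = _ from if_neg c]
  · have : F.idl E D ≤ (F.idl E' D).comap (F.bw I κ) := by
      refine (Lv.idl_le_iff F).2 fun J hJ x hx => Lv.mul_le_idl F E' hJ ?_
      by_cases c : I ⊆ J
      · rw [show E' J = _ from if_pos c]
        refine Submodule.mul_induction_on hx (fun a ha z hz => ?_) (fun a b ha hb => ?_)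
        · rw [bw_mul' F c disjoint_sdiff κ ((h1 J).1 ha) hz]
          exact Submodule.mul_mem_mul (Submodule.mem_map_of_mem ha) hz
        · rw [map_add]
          exact add_mem ha hb
      · rw [show E' J = _ from if_neg c]
        by_cases e : E J = ⊥
        · rw [e, Submodule.bot_mul, Submodule.mem_bot] at hx
          rw [hx, map_zero]
          exact zero_mem _
        · have hd : Disjoint J I := (hc J e).resolve_left c
          have hs : I ⊆ D \ J := subset_sdiff.2 ⟨hI, hd.symm⟩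
          rw [← Lv.X_split F hs, mul_left_comm] at hx ⊢
          refine bw_stab F (J := J ∪ (D \ J) \ I)
            (disjoint_union_right.2 ⟨hd.symm, disjoint_sdiff⟩) hκ ?_ hx
          rw [← F.X_mul _ _ (disjoint_sdiff.mono_right sdiff_subset)]
          exact mul_le_mul_left (h1 J).1 _
    exact this h3

/-- admissible null data -/
def nd (D B1 B2 : Finset ι) : AddSubmonoid (Sys K ι A × Sys K ι A × Sys K ι A) where
  carrier := {t | F.NulD D B1 B2 t.1 t.2.1 t.2.2}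
  zero_mem' := ⟨Lv.ty_bot _, Lv.ty_bot _, Lv.ty_bot _, fun _ e => absurd rfl e⟩
  add_mem' := by
    rintro a b ⟨a1, a2, a3, a4⟩ ⟨b1, b2, b3, b4⟩
    refine ⟨Lv.Ty.sup a1 b1, Lv.Ty.sup a2 b2, Lv.Ty.sup a3 b3, fun J e => ?_⟩
    by_cases e1 : a.2.2 J = ⊥
    · refine b4 J fun e2 => e ?_
      change a.2.2 J ⊔ b.2.2 J = ⊥
      rw [e1, e2, sup_idem]
    · exact a4 J e1

/-- integer size of a triple of systems -/
def szT (t : Sys K ι A × Sys K ι A × Sys K ι A) : ℕ :=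
  ∑ J, finrank K (t.1 J) + ∑ J, finrank K (t.2.1 J) + ∑ J, finrank K (t.2.2 J)

lemma szT_eq (t : Sys K ι A × Sys K ι A × Sys K ι A) :
    (szT t : ℝ) = sz t.1 + sz t.2.1 + sz t.2.2 := by
  simp [szT, sz]

variable {F} {D B1 B2 : Finset ι} {S1 : Sys K ι A}

lemma X1 (h : Pair D B1 B2) : F.X (D \ B1) = F.X B2 * F.X (D \ (B1 ∪ B2)) := by
  obtain ⟨-, -, -, h2, hd, -⟩ := h
  rw [← Lv.X_split F (subset_sdiff.2 ⟨h2, hd.symm⟩), sdiff_sdiff_left, sup_eq_union]

lemma X2 (h : Pair D B1 B2) : F.X (D \ B2) = F.X B1 * F.X (D \ (B1 ∪ B2)) := by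
  obtain ⟨-, -, h1, -, hd, -⟩ := h
  rw [← Lv.X_split F (subset_sdiff.2 ⟨h1, hd⟩), sdiff_sdiff_left, sup_eq_union, union_comm]

lemma rest_le (h : Pair D B1 B2) {P Z : Submodule K A} (hP : P ≤ F.X B1)
    (hZ : Z ≤ F.X (D \ (B1 ∪ B2))) : P * Z ≤ F.X (D \ B2) := by
  rw [X2 h]
  exact mul_le_mul' hP hZ

lemma lf_eq (h : Pair D B1 B2) (P : Submodule K A) :
    P * F.X (D \ B1) = F.X B2 * (P * F.X (D \ (B1 ∪ B2))) := by
  rw [X1 h, mul_left_comm]

lemma two_eq (P Q : Submodule K A) :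
    F.two D B1 B2 P Q = Q * (P * F.X (D \ (B1 ∪ B2))) := by
  rw [Frame.two, mul_assoc, mul_left_comm]

lemma third_eq (Z : Submodule K A) : F.X B1 * F.X B2 * Z = F.X B2 * (F.X B1 * Z) := by
  rw [mul_assoc, mul_left_comm]

lemma mul_le_XD {J : Finset ι} (hJ : J ⊆ D) {P Y : Submodule K A} (hP : P ≤ F.X J)
    (hY : Y ≤ F.X (D \ J)) : P * Y ≤ F.X D :=
  (mul_le_mul' hP hY).trans (Lv.X_split F hJ).le

lemma third_le (hS : F.Prp D S1) {N : Sys K ι A} (hN : F.Prp D N) (J : Finset ι) :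
    F.idl (S1 ⊔ N) J ≤ F.X J :=
  Lv.idl_le_X F (fun J => sup_le (hS J).1 (hN J).1) J

/-- the engine context of a pair of blocks -/
def eng (h : Pair D B1 B2) (hS : F.Prp D S1) :
    Eng K (F.X D) (F.X B2) (Submodule K (F.X B1)) (nd F D B1 B2) where
  lf a := (a.map (F.X B1).subtype * F.X (D \ B1)).comap (F.X D).subtype
  rt Q := (Q.map (F.X B2).subtype * F.X (D \ B2)).comap (F.X D).subtype
  cl a Q := (F.two D B1 B2 (a.map (F.X B1).subtype) (Q.map (F.X B2).subtype)).comap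
    (F.X D).subtype
  nl t := (F.idl t.1.1 B1 * F.X (D \ B1) ⊔
    F.X B1 * F.X B2 * F.idl (S1 ⊔ t.1.2.2) (D \ (B1 ∪ B2))).comap (F.X D).subtype
  rn t := (F.idl t.1.2.1 B2).comap (F.X B2).subtype
  rm φ := (F.bw B2 (kap (F.X B2) φ)).restrict fun _ hx => bw_X F h.2.2.2.1 (kap_mem _ φ) hx
  szL a := finrank K a
  szN t := szT t.1
  Sm x r := F.SmC D B2 x r
  szL_zero := finrank_bot K _
  szL_add a b := Submodule.finrank_add_le_finrank_add_finrank a b
  szN_zero := by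
    have : (szT (0 : Sys K ι A × Sys K ι A × Sys K ι A) : ℝ) = 0 := by
      rw [szT_eq]
      change sz (⊥ : Sys K ι A) + sz (⊥ : Sys K ι A) + sz (⊥ : Sys K ι A) = 0
      rw [Lv.sz_bot, add_zero, add_zero]
    exact_mod_cast this
  szN_add a b := by
    have : (szT (a + b).1 : ℝ) ≤ szT a.1 + szT b.1 := by
      rw [szT_eq, szT_eq, szT_eq]
      have h1 := Lv.sz_sup a.1.1 b.1.1
      have h2 := Lv.sz_sup a.1.2.1 b.1.2.1
      have h3 := Lv.sz_sup a.1.2.2 b.1.2.2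
      change sz (a.1.1 ⊔ b.1.1) + sz (a.1.2.1 ⊔ b.1.2.1) + sz (a.1.2.2 ⊔ b.1.2.2) ≤ _
      linarith
    exact_mod_cast this
  lf_add a b := Submodule.comap_mono (mul_le_mul_left (Submodule.map_mono le_sup_left) _)
  nl_add a b := Submodule.comap_mono (sup_le_sup
    (mul_le_mul_left (Lv.idl_mono F (le_sup_left : a.1.1 ≤ a.1.1 ⊔ b.1.1) _) _)
    (mul_le_mul_right (Lv.idl_mono F
      (sup_le_sup_left (le_sup_left : a.1.2.2 ≤ a.1.2.2 ⊔ b.1.2.2) _) _) _))
  rn_add a b := Submodule.comap_mono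
    (Lv.idl_mono F (le_sup_left : a.1.2.1 ≤ a.1.2.1 ⊔ b.1.2.1) _)
  rt_mono Q Q' hQ := Submodule.comap_mono (mul_le_mul_left (Submodule.map_mono hQ) _)
  rt_sup Q Q' := by
    rw [Submodule.map_sup, Submodule.sup_mul, comap_sup
      (mul_le_XD h.2.2.2.1 (Submodule.map_subtype_le _ _) le_rfl)
      (mul_le_XD h.2.2.2.1 (Submodule.map_subtype_le _ _) le_rfl)]
  cl_lf a Q := Submodule.comap_mono (by
    rw [two_eq, lf_eq h]
    exact mul_le_mul_left (Submodule.map_subtype_le _ _) _)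
  cl_rt a Q := Submodule.comap_mono (by
    rw [two_eq]
    exact mul_le_mul_right (rest_le h (Submodule.map_subtype_le _ _) le_rfl) _)
  cl_mono a b Q Q' hQ := Submodule.comap_mono (mul_le_mul_left
    (mul_le_mul' (Submodule.map_mono le_sup_left) (Submodule.map_mono hQ)) _)
  rm_sub φ x := by
    refine Subtype.ext ?_
    change (x : A) - F.bw B2 (kap _ φ) x = F.bw B2 (kap _ (LinearMap.id - φ)) x
    rw [kap_sub, map_sub, LinearMap.sub_apply,
      bw_id F h.2.2.2.1 (fun a ha => kap_coe _ LinearMap.id ⟨a, ha⟩) x.2]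
  rm_range φ x := by
    have hx : (x : A) ∈ F.X B2 * F.X (D \ B2) := (Lv.X_split F h.2.2.2.1).ge x.2
    refine mul_le_mul_left (?_ : (F.X B2).map (kap _ φ) ≤ _) _
      (bw_mem F disjoint_sdiff (kap _ φ) le_rfl le_rfl hx)
    rintro _ ⟨a, -, rfl⟩
    exact ⟨φ (pr _ a), ⟨_, rfl⟩, rfl⟩
  rm_rt φ Q x hx := mul_le_mul_left (map_kap _ φ Q) _
    (bw_mem F disjoint_sdiff (kap _ φ) (Submodule.map_subtype_le _ _) le_rfl hx)
  rm_cl φ a Q x hx := by
    rw [Submodule.mem_comap, two_eq] at hx ⊢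
    exact mul_le_mul_left (map_kap _ φ Q) _
      (bw_mem F disjoint_sdiff (kap _ φ) (Submodule.map_subtype_le _ _)
        (rest_le h (Submodule.map_subtype_le _ _) le_rfl) hx)
  rm_lf φ a x hx := by
    rw [Submodule.mem_comap, lf_eq h] at hx ⊢
    exact bw_stab F disjoint_sdiff (kap_mem _ φ)
      (rest_le h (Submodule.map_subtype_le _ _) le_rfl) hx
  rm_nl φ t x hx := by
    rw [Submodule.mem_comap, lf_eq h, third_eq, ← Submodule.mul_sup] at hx ⊢
    exact bw_stab F disjoint_sdiff (kap_mem _ φ)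
      (sup_le (rest_le h (Lv.idl_le_X F (fun J => (t.2.1 J).1) _) le_rfl)
        (rest_le h le_rfl (third_le hS t.2.2.2.1 _))) hx
  sm_nonneg x r hx := by
    obtain ⟨E, -, -, h2, -⟩ := hx
    exact (Lv.sz_nonneg E).trans h2
  sm_zero := ⟨⊥, Lv.ty_bot _, fun _ e => absurd rfl e, Lv.sz_bot.le, zero_mem _⟩
  sm_add x y r s hx hy := smC_add F hx hy
  sm_neg x r hx := by
    obtain ⟨E, h1, hc, h2, h3⟩ := hx
    exact ⟨E, h1, hc, h2, neg_mem h3⟩
  sm_rm φ x r hx := smC_bw F h.2.2.2.1 (kap_mem _ φ) hx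
  sm_rt Q x hx := by
    obtain ⟨⟨i, hi⟩, h0, h1, h2, hd, -⟩ := h
    have hlt : B2 ⊂ D := ⟨h2, fun hD => disjoint_left.1 hd hi (hD (h1 hi))⟩
    refine ⟨Lv.one B2 (Q.map (F.X B2).subtype),
      Lv.ty_one (Submodule.map_subtype_le _ _) ⟨h0, hlt⟩, fun J e => ?_, ?_, ?_⟩
    · by_cases c : J = B2
      · exact Or.inl c.ge
      · exact absurd (if_neg c) e
    · rw [Lv.sz_one, Submodule.finrank_map_subtype_eq]
    · refine Lv.mul_le_idl F _ h2 ?_
      rw [Lv.one_self]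
      exact hx

lemma nul_eq (h : Pair D B1 B2) (hS : F.Prp D S1) (a : Submodule K (F.X B1))
    (B : Submodule K (F.X B2)) (t : nd F D B1 B2) :
    (eng h hS).nul a B t = (F.nul D B1 B2 S1 (a.map (F.X B1).subtype) (B.map (F.X B2).subtype)
      t.1.1 t.1.2.1 t.1.2.2).comap (F.X D).subtype := by
  have l1 : F.idl t.1.1 B1 ≤ F.X B1 := Lv.idl_le_X F (fun J => (t.2.1 J).1) _
  have l2 : F.idl t.1.2.1 B2 ≤ F.X B2 := Lv.idl_le_X F (fun J => (t.2.2.1 J).1) _
  have m1 : a.map (F.X B1).subtype * F.X (D \ B1) ≤ F.X D :=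
    mul_le_XD h.2.2.1 (Submodule.map_subtype_le _ _) le_rfl
  have m2 : F.idl t.1.1 B1 * F.X (D \ B1) ⊔
      F.X B1 * F.X B2 * F.idl (S1 ⊔ t.1.2.2) (D \ (B1 ∪ B2)) ≤ F.X D := by
    refine sup_le (mul_le_XD h.2.2.1 l1 le_rfl) ?_
    rw [third_eq]
    exact mul_le_XD h.2.2.2.1 le_rfl (rest_le h le_rfl (third_le hS t.2.2.2.1 _))
  have m3 : (B ⊔ (F.idl t.1.2.1 B2).comap (F.X B2).subtype).map (F.X B2).subtype *
      F.X (D \ B2) ≤ F.X D := mul_le_XD h.2.2.2.1 (Submodule.map_subtype_le _ _) le_rfl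
  change Submodule.comap _ _ ⊔ Submodule.comap _ _ ⊔ Submodule.comap _ _ = _
  refine ((congrArg (· ⊔ _) (comap_sup m1 m2).symm).trans
    (comap_sup (sup_le m1 m2) m3).symm).trans ?_
  congr 1
  rw [Submodule.map_sup, map_comap l2, Frame.nul, Submodule.sup_mul (a.map _)]
  ac_rfl

lemma bd_iff (h : Pair D B1 B2) (hS : F.Prp D S1) {H : Type} [Fintype H] (u : H → F.X D)
    (k : ℝ) : (eng h hS).Bd u k ↔ F.Bd2 D B1 B2 (fun q => (u q : A)) k := by
  constructor
  · rintro ⟨a, Q, h1, h2, h3⟩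
    refine ⟨fun q => (a q).map (F.X B1).subtype, fun q => (Q q).map (F.X B2).subtype,
      fun q => ⟨Submodule.map_subtype_le _ _, Submodule.map_subtype_le _ _, h1 q⟩, ?_, ?_⟩
    · simp only [Submodule.finrank_map_subtype_eq]
      exact h2
    · simp only [Submodule.finrank_map_subtype_eq]
      exact h3
  · rintro ⟨P, Q, h1, h2, h3⟩
    refine ⟨fun q => (P q).comap (F.X B1).subtype, fun q => (Q q).comap (F.X B2).subtype,
      fun q => ?_, ?_, ?_⟩
    · change (u q : A) ∈ F.two D B1 B2 (Submodule.map _ _) (Submodule.map _ _)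
      rw [map_comap (h1 q).1, map_comap (h1 q).2.1]
      exact (h1 q).2.2
    · refine le_of_eq_of_le (expect_congr rfl fun q _ => ?_) h2
      exact congrArg Nat.cast (finrank_comap (h1 q).1)
    · refine le_of_eq_of_le (expect_congr rfl fun q _ => ?_) h3
      exact congrArg Nat.cast (finrank_comap (h1 q).2.1)

lemma null_iff (h : Pair D B1 B2) (hS : F.Prp D S1) {H : Type} [Fintype H] (u : H → F.X D)
    (k δ : ℝ) : (eng h hS).Null0 u k δ ↔ F.Nul0 D B1 B2 S1 (fun q => (u q : A)) k δ := by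
  constructor
  · rintro ⟨a, B, E, x, r, h1, h2, h3, h4, h5, h6⟩
    refine ⟨a.map (F.X B1).subtype, B.map (F.X B2).subtype, fun q => (E q).1.1,
      fun q => (E q).1.2.1, fun q => (E q).1.2.2, r, Submodule.map_subtype_le _ _,
      Submodule.map_subtype_le _ _, ?_, ?_, fun q => (E q).2, ?_, h5, fun q => ?_⟩
    · rw [Submodule.finrank_map_subtype_eq]
      exact h1
    · rw [Submodule.finrank_map_subtype_eq]
      exact h2
    · exact le_of_eq_of_le (expect_congr rfl fun q _ => (szT_eq _).symm) h3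
    · have h7 := h6 q
      rw [nul_eq] at h7
      refine ⟨((u q - x q : F.X D) : A), h7, ?_⟩
      rw [Submodule.coe_sub, sub_sub_cancel]
      exact h4 q
  · rintro ⟨P, Q, L1, L2, N, r, hP, hQ, h1, h2, h3, h4, h5, h6⟩
    choose y hy hs using h6
    have hx : ∀ q, (u q : A) - y q ∈ F.X D := fun q => by
      obtain ⟨E, e1, -, -, e3⟩ := hs q
      exact Lv.idl_le_X F (fun J => (e1 J).1) D e3
    refine ⟨P.comap (F.X B1).subtype, Q.comap (F.X B2).subtype,
      fun q => ⟨(L1 q, L2 q, N q), h3 q⟩, fun q => ⟨u q - y q, hx q⟩, r, ?_, ?_, ?_, hs, h5,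
      fun q => ?_⟩
    · exact le_of_eq_of_le (congrArg Nat.cast (finrank_comap hP)) h1
    · exact le_of_eq_of_le (congrArg Nat.cast (finrank_comap hQ)) h2
    · exact le_of_eq_of_le (expect_congr rfl fun q _ => szT_eq _) h4
    · rw [nul_eq, map_comap hP, map_comap hQ, Submodule.mem_comap, Submodule.subtype_apply,
        Submodule.coe_sub, sub_sub_cancel]
      exact hy q

lemma cD_coe {G : Type} [AddCommGroup G] (W : Submodule K A) (n : ℕ) (b : Cube n.pred G → W) :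
    cD n (fun q => (b q : A)) = fun q => ((cD n b q : W) : A) := by
  cases n with
  | zero => rfl
  | succ n => exact cd_comp n b W.subtype.toAddMonoidHom

end Pool.Agent.Lib.AD.EngF

namespace Pool.Agent.Lib.AD

theorem stENGF (p : ℕ) [Fact p.Prime] (ι : Type) [Fintype ι] [DecidableEq ι] : St_ENGF p ι := by
  intro hE n
  obtain ⟨C, hC, H⟩ := hE (ZMod p) n
  refine ⟨C, hC, fun η hη => ?_⟩
  obtain ⟨M, hM, H⟩ := H η hη
  refine ⟨M, hM, fun k δ hk hδ => ?_⟩
  intro A _ _ _ F D B1 B2 S1 G _ _ T hP hS hB hN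
  have hT : ∀ q, T q ∈ F.X D := fun q => by
    obtain ⟨P, Q, h1, -, -⟩ := hB
    have h2 := (h1 q).2.2
    rw [EngF.two_eq] at h2
    exact EngF.mul_le_XD hP.2.2.2.1 (h1 q).2.1 (EngF.rest_le hP (h1 q).1 le_rfl) h2
  let T' : Cube n G → F.X D := fun q => ⟨T q, hT q⟩
  have e1 : cd n T = fun q => ((cd n T' q : F.X D) : A) :=
    cd_comp n T' (F.X D).subtype.toAddMonoidHom
  rw [e1] at hN
  obtain ⟨b, hb, hn⟩ := H k δ hk hδ _ _ _ _ (EngF.eng hP hS) G T'
    ((EngF.bd_iff hP hS T' k).2 hB) ((EngF.null_iff hP hS _ k δ).2 hN)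
  refine ⟨fun q => (b q : A), (EngF.bd_iff hP hS b _).1 hb, ?_⟩
  rw [EngF.cD_coe]
  exact (EngF.null_iff hP hS _ _ _).1 hn

end Pool.Agent.Lib.AD
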