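import Pool.Agent.Lib.AD.EngDef

/-!
Closure properties of allowed data, bounded cochains and null cochains.
-/

noncomputable section

open Finset Module
open scoped BigOperators

namespace Pool.Agent.Lib.AD

section Alw

variable {H H' T : Type} [AddCommGroup H] [Fintype H] [AddCommGroup H'] [Fintype H']
  [AddCommMonoid T] {S : Set (AddSubgroup H)} {S' : Set (AddSubgroup H')} {sz : T → ℕ}

lemma Alw.zero {k : ℝ} (hk : 0 ≤ k) : Alw S sz 0 k := ⟨[], by simp, rfl, by simpa⟩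

lemma Alw.mono {A : H → T} {k k' : ℝ} (h : Alw S sz A k) (hk : k ≤ k') : Alw S sz A k' := by
  obtain ⟨l, h1, h2, h3⟩ := h
  exact ⟨l, h1, h2, h3.trans hk⟩

lemma Alw.add {A B : H → T} {k k' : ℝ} (h : Alw S sz A k) (h' : Alw S sz B k') :
    Alw S sz (A + B) (k + k') := by
  obtain ⟨l, h1, h2, h3⟩ := h
  obtain ⟨l', h1', h2', h3'⟩ := h'
  refine ⟨l ++ l', fun a ha => (List.mem_append.1 ha).elim (h1 a) (h1' a), by simp [h2, h2'], ?_⟩
  rw [List.map_append, List.sum_append]; linarith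

lemma Alw.single {A : H → T} {k : ℝ} {K : AddSubgroup H} (hK : K ∈ S) (hA : Meas K A)
    (h : 𝔼 q, (sz (A q) : ℝ) ≤ k) : Alw S sz A k :=
  ⟨[A], by simpa using ⟨K, hK, hA⟩, by simp, by simpa using h⟩

lemma Alw.sum {I : Type} (s : Finset I) {A : I → H → T} {k : I → ℝ}
    (h : ∀ i ∈ s, Alw S sz (A i) (k i)) : Alw S sz (∑ i ∈ s, A i) (∑ i ∈ s, k i) := by
  classical
  induction s using Finset.induction_on with
  | empty => simpa using Alw.zero le_rfl
  | insert i s hi ih =>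
    rw [sum_insert hi, sum_insert hi]
    exact (h i (mem_insert_self _ _)).add (ih fun j hj => h j (mem_insert_of_mem hj))

lemma Alw.size (h0 : sz 0 = 0) (ha : ∀ a b, sz (a + b) ≤ sz a + sz b) {A : H → T} {k : ℝ}
    (h : Alw S sz A k) : 𝔼 q, (sz (A q) : ℝ) ≤ k := by
  obtain ⟨l, -, rfl, h3⟩ := h
  refine le_trans ?_ h3
  clear h3
  induction l with
  | nil => simp [h0]
  | cons a l ih =>
    rw [List.map_cons, List.sum_cons, List.sum_cons]
    refine le_trans ?_ (add_le_add le_rfl ih)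
    rw [← expect_add_distrib]
    exact expect_le_expect fun q _ => by exact_mod_cast ha _ _

lemma Alw.nonneg {A : H → T} {k : ℝ} (h : Alw S sz A k) : 0 ≤ k := by
  obtain ⟨l, -, -, h3⟩ := h
  refine le_trans (List.sum_nonneg ?_) h3
  intro x hx
  obtain ⟨a, -, rfl⟩ := List.mem_map.1 hx
  exact expect_nonneg fun q _ => by positivity

lemma expect_surj2 {O : Type} [AddCommGroup O] [Fintype O] (J : O × H' →+ H)
    (hJ : Function.Surjective J) (g : H → ℝ) : 𝔼 ω, 𝔼 q, g (J (ω, q)) = 𝔼 q, g q := by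
  rw [← expect_surj J hJ g, ← univ_product_univ, expect_product]

lemma Alw.param {O : Type} [AddCommGroup O] [Fintype O] {A : H → T} {k : ℝ} (h : Alw S sz A k)
    (J : O × H' →+ H) (hJ : Function.Surjective J)
    (hS : ∀ K ∈ S, ∃ K' ∈ S', ∀ κ ∈ K', J (0, κ) ∈ K) :
    ∃ cost : O → ℝ, (∀ ω, Alw S' sz (fun q => A (J (ω, q))) (cost ω)) ∧ 𝔼 ω, cost ω ≤ k := by
  obtain ⟨l, h1, rfl, h3⟩ := h
  refine ⟨fun ω => (l.map fun a => 𝔼 q, (sz (a (J (ω, q))) : ℝ)).sum, fun ω =>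
    ⟨l.map fun a q => a (J (ω, q)), ?_, ?_, by rw [List.map_map]; rfl⟩, le_trans (le_of_eq ?_) h3⟩
  · intro a ha
    obtain ⟨b, hb, rfl⟩ := List.mem_map.1 ha
    obtain ⟨K, hK, hm⟩ := h1 b hb
    obtain ⟨K', hK', hκ⟩ := hS K hK
    refine ⟨K', hK', fun q κ hk => ?_⟩
    have : J (ω, q + κ) = J (ω, q) + J (0, κ) := by rw [← map_add]; simp
    simp only [this]; exact hm _ _ (hκ κ hk)
  · clear h1 h3
    induction l with
    | nil => rfl
    | cons a l ih => ext q; simp only [List.sum_cons, List.map_cons, Pi.add_apply, ← ih]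
  · clear h1 h3
    induction l with
    | nil => simp
    | cons a l ih =>
      simp only [List.sum_cons, List.map_cons]
      rw [expect_add_distrib, ih, expect_surj2 J hJ fun q => (sz (a q) : ℝ)]

lemma Alw.pull {A : H → T} {k : ℝ} (h : Alw S sz A k) (f : H' →+ H) (hf : Function.Surjective f)
    (hS : ∀ K ∈ S, ∃ K' ∈ S', ∀ κ ∈ K', f κ ∈ K) : Alw S' sz (fun q => A (f q)) k := by
  obtain ⟨cost, h1, h2⟩ := h.param (O := Unit) (S' := S') (f.comp (AddMonoidHom.snd _ _))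
    (fun y => by obtain ⟨x, rfl⟩ := hf y; exact ⟨((), x), rfl⟩) hS
  exact (h1 ()).mono (by simpa using h2)

end Alw

lemma fr_zero (F R : Type) [Field F] [AddCommGroup R] [Module F R] :
    finrank F (0 : Submodule F R) = 0 := finrank_bot F R

lemma fr_add {F R : Type} [Field F] [AddCommGroup R] [Module F R] [FiniteDimensional F R]
    (a b : Submodule F R) : finrank F (a + b : Submodule F R) ≤ finrank F a + finrank F b :=
  Submodule.finrank_add_le_finrank_add_finrank a b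

namespace Eng

variable {F X R L N : Type} [Field F] [AddCommGroup X] [Module F X] [AddCommGroup R]
  [Module F R] [FiniteDimensional F R] [AddCommMonoid L] [AddCommMonoid N] {c : Eng F X R L N}

omit [FiniteDimensional F R] in
lemma nul_mono (c : Eng F X R L N) {a a' : L} {B B' : Submodule F R} {E E' : N}
    (ha : ∃ b, a' = a + b) (hB : B ≤ B') (hE : ∃ b, E' = E + b) : c.nul a B E ≤ c.nul a' B' E' := by
  obtain ⟨b, rfl⟩ := ha
  obtain ⟨e, rfl⟩ := hE
  exact sup_le_sup (sup_le_sup (c.lf_add _ _) (c.nl_add _ _))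
    (c.rt_mono _ _ (sup_le_sup hB (c.rn_add _ _)))

section

variable {H H' : Type} [Fintype H] [Fintype H']

omit [FiniteDimensional F R] in
lemma Bd.mono {u : H → X} {k k' : ℝ} (h : c.Bd u k) (hk : k ≤ k') : c.Bd u k' := by
  obtain ⟨a, Q, h1, h2, h3⟩ := h
  exact ⟨a, Q, h1, h2.trans hk, h3.trans hk⟩

omit [FiniteDimensional F R] in
lemma Bd.zero {k : ℝ} (hk : 0 ≤ k) : c.Bd (0 : H → X) k :=
  ⟨0, 0, fun _ => zero_mem _, by simpa [c.szL_zero], by simpa [fr_zero]⟩

lemma Bd.add {u v : H → X} {k k' : ℝ} (h : c.Bd u k) (h' : c.Bd v k') : c.Bd (u + v) (k + k') := by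
  obtain ⟨a, Q, h1, h2, h3⟩ := h
  obtain ⟨a', Q', h1', h2', h3'⟩ := h'
  refine ⟨a + a', Q + Q', fun q => add_mem (c.cl_mono _ _ _ _ le_sup_left (h1 q)) ?_, ?_, ?_⟩
  · rw [Pi.add_apply, add_comm (a q)]; exact c.cl_mono _ _ _ _ le_sup_right (h1' q)
  · refine le_trans ?_ (add_le_add h2 h2')
    rw [← expect_add_distrib]
    exact expect_le_expect fun q _ => by exact_mod_cast c.szL_add _ _
  · refine le_trans ?_ (add_le_add h3 h3')
    rw [← expect_add_distrib]
    exact expect_le_expect fun q _ => by exact_mod_cast fr_add _ _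

omit [FiniteDimensional F R] in
lemma Bd.zsmul {u : H → X} {k : ℝ} (h : c.Bd u k) (z : ℤ) : c.Bd (fun q => z • u q) k := by
  obtain ⟨a, Q, h1, h2, h3⟩ := h
  exact ⟨a, Q, fun q => zsmul_mem (h1 q) z, h2, h3⟩

omit [FiniteDimensional F R] in
lemma Bd.neg {u : H → X} {k : ℝ} (h : c.Bd u k) : c.Bd (-u) k := by
  obtain ⟨a, Q, h1, h2, h3⟩ := h
  exact ⟨a, Q, fun q => neg_mem (h1 q), h2, h3⟩

lemma Bd.sub {u v : H → X} {k k' : ℝ} (h : c.Bd u k) (h' : c.Bd v k') : c.Bd (u - v) (k + k') := by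
  rw [sub_eq_add_neg]; exact h.add h'.neg

lemma Bd.rm {u : H → X} {k : ℝ} (h : c.Bd u k) (φ : H → R →ₗ[F] R) :
    c.Bd (fun q => c.rm (φ q) (u q)) k := by
  obtain ⟨a, Q, h1, h2, h3⟩ := h
  refine ⟨a, fun q => (Q q).map (φ q), fun q => c.rm_cl _ _ _ _ (h1 q), h2, le_trans ?_ h3⟩
  exact expect_le_expect fun q _ => by exact_mod_cast Submodule.finrank_map_le _ _

lemma Bd.sum {I : Type} (s : Finset I) {u : I → H → X} {k : ℝ} (h : ∀ i ∈ s, c.Bd (u i) k) :
    c.Bd (fun q => ∑ i ∈ s, u i q) (s.card * k) := by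
  classical
  induction s using Finset.induction_on with
  | empty => simp only [sum_empty]; exact Bd.zero (by simp)
  | insert i s hi ih =>
    simp only [sum_insert hi, card_insert_of_notMem hi]
    refine ((h i (mem_insert_self _ _)).add (ih fun j hj => h j (mem_insert_of_mem hj))).mono ?_
    push_cast; linarith

end

variable {H H' : Type} [AddCommGroup H] [Fintype H] [AddCommGroup H'] [Fintype H']
  {SL SR : Set (AddSubgroup H)} {SL' SR' : Set (AddSubgroup H')}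

omit [FiniteDimensional F R] in
lemma Bd.pull {u : H → X} {k : ℝ} (h : c.Bd u k) (f : H' →+ H) (hf : Function.Surjective f) :
    c.Bd (fun q => u (f q)) k := by
  obtain ⟨a, Q, h1, h2, h3⟩ := h
  refine ⟨fun q => a (f q), fun q => Q (f q), fun q => h1 _, ?_, ?_⟩
  · rwa [expect_surj f hf fun q => (c.szL (a q) : ℝ)]
  · rwa [expect_surj f hf fun q => (finrank F (Q q) : ℝ)]

omit [FiniteDimensional F R] in
lemma Bd.param {O : Type} [AddCommGroup O] [Fintype O] {u : H → X} {k : ℝ} (h : c.Bd u k)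
    (J : O × H' →+ H) (hJ : Function.Surjective J) :
    ∃ cost : O → ℝ, (∀ ω, 0 ≤ cost ω ∧ c.Bd (fun q => u (J (ω, q))) (cost ω)) ∧
      𝔼 ω, cost ω ≤ 2 * k := by
  obtain ⟨a, Q, h1, h2, h3⟩ := h
  refine ⟨fun ω => 𝔼 q, (c.szL (a (J (ω, q))) : ℝ) + 𝔼 q, (finrank F (Q (J (ω, q))) : ℝ),
    fun ω => ?_, ?_⟩
  · have p1 : 0 ≤ 𝔼 q, (c.szL (a (J (ω, q))) : ℝ) := expect_nonneg fun q _ => by positivity
    have p2 : 0 ≤ 𝔼 q, (finrank F (Q (J (ω, q))) : ℝ) := expect_nonneg fun q _ => by positivity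
    exact ⟨by positivity, fun q => a (J (ω, q)), fun q => Q (J (ω, q)), fun q => h1 _,
      by linarith, by linarith⟩
  · rw [expect_add_distrib, expect_surj2 J hJ fun q => (c.szL (a q) : ℝ),
      expect_surj2 J hJ fun q => (finrank F (Q q) : ℝ)]
    linarith

omit [FiniteDimensional F R] in
lemma Null.mono {u : H → X} {k k' δ δ' : ℝ} (h : c.Null SL SR u k δ) (hk : k ≤ k') (hδ : δ ≤ δ') :
    c.Null SL SR u k' δ' := by
  obtain ⟨A, B, E, x, r, h1, h2, h3, h4, h5, h6⟩ := h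
  exact ⟨A, B, E, x, r, h1.mono hk, h2.mono hk, h3.trans hk, h4, h5.trans hδ, h6⟩

omit [FiniteDimensional F R] in
lemma Null.zero {k δ : ℝ} (hk : 0 ≤ k) (hδ : 0 ≤ δ) : c.Null SL SR (0 : H → X) k δ :=
  ⟨0, 0, 0, 0, 0, Alw.zero hk, Alw.zero hk, by simpa [c.szN_zero], fun _ => c.sm_zero,
    by simpa, fun q => by simp⟩

omit [FiniteDimensional F R] in
lemma Null.add {u v : H → X} {k k' δ δ' : ℝ} (h : c.Null SL SR u k δ) (h' : c.Null SL SR v k' δ') :
    c.Null SL SR (u + v) (k + k') (δ + δ') := by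
  obtain ⟨A, B, E, x, r, h1, h2, h3, h4, h5, h6⟩ := h
  obtain ⟨A', B', E', x', r', h1', h2', h3', h4', h5', h6'⟩ := h'
  refine ⟨A + A', B + B', E + E', x + x', r + r', h1.add h1', h2.add h2', ?_,
    fun q => c.sm_add _ _ _ _ (h4 q) (h4' q), ?_, fun q => ?_⟩
  · refine le_trans ?_ (add_le_add h3 h3')
    rw [← expect_add_distrib]
    exact expect_le_expect fun q _ => by exact_mod_cast c.szN_add _ _
  · simp only [Pi.add_apply]; rw [expect_add_distrib]; linarith
  · have : (u + v) q - (x + x') q = (u q - x q) + (v q - x' q) := by simp only [Pi.add_apply]; abel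
    rw [this]
    exact add_mem (c.nul_mono ⟨_, rfl⟩ le_sup_left ⟨_, rfl⟩ (h6 q))
      (c.nul_mono ⟨_, add_comm _ _⟩ le_sup_right ⟨_, add_comm _ _⟩ (h6' q))

omit [FiniteDimensional F R] in
lemma Null.neg {u : H → X} {k δ : ℝ} (h : c.Null SL SR u k δ) : c.Null SL SR (-u) k δ := by
  obtain ⟨A, B, E, x, r, h1, h2, h3, h4, h5, h6⟩ := h
  refine ⟨A, B, E, -x, r, h1, h2, h3, fun q => c.sm_neg _ _ (h4 q), h5, fun q => ?_⟩
  have : (-u) q - (-x) q = -(u q - x q) := by simp only [Pi.neg_apply]; abel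
  rw [this]; exact neg_mem (h6 q)

omit [FiniteDimensional F R] in
lemma Null.sub {u v : H → X} {k k' δ δ' : ℝ} (h : c.Null SL SR u k δ) (h' : c.Null SL SR v k' δ') :
    c.Null SL SR (u - v) (k + k') (δ + δ') := by
  rw [sub_eq_add_neg]; exact h.add h'.neg

omit [FiniteDimensional F R] in
lemma Null.sign {u : H → X} {k δ : ℝ} (h : c.Null SL SR u k δ) (i : ℕ) :
    c.Null SL SR (fun q => (-1 : ℤ) ^ i • u q) k δ := by
  rcases neg_one_pow_eq_or ℤ i with e | e <;> simp only [e, one_smul, neg_smul]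
  · exact h
  · exact h.neg

omit [FiniteDimensional F R] in
lemma Null.sum {I : Type} (s : Finset I) {u : I → H → X} {k δ : ℝ}
    (h : ∀ i ∈ s, c.Null SL SR (u i) k δ) :
    c.Null SL SR (fun q => ∑ i ∈ s, u i q) (s.card * k) (s.card * δ) := by
  classical
  induction s using Finset.induction_on with
  | empty => simp only [sum_empty]; exact Null.zero (by simp) (by simp)
  | insert i s hi ih =>
    simp only [sum_insert hi, card_insert_of_notMem hi]
    refine ((h i (mem_insert_self _ _)).add (ih fun j hj => h j (mem_insert_of_mem hj))).mono ?_ ?_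
      <;> (push_cast; linarith)

omit [FiniteDimensional F R] in
lemma Null.pull {u : H → X} {k δ : ℝ} (h : c.Null SL SR u k δ) (f : H' →+ H)
    (hf : Function.Surjective f) (hL : ∀ K ∈ SL, ∃ K' ∈ SL', ∀ κ ∈ K', f κ ∈ K)
    (hR : ∀ K ∈ SR, ∃ K' ∈ SR', ∀ κ ∈ K', f κ ∈ K) : c.Null SL' SR' (fun q => u (f q)) k δ := by
  obtain ⟨A, B, E, x, r, h1, h2, h3, h4, h5, h6⟩ := h
  refine ⟨_, _, fun q => E (f q), fun q => x (f q), fun q => r (f q), h1.pull f hf hL,
    h2.pull f hf hR, ?_, fun q => h4 _, ?_, fun q => h6 _⟩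
  · rwa [expect_surj f hf fun q => (c.szN (E q) : ℝ)]
  · rwa [expect_surj f hf r]

omit [FiniteDimensional F R] in
/-- A bounded cochain pulled back along a map killing a member of the left family is null. -/
lemma Bd.nullL {u : H → X} {k : ℝ} (h : c.Bd u k) (hk : 0 ≤ k) (f : H' →+ H)
    (hf : Function.Surjective f) (hL : ∃ K' ∈ SL', ∀ κ ∈ K', f κ = 0) :
    c.Null SL' SR' (fun q => u (f q)) k 0 := by
  obtain ⟨a, Q, h1, h2, -⟩ := h
  obtain ⟨K', hK', h0⟩ := hL
  refine ⟨fun q => a (f q), 0, 0, 0, 0, Alw.single hK' (fun q κ hκ => by simp [h0 κ hκ]) ?_,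
    Alw.zero hk, by simpa [c.szN_zero], fun _ => c.sm_zero, by simp, fun q => ?_⟩
  · rwa [expect_surj f hf fun q => (c.szL (a q) : ℝ)]
  · simp only [Pi.zero_apply, sub_zero]
    exact Submodule.mem_sup_left (Submodule.mem_sup_left (c.cl_lf _ _ (h1 _)))

omit [FiniteDimensional F R] in
lemma Bd.nullR {u : H → X} {k : ℝ} (h : c.Bd u k) (hk : 0 ≤ k) (f : H' →+ H)
    (hf : Function.Surjective f) (hR : ∃ K' ∈ SR', ∀ κ ∈ K', f κ = 0) :
    c.Null SL' SR' (fun q => u (f q)) k 0 := by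
  obtain ⟨a, Q, h1, -, h3⟩ := h
  obtain ⟨K', hK', h0⟩ := hR
  refine ⟨0, fun q => Q (f q), 0, 0, 0, Alw.zero hk,
    Alw.single hK' (fun q κ hκ => by simp [h0 κ hκ]) ?_,
    by simpa [c.szN_zero], fun _ => c.sm_zero, by simp, fun q => ?_⟩
  · rwa [expect_surj f hf fun q => (finrank F (Q q) : ℝ)]
  · simp only [Pi.zero_apply, sub_zero]
    exact Submodule.mem_sup_right (c.rt_mono _ _ le_sup_left (c.cl_rt _ _ (h1 _)))

end Eng

end Pool.Agent.Lib.AD
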