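import Pool.Agent.Lib.AD.EngA

/-!
Composition of linear estimates, projections, penalised dimension, and the final step of the row
lemma.
-/

noncomputable section

open Finset Module
open scoped BigOperators

namespace Pool.Agent.Lib.AD

/-- Monotone in the output bounds. -/
def MonoOut (S : ℝ → ℝ → ℝ → ℝ → Prop) : Prop :=
  ∀ k δ k' δ' k'' δ'', S k δ k' δ' → k' ≤ k'' → δ' ≤ δ'' → S k δ k'' δ''

lemma Lin.imp {S T : ℝ → ℝ → ℝ → ℝ → Prop} (h : Lin S)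
    (hi : ∀ k δ k' δ', 0 ≤ k → 0 ≤ δ → S k δ k' δ' → T k δ k' δ') : Lin T := by
  obtain ⟨C, hC, h⟩ := h
  refine ⟨C, hC, fun η hη => ?_⟩
  obtain ⟨K, hK, h⟩ := h η hη
  exact ⟨K, hK, fun k δ hk hδ => hi _ _ _ _ hk hδ (h k δ hk hδ)⟩

/-- One stage: scale the input by `a`, apply `S`, keep the input bounds, continue with `T`. -/
def Stage (a : ℝ) (S T : ℝ → ℝ → ℝ → ℝ → Prop) (k δ k' δ' : ℝ) : Prop :=
  ∃ k1 δ1, k ≤ k1 ∧ δ ≤ δ1 ∧ S (a * k) (a * δ) k1 δ1 ∧ T k1 δ1 k' δ'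

/-- The last stage. -/
def Fin1 (a k δ k' δ' : ℝ) : Prop := a * k ≤ k' ∧ a * δ ≤ δ'

lemma lin_fin {a : ℝ} (ha : 0 ≤ a) : Lin (Fin1 a) :=
  ⟨a, ha, fun η hη => ⟨a, ha, fun k δ hk _ => ⟨le_rfl, by nlinarith⟩⟩⟩

lemma Lin.stage {a : ℝ} (ha : 0 ≤ a) {S T : ℝ → ℝ → ℝ → ℝ → Prop} (hS : Lin S) (hm : MonoOut S)
    (hT : Lin T) (hmT : MonoOut T) : Lin (Stage a S T) := by
  obtain ⟨C1, hC1, h1⟩ := hS
  obtain ⟨C2, hC2, h2⟩ := hT
  refine ⟨C2 * (C1 * a + 1), by positivity, fun η hη => ?_⟩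
  obtain ⟨K1, hK1, h1⟩ := h1 (η / (2 * (C2 + 1) * (a + 1))) (by positivity)
  obtain ⟨K2, hK2, h2⟩ := h2 (η / (2 * (K1 * a + 1))) (by positivity)
  refine ⟨K2 * (K1 * a + 1), by positivity, fun k δ hk hδ => ?_⟩
  set η1 := η / (2 * (C2 + 1) * (a + 1)) with e1
  set η2 := η / (2 * (K1 * a + 1)) with e2
  have p1 : 0 < η1 := by positivity
  have q1 : C2 * (η1 * a) ≤ η / 2 := by
    have : η1 * (2 * (C2 + 1) * (a + 1)) = η := by rw [e1]; field_simp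
    nlinarith [mul_nonneg p1.le hC2, mul_nonneg p1.le ha]
  have q2 : η2 * (K1 * a + 1) = η / 2 := by rw [e2]; field_simp
  refine ⟨(K1 * a + 1) * k, (C1 * a + 1) * δ + η1 * a * k, by nlinarith [mul_nonneg hK1 ha],
    by nlinarith [mul_nonneg hC1 ha, mul_nonneg (mul_nonneg p1.le ha) hk], ?_, ?_⟩
  · refine hm _ _ _ _ _ _ (h1 _ _ (by positivity) (by positivity)) (by nlinarith) (by nlinarith)
  · refine hmT _ _ _ _ _ _ (h2 _ _ (by positivity) (by positivity)) (le_of_eq (by ring)) ?_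
    have a1 : C2 * (η1 * a) * k ≤ η / 2 * k := by gcongr
    have a2 : η2 * ((K1 * a + 1) * k) = η / 2 * k := by rw [← mul_assoc, q2]
    nlinarith

lemma mono_fin (a : ℝ) : MonoOut (Fin1 a) :=
  fun _ _ _ _ _ _ h h1 h2 => ⟨h.1.trans h1, h.2.trans h2⟩

lemma mono_stage (a : ℝ) (S : ℝ → ℝ → ℝ → ℝ → Prop) {T : ℝ → ℝ → ℝ → ℝ → Prop} (hT : MonoOut T) :
    MonoOut (Stage a S T) := by
  rintro k δ k' δ' k'' δ'' ⟨k1, δ1, a1, a2, a3, a4⟩ h1 h2
  exact ⟨k1, δ1, a1, a2, a3, hT _ _ _ _ _ _ a4 h1 h2⟩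

section LinAlg

variable {F R : Type} [Field F] [AddCommGroup R] [Module F R]

/-- A projection onto `P` that maps `U` into `U`. -/
lemma exists_proj (P U : Submodule F R) : ∃ φ : R →ₗ[F] R, LinearMap.range φ ≤ P ∧
    (∀ x ∈ P, φ x = x) ∧ ∀ x ∈ U, φ x ∈ U := by
  obtain ⟨U1, hU1⟩ := Submodule.exists_isCompl ((P ⊓ U).comap U.subtype)
  have hd : Disjoint P (U1.map U.subtype) := by
    rw [Submodule.disjoint_def]
    rintro x hx ⟨y, hy, rfl⟩
    have := (Submodule.disjoint_def.1 hU1.disjoint) y ⟨hx, y.2⟩ hy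
    simp [this]
  obtain ⟨W, hW, hc'⟩ := hd.symm.exists_isCompl
  have hc := hc'.symm
  refine ⟨P.subtype ∘ₗ P.projectionOnto W hc, ?_, ?_, ?_⟩
  · rintro _ ⟨x, rfl⟩; exact (P.projectionOnto W hc x).2
  · intro x hx
    simpa using congrArg Subtype.val (Submodule.projectionOnto_apply_left hc ⟨x, hx⟩)
  · intro x hx
    have ht : (⟨x, hx⟩ : U) ∈ (P ⊓ U).comap U.subtype ⊔ U1 := by
      rw [hU1.sup_eq_top]; trivial
    obtain ⟨y, hy, z, hz, hyz⟩ := Submodule.mem_sup.1 ht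
    have hx' : x = (y : R) + (z : R) := by simpa using (congrArg Subtype.val hyz).symm
    have h1 : P.projectionOnto W hc (y : R) = ⟨y, hy.1⟩ :=
      Submodule.projectionOnto_apply_left hc ⟨y, hy.1⟩
    have h2 : P.projectionOnto W hc (z : R) = 0 :=
      Submodule.projectionOnto_apply_right hc ⟨z, hW ⟨z, hz, rfl⟩⟩
    rw [hx', LinearMap.comp_apply, map_add, h1, h2, add_zero]
    exact y.2

variable [FiniteDimensional F R]

/-- Dimension of `Q` modulo `U`. -/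
def cod (Q U : Submodule F R) : ℝ := (finrank F (U ⊔ Q : Submodule F R) : ℝ) - finrank F U

lemma cod_eq (Q U : Submodule F R) :
    cod Q U = (finrank F Q : ℝ) - finrank F (U ⊓ Q : Submodule F R) := by
  have h := Submodule.finrank_sup_add_finrank_inf_eq U Q
  have h' : (finrank F (U ⊔ Q : Submodule F R) : ℝ) + finrank F (U ⊓ Q : Submodule F R) =
      finrank F U + finrank F Q := by exact_mod_cast h
  unfold cod; linarith

lemma cod_nonneg (Q U : Submodule F R) : 0 ≤ cod Q U :=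
  sub_nonneg.2 (by exact_mod_cast Submodule.finrank_mono le_sup_left)

lemma cod_le (Q U : Submodule F R) : cod Q U ≤ finrank F Q := by
  rw [cod_eq]; simp

lemma cod_anti (Q : Submodule F R) {U U' : Submodule F R} (h : U ≤ U') : cod Q U' ≤ cod Q U := by
  rw [cod_eq, cod_eq]
  have : finrank F (U ⊓ Q : Submodule F R) ≤ finrank F (U' ⊓ Q : Submodule F R) :=
    Submodule.finrank_mono (inf_le_inf_right _ h)
  have : (finrank F (U ⊓ Q : Submodule F R) : ℝ) ≤ finrank F (U' ⊓ Q : Submodule F R) := by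
    exact_mod_cast this
  linarith

lemma exists_gap (U Q1 Q2 : Submodule F R) : ∃ Z : Submodule F R,
    (U ⊔ Q1) ⊓ (U ⊔ Q2) ≤ U ⊔ Z ∧ (finrank F Z : ℝ) ≤ cod Q1 U - cod Q1 (U ⊔ Q2) := by
  set W := (U ⊔ Q1) ⊓ (U ⊔ Q2) with hW
  have hU : U ≤ W := le_inf le_sup_left le_sup_left
  obtain ⟨Z0, hZ⟩ := Submodule.exists_isCompl U
  refine ⟨W ⊓ Z0, ?_, ?_⟩
  · have : U ⊔ Z0 ⊓ W = W := by rw [← sup_inf_assoc_of_le _ hU, hZ.sup_eq_top, top_inf_eq]
    rw [inf_comm W Z0, this]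
  · have e1 := Submodule.finrank_sup_add_finrank_inf_eq U (W ⊓ Z0)
    have e2 : U ⊓ (W ⊓ Z0) = ⊥ := by
      rw [eq_bot_iff]; exact fun x hx => hZ.disjoint.le_bot ⟨hx.1, hx.2.2⟩
    have e3 : finrank F (U ⊔ W ⊓ Z0 : Submodule F R) ≤ finrank F W :=
      Submodule.finrank_mono (sup_le hU inf_le_left)
    have e4 := Submodule.finrank_sup_add_finrank_inf_eq (U ⊔ Q1) (U ⊔ Q2)
    have e5 : U ⊔ Q1 ⊔ (U ⊔ Q2) = U ⊔ Q2 ⊔ Q1 := by
      rw [sup_sup_sup_comm, sup_idem, sup_assoc, sup_comm Q1]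
    rw [e2, finrank_bot] at e1
    rw [e5, ← hW] at e4
    unfold cod
    have e1' : (finrank F (U ⊔ W ⊓ Z0 : Submodule F R) : ℝ) + 0 =
        finrank F U + finrank F (W ⊓ Z0 : Submodule F R) := by exact_mod_cast e1
    have e3' : (finrank F (U ⊔ W ⊓ Z0 : Submodule F R) : ℝ) ≤ finrank F W := by exact_mod_cast e3
    have e4' : (finrank F (U ⊔ Q2 ⊔ Q1 : Submodule F R) : ℝ) + finrank F W =
        finrank F (U ⊔ Q1 : Submodule F R) + finrank F (U ⊔ Q2 : Submodule F R) := by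
      exact_mod_cast e4
    linarith

end LinAlg

end Pool.Agent.Lib.AD
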