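import Pool.Agent.Lib.AD.EngB

/-!
The final step of the row lemma: two evaluations with transversal right data.
-/

noncomputable section

open Finset Module
open scoped BigOperators

namespace Pool.Agent.Lib.AD

lemma exists_two {O : Type} [Fintype O] [Nonempty O] (f g : O → ℝ) (hf : ∀ ω, 0 ≤ f ω)
    (hg : ∀ ω, 0 ≤ g ω) {a b : ℝ} (ha : 𝔼 ω, f ω ≤ a) (hb : 𝔼 ω, g ω ≤ b) :
    ∃ ω, f ω ≤ 2 * a ∧ g ω ≤ 2 * b := by
  have z : ∀ (f : O → ℝ) (a : ℝ), (∀ ω, 0 ≤ f ω) → 𝔼 ω, f ω ≤ a → a ≤ 0 → ∀ ω, f ω ≤ 2 * a := by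
    intro f a hf ha h0 ω
    have h1 : 0 ≤ 𝔼 ω, f ω := expect_nonneg fun ω _ => hf ω
    have h2 : 𝔼 ω, f ω = 0 := by linarith
    rw [expect_eq_zero_iff_of_nonneg fun ω _ => hf ω] at h2
    rw [h2 ω (mem_univ _)]; linarith
  have a0 : 0 ≤ a := (expect_nonneg fun ω _ => hf ω).trans ha
  have b0 : 0 ≤ b := (expect_nonneg fun ω _ => hg ω).trans hb
  by_cases h1 : a ≤ 0
  · obtain ⟨ω, -, h⟩ := exists_le_of_expect_le univ_nonempty hb
    exact ⟨ω, z f a hf ha h1 ω, by linarith⟩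
  by_cases h2 : b ≤ 0
  · obtain ⟨ω, -, h⟩ := exists_le_of_expect_le univ_nonempty ha
    exact ⟨ω, by linarith, z g b hg hb h2 ω⟩
  push Not at h1 h2
  have h : 𝔼 ω, (b * f ω + a * g ω) ≤ 2 * a * b := by
    rw [expect_add_distrib, ← mul_expect, ← mul_expect]; nlinarith
  obtain ⟨ω, -, h⟩ := exists_le_of_expect_le univ_nonempty h
  refine ⟨ω, ?_, ?_⟩
  · by_contra hc; push Not at hc; nlinarith [mul_nonneg a0 (hg ω)]
  · by_contra hc; push Not at hc; nlinarith [mul_nonneg b0 (hf ω)]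

lemma expect_fin_succ {H : Type} [Fintype H] (s : ℕ) (g : (Fin (s + 1) → H) → ℝ) :
    𝔼 η, g η = 𝔼 e : H, 𝔼 η : Fin s → H, g (Fin.cons e η) := by
  rw [← expect_product' , univ_product_univ]
  exact (Fintype.expect_equiv (Fin.consEquiv fun _ => H) _ _ fun _ => rfl).symm

lemma exists_step (D : ℕ → ℝ) (S : ℕ) (hS : 0 < S) {k : ℝ} (h0 : D 0 ≤ k) (h1 : 0 ≤ D S) :
    ∃ s < S, D s - D (s + 1) ≤ k / S := by
  by_contra hc
  push Not at hc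
  have h : ∑ _s ∈ range S, k / S < ∑ s ∈ range S, (D s - D (s + 1)) :=
    sum_lt_sum_of_nonempty (nonempty_range_iff.2 hS.ne') fun s hs => hc s (mem_range.1 hs)
  rw [sum_range_sub', sum_const, card_range, nsmul_eq_mul, mul_div_cancel₀ _ (by positivity)] at h
  linarith

namespace Eng

variable {F X R L N : Type} [Field F] [AddCommGroup X] [Module F X] [AddCommGroup R]
  [Module F R] [FiniteDimensional F R] [AddCommMonoid L] [AddCommMonoid N] (c : Eng F X R L N)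

omit [FiniteDimensional F R] in
lemma rm_nul (φ : R →ₗ[F] R) {a : L} {B : Submodule F R} {E : N} {y : X} (hy : y ∈ c.nul a B E) :
    c.rm φ y ∈ c.lf a ⊔ c.nl E ⊔ c.rt ((B ⊔ c.rn E).map φ) := by
  obtain ⟨u, hu, w, hw, rfl⟩ := Submodule.mem_sup.1 hy
  obtain ⟨u1, hu1, u2, hu2, rfl⟩ := Submodule.mem_sup.1 hu
  rw [map_add, map_add]
  exact Submodule.add_mem_sup (Submodule.add_mem_sup (c.rm_lf _ _ _ hu1) (c.rm_nl _ _ _ hu2))
    (c.rm_rt _ _ _ hw)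

lemma two_eval {a : L} {B Q1 Q2 : Submodule F R} {E : N} {G x1 x2 : X} {r1 r2 : ℝ}
    (s1 : c.Sm x1 r1) (s2 : c.Sm x2 r2) (h1 : G - x1 ∈ c.nul a (B ⊔ Q1) E)
    (h2 : G - x2 ∈ c.nul a (B ⊔ Q2) E) : ∃ x r, c.Sm x r ∧
      r ≤ r1 + r2 + (cod Q1 (B ⊔ c.rn E) - cod Q1 (B ⊔ c.rn E ⊔ Q2)) ∧ G - x ∈ c.nul a B E := by
  set U := B ⊔ c.rn E with hU
  obtain ⟨ψ, p1, p2, p3⟩ := exists_proj (U ⊔ Q1) (U ⊔ Q2)
  obtain ⟨Z, z1, z2⟩ := exists_gap U Q1 Q2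
  have e1 := c.rm_nul (LinearMap.id - ψ) h1
  have e2 := c.rm_nul ψ h2
  have m1 : (B ⊔ Q1 ⊔ c.rn E).map (LinearMap.id - ψ) ≤ U := by
    rintro _ ⟨y, hy, rfl⟩
    have : ψ y = y := p2 y (by rw [hU, sup_right_comm]; exact hy)
    simp [this]
  have m2 : (B ⊔ Q2 ⊔ c.rn E).map ψ ≤ U ⊔ Z := by
    rintro _ ⟨y, hy, rfl⟩
    exact z1 ⟨p1 ⟨y, rfl⟩, p3 y (by rw [hU, sup_right_comm]; exact hy)⟩
  have e1' : c.rm (LinearMap.id - ψ) (G - x1) ∈ c.nul a B E :=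
    sup_le_sup_left (c.rt_mono _ _ m1) _ e1
  have e2' : c.rm ψ (G - x2) ∈ c.nul a B E ⊔ c.rt Z := by
    rw [nul, sup_assoc]
    exact sup_le_sup_left ((c.rt_mono _ _ m2).trans (c.rt_sup _ _)) _ e2
  obtain ⟨w, hw, z, hz, hwz⟩ := Submodule.mem_sup.1 e2'
  refine ⟨c.rm (LinearMap.id - ψ) x1 + c.rm ψ x2 + z, r1 + r2 + finrank F Z,
    c.sm_add _ _ _ _ (c.sm_add _ _ _ _ (c.sm_rm _ _ _ s1) (c.sm_rm _ _ _ s2)) (c.sm_rt _ _ hz),
    by linarith, ?_⟩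
  have hG : G = c.rm (LinearMap.id - ψ) G + c.rm ψ G := by rw [← c.rm_sub]; abel
  have : G - (c.rm (LinearMap.id - ψ) x1 + c.rm ψ x2 + z) =
      c.rm (LinearMap.id - ψ) (G - x1) + w := by
    rw [map_sub] at hwz ⊢
    have : w = c.rm ψ G - c.rm ψ x2 - z := by rw [← hwz]; abel
    rw [this]; nth_rewrite 1 [hG]; abel
  rw [this]; exact add_mem e1' hw

lemma exists_min (M : ℕ) (Q B : Submodule F R) : ∃ E1 : N, ∀ E : N,
    M * cod Q (B ⊔ c.rn E1) + c.szN E1 ≤ M * cod Q (B ⊔ c.rn E) + c.szN E := by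
  have key : ∀ E : N, (M * cod Q (B ⊔ c.rn E) + c.szN E : ℝ) =
      ((M * (finrank F (B ⊔ c.rn E ⊔ Q : Submodule F R) - finrank F (B ⊔ c.rn E : Submodule F R)) +
        c.szN E : ℕ) : ℝ) := by
    intro E
    push_cast [Nat.cast_sub (Submodule.finrank_mono (le_sup_left : B ⊔ c.rn E ≤ B ⊔ c.rn E ⊔ Q))]
    rfl
  refine ⟨Function.argmin fun E : N => M * (finrank F (B ⊔ c.rn E ⊔ Q : Submodule F R) -
    finrank F (B ⊔ c.rn E : Submodule F R)) + c.szN E, fun E => ?_⟩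
  rw [key, key]
  exact Nat.cast_le.2 (Function.argmin_le (fun E : N => M *
    (finrank F (B ⊔ c.rn E ⊔ Q : Submodule F R) - finrank F (B ⊔ c.rn E : Submodule F R)) +
    c.szN E) E)

/-- A minimiser of the penalised dimension. -/
def mz (M : ℕ) (Q B : Submodule F R) : N := (c.exists_min M Q B).choose

/-- Penalised dimension of `Q` modulo `B`. -/
def pd (M : ℕ) (Q B : Submodule F R) : ℝ :=
  M * cod Q (B ⊔ c.rn (c.mz M Q B)) + c.szN (c.mz M Q B)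

lemma pd_le (M : ℕ) (Q B : Submodule F R) (E : N) :
    c.pd M Q B ≤ M * cod Q (B ⊔ c.rn E) + c.szN E := (c.exists_min M Q B).choose_spec E

lemma sz_le_pd (M : ℕ) (Q B : Submodule F R) : (c.szN (c.mz M Q B) : ℝ) ≤ c.pd M Q B := by
  have := cod_nonneg Q (B ⊔ c.rn (c.mz M Q B))
  unfold pd; nlinarith [Nat.cast_nonneg (α := ℝ) M]

lemma pd_nonneg (M : ℕ) (Q B : Submodule F R) : 0 ≤ c.pd M Q B :=
  (Nat.cast_nonneg _).trans (c.sz_le_pd M Q B)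

lemma pd_le_dim (M : ℕ) (Q B : Submodule F R) : c.pd M Q B ≤ M * finrank F Q := by
  have h := c.pd_le M Q B 0
  have := cod_le Q (B ⊔ c.rn 0)
  rw [c.szN_zero, Nat.cast_zero] at h
  nlinarith [Nat.cast_nonneg (α := ℝ) M]

lemma pd_anti (M : ℕ) (Q : Submodule F R) {B B' : Submodule F R} (h : B ≤ B') :
    c.pd M Q B' ≤ c.pd M Q B := by
  refine (c.pd_le M Q B' (c.mz M Q B)).trans ?_
  have := cod_anti Q (sup_le_sup_right h (c.rn (c.mz M Q B)))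
  unfold pd; nlinarith [Nat.cast_nonneg (α := ℝ) M]

lemma pd_gap (M : ℕ) (Q1 Q2 B : Submodule F R) (E : N) :
    M * (cod Q1 (B ⊔ c.rn (E + c.mz M Q1 B)) - cod Q1 (B ⊔ c.rn (E + c.mz M Q1 B) ⊔ Q2)) ≤
      c.pd M Q1 B - c.pd M Q1 (B ⊔ Q2) + c.szN E := by
  have h1 : cod Q1 (B ⊔ c.rn (E + c.mz M Q1 B)) ≤ cod Q1 (B ⊔ c.rn (c.mz M Q1 B)) :=
    cod_anti _ (sup_le_sup_left (by rw [add_comm]; exact c.rn_add _ _) _)
  have h2 := c.pd_le M Q1 (B ⊔ Q2) (E + c.mz M Q1 B)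
  have h3 : (c.szN (E + c.mz M Q1 B) : ℝ) ≤ c.szN E + c.szN (c.mz M Q1 B) := by
    exact_mod_cast c.szN_add _ _
  rw [sup_right_comm] at h2
  have h4 : c.pd M Q1 B = M * cod Q1 (B ⊔ c.rn (c.mz M Q1 B)) + c.szN (c.mz M Q1 B) := rfl
  nlinarith [Nat.cast_nonneg (α := ℝ) M]

end Eng

end Pool.Agent.Lib.AD
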