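import Pool.Agent.Lib.AD.EngC

/-!
The averaging step of the row lemma.
-/

noncomputable section

open Finset Module
open scoped BigOperators

namespace Pool.Agent.Lib.AD

lemma cons_add {H : Type} [AddCommGroup H] {s : ℕ} (a b : H) (u v : Fin s → H) :
    (Fin.cons (a + b) (u + v) : Fin (s + 1) → H) = Fin.cons a u + Fin.cons b v := by
  funext i; refine Fin.cases ?_ (fun j => ?_) i <;> simp

def RowFin (F : Type) [Field F] (k δ k' δ' : ℝ) : Prop :=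
  ∀ (X R L N : Type) [AddCommGroup X] [Module F X] [AddCommGroup R] [Module F R]
    [FiniteDimensional F R] [AddCommMonoid L] [AddCommMonoid N] (c : Eng F X R L N)
    (H T : Type) [AddCommGroup H] [Fintype H] [AddCommGroup T] [Fintype T] (p : T →+ H)
    (SL SR : Set (AddSubgroup T)) (S2 : Set (AddSubgroup (H × H))) (Q : H × H → Submodule F R)
    (W : T → Submodule F R) (G x1 x2 : H × H → T → X) (A : H × H → T → L) (E : H × H → T → N)
    (r1 r2 : H × H → T → ℝ) (cost : H × H → ℝ), Function.Surjective p →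
    (∀ K ∈ S2, ∃ K' ∈ SR, ∀ κ ∈ K', (p κ, 0) ∈ K) → Alw S2 (fun Q => finrank F Q) Q k →
    Alw SR (fun Q => finrank F Q) W k → (∀ s, Alw SL c.szL (A s) (cost s)) → 𝔼 s, cost s ≤ k →
    𝔼 s, 𝔼 q, (c.szN (E s q) : ℝ) ≤ k → (∀ s q, c.Sm (x1 s q) (r1 s q)) →
    (∀ s q, c.Sm (x2 s q) (r2 s q)) → 𝔼 s, 𝔼 q, r1 s q ≤ δ → 𝔼 s, 𝔼 q, r2 s q ≤ δ →
    (∀ s q, G s q - x1 s q ∈ c.nul (A s q) (W q ⊔ Q (p q, p q - s.1)) (E s q)) →
    (∀ s q, G s q - x2 s q ∈ c.nul (A s q) (W q ⊔ Q (p q, p q - s.2)) (E s q)) →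
    ∃ s, cost s ≤ k' ∧ c.Null SL SR (G s) k' δ'

lemma mono_rowFin (F : Type) [Field F] : MonoOut (RowFin F) := by
  intro k δ k' δ' k'' δ'' h h1 h2 X R L N _ _ _ _ _ _ _ c H T _ _ _ _ p SL SR S2 Q W G x1 x2 A E
    r1 r2 cost a1 a2 a3 a4 a5 a6 a7 a8 a9 a10 a11 a12 a13
  obtain ⟨s, b1, b2⟩ := h X R L N c H T p SL SR S2 Q W G x1 x2 A E r1 r2 cost a1 a2 a3 a4 a5 a6 a7
    a8 a9 a10 a11 a12 a13
  exact ⟨s, b1.trans h1, b2.mono h1 h2⟩

lemma expect_fst {A B : Type} [Fintype A] [Fintype B] [Nonempty B] (g : A → ℝ) :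
    𝔼 ω : A × B, g ω.1 = 𝔼 a, g a := by
  rw [← univ_product_univ, expect_product]; simp

theorem lin_rowFin (F : Type) [Field F] : Lin (RowFin F) := by
  refine ⟨4, by norm_num, fun η hη => ?_⟩
  obtain ⟨M, hM⟩ := exists_nat_gt (4 / η)
  have hM0 : (0 : ℝ) < M := lt_trans (by positivity) hM
  have hM1 : 0 < M := by exact_mod_cast hM0
  refine ⟨4 * M + 5, by positivity, fun k δ hk hδ => ?_⟩
  intro X R L N _ _ _ _ _ _ _ c H T _ _ _ _ p SL SR S2 Q W G x1 x2 A E r1 r2 cost hp hS hQ hW hA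
    hc hE s1 s2 hr1 hr2 g1 g2
  have hQs : 𝔼 z, (finrank F (Q z) : ℝ) ≤ k := hQ.size (fr_zero F R) fr_add
  let D : ℕ → ℝ := fun s => 𝔼 z : T × (Fin s → H) × H,
    c.pd M (Q (p z.1, z.2.2)) (W z.1 ⊔ ∑ r, Q (p z.1, z.2.1 r))
  have hD0 : D 0 ≤ M * k := by
    let J : T × (Fin 0 → H) × H →+ H × H := AddMonoidHom.mk' (fun z => (p z.1, z.2.2)) (by simp)
    have hJ : Function.Surjective J := fun y => by
      obtain ⟨q, hq⟩ := hp y.1
      exact ⟨(q, 0, y.2), by simp [J, hq]⟩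
    refine le_trans (expect_le_expect fun z _ => c.pd_le_dim M _ _) ?_
    rw [← mul_expect]
    exact mul_le_mul_of_nonneg_left ((expect_surj J hJ fun y => (finrank F (Q y) : ℝ)).le.trans hQs)
      hM0.le
  obtain ⟨s, hs, hD⟩ := exists_step D M hM1 hD0 (expect_nonneg fun z _ => c.pd_nonneg _ _ _)
  rw [mul_div_cancel_left₀ _ hM0.ne'] at hD
  let J0 : H × T →+ H × H := AddMonoidHom.mk' (fun z => (p z.2, z.1)) (by simp)
  obtain ⟨cq, hcq, hcq'⟩ := hQ.param (S' := SR) J0 (fun y => by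
    obtain ⟨q, hq⟩ := hp y.1
    exact ⟨(y.2, q), by simp [J0, hq]⟩) hS
  let B : (Fin s → H) → T → Submodule F R := fun e q => W q ⊔ ∑ r, Q (p q, e r)
  have hB : ∀ e, Alw SR (fun Q => finrank F Q) (B e) (k + ∑ r, cq (e r)) := fun e => by
    have := hW.add (Alw.sum univ fun r _ => hcq (e r))
    convert this using 1
    funext q; simp [B, J0, Submodule.add_eq_sup]
  let E' : (H × H) × (Fin s → H) → T → N := fun ω q =>
    E ω.1 q + c.mz M (Q (p q, p q - ω.1.1)) (B ω.2 q)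
  have key : ∀ (ω : (H × H) × (Fin s → H)) q, ∃ x r, c.Sm x r ∧ r ≤ r1 ω.1 q + r2 ω.1 q +
      (c.pd M (Q (p q, p q - ω.1.1)) (B ω.2 q) -
        c.pd M (Q (p q, p q - ω.1.1)) (B ω.2 q ⊔ Q (p q, p q - ω.1.2)) + c.szN (E ω.1 q)) / M ∧
      G ω.1 q - x ∈ c.nul (A ω.1 q) (B ω.2 q) (E' ω q) := by
    intro ω q
    obtain ⟨x, r, a1, a2, a3⟩ := c.two_eval (a := A ω.1 q) (B := B ω.2 q) (E := E' ω q)
      (s1 ω.1 q) (s2 ω.1 q)
      (c.nul_mono ⟨0, by simp⟩ (sup_le_sup_right le_sup_left _) ⟨_, rfl⟩ (g1 ω.1 q))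
      (c.nul_mono ⟨0, by simp⟩ (sup_le_sup_right le_sup_left _) ⟨_, rfl⟩ (g2 ω.1 q))
    refine ⟨x, r, a1, a2.trans (add_le_add le_rfl ?_), a3⟩
    rw [le_div_iff₀ hM0, mul_comm]
    exact c.pd_gap M _ _ _ _
  choose x r k1 k2 k3 using key
  let J1 : ((H × H) × (Fin s → H)) × T →+ T × (Fin s → H) × H :=
    AddMonoidHom.mk' (fun z => (z.2, z.1.2, p z.2 - z.1.1.1)) (by
      intro a b; ext <;> simp; abel)
  have hJ1 : Function.Surjective J1 := fun y =>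
    ⟨(((p y.1 - y.2.2, 0), y.2.1), y.1), by simp [J1]⟩
  let J2 : ((H × H) × (Fin s → H)) × T →+ T × (Fin (s + 1) → H) × H :=
    AddMonoidHom.mk' (fun z => (z.2, Fin.cons (p z.2 - z.1.1.2) z.1.2, p z.2 - z.1.1.1)) (by
      intro a b
      refine Prod.ext rfl (Prod.ext ?_ ?_)
      · simp only [Prod.fst_add, Prod.snd_add, ← cons_add, map_add]; congr 1; abel
      · simp; abel)
  have hJ2 : Function.Surjective J2 := fun y =>
    ⟨(((p y.1 - y.2.2, p y.1 - y.2.1 0), Fin.tail y.2.1), y.1), by simp [J2]⟩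
  let J3 : ((H × H) × (Fin s → H)) × T →+ H × H :=
    AddMonoidHom.mk' (fun z => (p z.2, p z.2 - z.1.1.1)) (by intro a b; ext <;> simp; abel)
  have hJ3 : Function.Surjective J3 := fun y => by
    obtain ⟨q, hq⟩ := hp y.1
    exact ⟨(((y.1 - y.2, 0), 0), q), by simp [J3, hq]⟩
  have d1 : 𝔼 ω : (H × H) × (Fin s → H), 𝔼 q, c.pd M (Q (p q, p q - ω.1.1)) (B ω.2 q) = D s :=
    expect_surj2 J1 hJ1 fun z => c.pd M (Q (p z.1, z.2.2)) (W z.1 ⊔ ∑ r, Q (p z.1, z.2.1 r))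
  have d2 : 𝔼 ω : (H × H) × (Fin s → H), 𝔼 q,
      c.pd M (Q (p q, p q - ω.1.1)) (B ω.2 q ⊔ Q (p q, p q - ω.1.2)) = D (s + 1) := by
    refine Eq.trans ?_ (expect_surj2 J2 hJ2 fun z =>
      c.pd M (Q (p z.1, z.2.2)) (W z.1 ⊔ ∑ r, Q (p z.1, z.2.1 r)))
    refine expect_congr rfl fun ω _ => expect_congr rfl fun q _ => ?_
    simp only [J2, B, AddMonoidHom.mk'_apply, Fin.sum_univ_succ, Fin.cons_zero, Fin.cons_succ,
      Submodule.add_eq_sup, sup_assoc, sup_comm (Q (p q, p q - ω.1.2))]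
  have d3 : 𝔼 ω : (H × H) × (Fin s → H), 𝔼 q, (finrank F (Q (p q, p q - ω.1.1)) : ℝ) ≤ k :=
    (expect_surj2 J3 hJ3 fun z => (finrank F (Q z) : ℝ)).le.trans hQs
  have e1 : 𝔼 ω : (H × H) × (Fin s → H), 𝔼 q, r ω q ≤ 2 * δ + 2 * k / M := by
    refine le_trans (expect_le_expect fun ω _ => expect_le_expect fun q _ => k2 ω q) ?_
    simp only [expect_add_distrib, ← expect_div, expect_sub_distrib]
    rw [d1, d2, expect_fst fun a => 𝔼 q, r1 a q, expect_fst fun a => 𝔼 q, r2 a q,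
      expect_fst fun a => 𝔼 q, (c.szN (E a q) : ℝ)]
    have : (D s - D (s + 1) + 𝔼 a, 𝔼 q, (c.szN (E a q) : ℝ)) / M ≤ 2 * k / M := by
      gcongr; linarith
    linarith
  have e2 : 𝔼 ω : (H × H) × (Fin s → H), (cost ω.1 + ∑ r, cq (ω.2 r) + 𝔼 q, (c.szN (E' ω q) : ℝ))
      ≤ (2 * M + 2) * k := by
    have a1 : 𝔼 ω : (H × H) × (Fin s → H), ∑ r, cq (ω.2 r) ≤ M * k := by
      rw [expect_sum_comm]
      have : ∀ r : Fin s, 𝔼 ω : (H × H) × (Fin s → H), cq (ω.2 r) ≤ k := fun r =>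
        (expect_surj (AddMonoidHom.mk' (fun ω : (H × H) × (Fin s → H) => ω.2 r) (by simp))
          (fun y => ⟨(0, fun _ => y), rfl⟩) cq).le.trans hcq'
      refine (sum_le_card_nsmul _ _ _ fun r _ => this r).trans ?_
      simp only [card_univ, Fintype.card_fin, nsmul_eq_mul]
      gcongr
    have a2 : 𝔼 ω : (H × H) × (Fin s → H), 𝔼 q, (c.szN (E' ω q) : ℝ) ≤ k + M * k := by
      refine le_trans (expect_le_expect fun ω _ => expect_le_expect fun q _ =>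
        (?_ : _ ≤ (c.szN (E ω.1 q) : ℝ) + M * (finrank F (Q (p q, p q - ω.1.1)) : ℝ))) ?_
      · refine le_trans ?_ (add_le_add le_rfl ((c.sz_le_pd M _ (B ω.2 q)).trans (c.pd_le_dim _ _ _)))
        exact_mod_cast c.szN_add _ _
      · simp only [expect_add_distrib, ← mul_expect]
        rw [expect_fst fun a => 𝔼 q, (c.szN (E a q) : ℝ)]
        gcongr
    simp only [expect_add_distrib]
    rw [expect_fst cost]
    linarith
  have n1 : ∀ ω : (H × H) × (Fin s → H), 0 ≤ cost ω.1 := fun ω => (hA _).nonneg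
  have n2 : ∀ ω : (H × H) × (Fin s → H), 0 ≤ ∑ r, cq (ω.2 r) := fun ω =>
    sum_nonneg fun r _ => (hcq _).nonneg
  have n3 : ∀ ω : (H × H) × (Fin s → H), 0 ≤ 𝔼 q, (c.szN (E' ω q) : ℝ) := fun ω =>
    expect_nonneg fun q _ => by positivity
  obtain ⟨ω, o1, o2⟩ := exists_two _ _
    (fun ω => expect_nonneg fun q _ => c.sm_nonneg _ _ (k1 ω q))
    (fun ω => add_nonneg (add_nonneg (n1 ω) (n2 ω)) (n3 ω)) e1 e2
  have := n1 ω; have := n2 ω; have := n3 ω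
  refine ⟨ω.1, by linarith, A ω.1, B ω.2, E' ω, x ω, r ω, (hA _).mono (by linarith),
    (hB _).mono (by linarith), by linarith, k1 ω, o1.trans ?_, k3 ω⟩
  have : 4 * k / M ≤ η * k := by
    rw [div_le_iff₀ hM0]
    rw [div_lt_iff₀ hη] at hM
    nlinarith
  have e : 2 * (2 * δ + 2 * k / M) = 4 * δ + 4 * k / M := by ring
  linarith

end Pool.Agent.Lib.AD
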