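import Pool.Agent.Lib.AD.EngD

/-!
Columns and the Cech differential.
-/

noncomputable section

open Finset Module
open scoped BigOperators

namespace Pool.Agent.Lib.AD

/-- A point with `n` auxiliary points. -/
abbrev Col (n : ℕ) (H : Type) : Type := H × (Fin n → H)

variable {H : Type} [AddCommGroup H]

/-- Omit the auxiliary point `i`. -/
def om (n : ℕ) (i : Fin (n + 1)) : Col (n + 1) H →+ Col n H :=
  AddMonoidHom.mk' (fun z => (z.1, fun j => z.2 (i.succAbove j))) fun _ _ => rfl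

lemma om_surj (n : ℕ) (i : Fin (n + 1)) : Function.Surjective (om (H := H) n i) := fun y =>
  ⟨(y.1, i.insertNth 0 y.2), by simp [om]⟩

/-- Insert an auxiliary point in front. -/
def insr (n : ℕ) : H × Col n H →+ Col (n + 1) H :=
  AddMonoidHom.mk' (fun z => (z.2.1, Fin.cons z.1 z.2.2)) fun a b => by
    refine Prod.ext rfl ?_
    simp only [Prod.fst_add, Prod.snd_add, cons_add]

lemma insr_surj (n : ℕ) : Function.Surjective (insr (H := H) n) := fun y =>
  ⟨(y.2 0, y.1, Fin.tail y.2), by simp [insr]⟩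

lemma om_zero_insr (n : ℕ) (s : H) (z : Col n H) : om n 0 (insr n (s, z)) = z := by
  simp [om, insr]

lemma om_succ_insr (n : ℕ) (i : Fin (n + 1)) (s : H) (z : Col (n + 1) H) :
    om (n + 1) i.succ (insr (n + 1) (s, z)) = insr n (s, om n i z) := by
  refine Prod.ext rfl (funext fun j => ?_)
  refine Fin.cases ?_ (fun j => ?_) j <;> simp [om, insr]

variable {X : Type} [AddCommGroup X]

/-- The Cech differential. -/
def dl (n : ℕ) (u : Col n H → X) : Col (n + 1) H → X := fun z =>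
  ∑ i : Fin (n + 1), (-1 : ℤ) ^ (i : ℕ) • u (om n i z)

lemma dl_sub (n : ℕ) (u v : Col n H → X) : dl n (u - v) = dl n u - dl n v := by
  ext z; simp [dl, smul_sub, sum_sub_distrib]

lemma dl_add (n : ℕ) (u v : Col n H → X) : dl n (u + v) = dl n u + dl n v := by
  ext z; simp [dl, smul_add, sum_add_distrib]

lemma dl_zero (n : ℕ) : dl n (0 : Col n H → X) = 0 := by ext z; simp [dl]

lemma dl_insr0 (u : Col 0 H → X) (s : H) (z : Col 0 H) : dl 0 u (insr 0 (s, z)) = u z := by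
  simp [dl, om_zero_insr]

lemma dl_insr (n : ℕ) (u : Col (n + 1) H → X) (s : H) :
    (fun z => dl (n + 1) u (insr (n + 1) (s, z))) = u - dl n fun y => u (insr n (s, y)) := by
  ext z
  unfold dl
  rw [Fin.sum_univ_succ, om_zero_insr]
  simp only [om_succ_insr, Fin.val_zero, pow_zero, one_smul, Fin.val_succ, pow_succ, mul_neg,
    mul_one, neg_smul, sum_neg_distrib, sub_eq_add_neg, Pi.add_apply, Pi.neg_apply]

lemma dl_dl : ∀ (n : ℕ) (u : Col n H → X), dl (n + 1) (dl n u) = 0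
  | 0, u => by
    ext z
    obtain ⟨⟨s, z⟩, rfl⟩ := insr_surj 1 z
    have := congrFun (dl_insr 0 (dl 0 u) s) z
    rw [this, funext (dl_insr0 u s)]; simp
  | n + 1, u => by
    ext z
    obtain ⟨⟨s, z⟩, rfl⟩ := insr_surj (n + 2) z
    have := congrFun (dl_insr (n + 1) (dl (n + 1) u) s) z
    rw [this, dl_insr n u s, dl_sub, dl_dl n]; simp

/-- Members of the column families. -/
def colK {n : ℕ} (e : H →+ H) (K : AddSubgroup H) (o : Option (Fin n)) : AddSubgroup (Col n H) where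
  carrier := {z | z.1 ∈ K ∧ ∀ i ∈ o, z.2 i = e z.1}
  zero_mem' := ⟨zero_mem _, fun _ _ => by simp⟩
  add_mem' := fun ha hb => ⟨add_mem ha.1 hb.1, fun i hi => by simp [ha.2 i hi, hb.2 i hi]⟩
  neg_mem' := fun ha => ⟨neg_mem ha.1, fun i hi => by simp [ha.2 i hi]⟩

lemma mem_colK {n : ℕ} {e : H →+ H} {K : AddSubgroup H} {o : Option (Fin n)} {z : Col n H} :
    z ∈ colK e K o ↔ z.1 ∈ K ∧ ∀ i ∈ o, z.2 i = e z.1 := Iff.rfl

/-- Column families: `e = 0` on the left, `e = id` on the right. -/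
def col (e : H →+ H) (S : Set (AddSubgroup H)) (n : ℕ) : Set (AddSubgroup (Col n H)) :=
  {K' | ∃ K ∈ S, ∃ o, K' = colK e K o}

lemma om_col (e : H →+ H) (S : Set (AddSubgroup H)) (n : ℕ) (i : Fin (n + 1)) :
    ∀ K ∈ col e S n, ∃ K' ∈ col e S (n + 1), ∀ κ ∈ K', om n i κ ∈ K := by
  rintro _ ⟨K, hK, o, rfl⟩
  exact ⟨_, ⟨K, hK, o.map i.succAbove, rfl⟩, fun κ hκ =>
    ⟨hκ.1, fun j hj => hκ.2 _ (Option.mem_map_of_mem _ hj)⟩⟩

lemma insr_col (S : Set (AddSubgroup H)) (n : ℕ) :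
    ∀ K ∈ col 0 S (n + 1), ∃ K' ∈ col 0 S n, ∀ κ ∈ K', insr n (0, κ) ∈ K := by
  rintro _ ⟨K, hK, o, rfl⟩
  rcases o with _ | i
  · exact ⟨_, ⟨K, hK, none, rfl⟩, fun κ hκ => ⟨hκ.1, by simp⟩⟩
  · refine Fin.cases ?_ (fun j => ?_) i
    · exact ⟨_, ⟨K, hK, none, rfl⟩, fun κ hκ => ⟨hκ.1, by simp [insr]⟩⟩
    · exact ⟨_, ⟨K, hK, some j, rfl⟩, fun κ hκ => ⟨hκ.1, by simpa [insr] using hκ.2⟩⟩

/-- The family for right data as a function of `(g, g - t)`. -/
def pb (S : Set (AddSubgroup H)) : Set (AddSubgroup (H × H)) := {K' | ∃ K ∈ S, K' = K.prod ⊥}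

lemma pb_fst (S : Set (AddSubgroup H)) (n : ℕ) : ∀ K ∈ pb S, ∃ K' ∈ col (AddMonoidHom.id H) S n,
    ∀ κ ∈ K', (AddMonoidHom.fst _ _ κ, 0) ∈ K := by
  rintro _ ⟨K, hK, rfl⟩
  exact ⟨_, ⟨K, hK, none, rfl⟩, fun κ hκ => ⟨hκ.1, by simp⟩⟩

/-- The map `(g, t) ↦ (g, g - t i)`. -/
def gd (n : ℕ) (i : Fin n) : Col n H →+ H × H :=
  AddMonoidHom.mk' (fun z => (z.1, z.1 - z.2 i)) fun a b => by ext <;> simp; abel

lemma gd_surj (n : ℕ) (i : Fin n) : Function.Surjective (gd (H := H) n i) := fun y =>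
  ⟨(y.1, fun _ => y.1 - y.2), by simp [gd]⟩

variable [Fintype H] {F R : Type} [Field F] [AddCommGroup R] [Module F R]

lemma le_sum_sub {I : Type} [Fintype I] (f : I → Submodule F R) (i : I) : f i ≤ ∑ j, f j := by
  classical
  rw [← add_sum_erase _ _ (mem_univ i)]; exact le_sup_left

lemma sum_le_sub {I : Type} [Fintype I] (f : I → Submodule F R) {U : Submodule F R}
    (h : ∀ i, f i ≤ U) : ∑ j, f j ≤ U :=
  sum_induction f (· ≤ U) (fun _ _ ha hb => sup_le ha hb) bot_le fun i _ => h i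

lemma Alw.rq {S : Set (AddSubgroup H)} {n : ℕ} {B : Col (n + 1) H → Submodule F R} {k : ℝ}
    (h : Alw (col (AddMonoidHom.id H) S (n + 1)) (fun Q => finrank F Q) B k) :
    ∃ Q : H × H → Submodule F R, Alw (pb S) (fun Q => finrank F Q) Q k ∧
      ∀ z, B z ≤ ∑ i, Q (gd (n + 1) i z) := by
  obtain ⟨l, h1, rfl, h3⟩ := h
  have hp : ∀ b ∈ l, ∃ i, ∀ z, b z = b ((gd (n + 1) i z).1,
      fun _ => (gd (n + 1) i z).1 - (gd (n + 1) i z).2) := by
    intro b hb
    obtain ⟨_, ⟨K, -, o, rfl⟩, hm⟩ := h1 b hb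
    refine ⟨o.getD 0, fun z => ?_⟩
    rw [← hm z (0, fun j => z.2 (o.getD 0) - z.2 j) ⟨zero_mem _, fun i hi => by
      rw [Option.mem_def.1 hi]; simp⟩]
    congr 1
    ext <;> simp [gd]
  refine ⟨(l.map fun b y => b (y.1, fun _ => y.1 - y.2)).sum, ⟨_, ?_, rfl, le_trans (le_of_eq ?_) h3⟩,
    fun z => ?_⟩
  · intro a ha
    obtain ⟨b, hb, rfl⟩ := List.mem_map.1 ha
    obtain ⟨_, ⟨K, hK, o, rfl⟩, hm⟩ := h1 b hb
    refine ⟨_, ⟨K, hK, rfl⟩, fun q κ hκ => ?_⟩
    have h2 : κ.2 = 0 := hκ.2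
    beta_reduce
    rw [← hm (q.1, fun _ => q.1 - q.2) (κ.1, fun _ => κ.1) ⟨hκ.1, fun _ _ => rfl⟩]
    congr 1
    ext <;> simp [h2]; abel
  · rw [List.map_map]
    refine congrArg List.sum (List.map_congr_left fun b hb => ?_)
    obtain ⟨i, hi⟩ := hp b hb
    rw [Function.comp_apply, ← expect_surj (gd (n + 1) i) (gd_surj _ i)]
    exact expect_congr rfl fun z _ => by beta_reduce; rw [← hi z]
  · clear h1 h3
    induction l with
    | nil => simp
    | cons b l ih =>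
      simp only [List.sum_cons, List.map_cons, Pi.add_apply, sum_add_distrib]
      refine sup_le_sup ?_ (ih fun b hb => hp b (List.mem_cons_of_mem _ hb))
      obtain ⟨i, hi⟩ := hp b List.mem_cons_self
      rw [hi z]
      exact le_sum_sub (fun i => b ((gd (n + 1) i z).1,
        fun _ => (gd (n + 1) i z).1 - (gd (n + 1) i z).2)) i

lemma Alw.gd_sum {S : Set (AddSubgroup H)} (n : ℕ) {Q : H × H → Submodule F R} {k : ℝ}
    (h : Alw (pb S) (fun Q => finrank F Q) Q k) :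
    Alw (col (AddMonoidHom.id H) S n) (fun Q => finrank F Q) (fun z => ∑ i, Q (gd n i z))
      (n * k) := by
  have := Alw.sum (S := col (AddMonoidHom.id H) S n) (k := fun _ => k) univ fun (i : Fin n) _ =>
    h.pull (gd n i) (gd_surj n i) (by
      rintro _ ⟨K, hK, rfl⟩
      exact ⟨_, ⟨K, hK, some i, rfl⟩, fun κ hκ => ⟨hκ.1, by simp [gd, hκ.2 i rfl]⟩⟩)
  convert this using 1
  · funext z; simp
  · simp

namespace Eng

variable [Module F X] [FiniteDimensional F R] {L N : Type} [AddCommMonoid L] [AddCommMonoid N]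
  {c : Eng F X R L N} {SL SR : Set (AddSubgroup H)}

lemma Bd.dl {n : ℕ} {u : Col n H → X} {k : ℝ} (h : c.Bd u k) : c.Bd (dl n u) ((n + 1) * k) := by
  have := Bd.sum (c := c) univ fun (i : Fin (n + 1)) _ =>
    (h.pull (om n i) (om_surj n i)).zsmul ((-1) ^ (i : ℕ))
  exact this.mono (by simp)

omit [FiniteDimensional F R] in
lemma Null.dl {n : ℕ} {u : Col n H → X} {k δ : ℝ}
    (h : c.Null (col 0 SL n) (col (AddMonoidHom.id H) SR n) u k δ) :
    c.Null (col 0 SL (n + 1)) (col (AddMonoidHom.id H) SR (n + 1)) (dl n u) ((n + 1) * k)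
      ((n + 1) * δ) := by
  have := Null.sum (c := c) univ fun (i : Fin (n + 1)) _ =>
    (h.pull (om n i) (om_surj n i) (om_col _ _ n i) (om_col _ _ n i)).sign i
  exact this.mono (by simp) (by simp)

end Eng

end Pool.Agent.Lib.AD
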