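import Pool.Agent.Lib.AD.EngE

/-!
The row lemma.
-/

noncomputable section

open Finset Module
open scoped BigOperators

namespace Pool.Agent.Lib.AD

section

variable {H : Type} [AddCommGroup H]

/-- Insert the first of two points. -/
def i1 (n : ℕ) : (H × H) × Col n H →+ Col (n + 1) H :=
  AddMonoidHom.mk' (fun z => insr n (z.1.1, z.2)) fun a b => by rw [← map_add]; rfl

/-- Insert the second of two points. -/
def i2 (n : ℕ) : (H × H) × Col n H →+ Col (n + 1) H :=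
  AddMonoidHom.mk' (fun z => insr n (z.1.2, z.2)) fun a b => by rw [← map_add]; rfl

/-- Insert both points. -/
def i12 (n : ℕ) : (H × H) × Col n H →+ Col (n + 2) H :=
  AddMonoidHom.mk' (fun z => insr (n + 1) (z.1.1, insr n (z.1.2, z.2))) fun a b => by
    rw [← map_add]; congr 1; exact Prod.ext rfl (map_add (insr n) (a.1.2, a.2) (b.1.2, b.2))

/-- Omit one point, insert both. -/
def i3 (n : ℕ) (j : Fin (n + 1)) : (H × H) × Col (n + 1) H →+ Col (n + 2) H :=
  AddMonoidHom.mk' (fun z => i12 n (z.1, om n j z.2)) fun a b => by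
    rw [← map_add]; rfl

lemma i1_surj (n : ℕ) : Function.Surjective (i1 (H := H) n) := fun y => by
  obtain ⟨⟨s, z⟩, rfl⟩ := insr_surj n y; exact ⟨((s, 0), z), rfl⟩

lemma i2_surj (n : ℕ) : Function.Surjective (i2 (H := H) n) := fun y => by
  obtain ⟨⟨s, z⟩, rfl⟩ := insr_surj n y; exact ⟨((0, s), z), rfl⟩

lemma i12_surj (n : ℕ) : Function.Surjective (i12 (H := H) n) := fun y => by
  obtain ⟨⟨s, z⟩, rfl⟩ := insr_surj (n + 1) y
  obtain ⟨⟨t, z⟩, rfl⟩ := insr_surj n z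
  exact ⟨((s, t), z), rfl⟩

lemma i3_surj (n : ℕ) (j : Fin (n + 1)) : Function.Surjective (i3 (H := H) n j) := fun y => by
  obtain ⟨⟨s, z⟩, rfl⟩ := i12_surj n y
  obtain ⟨z, rfl⟩ := om_surj n j z
  exact ⟨(s, z), rfl⟩

lemma i3_col (S : Set (AddSubgroup H)) (n : ℕ) (j : Fin (n + 1)) :
    ∀ K ∈ col 0 S (n + 2), ∃ K' ∈ col 0 S (n + 1), ∀ κ ∈ K', i3 n j (0, κ) ∈ K := by
  intro K hK
  obtain ⟨K1, h1, g1⟩ := insr_col S (n + 1) K hK
  obtain ⟨K2, h2, g2⟩ := insr_col S n K1 h1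
  obtain ⟨K3, h3, g3⟩ := om_col 0 S n j K2 h2
  exact ⟨K3, h3, fun κ hκ => g1 _ (g2 _ (g3 κ hκ))⟩

variable {F R : Type} [Field F] [AddCommGroup R] [Module F R]

lemma gd_insr (n : ℕ) (Q : H × H → Submodule F R) (s : H) (z : Col n H) :
    ∑ i, Q (gd (n + 1) i (insr n (s, z))) = (∑ i, Q (gd n i z)) ⊔ Q (z.1, z.1 - s) := by
  rw [Fin.sum_univ_succ, sup_comm]; rfl

lemma gd_om (n : ℕ) (Q : H × H → Submodule F R) (j : Fin (n + 1)) (z : Col (n + 1) H) :
    ∑ i, Q (gd n i (om n j z)) ≤ ∑ i, Q (gd (n + 1) i z) :=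
  sum_le_sub _ fun i => le_sum_sub (fun i => Q (gd (n + 1) i z)) (j.succAbove i)

end

def Row0 (F : Type) [Field F] (k δ k' δ' : ℝ) : Prop :=
  ∀ (X R L N : Type) [AddCommGroup X] [Module F X] [AddCommGroup R] [Module F R]
    [FiniteDimensional F R] [AddCommMonoid L] [AddCommMonoid N] (c : Eng F X R L N)
    (H : Type) [AddCommGroup H] [Fintype H] (SL SR : Set (AddSubgroup H)) (u : Col 0 H → X),
    c.Null (col 0 SL 1) (col (AddMonoidHom.id H) SR 1) (dl 0 u) k δ →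
    c.Null (col 0 SL 0) (col (AddMonoidHom.id H) SR 0) u k' δ'

lemma mono_row0 (F : Type) [Field F] : MonoOut (Row0 F) := by
  intro k δ k' δ' k'' δ'' h h1 h2 X R L N _ _ _ _ _ _ _ c H _ _ SL SR u a
  exact (h X R L N c H SL SR u a).mono h1 h2

theorem lin_row0 (F : Type) [Field F] : Lin (Row0 F) := by
  refine ((lin_rowFin F).stage (a := 2) (by norm_num) (mono_rowFin F) (lin_fin zero_le_one)
    (mono_fin _)).imp ?_
  rintro k δ k' δ' hk hδ ⟨k1, δ1, -, -, h, f1, f2⟩ X R L N _ _ _ _ _ _ _ c H _ _ SL SR u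
    ⟨A, B, E, x, r, h1, h2, h3, h4, h5, h6⟩
  obtain ⟨Q, q1, q2⟩ := h2.rq
  obtain ⟨c1, a1, b1⟩ := h1.param (i1 0) (i1_surj 0) (insr_col SL 0)
  obtain ⟨c2, a2, b2⟩ := h1.param (i2 0) (i2_surj 0) (insr_col SL 0)
  obtain ⟨s, -, hs⟩ := h X R L N c H (Col 0 H) (AddMonoidHom.fst _ _) (col 0 SL 0)
    (col (AddMonoidHom.id H) SR 0) (pb SR) Q (fun z => ∑ i, Q (gd 0 i z)) (fun _ => u)
    (fun s z => x (i1 0 (s, z))) (fun s z => x (i2 0 (s, z)))
    (fun s z => A (i1 0 (s, z)) + A (i2 0 (s, z))) (fun s z => E (i1 0 (s, z)) + E (i2 0 (s, z)))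
    (fun s z => r (i1 0 (s, z))) (fun s z => r (i2 0 (s, z))) (fun s => c1 s + c2 s)
    Prod.fst_surjective (pb_fst SR 0) (q1.mono (by linarith)) ((q1.gd_sum 0).mono (by simpa))
    (fun s => (a1 s).add (a2 s)) (by rw [expect_add_distrib]; linarith) (by
      refine le_trans (expect_le_expect fun s _ => expect_le_expect fun z _ =>
        (?_ : _ ≤ (c.szN (E (i1 0 (s, z))) : ℝ) + c.szN (E (i2 0 (s, z))))) ?_
      · exact_mod_cast c.szN_add _ _
      · simp only [expect_add_distrib]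
        rw [expect_surj2 _ (i1_surj 0) fun q => (c.szN (E q) : ℝ),
          expect_surj2 _ (i2_surj 0) fun q => (c.szN (E q) : ℝ)]
        linarith)
    (fun _ _ => h4 _) (fun _ _ => h4 _) (by rw [expect_surj2 _ (i1_surj 0) r]; linarith)
    (by rw [expect_surj2 _ (i2_surj 0) r]; linarith)
    (fun s z => by
      have := h6 (i1 0 (s, z))
      rw [show dl 0 u (i1 0 (s, z)) = u z from dl_insr0 u _ _] at this
      exact c.nul_mono ⟨_, rfl⟩ ((q2 _).trans (gd_insr 0 Q s.1 z).le) ⟨_, rfl⟩ this)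
    (fun s z => by
      have := h6 (i2 0 (s, z))
      rw [show dl 0 u (i2 0 (s, z)) = u z from dl_insr0 u _ _] at this
      exact c.nul_mono ⟨_, add_comm _ _⟩ ((q2 _).trans (gd_insr 0 Q s.2 z).le)
        ⟨_, add_comm _ _⟩ this)
  exact hs.mono (by linarith) (by linarith)

def Row (F : Type) [Field F] (n : ℕ) (k δ k' δ' : ℝ) : Prop :=
  ∀ (X R L N : Type) [AddCommGroup X] [Module F X] [AddCommGroup R] [Module F R]
    [FiniteDimensional F R] [AddCommMonoid L] [AddCommMonoid N] (c : Eng F X R L N)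
    (H : Type) [AddCommGroup H] [Fintype H] (SL SR : Set (AddSubgroup H))
    (u : Col (n + 1) H → X), c.Bd u k →
    c.Null (col 0 SL (n + 2)) (col (AddMonoidHom.id H) SR (n + 2)) (dl (n + 1) u) k δ →
    ∃ a : Col n H → X, c.Bd a k' ∧
      c.Null (col 0 SL (n + 1)) (col (AddMonoidHom.id H) SR (n + 1)) (u - dl n a) k' δ'

lemma mono_row (F : Type) [Field F] (n : ℕ) : MonoOut (Row F n) := by
  intro k δ k' δ' k'' δ'' h h1 h2 X R L N _ _ _ _ _ _ _ c H _ _ SL SR u a b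
  obtain ⟨a, h3, h4⟩ := h X R L N c H SL SR u a b
  exact ⟨a, h3.mono h1, h4.mono h1 h2⟩

namespace Eng

variable {F X R L N : Type} [Field F] [AddCommGroup X] [Module F X] [AddCommGroup R]
  [Module F R] [AddCommMonoid L] [AddCommMonoid N] (c : Eng F X R L N)

lemma sm_sum {I : Type} (s : Finset I) {x : I → X} {r : I → ℝ} (h : ∀ i, c.Sm (x i) (r i)) :
    c.Sm (∑ i ∈ s, x i) (∑ i ∈ s, r i) := by
  classical
  induction s using Finset.induction_on with
  | empty => simpa using c.sm_zero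
  | insert i s hi ih => rw [sum_insert hi, sum_insert hi]; exact c.sm_add _ _ _ _ (h i) ih

lemma sm_sign {x : X} {r : ℝ} (h : c.Sm x r) (i : ℕ) : c.Sm ((-1 : ℤ) ^ i • x) r := by
  rcases neg_one_pow_eq_or ℤ i with e | e <;> simp only [e, one_smul, neg_smul]
  · exact h
  · exact c.sm_neg _ _ h

lemma szN_sum {I : Type} (s : Finset I) (x : I → N) :
    (c.szN (∑ i ∈ s, x i) : ℝ) ≤ ∑ i ∈ s, (c.szN (x i) : ℝ) := by
  classical
  induction s using Finset.induction_on with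
  | empty => simp [c.szN_zero]
  | insert i s hi ih =>
    rw [sum_insert hi, sum_insert hi]
    exact le_trans (by exact_mod_cast c.szN_add _ _) (add_le_add le_rfl ih)

end Eng

lemma ex_add {T : Type} [AddCommMonoid T] {m : ℕ} (a b : T) (f : Fin m → T) (j : Fin m) :
    ∃ e, a + b + ∑ i, f i = f j + e :=
  ⟨a + b + ∑ i ∈ univ.erase j, f i, by rw [← add_sum_erase _ _ (mem_univ j)]; abel⟩

end Pool.Agent.Lib.AD
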