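import Pool.Agent.Lib.AD.EngF

/-!
The row lemma in positive columns.
-/

noncomputable section

open Finset Module
open scoped BigOperators

namespace Pool.Agent.Lib.AD

theorem lin_row (F : Type) [Field F] (n : ℕ) : Lin (Row F n) := by
  refine ((lin_rowFin F).stage (a := 3 * n + 9) (by positivity) (mono_rowFin F)
    (lin_fin zero_le_one) (mono_fin _)).imp ?_
  rintro k δ k' δ' hk hδ ⟨k1, δ1, -, -, h, f1, f2⟩ X R L N _ _ _ _ _ _ _ c H _ _ SL SR u hu
    ⟨A, B, E, x, r, h1, h2, h3, h4, h5, h6⟩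
  have hn : (0 : ℝ) ≤ n * k := by positivity
  have hn' : (0 : ℝ) ≤ n * δ := by positivity
  obtain ⟨Q, q1, q2⟩ := h2.rq
  obtain ⟨c1, a1, b1⟩ := h1.param (i1 (n + 1)) (i1_surj _) (insr_col SL _)
  obtain ⟨c2, a2, b2⟩ := h1.param (i2 (n + 1)) (i2_surj _) (insr_col SL _)
  choose c3 a3 b3 using fun j => h1.param (i3 n j) (i3_surj n j) (i3_col SL n j)
  obtain ⟨c4, a4, b4⟩ := hu.param (i1 n) (i1_surj n)
  obtain ⟨c5, a5, b5⟩ := hu.dl.param (i12 n) (i12_surj n)
  choose φ p1 p2 p3 using fun (s : H × H) (z : Col n H) => exists_proj (Q (z.1, z.1 - s.1))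
    ((∑ i, Q (gd n i z)) ⊔ Q (z.1, z.1 - s.2) ⊔ c.rn (E (i12 n (s, z))))
  let w : H × H → Col n H → X := fun s z => dl (n + 1) u (i12 n (s, z))
  let al : H × H → Col n H → X := fun s z => c.rm (φ s z) (w s z)
  let a : H × H → Col n H → X := fun s => (fun z => u (i1 n (s, z))) + al s
  have id1 : ∀ s, u - dl n (a s) = (fun z => dl (n + 1) u (i1 (n + 1) (s, z))) - dl n (al s) := by
    intro s
    have := dl_insr n u s.1
    simp only [a, dl_add]
    rw [show (fun z => dl (n + 1) u (i1 (n + 1) (s, z))) = _ from this, sub_sub]; rfl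
  have id2 : ∀ s, u - dl n (a s) =
      (fun z => dl (n + 1) u (i2 (n + 1) (s, z))) + dl n (w s - al s) := by
    intro s
    have e1 := dl_insr n u s.1
    have e2 := dl_insr n u s.2
    have e3 := dl_insr n (dl n fun y => u (insr n (s.1, y))) s.2
    rw [dl_dl] at e3
    have e4 : w s = (fun z => u (insr n (s.2, z))) -
        fun z => dl n (fun y => u (insr n (s.1, y))) (insr n (s.2, z)) :=
      funext fun z => congrFun e1 (insr n (s.2, z))
    have e5 : dl n (fun z => dl n (fun y => u (insr n (s.1, y))) (insr n (s.2, z))) =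
        dl n fun y => u (insr n (s.1, y)) := (sub_eq_zero.1 e3.symm).symm
    simp only [a, dl_add, dl_sub]
    rw [show (fun z => dl (n + 1) u (i2 (n + 1) (s, z))) = _ from e2, e4, dl_sub, e5]
    show u - (dl n (fun y => u (insr n (s.1, y))) + _) = _
    abel
  obtain ⟨s, hs1, hs⟩ := h X R L N c H (Col (n + 1) H) (AddMonoidHom.fst _ _) (col 0 SL (n + 1))
    (col (AddMonoidHom.id H) SR (n + 1)) (pb SR) Q (fun z => ∑ i, Q (gd (n + 1) i z))
    (fun s => u - dl n (a s)) (fun s z => x (i1 (n + 1) (s, z)))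
    (fun s z => x (i2 (n + 1) (s, z)) + ∑ j : Fin (n + 1), (-1 : ℤ) ^ (j : ℕ) •
      c.rm (LinearMap.id - φ s (om n j z)) (x (i3 n j (s, z))))
    (fun s z => A (i1 (n + 1) (s, z)) + A (i2 (n + 1) (s, z)) + ∑ j, A (i3 n j (s, z)))
    (fun s z => E (i1 (n + 1) (s, z)) + E (i2 (n + 1) (s, z)) + ∑ j, E (i3 n j (s, z)))
    (fun s z => r (i1 (n + 1) (s, z))) (fun s z => r (i2 (n + 1) (s, z)) + ∑ j, r (i3 n j (s, z)))
    (fun s => c1 s + c2 s + ∑ j, c3 j s + (c4 s + c5 s))
    Prod.fst_surjective (pb_fst SR _) (q1.mono (by linarith))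
    ((q1.gd_sum _).mono (by push_cast; linarith))
    (fun s => by
      have := ((a1 s).add (a2 s)).add (Alw.sum univ fun j _ => a3 j s)
      refine Alw.mono ?_ (le_add_of_nonneg_right (add_nonneg (a4 s).1 (a5 s).1))
      convert this using 1
      funext z; simp)
    (by
      simp only [expect_add_distrib]
      rw [expect_sum_comm]
      have := sum_le_card_nsmul univ _ _ fun j _ => b3 j
      simp only [card_univ, Fintype.card_fin, nsmul_eq_mul] at this
      push_cast at this b5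
      linarith)
    (by
      refine le_trans (expect_le_expect fun s _ => expect_le_expect fun z _ =>
        (?_ : _ ≤ (c.szN (E (i1 (n + 1) (s, z))) : ℝ) + c.szN (E (i2 (n + 1) (s, z))) +
          ∑ j, (c.szN (E (i3 n j (s, z))) : ℝ))) ?_
      · refine le_trans ?_ (add_le_add le_rfl (c.szN_sum _ _))
        exact_mod_cast (c.szN_add _ _).trans (add_le_add (c.szN_add _ _) le_rfl)
      · simp only [expect_add_distrib, expect_sum_comm]
        rw [expect_surj2 _ (i1_surj _) fun q => (c.szN (E q) : ℝ),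
          expect_surj2 _ (i2_surj _) fun q => (c.szN (E q) : ℝ),
          sum_congr rfl fun j _ => expect_surj2 _ (i3_surj n j) fun q => (c.szN (E q) : ℝ)]
        simp only [sum_const, card_univ, Fintype.card_fin, nsmul_eq_mul]
        have : ((n + 1 : ℕ) : ℝ) * 𝔼 q, (c.szN (E q) : ℝ) ≤ (n + 1 : ℕ) * k := by gcongr
        push_cast at this ⊢
        linarith)
    (fun _ _ => h4 _)
    (fun s z => c.sm_add _ _ _ _ (h4 _) (c.sm_sum _ fun j => c.sm_sign (c.sm_rm _ _ _ (h4 _)) _))
    (by rw [expect_surj2 _ (i1_surj _) r]; linarith)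
    (by
      simp only [expect_add_distrib, expect_sum_comm]
      rw [expect_surj2 _ (i2_surj _) r, sum_congr rfl fun j _ => expect_surj2 _ (i3_surj n j) r]
      simp only [sum_const, card_univ, Fintype.card_fin, nsmul_eq_mul]
      have : ((n + 1 : ℕ) : ℝ) * 𝔼 q, r q ≤ (n + 1 : ℕ) * δ := by gcongr
      push_cast at this ⊢
      linarith)
    (fun s z => by
      rw [id1, Pi.sub_apply, sub_right_comm]
      refine sub_mem (c.nul_mono ⟨_, add_assoc _ _ _⟩ ((q2 _).trans (gd_insr _ Q s.1 z).le)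
        ⟨_, add_assoc _ _ _⟩ (h6 (i1 (n + 1) (s, z)))) ?_
      unfold dl
      refine sum_mem fun j _ => zsmul_mem ?_ _
      exact Submodule.mem_sup_right (c.rt_mono _ _
        ((p1 s (om n j z)).trans (le_sup_right.trans le_sup_left))
        (c.rm_range (φ s (om n j z)) (w s (om n j z)))))
    (fun s z => by
      rw [id2, Pi.add_apply, add_sub_add_comm]
      refine add_mem (c.nul_mono ⟨_, by rw [add_comm (A _), add_assoc]⟩
        ((q2 _).trans (gd_insr _ Q s.2 z).le) ⟨_, by rw [add_comm (E _), add_assoc]⟩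
        (h6 (i2 (n + 1) (s, z)))) ?_
      unfold dl
      rw [← sum_sub_distrib]
      refine sum_mem fun j _ => ?_
      rw [← smul_sub]
      refine zsmul_mem ?_ _
      have e : (w s - al s) (om n j z) - c.rm (LinearMap.id - φ s (om n j z)) (x (i3 n j (s, z))) =
          c.rm (LinearMap.id - φ s (om n j z))
            (dl (n + 1) u (i3 n j (s, z)) - x (i3 n j (s, z))) := by
        rw [map_sub, ← c.rm_sub _ (dl (n + 1) u _)]; rfl
      rw [e]
      refine c.nul_mono (ex_add _ _ _ j) (sup_le_sup_right (gd_om n Q j z) _) (ex_add _ _ _ j)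
        (sup_le_sup_left (c.rt_mono _ _ ?_) _ (c.rm_nul _ (h6 (i3 n j (s, z)))))
      have hB : B (i3 n j (s, z)) ⊔ c.rn (E (i3 n j (s, z))) ≤ ((∑ i, Q (gd n i (om n j z))) ⊔
          Q (z.1, z.1 - s.2) ⊔ c.rn (E (i3 n j (s, z)))) ⊔ Q (z.1, z.1 - s.1) := by
        rw [sup_right_comm]
        refine sup_le_sup_right ((q2 _).trans ((gd_insr _ Q s.1 _).le.trans ?_)) _
        exact sup_le_sup_right (gd_insr _ Q s.2 _).le _
      rintro _ ⟨y, hy, rfl⟩
      obtain ⟨y1, g1, y2, g2, rfl⟩ := Submodule.mem_sup.1 (hB hy)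
      have t2 : φ s (om n j z) y2 = y2 := p2 s _ _ g2
      have t1 := p3 s _ _ g1
      have : (LinearMap.id - φ s (om n j z) : R →ₗ[F] R) (y1 + y2) = y1 - φ s (om n j z) y1 := by
        simp only [LinearMap.sub_apply, LinearMap.id_apply, map_add, t2]; abel
      rw [this]
      exact sub_mem g1 t1)
  refine ⟨a s, (((a4 s).2.add ((a5 s).2.rm (φ s))).mono ?_), hs.mono (by linarith) (by linarith)⟩
  have := (a1 s).nonneg
  have := (a2 s).nonneg
  have : 0 ≤ ∑ j, c3 j s := sum_nonneg fun j _ => (a3 j s).nonneg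
  linarith

end Pool.Agent.Lib.AD
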