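import Pool.Agent.Lib.AD.EngG

/-!
The double complex on cubes of columns.
-/

noncomputable section

open Finset Module
open scoped BigOperators

namespace Pool.Agent.Lib.AD

section

variable {G G' : Type} [AddCommGroup G] [AddCommGroup G']

/-- Cubes with labels in `K`. -/
def cubK (m : ℕ) (K : AddSubgroup G) : AddSubgroup (Cube m G) := AddSubgroup.pi Set.univ fun _ => K

lemma mem_cubK {m : ℕ} {K : AddSubgroup G} {q : Cube m G} : q ∈ cubK m K ↔ ∀ v, q v ∈ K := by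
  simp [cubK, AddSubgroup.mem_pi]

lemma cubK_mem (m : ℕ) {S : Set (AddSubgroup G)} {K : AddSubgroup G} (h : K ∈ S) :
    cubK m K ∈ cub m S := ⟨K, h, fun _ => mem_cubK⟩

lemma cmap_surj (m : ℕ) {f : G →+ G'} (hf : Function.Surjective f) :
    Function.Surjective (cmap m f) := fun y => by
  choose g hg using hf
  exact ⟨fun v => g (y v), funext fun v => hg _⟩

lemma cmap_cub (m : ℕ) {f : G →+ G'} {S : Set (AddSubgroup G)} {S' : Set (AddSubgroup G')}
    (h : ∀ K ∈ S', ∃ K' ∈ S, ∀ κ ∈ K', f κ ∈ K) :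
    ∀ K ∈ cub m S', ∃ K' ∈ cub m S, ∀ κ ∈ K', cmap m f κ ∈ K := by
  rintro K ⟨K0, h0, hK⟩
  obtain ⟨K1, h1, g1⟩ := h K0 h0
  exact ⟨_, cubK_mem m h1, fun κ hκ => (hK _).2 fun v => g1 _ (mem_cubK.1 hκ v)⟩

lemma fc_cub (m : ℕ) (i : Fin (m + 1)) (e : Option Bool) (S : Set (AddSubgroup G)) :
    ∀ K ∈ cub m S, ∃ K' ∈ cub (m + 1) S, ∀ κ ∈ K', fc m i e κ ∈ K := by
  rintro K ⟨K0, h0, hK⟩
  refine ⟨_, cubK_mem _ h0, fun κ hκ => (hK _).2 fun v => ?_⟩
  cases e with
  | none => exact add_mem (mem_cubK.1 hκ _) (mem_cubK.1 hκ _)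
  | some b => exact mem_cubK.1 hκ _

/-- Cubes of columns are columns of cubes. -/
def sw (m n : ℕ) : Cube m (Col n G) →+ Col n (Cube m G) :=
  AddMonoidHom.mk' (fun q => (fun v => (q v).1, fun i v => (q v).2 i)) fun _ _ => rfl

/-- The inverse of `sw`. -/
def ws (m n : ℕ) : Col n (Cube m G) →+ Cube m (Col n G) :=
  AddMonoidHom.mk' (fun z v => (z.1 v, fun i => z.2 i v)) fun _ _ => rfl

lemma sw_surj (m n : ℕ) : Function.Surjective (sw (G := G) m n) := fun y => ⟨ws m n y, rfl⟩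

lemma ws_surj (m n : ℕ) : Function.Surjective (ws (G := G) m n) := fun y => ⟨sw m n y, rfl⟩

lemma sw_col (m n : ℕ) (e : G →+ G) (e' : Cube m G →+ Cube m G) (he : ∀ q v, e' q v = e (q v))
    (S : Set (AddSubgroup G)) : ∀ K ∈ col e' (cub m S) n, ∃ K' ∈ cub m (col e S n), ∀ κ ∈ K',
      sw m n κ ∈ K := by
  rintro _ ⟨K, ⟨K0, h0, hK⟩, o, rfl⟩
  refine ⟨_, cubK_mem m ⟨K0, h0, o, rfl⟩, fun κ hκ => ⟨(hK _).2 fun v => (mem_cubK.1 hκ v).1,
    fun i hi => funext fun v => ?_⟩⟩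
  rw [he]; exact (mem_cubK.1 hκ v).2 i hi

lemma sw_col' (m n : ℕ) (e : G →+ G) (e' : Cube m G →+ Cube m G) (he : ∀ q v, e' q v = e (q v))
    (S : Set (AddSubgroup G)) : ∀ K ∈ cub m (col e S n), ∃ K' ∈ col e' (cub m S) n, ∀ κ ∈ K',
      ws m n κ ∈ K := by
  rintro K ⟨_, ⟨K0, h0, o, rfl⟩, hK⟩
  refine ⟨_, ⟨_, cubK_mem m h0, o, rfl⟩, fun κ hκ => (hK _).2 fun v =>
    ⟨mem_cubK.1 hκ.1 v, fun i hi => ?_⟩⟩
  exact (congrFun (hκ.2 i hi) v).trans (he _ _)

variable {X : Type} [AddCommGroup X]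

/-- The Cech differential on cubes of columns. -/
def dc (m n : ℕ) (u : Cube m (Col n G) → X) : Cube m (Col (n + 1) G) → X := fun q =>
  dl n (fun z => u (ws m n z)) (sw m (n + 1) q)

lemma dc_sub (m n : ℕ) (u v : Cube m (Col n G) → X) : dc m n (u - v) = dc m n u - dc m n v :=
  funext fun _ => congrFun (dl_sub n (fun z => u (ws m n z)) fun z => v (ws m n z)) _

lemma dc_zero (m n : ℕ) : dc m n (0 : Cube m (Col n G) → X) = 0 :=
  funext fun _ => congrFun (dl_zero n) _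

lemma dc_dc (m n : ℕ) (u : Cube m (Col n G) → X) : dc m (n + 1) (dc m n u) = 0 :=
  funext fun _ => congrFun (dl_dl n fun z => u (ws m n z)) _

lemma dc_apply (m n : ℕ) (u : Cube m (Col n G) → X) (q : Cube m (Col (n + 1) G)) :
    dc m n u q = ∑ i : Fin (n + 1), (-1 : ℤ) ^ (i : ℕ) • u (cmap m (om n i) q) := rfl

lemma cd_dc (m n : ℕ) (u : Cube m (Col n G) → X) : cd m (dc m n u) = dc (m + 1) n (cd m u) := by
  ext q
  simp only [cd, dc_apply, fc_cmap, smul_sum, ← sum_sub_distrib, ← smul_sub]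
  rw [sum_comm]
  exact sum_congr rfl fun i _ => sum_congr rfl fun j _ => smul_comm _ _ _

lemma cD_dc (m n : ℕ) (u : Cube m.pred (Col n G) → X) :
    cD m (dc m.pred n u) = dc m n (cD m u) := by
  cases m with
  | zero => exact (dc_zero 0 n).symm
  | succ m => exact cd_dc m n u

lemma cD_sub (m : ℕ) (u v : Cube m.pred G → X) : cD m (u - v) = cD m u - cD m v := by
  cases m with
  | zero => exact (sub_zero 0).symm
  | succ m => exact cd_sub m u v

lemma cD_cmap (m : ℕ) (u : Cube m.pred G' → X) (f : G →+ G') :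
    cD m (fun q => u (cmap m.pred f q)) = fun q => cD m u (cmap m f q) := by
  cases m with
  | zero => rfl
  | succ m => exact cd_cmap m u f

end

namespace Eng

variable {F X R L N : Type} [Field F] [AddCommGroup X] [Module F X] [AddCommGroup R]
  [Module F R] [FiniteDimensional F R] [AddCommMonoid L] [AddCommMonoid N] {c : Eng F X R L N}
  {G : Type} [AddCommGroup G] [Fintype G] {SL SR : Set (AddSubgroup G)}

lemma Bd.cd {m : ℕ} {u : Cube m G → X} {k : ℝ} (h : c.Bd u k) :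
    c.Bd (cd m u) (3 * (m + 1) * k) := by
  have := Bd.sum (c := c) univ fun (i : Fin (m + 1)) _ =>
    (((h.pull _ (fc_surj m i none)).sub (h.pull _ (fc_surj m i (some false)))).sub
      (h.pull _ (fc_surj m i (some true)))).zsmul ((-1) ^ (i : ℕ))
  exact this.mono (by simp; linarith)

omit [FiniteDimensional F R] in
lemma Null.cd {m : ℕ} {u : Cube m G → X} {k δ : ℝ} (h : c.Null (cub m SL) (cub m SR) u k δ) :
    c.Null (cub (m + 1) SL) (cub (m + 1) SR) (cd m u) (3 * (m + 1) * k) (3 * (m + 1) * δ) := by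
  have p := fun i e => h.pull _ (fc_surj m i e) (fc_cub m i e SL) (fc_cub m i e SR)
  have := Null.sum (c := c) univ fun (i : Fin (m + 1)) _ =>
    (((p i none).sub (p i (some false))).sub (p i (some true))).sign i
  exact this.mono (by simp; linarith) (by simp; linarith)

lemma Bd.cD {m : ℕ} {u : Cube m.pred G → X} {k : ℝ} (h : c.Bd u k) : c.Bd (cD m u) (3 * m * k) := by
  cases m with
  | zero => exact Bd.zero (by simp)
  | succ m => exact (Bd.cd (m := m) h).mono (by simp)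

omit [FiniteDimensional F R] in
lemma Null.cD {m : ℕ} {u : Cube m.pred G → X} {k δ : ℝ}
    (h : c.Null (cub m.pred SL) (cub m.pred SR) u k δ) :
    c.Null (cub m SL) (cub m SR) (cD m u) (3 * m * k) (3 * m * δ) := by
  cases m with
  | zero => exact Null.zero (by simp) (by simp)
  | succ m => exact (Null.cd (m := m) h).mono (by simp) (by simp)

omit [FiniteDimensional F R] in
lemma Null.toCol {m n : ℕ} {u : Cube m (Col n G) → X} {k δ : ℝ}
    (h : c.Null (cub m (col 0 SL n)) (cub m (col (AddMonoidHom.id G) SR n)) u k δ) :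
    c.Null (col 0 (cub m SL) n) (col (AddMonoidHom.id _) (cub m SR) n)
      (fun z => u (ws m n z)) k δ :=
  h.pull (ws m n) (ws_surj m n)
    (sw_col' m n _ _ (fun _ _ => rfl) SL) (sw_col' m n _ _ (fun _ _ => rfl) SR)

omit [FiniteDimensional F R] in
lemma Null.ofCol {m n : ℕ} {u : Col n (Cube m G) → X} {k δ : ℝ}
    (h : c.Null (col 0 (cub m SL) n) (col (AddMonoidHom.id _) (cub m SR) n) u k δ) :
    c.Null (cub m (col 0 SL n)) (cub m (col (AddMonoidHom.id G) SR n))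
      (fun q => u (sw m n q)) k δ :=
  h.pull (sw m n) (sw_surj m n)
    (sw_col m n _ _ (fun _ _ => rfl) SL) (sw_col m n _ _ (fun _ _ => rfl) SR)

lemma Bd.dc {m n : ℕ} {u : Cube m (Col n G) → X} {k : ℝ} (h : c.Bd u k) :
    c.Bd (dc m n u) ((n + 1) * k) :=
  (h.pull (ws m n) (ws_surj m n)).dl.pull
    (sw m (n + 1)) (sw_surj m (n + 1))

omit [FiniteDimensional F R] in
lemma Null.dc {m n : ℕ} {u : Cube m (Col n G) → X} {k δ : ℝ}
    (h : c.Null (cub m (col 0 SL n)) (cub m (col (AddMonoidHom.id G) SR n)) u k δ) :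
    c.Null (cub m (col 0 SL (n + 1))) (cub m (col (AddMonoidHom.id G) SR (n + 1))) (dc m n u)
      ((n + 1) * k) ((n + 1) * δ) := h.toCol.dl.ofCol

lemma rowc {n : ℕ} {k δ k' δ' : ℝ} (hr : Row F n k δ k' δ') {m : ℕ}
    {u : Cube m (Col (n + 1) G) → X} (hu : c.Bd u k)
    (h : c.Null (cub m (col 0 SL (n + 2))) (cub m (col (AddMonoidHom.id G) SR (n + 2)))
      (dc m (n + 1) u) k δ) : ∃ a : Cube m (Col n G) → X, c.Bd a k' ∧
      c.Null (cub m (col 0 SL (n + 1))) (cub m (col (AddMonoidHom.id G) SR (n + 1)))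
        (u - dc m n a) k' δ' := by
  obtain ⟨a, h1, h2⟩ := hr X R L N c (Cube m G) (cub m SL) (cub m SR)
    (fun z => u (ws m (n + 1) z))
    (hu.pull (ws m (n + 1)) (ws_surj m (n + 1))) h.toCol
  exact ⟨fun q => a (sw m n q), h1.pull (sw m n) (sw_surj m n), h2.ofCol⟩

lemma row0c {k δ k' δ' : ℝ} (hr : Row0 F k δ k' δ') {m : ℕ} {T : Cube m G → X}
    (h : c.Null (cub m (col 0 SL 1)) (cub m (col (AddMonoidHom.id G) SR 1))
      (dc m 0 fun q => T (cmap m (AddMonoidHom.fst _ _) q)) k δ) :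
    c.Null (cub m SL) (cub m SR) T k' δ' := by
  have h0 : c.Null (col 0 (cub m SL) 1) (col (AddMonoidHom.id _) (cub m SR) 1)
      (dl 0 fun z => T (cmap m (AddMonoidHom.fst G (Fin 0 → G)) (ws m 0 z))) k δ :=
    Null.toCol (n := 1) h
  have h1 := Null.ofCol (hr X R L N c (Cube m G) (cub m SL) (cub m SR) _ h0)
  have hc : ∀ (e : G →+ G) (S : Set (AddSubgroup G)), ∀ K ∈ col e S 0, ∃ K' ∈ S, ∀ κ ∈ K',
      AddMonoidHom.inl G (Fin 0 → G) κ ∈ K := by
    rintro e S _ ⟨K, hK, o, rfl⟩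
    exact ⟨K, hK, fun κ hκ => ⟨hκ, fun i => i.elim0⟩⟩
  exact h1.pull (cmap m (AddMonoidHom.inl G (Fin 0 → G)))
    (cmap_surj m fun y => ⟨y.1, Prod.ext rfl (Subsingleton.elim _ _)⟩) (cmap_cub m (hc _ _))
    (cmap_cub m (hc _ _))

end Eng

end Pool.Agent.Lib.AD
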