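import Pool.Agent.Lib.AD.Blue
import Pool.Agent.Lib.AD.Api3
import Pool.Agent.Lib.UD.BI1

/-! The function model of frames and the stability theorem for multilinear forms. -/

noncomputable section

open Finset Module
open scoped BigOperators

namespace Pool.Agent.Lib.AD.FINALb

open Pool.Agent.Lib.U4

section model

variable (K ι V : Type) [Field K] [DecidableEq ι] [AddCommGroup V] [Module K V]

/-- Products of functionals in the slots of `J`. -/
def XX (J : Finset ι) : Submodule K ((ι → V) → K) :=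
  Submodule.span K (Set.range fun (l : ι → Dual K V) (v : ι → V) => ∏ j ∈ J, l j (v j))

variable {K ι V}

lemma XX_dep {J : Finset ι} {x : (ι → V) → K} (hx : x ∈ XX K ι V J) {v w : ι → V}
    (h : ∀ j ∈ J, v j = w j) : x v = x w := by
  induction hx using Submodule.span_induction with
  | mem _ hl => obtain ⟨l, rfl⟩ := hl; exact prod_congr rfl fun j hj => by rw [h j hj]
  | zero => rfl
  | add x y _ _ hx hy => simp [hx, hy]
  | smul c x _ hx => simp [hx]

variable (K ι V)

/-- The frame of multilinear functions. -/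
def FF : Frame K ι ((ι → V) → K) where
  X := XX K ι V
  bw I := LinearMap.mk₂ K (fun κ f v => κ (fun w => f (I.piecewise w v)) v)
    (fun _ _ _ => rfl) (fun _ _ _ => rfl)
    (fun κ f g => funext fun v => congrFun (κ.map_add (fun w => f (I.piecewise w v))
      fun w => g (I.piecewise w v)) v)
    (fun c κ f => funext fun v => congrFun (κ.map_smul c fun w => f (I.piecewise w v)) v)
  X_empty := by
    rw [XX, Submodule.one_eq_span]
    congr 1
    ext f
    simp [eq_comm, funext_iff]
  X_mul J J' h := by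
    rw [XX, XX, XX, Submodule.span_mul_span]
    congr 1
    ext f
    constructor
    · rintro ⟨_, ⟨l, rfl⟩, _, ⟨l', rfl⟩, rfl⟩
      refine ⟨J.piecewise l l', funext fun v => ?_⟩
      simp only [Pi.mul_apply, prod_union h]
      congr 1
      · exact prod_congr rfl fun j hj => by rw [piecewise_eq_of_mem _ _ _ hj]
      · exact prod_congr rfl fun j hj => by
          rw [piecewise_eq_of_notMem _ _ _ (disjoint_right.1 h hj)]
    · rintro ⟨l, rfl⟩
      exact ⟨_, ⟨l, rfl⟩, _, ⟨l, rfl⟩, funext fun v => (prod_union h).symm⟩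
  bw_mul I J κ h x hx y hy := by
    funext v
    have : (fun w => (x * y) (I.piecewise w v)) = y v • x := funext fun w => by
      rw [Pi.mul_apply, XX_dep hx (w := w) fun j hj => piecewise_eq_of_mem _ _ _ hj,
        XX_dep hy (w := v) fun j hj => piecewise_eq_of_notMem _ _ _ (disjoint_right.1 h hj),
        mul_comm]; rfl
    change κ (fun w => (x * y) (I.piecewise w v)) v = _
    rw [this, map_smul]
    simp [mul_comm]

/-- Functionals in the slot `i`. -/
def emb (i : ι) : Dual K V →ₗ[K] ((ι → V) → K) where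
  toFun l w := l (w i)
  map_add' _ _ := rfl
  map_smul' _ _ := rfl

variable [FiniteDimensional K V]

/-- The point of `V` that represents a functional in the slot `i`. -/
def pt (i : ι) : Dual K ((ι → V) → K) →ₗ[K] V :=
  (Module.evalEquiv K V).symm.toLinearMap ∘ₗ (emb K ι V i).dualMap

variable {K ι V}

omit [DecidableEq ι] in
lemma pt_spec (i : ι) (a : Dual K ((ι → V) → K)) (l : Dual K V) :
    l (pt K ι V i a) = a (emb K ι V i l) := by
  simp [pt]

omit [DecidableEq ι] in
lemma pt_surj (i : ι) : Function.Surjective (pt K ι V i) := by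
  refine (Module.evalEquiv K V).symm.surjective.comp
    (LinearMap.dualMap_surjective_of_injective fun l l' h => ?_)
  ext u
  exact congrFun h fun _ => u

/-- A form with the slots of `s` evaluated. -/
def gs (M : MultilinearMap K (fun _ : ι => V) K) (w : ι → Dual K ((ι → V) → K)) (s : Finset ι) :
    (ι → V) → K := fun v => M (s.piecewise (fun j => pt K ι V j (w j)) v)

lemma ev_gs (M : MultilinearMap K (fun _ : ι => V) K) (w : ι → Dual K ((ι → V) → K))
    {s : Finset ι} {i : ι} (hi : i ∉ s) :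
    (FF K ι V).ev i (w i) (gs M w s) = gs M w (insert i s) := by
  funext v
  let l := M.toLinearMap (s.piecewise (fun j => pt K ι V j (w j)) v) i
  have e : (fun u => gs M w s (({i} : Finset ι).piecewise u v)) = emb K ι V i l := by
    funext u
    change M _ = M _
    congr 1
    funext j
    by_cases c : j = i
    · subst c; simp [piecewise, hi]
    · simp [piecewise, c]
  change (w i (fun u => gs M w s (({i} : Finset ι).piecewise u v)) • (1 : (ι → V) → K)) v = _
  rw [e, ← pt_spec, gs, piecewise_insert]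
  simp [l]

lemma evL_gs (M : MultilinearMap K (fun _ : ι => V) K) (w : ι → Dual K ((ι → V) → K)) :
    ∀ (L : List ι) (s : Finset ι), L.Nodup → (∀ i ∈ L, i ∉ s) →
      (FF K ι V).evL L w (gs M w s) = gs M w (s ∪ L.toFinset)
  | [], s, _, _ => by simp [Frame.evL]
  | i :: L, s, h, hs => by
    rw [List.nodup_cons] at h
    rw [Frame.evL, LinearMap.comp_apply, ev_gs M w (hs i (by simp)), evL_gs M w L _ h.2]
    · simp
    · intro j hj
      rw [mem_insert, not_or]
      exact ⟨fun e => h.1 (e ▸ hj), hs j (by simp [hj])⟩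

variable [Fintype ι]

lemma coe_mem (M : MultilinearMap K (fun _ : ι => V) K) : ⇑M ∈ XX K ι V univ := by
  let b := Module.finBasis K V
  have : ⇑M = ∑ r : ι → Fin (finrank K V), M (fun j => b (r j)) •
      fun v : ι → V => ∏ j, b.coord (r j) (v j) := by
    funext v
    conv_lhs => rw [show v = fun j => ∑ a, b.repr (v j) a • b a from
      funext fun j => (b.sum_repr (v j)).symm]
    rw [M.map_sum]
    simp [M.map_smul_univ, mul_comm]
  rw [this]
  exact Submodule.sum_mem _ fun r _ => Submodule.smul_mem _ _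
    (Submodule.subset_span ⟨fun j => b.coord (r j), rfl⟩)

omit [FiniteDimensional K V] [DecidableEq ι] in
lemma exists_coe {f : (ι → V) → K} (hf : f ∈ XX K ι V univ) :
    ∃ M : MultilinearMap K (fun _ : ι => V) K, ⇑M = f := by
  induction hf using Submodule.span_induction with
  | mem _ hl =>
    obtain ⟨l, rfl⟩ := hl
    exact ⟨(MultilinearMap.mkPiAlgebra K ι K).compLinearMap l, funext fun v => by simp⟩
  | zero => exact ⟨0, rfl⟩
  | add x y _ _ hx hy =>
    obtain ⟨M, rfl⟩ := hx
    obtain ⟨N, rfl⟩ := hy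
    exact ⟨M + N, rfl⟩
  | smul c x _ hx =>
    obtain ⟨M, rfl⟩ := hx
    exact ⟨c • M, rfl⟩

end model

/-- The slots other than the first. -/
def LL (d : ℕ) : List (Fin (d + 1)) := (List.finRange d).map Fin.succ

lemma LL_nodup (d : ℕ) : (LL d).Nodup := (List.nodup_finRange d).map (Fin.succ_injective d)

lemma LL_zero (d : ℕ) : (0 : Fin (d + 1)) ∉ LL d := by simp [LL]

lemma LL_succ (d : ℕ) (i : Fin d) : i.succ ∈ LL d := by simp [LL]

lemma LL_univ (d : ℕ) : insert 0 (LL d).toFinset = univ := by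
  ext i
  refine Fin.cases ?_ (fun j => ?_) i <;> simp [LL_succ]

lemma zp_eq {p d : ℕ} [Fact p.Prime] {V : Type} [AddCommGroup V] [Module (ZMod p) V] [Fintype V]
    [Fintype (Dual (ZMod p) ((Fin (d + 1) → V) → ZMod p))] (M : Ml p (d + 1) V) :
    (FF (ZMod p) (Fin (d + 1)) V).zp (LL d) ⇑M = bias M := by
  let Φ : (Fin (d + 1) → Dual (ZMod p) ((Fin (d + 1) → V) → ZMod p)) →+ (Fin d → V) :=
    AddMonoidHom.mk' (fun w i => pt (ZMod p) (Fin (d + 1)) V i.succ (w i.succ))
      fun w w' => funext fun i => by simp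
  have hΦ : Function.Surjective Φ := fun y => by
    choose s hs using fun i : Fin d => pt_surj (K := ZMod p) (V := V) i.succ (y i)
    exact ⟨Fin.cons 0 s, funext fun i => hs i⟩
  rw [(UD.stBI1 p V).eq_ind, ← expect_surj Φ hΦ, Frame.zp]
  refine expect_congr rfl fun w _ => ?_
  have e : ⇑M = gs M w ∅ := funext fun v => by simp [gs]
  have e2 : ∀ v, gs M w (LL d).toFinset v = M (Fin.cons (v 0) (Φ w)) := fun v => by
    unfold gs
    congr 1
    funext j
    refine Fin.cases ?_ (fun i => ?_) j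
    · simp [piecewise, LL_zero]
    · simp [piecewise, LL_succ, Φ]
  have e3 : (FF (ZMod p) (Fin (d + 1)) V).evL (LL d) w ⇑M = gs M w (LL d).toFinset := by
    rw [e, evL_gs M w _ _ (LL_nodup d) (by simp), empty_union]
  have e4 : gs M w (LL d).toFinset = 0 ↔ ∀ u, M (Fin.cons u (Φ w)) = 0 := by
    refine ⟨fun h u => ?_, fun h => funext fun v => ?_⟩
    · simpa [e2] using congrFun h fun _ => u
    · rw [e2, h]; rfl
  rw [e3, ind]
  simp only [e4]
  congr

lemma rate (p : ℕ) (hp : 1 ≤ p) (a b : ℝ) : ∃ N : ℕ, ∀ β : ℝ, 0 < β → β ≤ 1 →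
    (β / 2) ^ N ≤ (p : ℝ) ^ (-(a * Real.log (1 / β) + b)) := by
  obtain ⟨N, hN⟩ := exists_nat_ge (max (a * Real.log p) (b * Real.log p / Real.log 2))
  refine ⟨N, fun β h0 h1 => ?_⟩
  have hp' : (0 : ℝ) < p := by exact_mod_cast hp
  have l2 : 0 < Real.log 2 := Real.log_pos one_lt_two
  have h2 : a * Real.log p ≤ N := (le_max_left _ _).trans hN
  have h3 : b * Real.log p ≤ N * Real.log 2 := (div_le_iff₀ l2).1 ((le_max_right _ _).trans hN)
  have h4 : Real.log β ≤ 0 := Real.log_nonpos h0.le h1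
  rw [← Real.log_le_log_iff (by positivity) (by positivity), Real.log_pow, Real.log_rpow hp',
    Real.log_div h0.ne' two_ne_zero, one_div, Real.log_inv]
  nlinarith

lemma markov {G : Type} [Fintype G] [Nonempty G] (s : G → ℝ) (c : ℝ) (P : G → Prop)
    (h0 : ∀ x, 0 ≤ s x) (hc : 𝔼 x, s x ≤ c) (h : ∀ x, s x ≤ 4 * c + 1 → P x) :
    3 / 4 ≤ 𝔼 x, ind (P x) := by
  have c0 : 0 ≤ c := (expect_nonneg fun x _ => h0 x).trans hc
  have h1 : ∀ x, 1 - s x / (4 * c + 1) ≤ ind (P x) := fun x => by
    unfold ind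
    have := div_nonneg (h0 x) (by positivity : 0 ≤ 4 * c + 1)
    split_ifs with e
    · linarith
    · have : 4 * c + 1 ≤ s x := by
        by_contra c'
        exact e (h x (not_le.1 c').le)
      rw [sub_nonpos, le_div_iff₀ (by positivity)]
      linarith
  refine le_trans ?_ (expect_le_expect fun x _ => h1 x)
  rw [expect_sub_distrib, Fintype.expect_const, ← expect_div]
  have : (𝔼 x, s x) / (4 * c + 1) ≤ 1 / 4 := by
    rw [div_le_iff₀ (by positivity)]; linarith
  linarith

lemma cd0 {G X : Type} [AddCommGroup G] [AddCommGroup X] (F : Cube 0 G → X) (q : Cube 1 G) :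
    cd 0 F q = F (fun _ => q (false, ()) + q (true, ())) - F (fun _ => q (false, ())) -
      F (fun _ => q (true, ())) := by
  simp only [cd, Fin.sum_univ_succ, Fin.val_zero, pow_zero, one_smul, univ_eq_empty, sum_empty,
    add_zero]
  rfl

end Pool.Agent.Lib.AD.FINALb

namespace Pool.Agent.Lib.AD

open Pool.Agent.Lib.U4 FINALb

theorem stFINAL (p : ℕ) [Fact p.Prime] : St_FINAL p := by
  intro d hZ ⟨C1, hC1, hP⟩ ⟨C, hC, hE⟩ R _
  obtain ⟨N, hN⟩ := rate p (Fact.out : p.Prime).one_le (5 * C * C1) (5 * C * C1 + 1)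
  refine ⟨fun β => (β / 2) ^ N, R.pow N, fun {G V} _ _ _ _ _ _ φ β h0 h1 hβ => ?_⟩
  classical
  have : Finite (Dual (ZMod p) ((Fin (d + 1) → V) → ZMod p)) :=
    Finite.of_injective _ DFunLike.coe_injective
  let _ := Fintype.ofFinite (Dual (ZMod p) ((Fin (d + 1) → V) → ZMod p))
  set F := FF (ZMod p) (Fin (d + 1)) V with hF
  set k := C1 * (Real.log (1 / β) + 1) with hk
  let ψ : Cube 0 G → (Fin (d + 1) → V) → ZMod p := fun q => ⇑(φ (q ()))
  have hs : ∀ q, F.Sm univ (cd 0 ψ q) k := fun q => by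
    have := hP _ F (LL d) 0 ⇑(df φ (q (false, ())) (q (true, ()))) β (LL_nodup d) (LL_zero d)
      (by simp [LL]) (by rw [LL_univ]; exact coe_mem _) h0 (by rw [zp_eq]; exact hβ _ _)
    rw [LL_univ] at this
    rw [cd0]; exact this
  obtain ⟨b, S0, ⟨s, hs1, hs2⟩, hS, hz, hb⟩ := hE _ F univ G (cd 0 ψ) k (by simp)
    (cd_cd 0 G ψ) (Frame.smA_of_forall hs)
  change Cube 0 G → _ at b s
  obtain ⟨π, hπ1, hπ2, -⟩ := exists_prj' (F.idl S0 univ) ⊥
  let t : G → (Fin (d + 1) → V) → ZMod p := fun x =>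
    (ψ - b) (fun _ => x) - π ((ψ - b) fun _ => x)
  have ht : ∀ x y, t (x + y) = t x + t y := fun x y => by
    have h2 := hb fun v => if v.1 then y else x
    change cd 0 ψ _ - cd 0 b _ ∈ _ at h2
    rw [← Pi.sub_apply, ← cd_sub, cd0] at h2
    have h3 := hπ2 _ h2
    simp only [map_sub] at h3
    simp only [t, map_sub]
    simp only [Bool.false_eq_true, if_false, if_true] at h3
    linear_combination -h3
  have hsm : ∀ x, F.Sm univ (⇑(φ x) - t x) (s (fun _ => x) + C * k) := fun x => by
    have : ⇑(φ x) - t x = b (fun _ => x) + π ((ψ - b) fun _ => x) := by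
      simp only [t, Pi.sub_apply, ψ]; abel
    rw [this]
    exact (hs1 _).add ((Frame.sm_of_idl hS (hπ1 _)).mono hz)
  have hm : ∀ x, ∃ M : Ml p (d + 1) V, ⇑M = t x := fun x => exists_coe (by
    have := sub_mem (coe_mem (φ x)) (hsm x).mem_X
    rwa [sub_sub_cancel] at this)
  choose T hT using hm
  refine ⟨AddMonoidHom.mk' T fun x y => DFunLike.coe_injective (by
    change ⇑(T (x + y)) = ⇑(T x) + ⇑(T y)
    rw [hT, hT, hT, ht]), ?_⟩
  refine markov (fun x => s fun _ => x) (C * k) _ (fun x => (hs1 _).nonneg) ?_ fun x hx => ?_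
  · refine le_of_eq_of_le ?_ hs2
    exact expect_surj (AddMonoidHom.mk' (fun (x : G) (_ : Vtx 0) => x) fun _ _ => rfl)
      (fun q => ⟨q (), rfl⟩) s
  · have h2 := hZ.sm _ F (LL d) 0 ⇑(φ x - T x) _ (LL_nodup d) (LL_zero d) (by
      rw [LL_univ]
      change F.Sm univ (⇑(φ x) - ⇑(T x)) _
      rw [hT]; exact hsm x)
    rw [zp_eq] at h2
    refine (hN β h0 h1).trans (le_trans ?_ h2)
    refine Real.rpow_le_rpow_of_exponent_le (by exact_mod_cast (Fact.out : p.Prime).one_le) ?_
    rw [hk] at hx ⊢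
    linarith

end Pool.Agent.Lib.AD
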