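import Pool.Agent.Lib.AD.EngDef

/-! Independence of two random samples modulo a bounded number of base samples. -/

noncomputable section

open Finset Module
open scoped BigOperators

namespace Pool.Agent.Lib.AD

namespace INDb

lemma pig (A : ℕ → ℕ → ℝ) (M e : ℝ) (S J : ℕ) (hM : 0 ≤ M) (hS : 4 ≤ e * S)
    (hJ : 4 * (S + 1) ≤ e * J) (h0 : ∀ s j, 0 ≤ A s j) (h1 : ∀ s j, A s j ≤ (s + 1) * M)
    (h2 : ∀ s j, A s j ≤ A (s + 1) j) :
    ∃ s < S, ∃ j < J, 2 * A (s + 1) j - A (s + 2) (j + 1) - A s (j + 1) ≤ e * M := by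
  by_contra hc
  push Not at hc
  have S0 : 0 < S := by
    rcases Nat.eq_zero_or_pos S with rfl | h
    · norm_num at hS
    · exact h
  have J0 : 0 < J := by
    rcases Nat.eq_zero_or_pos J with rfl | h
    · have : (0 : ℝ) ≤ S := Nat.cast_nonneg S
      norm_num at hJ
      linarith
    · exact h
  let P : ℕ → ℝ := fun j => ∑ s ∈ range S, A (s + 1) j
  have e1 : ∀ j, ∑ s ∈ range S, (2 * A (s + 1) j - A (s + 2) (j + 1) - A s (j + 1)) ≤
      2 * (P j - P (j + 1)) + 2 * M := by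
    intro j
    have t := sum_range_sub' (fun s => A (s + 1) (j + 1) - A s (j + 1)) S
    have a : ∑ s ∈ range S, (2 * A (s + 1) j - A (s + 2) (j + 1) - A s (j + 1)) =
        2 * (P j - P (j + 1)) + ∑ s ∈ range S, ((A (s + 1) (j + 1) - A s (j + 1)) -
          (A (s + 1 + 1) (j + 1) - A (s + 1) (j + 1))) := by
      simp only [P, ← sum_sub_distrib, mul_sum, ← sum_add_distrib]
      exact sum_congr rfl fun s _ => by ring
    rw [a, t]
    have := h0 0 (j + 1)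
    have := h1 (0 + 1) (j + 1)
    have := h2 S (j + 1)
    push_cast at *
    linarith
  have e2 : ∀ j < J, S * (e * M) <
      ∑ s ∈ range S, (2 * A (s + 1) j - A (s + 2) (j + 1) - A s (j + 1)) := by
    intro j hj
    have := sum_lt_sum_of_nonempty (s := range S) (f := fun _ => e * M) ⟨0, mem_range.2 S0⟩
      fun s hs => hc s (mem_range.1 hs) j hj
    simpa using this
  have e3 := sum_lt_sum_of_nonempty (s := range J) (f := fun _ => S * (e * M))
    ⟨0, mem_range.2 J0⟩ fun j hj => (e2 j (mem_range.1 hj)).trans_le (e1 j)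
  rw [sum_add_distrib, ← mul_sum (range J) (fun j => P j - P (j + 1)), sum_range_sub' P J] at e3
  simp only [sum_const, card_range, nsmul_eq_mul] at e3
  have p0 : P 0 ≤ S * ((S + 1) * M) := by
    have := sum_le_sum (s := range S) (f := fun s => A (s + 1) 0) (g := fun _ => (S + 1) * M)
      fun s hs => (h1 _ _).trans (mul_le_mul_of_nonneg_right (by
        have : s + 1 ≤ S := mem_range.1 hs
        exact_mod_cast Nat.succ_le_succ this) hM)
    simpa using this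
  have p1 : 0 ≤ P J := sum_nonneg fun s _ => h0 _ _
  have q1 := mul_le_mul_of_nonneg_right hS (mul_nonneg (Nat.cast_nonneg J) hM)
  have q2 := mul_le_mul_of_nonneg_right hJ (mul_nonneg (Nat.cast_nonneg S) hM)
  nlinarith

lemma ex_cons {T : Type} [Fintype T] {s : ℕ} (f : (Fin (s + 1) → T) → ℝ) :
    𝔼 η, f η = 𝔼 η : Fin s → T, 𝔼 a, f (Fin.cons a η) := by
  rw [expect_comm, ← expect_product', univ_product_univ]
  exact (Fintype.expect_equiv (Fin.consEquiv fun _ => T) _ _ fun _ => rfl).symm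

variable {F X R L N : Type} [Field F] [AddCommGroup X] [Module F X] [AddCommGroup R]
  [Module F R] [FiniteDimensional F R] [AddCommMonoid L] [AddCommMonoid N] (c : Eng F X R L N)

/-- dimension modulo the right null space -/
def rho (Y : Submodule F R) (E : N) : ℕ := finrank F (Y ⊔ c.rn E :) - finrank F (c.rn E)

lemma rho_eq (Y : Submodule F R) (E : N) :
    (rho c Y E : ℝ) = finrank F (Y ⊔ c.rn E :) - finrank F (c.rn E) :=
  Nat.cast_sub (Submodule.finrank_mono le_sup_right)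

lemma rho_le (Y : Submodule F R) (E : N) : rho c Y E ≤ finrank F Y := by
  have := Submodule.finrank_add_le_finrank_add_finrank Y (c.rn E)
  unfold rho
  omega

lemma rho_mono {Y Y' : Submodule F R} (h : Y ≤ Y') (E : N) : rho c Y E ≤ rho c Y' E :=
  Nat.sub_le_sub_right (Submodule.finrank_mono (sup_le_sup_right h _)) _

lemma rho_anti (Y : Submodule F R) {E E' : N} (h : c.rn E ≤ c.rn E') : rho c Y E' ≤ rho c Y E := by
  have h1 := Submodule.finrank_sup_add_finrank_inf_eq (Y ⊔ c.rn E) (c.rn E')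
  have h2 := Submodule.finrank_mono (le_inf (le_sup_right : c.rn E ≤ Y ⊔ c.rn E) h)
  rw [sup_assoc, sup_eq_right.2 h] at h1
  unfold rho
  omega

/-- minimiser at scale `m` -/
def amin (m : ℕ) (Y : Submodule F R) : N :=
  haveI : Nonempty N := ⟨0⟩
  Function.argmin fun E => m * rho c Y E + c.szN E

/-- penalised dimension at scale `m` -/
def rr (m : ℕ) (Y : Submodule F R) : ℝ := rho c Y (amin c m Y) + c.szN (amin c m Y) / m

omit [FiniteDimensional F R] in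
lemma amin_le (m : ℕ) (Y : Submodule F R) (E : N) :
    m * rho c Y (amin c m Y) + c.szN (amin c m Y) ≤ m * rho c Y E + c.szN E :=
  haveI : Nonempty N := ⟨0⟩
  Function.argmin_le (fun E => m * rho c Y E + c.szN E) E

omit [FiniteDimensional F R] in
lemma rr_le {m : ℕ} (hm : 0 < m) (Y : Submodule F R) (E : N) :
    rr c m Y ≤ rho c Y E + c.szN E / m := by
  have h : ((m * rho c Y (amin c m Y) + c.szN (amin c m Y) : ℕ) : ℝ) ≤
      (m * rho c Y E + c.szN E : ℕ) := by exact_mod_cast amin_le c m Y E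
  have hm' : (0 : ℝ) < m := by exact_mod_cast hm
  push_cast at h
  unfold rr
  rw [add_div' _ _ _ hm'.ne', add_div' _ _ _ hm'.ne']
  exact div_le_div_of_nonneg_right (by linarith) hm'.le

omit [FiniteDimensional F R] in
lemma rr_nonneg (m : ℕ) (Y : Submodule F R) : 0 ≤ rr c m Y := by
  unfold rr; positivity

lemma rr_le_dim {m : ℕ} (hm : 0 < m) (Y : Submodule F R) : rr c m Y ≤ finrank F Y := by
  have := rr_le c hm Y 0
  rw [c.szN_zero, Nat.cast_zero, zero_div, add_zero] at this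
  exact this.trans (by exact_mod_cast rho_le c Y 0)

lemma rr_mono {m : ℕ} (hm : 0 < m) {Y Y' : Submodule F R} (h : Y ≤ Y') : rr c m Y ≤ rr c m Y' :=
  (rr_le c hm Y _).trans (add_le_add_left (by exact_mod_cast rho_mono c h _) _)

lemma sz_amin (m : ℕ) (Y : Submodule F R) : c.szN (amin c m Y) ≤ m * finrank F Y := by
  have h := amin_le c m Y 0
  have := Nat.mul_le_mul_left m (rho_le c Y 0)
  rw [c.szN_zero] at h
  omega

lemma excess {m' : ℕ} (m : ℕ) (hm' : 0 < m') (B Q1 Q2 : Submodule F R) (E0 E : N)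
    (hE : E = E0 + (amin c m (B ⊔ Q1) + amin c m (B ⊔ Q2))) :
    (finrank F ((B ⊔ c.rn E ⊔ Q1) ⊓ (B ⊔ c.rn E ⊔ Q2) :) : ℝ) - finrank F (B ⊔ c.rn E :) ≤
      rr c m (B ⊔ Q1) + rr c m (B ⊔ Q2) - rr c m' (B ⊔ Q1 ⊔ Q2) - rr c m' B +
        2 * (c.szN E / m') := by
  have h1 : (finrank F ((B ⊔ c.rn E ⊔ Q1) ⊔ (B ⊔ c.rn E ⊔ Q2) :) : ℝ) +
      finrank F ((B ⊔ c.rn E ⊔ Q1) ⊓ (B ⊔ c.rn E ⊔ Q2) :) =
      finrank F (B ⊔ c.rn E ⊔ Q1 :) + finrank F (B ⊔ c.rn E ⊔ Q2 :) := by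
    exact_mod_cast Submodule.finrank_sup_add_finrank_inf_eq _ _
  have e1 : B ⊔ c.rn E ⊔ Q1 = B ⊔ Q1 ⊔ c.rn E := by ac_rfl
  have e2 : B ⊔ c.rn E ⊔ Q2 = B ⊔ Q2 ⊔ c.rn E := by ac_rfl
  have e3 : (B ⊔ c.rn E ⊔ Q1) ⊔ (B ⊔ c.rn E ⊔ Q2) = B ⊔ Q1 ⊔ Q2 ⊔ c.rn E := by
    rw [← sup_sup_distrib_left]; ac_rfl
  have a1 : (rho c (B ⊔ Q1) E : ℝ) ≤ rho c (B ⊔ Q1) (amin c m (B ⊔ Q1)) := by
    have : E = amin c m (B ⊔ Q1) + (E0 + amin c m (B ⊔ Q2)) := by rw [hE]; abel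
    exact_mod_cast rho_anti c _ (this ▸ c.rn_add _ _)
  have a2 : (rho c (B ⊔ Q2) E : ℝ) ≤ rho c (B ⊔ Q2) (amin c m (B ⊔ Q2)) := by
    have : E = amin c m (B ⊔ Q2) + (E0 + amin c m (B ⊔ Q1)) := by rw [hE]; abel
    exact_mod_cast rho_anti c _ (this ▸ c.rn_add _ _)
  have b1 : (rho c (B ⊔ Q1) (amin c m (B ⊔ Q1)) : ℝ) ≤ rr c m (B ⊔ Q1) :=
    le_add_of_nonneg_right (by positivity)
  have b2 : (rho c (B ⊔ Q2) (amin c m (B ⊔ Q2)) : ℝ) ≤ rr c m (B ⊔ Q2) :=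
    le_add_of_nonneg_right (by positivity)
  have c1 := rr_le c hm' (B ⊔ Q1 ⊔ Q2) E
  have c2 := rr_le c hm' B E
  rw [rho_eq] at a1 a2 c1 c2
  rw [e3] at h1
  rw [← e1] at a1
  rw [← e2] at a2
  linarith

variable {Ω T : Type}

/-- the data together with the base samples -/
def BS (B : Ω → Submodule F R) (Q : Ω → T → Submodule F R) {s : ℕ} (η : Fin s → T) (ω : Ω) :
    Submodule F R := B ω ⊔ ⨆ k, Q ω (η k)

omit [FiniteDimensional F R] in
lemma BS_cons (B : Ω → Submodule F R) (Q : Ω → T → Submodule F R) {s : ℕ} (η : Fin s → T) (a : T)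
    (ω : Ω) : BS B Q (Fin.cons a η : Fin (s + 1) → T) ω = BS B Q η ω ⊔ Q ω a := by
  unfold BS
  rw [sup_assoc]
  congr 1
  refine le_antisymm (iSup_le fun k => ?_) (sup_le (iSup_le fun k => ?_) ?_)
  · refine Fin.cases ?_ (fun k => ?_) k
    · exact le_sup_right
    · exact le_sup_of_le_left (le_iSup (fun k => Q ω (η k)) k)
  · exact le_iSup (fun k => Q ω ((Fin.cons a η : Fin (s + 1) → T) k)) k.succ
  · exact le_iSup (fun k => Q ω ((Fin.cons a η : Fin (s + 1) → T) k)) 0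

lemma dim_sup (Y Y' : Submodule F R) :
    (finrank F (Y ⊔ Y' :) : ℝ) ≤ finrank F Y + finrank F Y' := by
  exact_mod_cast Submodule.finrank_add_le_finrank_add_finrank Y Y'

lemma dim_BS (B : Ω → Submodule F R) (Q : Ω → T → Submodule F R) (cs : Ω → T → ℝ)
    (h : ∀ ω t, (finrank F (Q ω t) : ℝ) ≤ cs ω t) (ω : Ω) :
    ∀ (s : ℕ) (η : Fin s → T), (finrank F (BS B Q η ω) : ℝ) ≤ finrank F (B ω) + ∑ k, cs ω (η k)
  | 0, η => by rw [BS, iSup_of_empty, sup_bot_eq]; simp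
  | s + 1, η => by
    rw [← Fin.cons_self_tail η, BS_cons, Fin.sum_univ_succ]
    have := dim_BS B Q cs h ω s (Fin.tail η)
    have := dim_sup (BS B Q (Fin.tail η) ω) (Q ω (η 0))
    have := h ω (η 0)
    simp only [Fin.cons_zero, Fin.cons_succ]
    linarith

variable [Fintype Ω] [Fintype T]

omit [FiniteDimensional F R] in
lemma step (B : Ω → Submodule F R) (Q : Ω → T → Submodule F R) (σ : Ω → Equiv.Perm T) (s : ℕ)
    (g : Ω → Submodule F R → ℝ) :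
    𝔼 η : Fin (s + 1) → T, 𝔼 ω, g ω (BS B Q η ω) =
      𝔼 η : Fin s → T, 𝔼 ω, 𝔼 t, g ω (BS B Q η ω ⊔ Q ω (σ ω t)) := by
  rw [ex_cons]
  refine expect_congr rfl fun η _ => ?_
  rw [expect_comm]
  refine expect_congr rfl fun ω _ => ?_
  simp only [BS_cons]
  exact (Fintype.expect_equiv (σ ω) _ _ fun _ => rfl).symm

lemma cost [Nonempty T] (cs : Ω → T → ℝ) (M : ℝ) (h : 𝔼 ω, 𝔼 t, cs ω t ≤ M) :
    ∀ s : ℕ, 𝔼 η : Fin s → T, 𝔼 ω, ∑ k, cs ω (η k) ≤ s * M
  | 0 => by simp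
  | s + 1 => by
    rw [ex_cons]
    simp only [Fin.sum_univ_succ, Fin.cons_zero, Fin.cons_succ, expect_add_distrib,
      Fintype.expect_const]
    have := cost cs M h s
    rw [expect_comm] at h
    push_cast
    linarith

end INDb

open INDb in
/-- Two random samples are almost independent modulo boundedly many fixed base samples. -/
theorem Eng.ind (F : Type) [Field F] (e : ℝ) (he : 0 < e) : ∃ Λ : ℝ, 0 ≤ Λ ∧
    ∀ (X R L N : Type) [AddCommGroup X] [Module F X] [AddCommGroup R] [Module F R]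
      [FiniteDimensional F R] [AddCommMonoid L] [AddCommMonoid N] (c : Eng F X R L N)
      (Ω T : Type) [Fintype Ω] [Fintype T] [Nonempty T] (B : Ω → Submodule F R)
      (Q : Ω → T → Submodule F R) (cs : Ω → T → ℝ) (σ : Ω → Equiv.Perm T) (E0 : Ω → T → T → N)
      (M : ℝ), 0 ≤ M → (∀ ω t, (finrank F (Q ω t) : ℝ) ≤ cs ω t) →
      𝔼 ω, (finrank F (B ω) : ℝ) ≤ M → 𝔼 ω, 𝔼 t, cs ω t ≤ M →
      𝔼 ω, 𝔼 t₁, 𝔼 t₂, (c.szN (E0 ω t₁ t₂) : ℝ) ≤ M →
      ∃ (s : ℕ) (η : Fin s → T) (E : Ω → T → T → N) (W : Ω → T → T → Submodule F R),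
        (∀ ω t₁ t₂, W ω t₁ t₂ = B ω ⊔ (⨆ k, Q ω (η k)) ⊔ c.rn (E0 ω t₁ t₂ + E ω t₁ t₂)) ∧
        𝔼 ω, ∑ k, cs ω (η k) ≤ Λ * M ∧ 𝔼 ω, 𝔼 t₁, 𝔼 t₂, (c.szN (E ω t₁ t₂) : ℝ) ≤ Λ * M ∧
        𝔼 ω, 𝔼 t₁, 𝔼 t₂, ((finrank F ((W ω t₁ t₂ ⊔ Q ω (σ ω t₁)) ⊓
          (W ω t₁ t₂ ⊔ Q ω (σ ω t₂)) :) : ℝ) - finrank F (W ω t₁ t₂)) ≤ e * M := by
  obtain ⟨e, rfl⟩ : ∃ e', e = 3 * e' := ⟨e / 3, by ring⟩
  have he : 0 < e := by linarith
  obtain ⟨S, hS⟩ := exists_nat_ge (4 / e)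
  obtain ⟨J, hJ⟩ := exists_nat_ge (4 * (S + 1) / e)
  obtain ⟨K, hK⟩ := exists_nat_gt (2 * (2 * S + 5) / e)
  rw [div_le_iff₀' he] at hS hJ
  rw [div_lt_iff₀' he] at hK
  have S0 : (0 : ℝ) ≤ S := Nat.cast_nonneg S
  have K0 : 0 < K := by
    rcases Nat.eq_zero_or_pos K with rfl | h
    · norm_num at hK
      linarith
    · exact h
  have K1 : (1 : ℝ) ≤ K := by exact_mod_cast K0
  refine ⟨K ^ J * (6 * S + 10), by positivity, ?_⟩
  intro X R L N _ _ _ _ _ _ _ c Ω T _ _ _ B Q cs σ E0 M hM hQ hB hc hE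
  have c0 : ∀ ω t, 0 ≤ cs ω t := fun ω t => (Nat.cast_nonneg _).trans (hQ ω t)
  have hσ : 𝔼 ω, 𝔼 t, cs ω (σ ω t) ≤ M := le_of_eq_of_le
    (expect_congr rfl fun ω _ => Fintype.expect_equiv (σ ω) _ _ fun _ => rfl) hc
  have hd : ∀ s : ℕ, 𝔼 η : Fin s → T, 𝔼 ω, (finrank F (BS B Q η ω) : ℝ) ≤ (s + 1) * M := by
    intro s
    refine (expect_le_expect fun η _ => expect_le_expect fun ω _ =>
      dim_BS B Q cs hQ ω s η).trans ?_
    simp only [expect_add_distrib, Fintype.expect_const]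
    have := cost cs M hc s
    linarith
  obtain ⟨s, hs, j, hj, hA⟩ := pig (fun s j => 𝔼 η : Fin s → T, 𝔼 ω, rr c (K ^ j) (BS B Q η ω))
    M e S J hM hS hJ
    (fun s j => expect_nonneg fun _ _ => expect_nonneg fun _ _ => rr_nonneg c _ _)
    (fun s j => (expect_le_expect fun η _ => expect_le_expect fun ω _ =>
      rr_le_dim c (pow_pos K0 j) _).trans (hd s))
    (fun s j => by
      beta_reduce
      rw [step B Q σ s fun _ Y => rr c (K ^ j) Y]
      exact expect_le_expect fun η _ => expect_le_expect fun ω _ =>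
        le_expect univ_nonempty fun t _ => rr_mono c (pow_pos K0 j) le_sup_left)
  have sS : (s : ℝ) + 1 ≤ S := by exact_mod_cast hs
  beta_reduce at hA
  rw [step B Q σ s fun _ Y => rr c (K ^ j) Y, step B Q σ (s + 1) fun _ Y => rr c (K ^ (j + 1)) Y,
    step B Q σ s fun ω Y => 𝔼 t, rr c (K ^ (j + 1)) (Y ⊔ Q ω (σ ω t))] at hA
  let E : (Fin s → T) → Ω → T → T → N := fun η ω t₁ t₂ =>
    amin c (K ^ j) (BS B Q η ω ⊔ Q ω (σ ω t₁)) + amin c (K ^ j) (BS B Q η ω ⊔ Q ω (σ ω t₂))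
  let W : (Fin s → T) → Ω → T → T → Submodule F R := fun η ω t₁ t₂ =>
    BS B Q η ω ⊔ c.rn (E0 ω t₁ t₂ + E η ω t₁ t₂)
  let x : (Fin s → T) → ℝ := fun η => 𝔼 ω, 𝔼 t₁, 𝔼 t₂,
    ((finrank F ((W η ω t₁ t₂ ⊔ Q ω (σ ω t₁)) ⊓ (W η ω t₁ t₂ ⊔ Q ω (σ ω t₂)) :) : ℝ) -
      finrank F (W η ω t₁ t₂))
  have x0 : ∀ η, 0 ≤ x η := fun η => expect_nonneg fun ω _ => expect_nonneg fun t₁ _ =>
    expect_nonneg fun t₂ _ => sub_nonneg.2 (by
      exact_mod_cast Submodule.finrank_mono (le_inf le_sup_left le_sup_left))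
  have Kj : (1 : ℝ) ≤ K ^ j := one_le_pow₀ K1
  have hz : ∀ η ω t₁ t₂, (c.szN (E η ω t₁ t₂) : ℝ) ≤
      K ^ j * (2 * finrank F (BS B Q η ω) + cs ω (σ ω t₁) + cs ω (σ ω t₂)) := by
    intro η ω t₁ t₂
    have a : (c.szN (E η ω t₁ t₂) : ℝ) ≤ K ^ j * finrank F (BS B Q η ω ⊔ Q ω (σ ω t₁) :) +
        K ^ j * finrank F (BS B Q η ω ⊔ Q ω (σ ω t₂) :) := by
      exact_mod_cast (c.szN_add _ _).trans (Nat.add_le_add (sz_amin c _ _) (sz_amin c _ _))
    rw [← mul_add] at a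
    refine a.trans (mul_le_mul_of_nonneg_left ?_ (by positivity))
    have := dim_sup (BS B Q η ω) (Q ω (σ ω t₁))
    have := dim_sup (BS B Q η ω) (Q ω (σ ω t₂))
    have := hQ ω (σ ω t₁)
    have := hQ ω (σ ω t₂)
    linarith
  have hz' : ∀ η, 𝔼 ω, 𝔼 t₁, 𝔼 t₂, (c.szN (E η ω t₁ t₂) : ℝ) ≤
      K ^ j * (2 * 𝔼 ω, (finrank F (BS B Q η ω) : ℝ) + 2 * M) := by
    intro η
    refine (expect_le_expect fun ω _ => expect_le_expect fun t₁ _ => expect_le_expect fun t₂ _ =>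
      hz η ω t₁ t₂).trans ?_
    simp only [← mul_expect, expect_add_distrib, Fintype.expect_const]
    exact mul_le_mul_of_nonneg_left (by linarith) (by positivity)
  have hx : 𝔼 η, x η ≤ 2 * (e * M) := by
    have a : ∀ η, x η ≤ 𝔼 ω, 𝔼 t₁, 𝔼 t₂, (rr c (K ^ j) (BS B Q η ω ⊔ Q ω (σ ω t₁)) +
        rr c (K ^ j) (BS B Q η ω ⊔ Q ω (σ ω t₂)) -
        rr c (K ^ (j + 1)) (BS B Q η ω ⊔ Q ω (σ ω t₁) ⊔ Q ω (σ ω t₂)) -
        rr c (K ^ (j + 1)) (BS B Q η ω) +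
        2 * ((K : ℝ) ^ (j + 1))⁻¹ * (c.szN (E0 ω t₁ t₂) + c.szN (E η ω t₁ t₂))) := by
      intro η
      refine expect_le_expect fun ω _ => expect_le_expect fun t₁ _ =>
        expect_le_expect fun t₂ _ => ?_
      refine (excess c (K ^ j) (pow_pos K0 (j + 1)) _ _ _ (E0 ω t₁ t₂) _ rfl).trans ?_
      have b : (c.szN (E0 ω t₁ t₂ + E η ω t₁ t₂) : ℝ) ≤ c.szN (E0 ω t₁ t₂) + c.szN (E η ω t₁ t₂) := by
        exact_mod_cast c.szN_add _ _
      rw [div_eq_inv_mul, mul_assoc, Nat.cast_pow]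
      gcongr
    refine (expect_le_expect fun η _ => a η).trans ?_
    simp only [← mul_expect, expect_add_distrib, expect_sub_distrib, Fintype.expect_const]
    have b : 𝔼 η : Fin s → T, 𝔼 ω, 𝔼 t₁, 𝔼 t₂, (c.szN (E η ω t₁ t₂) : ℝ) ≤
        K ^ j * (2 * (S * M) + 2 * M) := by
      refine (expect_le_expect fun η _ => hz' η).trans ?_
      simp only [← mul_expect, expect_add_distrib, Fintype.expect_const]
      have := (hd s).trans (mul_le_mul_of_nonneg_right sS hM)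
      exact mul_le_mul_of_nonneg_left (by linarith) (by positivity)
    have d : 2 * ((K : ℝ) ^ (j + 1))⁻¹ * (K ^ j * ((2 * S + 5) * M)) ≤ e * M := by
      have : 2 * ((K : ℝ) ^ (j + 1))⁻¹ * (K ^ j * ((2 * S + 5) * M)) =
          2 * (2 * S + 5) / K * M := by
        rw [pow_succ]
        field_simp
      rw [this]
      exact mul_le_mul_of_nonneg_right ((div_le_iff₀ (by linarith)).2 hK.le) hM
    have f : M + K ^ j * (2 * (S * M) + 2 * M) ≤ K ^ j * ((2 * S + 5) * M) := by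
      nlinarith [mul_nonneg (sub_nonneg.2 Kj) hM]
    have g := mul_le_mul_of_nonneg_left ((add_le_add hE b).trans f)
      (by positivity : 0 ≤ 2 * ((K : ℝ) ^ (j + 1))⁻¹)
    linarith
  have S1 : (0 : ℝ) < S + 1 := by linarith
  obtain ⟨η, -, hη⟩ := exists_le_of_expect_le (s := univ)
    (f := fun η : Fin s → T => x η + e / (S + 1) * 𝔼 ω, ∑ k, cs ω (η k)) (a := 3 * (e * M))
    univ_nonempty (by
      rw [expect_add_distrib, ← mul_expect]
      have a := (cost cs M hc s).trans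
        (mul_le_mul_of_nonneg_right (by linarith : (s : ℝ) ≤ S + 1) hM)
      have b := mul_le_mul_of_nonneg_left a (by positivity : 0 ≤ e / (S + 1))
      rw [← mul_assoc, div_mul_cancel₀ _ S1.ne'] at b
      linarith)
  have C0 : 0 ≤ 𝔼 ω, ∑ k, cs ω (η k) := expect_nonneg fun ω _ => sum_nonneg fun k _ => c0 _ _
  have C1 : 𝔼 ω, ∑ k, cs ω (η k) ≤ 3 * (S + 1) * M := by
    have a : e / (S + 1) * 𝔼 ω, ∑ k, cs ω (η k) ≤ e / (S + 1) * (3 * (S + 1) * M) := by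
      have : e / (S + 1) * (3 * (S + 1) * M) = 3 * (e * M) := by field_simp
      linarith [x0 η]
    exact le_of_mul_le_mul_left a (by positivity)
  have KJ : (K : ℝ) ^ j ≤ K ^ J := pow_le_pow_right₀ K1 hj.le
  have SM : 0 ≤ (6 * S + 10) * M := by positivity
  refine ⟨s, η, E η, W η, fun _ _ _ => rfl, ?_, (hz' η).trans ?_, ?_⟩
  · rw [mul_assoc]
    nlinarith [mul_nonneg (sub_nonneg.2 (Kj.trans KJ)) SM, mul_nonneg S0 hM]
  · have a := expect_le_expect (s := univ) fun ω _ => dim_BS B Q cs hQ ω s η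
    rw [expect_add_distrib] at a
    rw [mul_assoc]
    exact mul_le_mul KJ (by linarith) (by
      have : 0 ≤ 𝔼 ω, (finrank F (BS B Q η ω) : ℝ) := expect_nonneg fun _ _ => Nat.cast_nonneg _
      linarith) (by positivity)
  · have := mul_nonneg (by positivity : 0 ≤ e / (S + 1)) C0
    change x η ≤ _
    linarith

end Pool.Agent.Lib.AD
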