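import Pool.Agent.Lib.AD.Blue2
import Pool.Agent.Lib.AD.LvApi

/-! The projection at the end of a level. -/

noncomputable section

open Finset Module
open scoped BigOperators

set_option linter.unusedSectionVars false

namespace Pool.Agent.Lib.AD

section rank

variable {ι : Type} [Fintype ι] [DecidableEq ι]

lemma last_rk_lt (J : Finset ι) : rk J < rkB ι := by
  unfold rk rkB
  have h1 := (Fintype.equivFin (Finset ι) J).2
  have h2 : (Fintype.card ι - J.card) * Fintype.card (Finset ι) ≤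
      Fintype.card ι * Fintype.card (Finset ι) := Nat.mul_le_mul_right _ (Nat.sub_le _ _)
  rw [Nat.add_mul, Nat.one_mul]
  omega

lemma last_rk_card {J B : Finset ι} (h : J.card < B.card) : rk B < rk J := by
  unfold rk
  have h1 := (Fintype.equivFin (Finset ι) B).2
  have h0 := card_le_univ B
  have h2 : (Fintype.card ι - B.card + 1) * Fintype.card (Finset ι) ≤
      (Fintype.card ι - J.card) * Fintype.card (Finset ι) := Nat.mul_le_mul_right _ (by omega)
  rw [Nat.add_mul, Nat.one_mul] at h2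
  omega

lemma last_rk_inj {J B : Finset ι} (h : rk J = rk B) : J = B := by
  have h1 := congrArg (· % Fintype.card (Finset ι)) h
  simp only [rk, Nat.mul_add_mod_self_right] at h1
  rw [Nat.mod_eq_of_lt (Fintype.equivFin (Finset ι) J).2,
    Nat.mod_eq_of_lt (Fintype.equivFin (Finset ι) B).2] at h1
  exact (Fintype.equivFin (Finset ι)).injective (Fin.ext h1)

lemma last_pk {B1 B2 J J' : Finset ι} (h : rk B1 < rk J) : pk B1 B2 + 1 ≤ pk J J' := by
  unfold pk
  have h1 := last_rk_lt B2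
  have h2 : (rk B1 + 1) * rkB ι ≤ rk J * rkB ι := Nat.mul_le_mul_right _ h
  rw [Nat.add_mul, Nat.one_mul] at h2
  omega

end rank

section frame

variable {K ι A : Type} [Field K] [Fintype ι] [DecidableEq ι] [CommRing A] [Algebra K A]
  (F : Frame K ι A)

lemma last_proj (W Q : Submodule K A) : ∃ φ : A →ₗ[K] A, (∀ x, φ x ∈ Q) ∧ (∀ x ∈ W, φ x = 0) ∧
    ∀ x ∈ Q, x - φ x ∈ W := by
  obtain ⟨s, hs⟩ := (W.mkQ ∘ₗ Q.subtype).rangeRestrict.exists_rightInverse_of_surjective
    (LinearMap.range_rangeRestrict _)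
  obtain ⟨t, ht⟩ := (LinearMap.range (W.mkQ ∘ₗ Q.subtype)).subtype.exists_leftInverse_of_injective
    (Submodule.ker_subtype _)
  refine ⟨Q.subtype ∘ₗ s ∘ₗ t ∘ₗ W.mkQ, fun x => (s _).2, fun x hx => ?_, fun x hx => ?_⟩
  · have : W.mkQ x = 0 := (Submodule.Quotient.mk_eq_zero W).2 hx
    simp [this]
  · have h1 : t (W.mkQ x) = ⟨W.mkQ x, ⟨x, hx⟩, rfl⟩ :=
      LinearMap.congr_fun ht ⟨W.mkQ x, ⟨x, hx⟩, rfl⟩
    have h2 := congrArg Subtype.val (LinearMap.congr_fun hs ⟨W.mkQ x, ⟨x, hx⟩, rfl⟩)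
    rw [← Submodule.Quotient.eq]
    change W.mkQ x = W.mkQ (s (t (W.mkQ x)))
    rw [h1]
    exact h2.symm

lemma last_bw_mul {I J J' : Finset ι} (hI : I ⊆ J) (hd : Disjoint J J') (κ : A →ₗ[K] A)
    {x y : A} (hx : x ∈ F.X J) (hy : y ∈ F.X J') : F.bw I κ (x * y) = F.bw I κ x * y := by
  rw [← Lv.X_split F hI] at hx
  refine Submodule.mul_induction_on hx (fun a ha b hb => ?_) fun a b ha hb => ?_
  · have h1 : b * y ∈ F.X (J \ I ∪ J') :=
      F.X_mul _ _ (hd.mono_left sdiff_subset) ▸ Submodule.mul_mem_mul hb hy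
    rw [mul_assoc, F.bw_mul I _ κ (disjoint_union_right.2 ⟨disjoint_sdiff, hd.mono_left hI⟩) a ha
      _ h1, F.bw_mul I _ κ disjoint_sdiff a ha b hb, mul_assoc]
  · rw [add_mul, map_add, map_add, ha, hb, add_mul]

lemma last_bw_blk {I J : Finset ι} (hd : Disjoint I J) (κ : A →ₗ[K] A) {W Q Y : Submodule K A}
    (hW : W ≤ F.X I) (hY : Y ≤ F.X J) (hκ : ∀ a ∈ W, κ a ∈ Q) {x : A} (hx : x ∈ W * Y) :
    F.bw I κ x ∈ Q * Y := by
  refine Submodule.mul_induction_on hx (fun a ha b hb => ?_) fun a b ha hb => ?_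
  · rw [F.bw_mul I J κ hd a (hW ha) b (hY hb)]
    exact Submodule.mul_mem_mul (hκ a ha) hb
  · rw [map_add]
    exact add_mem ha hb

lemma last_bw_out {I J J' : Finset ι} (hI : I ⊆ J) (hd : Disjoint J J') (κ : A →ₗ[K] A)
    {Q Y : Submodule K A} (hY : Y ≤ F.X J') (hκ : ∀ a, κ a ∈ Q) {x : A} (hx : x ∈ Y * F.X J) :
    F.bw I κ x ∈ Y * (Q * F.X (J \ I)) := by
  refine Submodule.mul_induction_on hx (fun a ha b hb => ?_) fun a b ha hb => ?_
  · rw [mul_comm a b, last_bw_mul F hI hd κ hb (hY ha), mul_comm _ a]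
    refine Submodule.mul_mem_mul ha (last_bw_blk F disjoint_sdiff κ le_rfl le_rfl
      (fun c _ => hκ c) ?_)
    rwa [Lv.X_split F hI]
  · rw [map_add]
    exact add_mem ha hb

lemma last_bw_sm [FiniteDimensional K A] {D I : Finset ι} (hI : I ⊆ D) (κ : A →ₗ[K] A)
    (hκ : ∀ a, κ a ∈ F.X I) {e : A} {r : ℝ} (h : F.SmC D I e r) : F.Sm D (F.bw I κ e) r := by
  obtain ⟨E, h1, h2, h3, h4⟩ := h
  refine ⟨fun J => if I ⊆ J then (E J).map (F.bw I κ) else E J, fun J => ⟨?_, fun c => ?_⟩,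
    le_trans (sum_le_sum fun J _ => ?_) h3, ?_⟩
  · dsimp only
    split_ifs with c
    · rintro _ ⟨x, hx, rfl⟩
      rw [← Lv.X_split F c]
      refine last_bw_blk F disjoint_sdiff κ le_rfl le_rfl (fun c _ => hκ c) ?_
      rw [Lv.X_split F c]
      exact (h1 J).1 hx
    · exact (h1 J).1
  · refine (h1 J).2 fun c' => c ?_
    simp [c']
  · refine Nat.cast_le.2 ?_
    by_cases c : I ⊆ J
    · exact (congrArg (fun W : Submodule K A => finrank K W) (if_pos c)).trans_le
        (Submodule.finrank_map_le _ _)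
    · exact (congrArg (fun W : Submodule K A => finrank K W) (if_neg c)).le
  · refine (Lv.idl_le_iff F (M := Submodule.comap (F.bw I κ) (F.idl _ D))).2 (fun J hJ => ?_) h4
    intro x hx
    refine Lv.mul_le_idl F _ hJ ?_
    by_cases c : I ⊆ J
    · rw [if_pos c]
      refine Submodule.mul_induction_on hx (fun a ha b hb => ?_) fun a b ha hb => ?_
      · rw [last_bw_mul F c disjoint_sdiff κ ((h1 J).1 ha) hb]
        exact Submodule.mul_mem_mul (Submodule.mem_map_of_mem ha) hb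
      · rw [map_add]
        exact add_mem ha hb
    · rw [if_neg c]
      by_cases c' : E J = ⊥
      · rw [c', Submodule.bot_mul, Submodule.mem_bot] at hx
        rw [hx, map_zero]
        exact zero_mem _
      · have h5 : I ⊆ D \ J := subset_sdiff.2 ⟨hI, ((h2 J c').resolve_left c).symm⟩
        have h6 := last_bw_out F h5 sdiff_disjoint κ (h1 J).1 hκ hx
        rwa [Lv.X_split F h5] at h6

lemma last_idl_mul {L : Sys K ι A} {B : Finset ι} {Y M : Submodule K A}
    (h : ∀ J, J ⊆ B → L J ≠ ⊥ → L J * F.X (B \ J) * Y ≤ M) : F.idl L B * Y ≤ M := by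
  unfold Frame.idl
  rw [Submodule.iSup_mul]
  refine iSup_le fun J => ?_
  rw [Submodule.iSup_mul]
  refine iSup_le fun hJ => ?_
  by_cases c : L J = ⊥
  · simp [c]
  · exact h J hJ c

lemma last_two {D J J' : Finset ι} {l : ℕ} (S : Sys K ι A) (h : Pair D J J') (hl : l ≤ pk J J') :
    S J * S J' * F.X (D \ (J ∪ J')) ≤ F.prs D l S :=
  le_iSup_of_le J (le_iSup_of_le J' (le_iSup_of_le ⟨h, hl⟩ le_rfl))

lemma last_pair {D B1 B2 J J' : Finset ι} (S : Sys K ι A) (h0 : J.Nonempty) (h0' : J'.Nonempty)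
    (h1 : J ⊆ D) (h1' : J' ⊆ D) (hd : Disjoint J J') (h2 : rk B1 < rk J) (h2' : rk B1 < rk J') :
    S J * S J' * F.X (D \ (J ∪ J')) ≤ F.prs D (pk B1 B2 + 1) S := by
  rcases lt_trichotomy (rk J) (rk J') with h | h | h
  · exact last_two F S ⟨h0, h0', h1, h1', hd, h⟩ (last_pk h2)
  · obtain rfl := last_rk_inj h
    exact absurd (disjoint_self.1 hd) h0.ne_empty
  · rw [mul_comm (S J), union_comm]
    exact last_two F S ⟨h0', h0, h1', h1, hd.symm, h⟩ (last_pk h2')

end frame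

theorem stLAST (p : ℕ) [Fact p.Prime] (ι : Type) [Fintype ι] [DecidableEq ι] : St_LAST p ι := by
  intro A _ _ _ F D B1 B2 S1 L1 L2 N P Q P' Q' Z r hp hS1 hn hP hQ hP' hQ' hZ hr
  obtain ⟨n1, n2, s1, s2, hd, hrk⟩ := hp
  obtain ⟨l1, l2, l3, l4⟩ := hn
  obtain ⟨y, hy, he⟩ := hr
  obtain ⟨φ, f1, f2, f3⟩ := last_proj (Q ⊔ F.idl L2 B2) Q'
  set S : Sys (ZMod p) ι A := sgl B1 P' ⊔ sgl B2 Q' ⊔ L1 ⊔ L2 ⊔ N with hS
  set T : Sys (ZMod p) ι A := S1 ⊔ sgl B1 P ⊔ sgl B2 Q with hT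
  have a1 : P' ≤ S B1 := by
    refine le_trans ?_ (le_sup_left.trans (le_sup_left.trans (le_sup_left.trans le_sup_left)))
    simp [sgl]
  have a2 : Q' ≤ S B2 := by
    refine le_trans ?_ (le_sup_right.trans (le_sup_left.trans (le_sup_left.trans le_sup_left)))
    simp [sgl]
  have a3 : ∀ J, L1 J ≤ S J := fun J => le_sup_right.trans (le_sup_left.trans le_sup_left)
  have a4 : ∀ J, L2 J ≤ S J := fun J => le_sup_right.trans le_sup_left
  have a5 : ∀ J, N J ≤ S J := fun J => le_sup_right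
  have b1 : P ≤ T B1 := by
    refine le_trans ?_ (le_sup_right.trans le_sup_left)
    simp [sgl]
  have b2 : Q ≤ T B2 := by
    refine le_trans ?_ le_sup_right
    simp [sgl]
  have b3 : S1 ≤ T := le_sup_left.trans le_sup_left
  have hd' := disjoint_left.1 hd
  have d1 : Disjoint B1 (D \ (B1 ∪ B2)) := disjoint_sdiff.mono_left subset_union_left
  have d2 : Disjoint B2 (D \ (B1 ∪ B2)) := disjoint_sdiff.mono_left subset_union_right
  have e1 : B1 ∪ D \ (B1 ∪ B2) = D \ B2 := by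
    ext a
    have := @s1 a
    have := @hd' a
    simp only [mem_union, mem_sdiff]
    tauto
  have e2 : (D \ B1) \ B2 = D \ (B1 ∪ B2) := by rw [sdiff_sdiff_left, sup_eq_union]
  have s3 : B2 ⊆ D \ B1 := subset_sdiff.2 ⟨s2, hd.symm⟩
  have c1 : P' * F.X (D \ (B1 ∪ B2)) ≤ F.X (D \ B2) := by
    rw [← e1, ← F.X_mul _ _ d1]
    exact mul_le_mul' hP' le_rfl
  have hW : Q ⊔ F.idl L2 B2 ≤ F.X B2 := sup_le hQ (Lv.idl_le_X F (fun J => (l2 J).1) _)
  have hW1 : P ⊔ F.idl L1 B1 ≤ F.X B1 := sup_le hP (Lv.idl_le_X F (fun J => (l1 J).1) _)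
  have t1 : Z - F.bw B2 φ Z ∈ (Q ⊔ F.idl L2 B2) * (P' * F.X (D \ (B1 ∪ B2))) := by
    have h1 : Z ∈ Q' * (P' * F.X (D \ (B1 ∪ B2))) := by
      rw [← mul_assoc, mul_comm Q']
      exact hZ
    refine Submodule.mul_induction_on h1 (fun a ha b hb => ?_) fun a b ha hb => ?_
    · rw [F.bw_mul B2 _ φ disjoint_sdiff a (hQ' ha) b (c1 hb), ← sub_mul]
      exact Submodule.mul_mem_mul (f3 a ha) hb
    · rw [map_add, add_sub_add_comm]
      exact add_mem ha hb
  have t2 : (Q ⊔ F.idl L2 B2) * (P' * F.X (D \ (B1 ∪ B2))) ≤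
      F.idl T D ⊔ F.prs D (pk B1 B2 + 1) S := by
    rw [Submodule.sup_mul]
    refine sup_le_sup ((mul_le_mul' b2 c1).trans (Lv.mul_le_idl F T s2))
      (last_idl_mul F fun J hJ hL => ?_)
    obtain ⟨j0, j1⟩ := (l2 J).2 hL
    have k1 := last_rk_card (card_lt_card j1)
    have k2 : B2 \ J ∪ D \ (B1 ∪ B2) = D \ (B1 ∪ J) := by
      ext a
      have := @s2 a
      have := @hJ a
      have := @hd' a
      simp only [mem_union, mem_sdiff]
      tauto
    refine le_trans ?_ (last_two F S (J := B1) (J' := J)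
      ⟨n1, j0, s1, hJ.trans s2, hd.mono_right hJ, hrk.trans k1⟩ (by unfold pk; omega))
    rw [← k2, ← F.X_mul _ _ (d2.mono_left sdiff_subset)]
    refine le_trans (le_of_eq ?_) (mul_le_mul' (mul_le_mul' a1 (a4 J)) le_rfl)
    ring
  have t3 : F.nul D B1 B2 S1 P Q L1 L2 N ≤
      (F.idl T D ⊔ F.prs D (pk B1 B2 + 1) S).comap (F.bw B2 φ) := by
    refine sup_le (sup_le (fun x hx => ?_) fun x hx => ?_) fun x hx => ?_
    · have h1 := last_bw_out F s3 sdiff_disjoint φ hW1 f1 hx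
      rw [Submodule.sup_mul] at h1
      refine (sup_le_sup ((mul_le_mul' b1 ?_).trans (Lv.mul_le_idl F T s1))
        (last_idl_mul F fun J hJ hL => ?_) : _ ≤ F.idl T D ⊔ F.prs D (pk B1 B2 + 1) S) h1
      · rw [← Lv.X_split F s3]
        exact mul_le_mul' hQ' le_rfl
      · obtain ⟨j0, j1⟩ := (l1 J).2 hL
        have k2 : B1 \ J ∪ D \ (B1 ∪ B2) = D \ (J ∪ B2) := by
          ext a
          have := @s1 a
          have := @hJ a
          have := @hd' a
          simp only [mem_union, mem_sdiff]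
          tauto
        refine le_trans ?_ (last_pair F S j0 n2 (hJ.trans s1) s2 (hd.mono_left hJ)
          (last_rk_card (card_lt_card j1)) hrk)
        rw [← k2, ← F.X_mul _ _ (d1.mono_left sdiff_subset), e2]
        refine le_trans (le_of_eq ?_) (mul_le_mul' (mul_le_mul' (a3 J) a2) le_rfl)
        ring
    · have h1 := last_bw_blk F (Q := ⊥) disjoint_sdiff φ hW le_rfl (fun a ha => f2 a ha) hx
      rw [Submodule.bot_mul, Submodule.mem_bot] at h1
      rw [Submodule.mem_comap, h1]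
      exact zero_mem _
    · have g1 : F.idl (S1 ⊔ N) (D \ (B1 ∪ B2)) ≤ F.X (D \ (B1 ∪ B2)) :=
        Lv.idl_le_X F (fun J => sup_le (hS1 J).1 (l3 J).1) _
      have g2 : F.X B1 * F.idl (S1 ⊔ N) (D \ (B1 ∪ B2)) ≤ F.X (D \ B2) := by
        rw [← e1, ← F.X_mul _ _ d1]
        exact mul_le_mul' le_rfl g1
      rw [mul_comm (F.X B1), mul_assoc] at hx
      have h1 := last_bw_blk F disjoint_sdiff φ le_rfl g2 (fun a _ => f1 a) hx
      rw [← mul_assoc, mul_comm, Lv.idl_sup, Submodule.sup_mul] at h1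
      refine (sup_le_sup ?_ (last_idl_mul F fun J hJ hL => ?_) :
        _ ≤ F.idl T D ⊔ F.prs D (pk B1 B2 + 1) S) h1
      · have g3 : Q' * F.X B1 ≤ F.X (B1 ∪ B2) := by
          rw [← F.X_mul _ _ hd, mul_comm]
          exact mul_le_mul' le_rfl hQ'
        refine (mul_le_mul' (Lv.idl_mono F b3 _) g3).trans
          ((Lv.idl_mul F T sdiff_disjoint).trans (le_of_eq ?_))
        rw [sdiff_union_of_subset (union_subset s1 s2)]
      · obtain ⟨j0, j1⟩ := (l3 J).2 hL
        have k2 : (D \ (B1 ∪ B2)) \ J ∪ B1 = D \ (J ∪ B2) := by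
          ext a
          have := @s1 a
          have := @hJ a
          have := @hd' a
          simp only [mem_union, mem_sdiff] at *
          tauto
        refine le_trans ?_ (last_pair F S j0 n2 j1.subset s2 (d2.symm.mono_left hJ) (l4 J hL) hrk)
        rw [← k2, ← F.X_mul _ _ (d1.symm.mono_left sdiff_subset)]
        refine le_trans (le_of_eq ?_) (mul_le_mul' (mul_le_mul' (a5 J) a2) le_rfl)
        ring
  refine ⟨Z - F.bw B2 φ Z + F.bw B2 φ y, add_mem (t2 t1) (t3 hy), ?_⟩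
  have h1 := last_bw_sm F s2 φ (fun a => hQ' (f1 a)) he
  rw [map_sub] at h1
  convert h1 using 1
  ring

end Pool.Agent.Lib.AD
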