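import Pool.Agent.Lib.AD.Ord
import Pool.Agent.Lib.AD.Api2
import Pool.Agent.Lib.AD.LvApi

/-! One level of the approximation. -/

noncomputable section

open Finset Module
open scoped BigOperators

namespace Pool.Agent.Lib.AD

namespace LEVb

variable {K ι A : Type} [Field K] [Fintype ι] [DecidableEq ι] [CommRing A] [Algebra K A]
  [FiniteDimensional K A] {F : Frame K ι A} {D B1 B2 : Finset ι}

omit [Fintype ι] [DecidableEq ι] in
lemma finrank_finsup {β : Type} (s : Finset β) (W : β → Submodule K A) :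
    (finrank K (s.sup W : Submodule K A) : ℝ) ≤ ∑ b ∈ s, (finrank K (W b) : ℝ) := by
  classical
  induction s using Finset.induction_on with
  | empty => simp
  | insert b s hb ih =>
    rw [sup_insert, sum_insert hb]
    have : (finrank K (W b ⊔ s.sup W : Submodule K A) : ℝ) ≤
        finrank K (W b) + finrank K (s.sup W : Submodule K A) := by
      exact_mod_cast Submodule.finrank_add_le_finrank_add_finrank _ _
    linarith

omit [Fintype ι] [FiniteDimensional K A] in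
lemma bd_mono {H : Type} [Fintype H] {u : H → A} {k k' : ℝ} (h : F.Bd2 D B1 B2 u k)
    (hk : k ≤ k') : F.Bd2 D B1 B2 u k' := by
  obtain ⟨P, Q, h1, h2, h3⟩ := h
  exact ⟨P, Q, h1, h2.trans hk, h3.trans hk⟩

lemma bd_sub {H : Type} [Fintype H] {u v : H → A} {k k' : ℝ} (h : F.Bd2 D B1 B2 u k)
    (h' : F.Bd2 D B1 B2 v k') : F.Bd2 D B1 B2 (u - v) (k + k') := by
  obtain ⟨P, Q, h1, h2, h3⟩ := h
  obtain ⟨P', Q', h1', h2', h3'⟩ := h'
  refine ⟨fun q => P q ⊔ P' q, fun q => Q q ⊔ Q' q, fun q => ⟨sup_le (h1 q).1 (h1' q).1,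
    sup_le (h1 q).2.1 (h1' q).2.1, sub_mem (Frame.two_mono _ _ _ le_sup_left le_sup_left (h1 q).2.2)
      (Frame.two_mono _ _ _ le_sup_right le_sup_right (h1' q).2.2)⟩, ?_, ?_⟩
  · refine le_trans (expect_le_expect fun q _ => finrank_sup_le (P q) (P' q)) ?_
    rw [expect_add_distrib]; linarith
  · refine le_trans (expect_le_expect fun q _ => finrank_sup_le (Q q) (Q' q)) ?_
    rw [expect_add_distrib]; linarith

lemma bd_cD {G : Type} [AddCommGroup G] [Fintype G] (n : ℕ) {u : Cube n.pred G → A} {k : ℝ}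
    (hk : 0 ≤ k) (h : F.Bd2 D B1 B2 u k) : F.Bd2 D B1 B2 (cD n u) (3 * (n + 1) * k) := by
  cases n with
  | zero =>
    refine ⟨fun _ => ⊥, fun _ => ⊥, fun q => ⟨bot_le, bot_le, zero_mem _⟩, ?_, ?_⟩ <;>
      simp <;> positivity
  | succ m =>
    obtain ⟨P, Q, h1, h2, h3⟩ := h
    have key : ∀ W : Cube m G → Submodule K A, 𝔼 q, (finrank K (W q) : ℝ) ≤ k →
        𝔼 q : Cube (m + 1) G, (finrank K (univ.sup fun c : Fin (m + 1) × Option Bool =>
          W (fc m c.1 c.2 q) : Submodule K A) : ℝ) ≤ 3 * ((m + 1 : ℕ) + 1) * k := by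
      intro W hW
      refine le_trans (expect_le_expect fun q _ => finrank_finsup _ _) ?_
      rw [Lv.expect_faces m fun q => (finrank K (W q) : ℝ)]
      push_cast
      nlinarith [mul_le_mul_of_nonneg_left hW (by positivity : (0 : ℝ) ≤ 3 * (m + 1))]
    refine ⟨_, _, fun q => ⟨Finset.sup_le fun c _ => (h1 _).1, Finset.sup_le fun c _ => (h1 _).2.1,
      ?_⟩, key P h2, key Q h3⟩
    refine cd_mem _ m u q fun i c => Frame.two_mono _ _ _ ?_ ?_ (h1 _).2.2
    · exact le_sup (f := fun c : Fin (m + 1) × Option Bool => P (fc m c.1 c.2 q)) (mem_univ (i, c))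
    · exact le_sup (f := fun c : Fin (m + 1) × Option Bool => Q (fc m c.1 c.2 q)) (mem_univ (i, c))

omit [FiniteDimensional K A] in
lemma bd_sma {H : Type} [Fintype H] {u : H → A} {k : ℝ} (hp : Pair D B1 B2)
    (h : F.Bd2 D B1 B2 u k) : F.SmA D u k := by
  obtain ⟨P, Q, h1, h2, -⟩ := h
  exact ⟨_, fun q => Frame.sm_of_mul (h1 q).1 hp.1 hp.ss1
    (Frame.two_le_left hp.2.2.2.1 hp.2.2.2.2.1 _ (h1 q).2.1 (h1 q).2.2), h2⟩

omit [Fintype ι] [DecidableEq ι] [FiniteDimensional K A] in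
lemma cD_add {G : Type} [AddCommGroup G] (n : ℕ) (b b' : Cube n.pred G → A) :
    cD n (b + b') = cD n b + cD n b' := by
  cases n with
  | zero => simp [cD]
  | succ m => exact cd_add m b b'

end LEVb

open LEVb

theorem stLEV (p : ℕ) [Fact p.Prime] (ι : Type) [Fintype ι] [DecidableEq ι] : St_LEV p ι := by
  rintro hL n d ⟨C2, hC2, hE⟩ ⟨C1, hC1, hP⟩
  obtain ⟨a, ha⟩ : ∃ a : ℝ, a = 3 * (n + 1) := ⟨_, rfl⟩
  have a0 : 0 ≤ a := by rw [ha]; positivity
  refine ⟨1 + C2 * (C1 * a), by positivity, fun η hη => ?_⟩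
  obtain ⟨ε, hε, hε'⟩ : ∃ ε : ℝ, 0 < ε ∧ C2 * (ε * (a + 1)) ≤ η / 2 := by
    refine ⟨η / (2 * (C2 + 1) * (a + 1)), by positivity, ?_⟩
    have : C2 * (η / (2 * (C2 + 1) * (a + 1)) * (a + 1)) = η / 2 * (C2 / (C2 + 1)) := by
      field_simp
    rw [this]
    exact mul_le_of_le_one_right (by positivity) ((div_le_one (by positivity)).2 (by linarith))
  obtain ⟨M, hM, hP⟩ := hP ε hε
  obtain ⟨M1, hM1⟩ : ∃ M1 : ℝ, M1 = M * (a + 1) + 1 := ⟨_, rfl⟩
  have m1 : 1 ≤ M1 := by rw [hM1]; nlinarith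
  obtain ⟨K2, hK2, hE⟩ := hE (η / (2 * M1)) (by positivity)
  refine ⟨3 + M + (2 * a + 3) * (K2 * M1), by positivity, ?_⟩
  intro k δ hk hδ A _ _ _ F D G _ _ c l hD hc ⟨b, S0, S, e, hb, hS0, sS0, hS, sS, he, hq⟩
  have : FiniteDimensional (ZMod p) A := Module.Finite.of_finite
  have hKk : 0 ≤ K2 * M1 * k := by positivity
  have hMk : 0 ≤ M * k := by positivity
  have haK : 0 ≤ a * (K2 * M1 * k) := by positivity
  have hCδ : 0 ≤ C2 * (C1 * a) * δ := by positivity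
  have hηk : 0 ≤ η * k := by positivity
  by_cases hl : ∃ B1 B2, Pair D B1 B2 ∧ pk B1 B2 = l
  swap
  · exact ⟨b, S0, S, e, hb.mono (by nlinarith), hS0, by nlinarith, hS, by nlinarith,
      he.mono (by nlinarith), fun q => sup_le_sup_left (Frame.prs_succ_of_not _ hl) _ (hq q)⟩
  obtain ⟨B1, B2, hp, rfl⟩ := hl
  have h1 : ∀ q, ∃ T ∈ F.two D B1 B2 (S q B1) (S q B2),
      c q - cD n b q - e q - T ∈ F.idl S0 D ⊔ F.prs D (pk B1 B2 + 1) (S q) := by
    intro q
    have := sup_le_sup_left (Frame.prs_succ (F := F) D B1 B2 (S q)) _ (hq q)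
    rw [sup_left_comm] at this
    obtain ⟨T, hT, w, hw, e'⟩ := Submodule.mem_sup.1 this
    exact ⟨T, hT, by rw [← e']; simpa using hw⟩
  choose T hT hw using h1
  have hBd : F.Bd2 D B1 B2 T k := ⟨fun q => S q B1, fun q => S q B2,
    fun q => ⟨(hS q).le _, (hS q).le _, hT q⟩,
    (expect_le_expect fun q _ => finrank_le_sz _ _).trans sS,
    (expect_le_expect fun q _ => finrank_le_sz _ _).trans sS⟩
  obtain ⟨S1, hS1, sS1, hP⟩ := hP A F D S0 k hD hS0 sS0
  obtain ⟨r, hr, er⟩ := he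
  let Sh : Cube (n + 1) G → Sys (ZMod p) ι A := fun q =>
    univ.sup fun c : Fin (n + 1) × Option Bool => S (fc n c.1 c.2 q)
  have hle : ∀ q i c, S (fc n i c q) ≤ Sh q := fun q i c =>
    le_sup (f := fun c : Fin (n + 1) × Option Bool => S (fc n c.1 c.2 q)) (mem_univ (i, c))
  have sSh : 𝔼 q, sz (Sh q) ≤ a * k := by
    refine le_trans (expect_le_expect fun q _ => Lv.sz_finsup _ _) ?_
    rw [Lv.expect_faces n fun q => sz (S q), ← ha]
    exact mul_le_mul_of_nonneg_left sS a0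
  have hcd : cd n T + cd n (c - cD n b - e - T) = -cd n e := by
    rw [cd_sub, cd_sub, cd_sub, hc, cd_cD]; abel
  have h2 : ∀ q, ∃ L1 L2 N : Sys (ZMod p) ι A, F.NulD D B1 B2 L1 L2 N ∧
      sz L1 + sz L2 + sz N ≤ M * (sz (Sh q) + k) ∧
      F.NrC D B2 (F.nul D B1 B2 S1 (S1 B1) (S1 B2) L1 L2 N) (cd n T q)
        (C1 * (∑ c : Fin (n + 1) × Option Bool, r (fc n c.1 c.2 q)) + ε * (sz (Sh q) + k)) := by
    intro q
    refine hP B1 B2 (Sh q) _ _ hp (Lv.Ty.finsup _ fun _ _ => hS _)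
      (cd_mem _ n T q fun i c => Frame.two_mono _ _ _ (hle q i c B1) (hle q i c B2) (hT _))
      ⟨-cd n (c - cD n b - e - T) q, neg_mem (cd_mem _ n _ q fun i c' =>
        sup_le_sup_left (Frame.prs_mono _ _ (hle q i c')) _ (hw _)), ?_⟩
    have := congrFun hcd q
    simp only [Pi.add_apply, Pi.neg_apply] at this
    rw [sub_neg_eq_add, this]
    exact (Lv.sm_cd hr q).neg
  choose L1 L2 N hN sN hnr using h2
  have hMM : M * k ≤ M1 * k := by rw [hM1]; nlinarith [mul_nonneg hMk a0]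
  obtain ⟨b', hb', P, Q, L1', L2', N', r', hP', hQ', dP, dQ, hN', sN', er', hnr'⟩ :=
    hE (M1 * k) (C1 * a * δ + ε * (a + 1) * k) (by positivity) (by positivity) A F D B1 B2 S1 G T
      hp hS1 (bd_mono hBd (by nlinarith)) ⟨S1 B1, S1 B2, L1, L2, N, _, hS1.le _, hS1.le _,
        ((finrank_le_sz _ _).trans sS1).trans hMM, ((finrank_le_sz _ _).trans sS1).trans hMM, hN,
        by
          refine le_trans (expect_le_expect fun q _ => sN q) ?_
          rw [← mul_expect, expect_add_distrib, Fintype.expect_const, hM1]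
          nlinarith [mul_le_mul_of_nonneg_left sSh hM],
        by
          rw [expect_add_distrib, ← mul_expect, ← mul_expect, expect_add_distrib,
            Fintype.expect_const, Lv.expect_faces n r, ← ha]
          nlinarith [mul_le_mul_of_nonneg_left sSh hε.le,
            mul_le_mul_of_nonneg_left er (mul_nonneg hC1 a0)], hnr⟩
  obtain ⟨P', Q', hZ, dP', dQ'⟩ := bd_sub hBd (bd_cD n (by positivity) hb')
  rw [← ha] at dP' dQ'
  have h3 := fun q => hL A F D B1 B2 S1 (L1' q) (L2' q) (N' q) P Q (P' q) (Q' q) _ _ hp hS1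
    (hN' q) hP' hQ' (hZ q).1 (hZ q).2.1 (hZ q).2.2 (hnr' q)
  choose y hy hs using h3
  refine ⟨b + b', S0 ⊔ (S1 ⊔ sgl B1 P ⊔ sgl B2 Q),
    fun q => S q ⊔ (sgl B1 (P' q) ⊔ sgl B2 (Q' q) ⊔ L1' q ⊔ L2' q ⊔ N' q),
    fun q => e q + ((T - cD n b') q - y q), ?_, ?_, ?_, fun q => ?_, ?_, ?_, fun q => ?_⟩
  · exact (hb.add (bd_sma hp hb')).mono (by nlinarith)
  · exact hS0.sup ((hS1.sup (Frame.prp_sgl hP' hp.1 hp.ss1)).sup
      (Frame.prp_sgl hQ' hp.2.1 hp.ss2))
  · have e1 := sz_sup S0 (S1 ⊔ sgl B1 P ⊔ sgl B2 Q)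
    have e2 := sz_sup (S1 ⊔ sgl B1 P) (sgl B2 Q)
    have e3 := sz_sup S1 (sgl B1 P)
    rw [sz_sgl] at e2 e3
    nlinarith
  · exact (hS q).sup (((((Frame.prp_sgl (hZ q).1 hp.1 hp.ss1).sup
      (Frame.prp_sgl (hZ q).2.1 hp.2.1 hp.ss2)).sup ((hN' q).1.mono hp.2.2.1)).sup
      ((hN' q).2.1.mono hp.2.2.2.1)).sup (hN' q).2.2.1)
  · refine le_trans (expect_le_expect (g := fun q => sz (S q) + ((finrank (ZMod p) (P' q) : ℝ) +
      finrank (ZMod p) (Q' q)) + (sz (L1' q) + sz (L2' q) + sz (N' q))) fun q _ => ?_) ?_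
    · have e1 := sz_sup (S q) (sgl B1 (P' q) ⊔ sgl B2 (Q' q) ⊔ L1' q ⊔ L2' q ⊔ N' q)
      have e2 := sz_sup (sgl B1 (P' q) ⊔ sgl B2 (Q' q) ⊔ L1' q ⊔ L2' q) (N' q)
      have e3 := sz_sup (sgl B1 (P' q) ⊔ sgl B2 (Q' q) ⊔ L1' q) (L2' q)
      have e4 := sz_sup (sgl B1 (P' q) ⊔ sgl B2 (Q' q)) (L1' q)
      have e5 := sz_sup (sgl B1 (P' q)) (sgl B2 (Q' q))
      rw [sz_sgl, sz_sgl] at e5
      linarith
    · rw [expect_add_distrib, expect_add_distrib, expect_add_distrib]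
      nlinarith
  · refine ⟨fun q => r q + r' q, fun q => (hr q).add (hs q), ?_⟩
    rw [expect_add_distrib]
    have e1 : η / (2 * M1) * (M1 * k) = η / 2 * k := by field_simp
    nlinarith [mul_le_mul_of_nonneg_right hε' hk]
  · have e1 : c q - cD n (b + b') q - (e q + ((T - cD n b') q - y q)) =
        (c q - cD n b q - e q - T q) + y q := by
      rw [cD_add]; simp only [Pi.add_apply, Pi.sub_apply]; abel
    rw [e1]
    exact add_mem (sup_le_sup (F.idl_mono D le_sup_left) (Frame.prs_mono _ _ le_sup_left) (hw q))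
      (sup_le_sup (F.idl_mono D le_sup_right) (Frame.prs_mono _ _ le_sup_right) (hy q))

end Pool.Agent.Lib.AD
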