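import Pool.Agent.Lib.AD.Blue2

/-! The additive case of the exact statement. -/

noncomputable section

open Finset Module
open scoped BigOperators

namespace Pool.Agent.Lib.AD

theorem stLIN (p : ℕ) [Fact p.Prime] (ι : Type) [Fintype ι] [DecidableEq ι] : St_LIN p ι := by
  rintro d ⟨C, hC, H⟩
  refine ⟨C, hC, fun A _ _ _ F D G _ _ u k hD hu => ?_⟩
  let π : Cube 0 G →+ G := ⟨⟨fun q => q (), rfl⟩, fun _ _ => rfl⟩
  have hπ : Function.Surjective π := fun g => ⟨fun _ => g, rfl⟩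
  obtain ⟨r, h1, h2⟩ := hu
  obtain ⟨b, S0, -, a1, a2, a3⟩ := H A F D G (fun q => u (π q)) k hD (by
    funext q
    have : ∀ i, π (fc 0 i none q) = π (fc 0 i (some false) q) + π (fc 0 i (some true) q) :=
      fun _ => rfl
    simp [cd, this]) ⟨fun q => r (π q), fun q => h1 _, by rwa [expect_surj π hπ r]⟩
  refine ⟨S0, a1, a2, fun g => ?_⟩
  obtain ⟨q, rfl⟩ := hπ g
  simpa [cD] using a3 q

end Pool.Agent.Lib.AD
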