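import Pool.Agent.Lib.AD.EngDef
import Pool.Agent.Lib.AD.LvApi

/-! The two-sided engine inside a frame. -/

noncomputable section

open Finset Module
open scoped BigOperators

set_option linter.unusedSectionVars false

namespace Pool.Agent.Lib.AD.Lv

variable {K ι A : Type} [Field K] [DecidableEq ι] [CommRing A] [Algebra K A] {F : Frame K ι A}

lemma bw_mem {B J : Finset ι} (h : Disjoint B J) (κ : A →ₗ[K] A) {M M' : Submodule K A}
    (hM : M ≤ F.X B) (hM' : M' ≤ F.X J) {x : A} (hx : x ∈ M * M') :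
    F.bw B κ x ∈ M.map κ * M' := by
  refine Submodule.mul_induction_on hx (fun a ha b hb => ?_) fun a b ha hb => ?_
  · rw [F.bw_mul B J κ h a (hM ha) b (hM' hb)]
    exact Submodule.mul_mem_mul (Submodule.mem_map_of_mem ha) hb
  · rw [map_add]; exact add_mem ha hb

lemma bw_mem_X {B J : Finset ι} (h : B ⊆ J) {κ : A →ₗ[K] A} (hκ : (F.X B).map κ ≤ F.X B) {x : A}
    (hx : x ∈ F.X J) : F.bw B κ x ∈ F.X J := by
  rw [← X_split F h] at hx ⊢
  exact (mul_le_mul_left hκ _ : _ ≤ _) (bw_mem disjoint_sdiff κ le_rfl le_rfl hx)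

lemma bw_congr {B J : Finset ι} (h : B ⊆ J) {κ : A →ₗ[K] A} (hκ : ∀ a ∈ F.X B, κ a = a) {x : A}
    (hx : x ∈ F.X J) : F.bw B κ x = x := by
  rw [← X_split F h] at hx
  refine Submodule.mul_induction_on hx (fun a ha b hb => ?_) fun a b ha hb => ?_
  · rw [F.bw_mul B _ κ disjoint_sdiff a ha b hb, hκ a ha]
  · rw [map_add, ha, hb]

lemma bw_mul_left {B J J' : Finset ι} (h : B ⊆ J) (h' : Disjoint J J') (κ : A →ₗ[K] A) {e g : A}
    (he : e ∈ F.X J) (hg : g ∈ F.X J') : F.bw B κ (e * g) = F.bw B κ e * g := by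
  rw [← X_split F h] at he
  refine Submodule.mul_induction_on he (fun a ha b hb => ?_) fun a b ha hb => ?_
  · have : b * g ∈ F.X (J \ B ∪ J') := by
      rw [← F.X_mul _ _ (h'.mono_left sdiff_subset)]
      exact Submodule.mul_mem_mul hb hg
    rw [mul_assoc, F.bw_mul B _ κ (disjoint_union_right.2 ⟨disjoint_sdiff, h'.mono_left h⟩) a ha _
      this, F.bw_mul B _ κ disjoint_sdiff a ha b hb, mul_assoc]
  · rw [add_mul, map_add, ha, hb, map_add, add_mul]

variable [Fintype ι] [FiniteDimensional K A]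

lemma smc_bw {B D : Finset ι} (h : B ⊆ D) {κ : A →ₗ[K] A} (hκ : (F.X B).map κ ≤ F.X B) {f : A}
    {r : ℝ} (hf : F.SmC D B f r) : F.SmC D B (F.bw B κ f) r := by
  obtain ⟨E, h1, h2, h3, h4⟩ := hf
  obtain ⟨E', hp, hn⟩ : ∃ E' : Sys K ι A, (∀ J, B ⊆ J → E' J = (E J).map (F.bw B κ)) ∧
      ∀ J, ¬ B ⊆ J → E' J = E J :=
    ⟨fun J => if B ⊆ J then (E J).map (F.bw B κ) else E J, fun _ h => if_pos h, fun _ h => if_neg h⟩
  have hne : ∀ J, E' J ≠ ⊥ → E J ≠ ⊥ := by
    intro J e e'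
    by_cases hJ : B ⊆ J
    · exact e (by rw [hp J hJ, e', Submodule.map_bot])
    · exact e (by rw [hn J hJ, e'])
  refine ⟨E', fun J => ⟨?_, fun e => (h1 J).2 (hne J e)⟩, fun J e => h2 J (hne J e),
    le_trans (sum_le_sum fun J _ => ?_) h3, ?_⟩
  · by_cases hJ : B ⊆ J
    · rw [hp J hJ]
      rintro _ ⟨x, hx, rfl⟩
      exact bw_mem_X hJ hκ ((h1 J).1 hx)
    · rw [hn J hJ]; exact (h1 J).1
  · by_cases hJ : B ⊆ J
    · rw [hp J hJ]; exact_mod_cast Submodule.finrank_map_le _ _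
    · rw [hn J hJ]
  · have key : F.idl E D ≤ (F.idl E' D).comap (F.bw B κ) := by
      refine (idl_le_iff F).2 fun J hJ => Submodule.mul_le.2 fun a ha b hb => ?_
      refine Submodule.mem_comap.2 (mul_le_idl F E' hJ ?_)
      by_cases hB : B ⊆ J
      · rw [hp J hB, bw_mul_left hB disjoint_sdiff κ ((h1 J).1 ha) hb]
        exact Submodule.mul_mem_mul (Submodule.mem_map_of_mem ha) hb
      · rw [hn J hB]
        by_cases e : E J = ⊥
        · rw [e, Submodule.mem_bot] at ha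
          simp [ha]
        have hd : B ⊆ D \ J := subset_sdiff.2 ⟨h, ((h2 J e).resolve_left hB).symm⟩
        rw [mul_comm a, bw_mul_left hd sdiff_disjoint κ hb ((h1 J).1 ha), mul_comm _ a]
        exact Submodule.mul_mem_mul ha (bw_mem_X hd hκ hb)
    exact key h4

lemma smc_zero (D B : Finset ι) : F.SmC D B 0 0 :=
  ⟨⊥, ty_bot _, fun _ e => absurd rfl e, sz_bot.le, zero_mem _⟩

lemma smc_add {D B : Finset ι} {f g : A} {r s : ℝ} (h : F.SmC D B f r) (h' : F.SmC D B g s) :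
    F.SmC D B (f + g) (r + s) := by
  obtain ⟨E, h1, h0, h2, h3⟩ := h
  obtain ⟨E', h1', h0', h2', h3'⟩ := h'
  refine ⟨E ⊔ E', Ty.sup h1 h1', fun J e => ?_, (sz_sup _ _).trans (add_le_add h2 h2'),
    add_mem (idl_mono F le_sup_left D h3) (idl_mono F le_sup_right D h3')⟩
  by_cases e1 : E J = ⊥
  · exact h0' J fun e2 => e (by simp [e1, e2])
  · exact h0 J e1

lemma smc_sm {D B : Finset ι} {f : A} {r : ℝ} (h : F.SmC D B f r) : F.Sm D f r := by
  obtain ⟨E, h1, -, h2, h3⟩ := h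
  exact ⟨E, h1, h2, h3⟩

/-- two disjoint nonempty blocks -/
structure Blk (D B1 B2 : Finset ι) : Prop where
  n1 : B1.Nonempty
  n2 : B2.Nonempty
  dj : Disjoint B1 B2
  s1 : B1 ⊆ D
  s2 : B2 ⊆ D

variable {D B1 B2 : Finset ι}

lemma Blk.p1 (h : Blk D B1 B2) : B1.Nonempty ∧ B1 ⊂ D := by
  obtain ⟨j, hj⟩ := h.n2
  exact ⟨h.n1, (ssubset_iff_of_subset h.s1).2 ⟨j, h.s2 hj, disjoint_right.1 h.dj hj⟩⟩

lemma Blk.p2 (h : Blk D B1 B2) : B2.Nonempty ∧ B2 ⊂ D := by
  obtain ⟨j, hj⟩ := h.n1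
  exact ⟨h.n2, (ssubset_iff_of_subset h.s2).2 ⟨j, h.s1 hj, disjoint_left.1 h.dj hj⟩⟩

lemma X_two (h : Disjoint B1 B2) (s1 : B1 ⊆ D) :
    F.X B1 * F.X (D \ (B1 ∪ B2)) = F.X (D \ B2) := by
  rw [F.X_mul _ _ (disjoint_sdiff.mono_left subset_union_left)]
  congr 1
  ext a
  have := @s1 a
  have := @disjoint_left.1 h a
  simp only [mem_sdiff, mem_union]; tauto

variable (F D B1 B2)

/-- the part of the null space that is stable under maps of the second block -/
def NulL (M : Sys K ι A) : Submodule K A :=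
  F.idl M B1 * F.X (D \ (B1 ∪ B2)) ⊔ F.X B1 * F.idl M (D \ (B1 ∪ B2))

/-- the null space of a level -/
def Nul (M : Sys K ι A) : Submodule K A :=
  F.X B2 * NulL F D B1 B2 M ⊔ F.idl M B2 * F.X (D \ B2)

/-- two-sided class -/
def CL {H : Type} [Fintype H] (u : H → A) (k : ℝ) : Prop :=
  ∃ M : H → Sys K ι A, (∀ q, F.Prp D (M q)) ∧ 𝔼 q, sz (M q) ≤ k ∧
    ∀ q, u q ∈ M q B2 * (M q B1 * F.X (D \ (B1 ∪ B2)))

/-- systems with types in a class, as a monoid -/
def tyMon (P : Finset ι → Prop) : AddSubmonoid (Sys K ι A) where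
  carrier := {S | Ty F P S}
  add_mem' := Ty.sup
  zero_mem' := ty_bot P

variable {F D B1 B2}

lemma nulL_le (h : Blk D B1 B2) {M : Sys K ι A} (hM : ∀ J, M J ≤ F.X J) :
    NulL F D B1 B2 M ≤ F.X (D \ B2) := by
  rw [← X_two h.dj h.s1]
  exact sup_le (mul_le_mul_left (idl_le_X F hM _) _) (mul_le_mul_right (idl_le_X F hM _) _)

lemma nulL_mono {M M' : Sys K ι A} (h : M ≤ M') : NulL F D B1 B2 M ≤ NulL F D B1 B2 M' :=
  sup_le_sup (mul_le_mul_left (idl_mono F h _) _) (mul_le_mul_right (idl_mono F h _) _)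

lemma nul_mono {M M' : Sys K ι A} (h : M ≤ M') : Nul F D B1 B2 M ≤ Nul F D B1 B2 M' :=
  sup_le_sup (mul_le_mul_right (nulL_mono h) _) (mul_le_mul_left (idl_mono F h _) _)

/-- extension of an endomorphism of a subspace -/
def ext (W : Submodule K A) : (W →ₗ[K] W) →ₗ[K] (A →ₗ[K] A) :=
  (LinearMap.llcomp K A W A W.subtype) ∘ₗ (LinearMap.lcomp K W
    (Classical.choose (W.subtype.exists_leftInverse_of_injective W.ker_subtype)))

lemma ext_coe (W : Submodule K A) (φ : W →ₗ[K] W) (x : W) : ext W φ x = φ x := by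
  have := LinearMap.congr_fun
    (Classical.choose_spec (W.subtype.exists_leftInverse_of_injective W.ker_subtype)) x
  simp only [LinearMap.coe_comp, Submodule.coe_subtype, Function.comp_apply,
    LinearMap.id_coe, id_eq] at this
  simp [ext, this]

lemma map_ext (W : Submodule K A) (φ : W →ₗ[K] W) (Q : Submodule K W) :
    (Q.map W.subtype).map (ext W φ) ≤ (Q.map φ).map W.subtype := by
  rintro _ ⟨_, ⟨x, hx, rfl⟩, rfl⟩
  exact ⟨φ x, ⟨x, hx, rfl⟩, (ext_coe W φ x).symm⟩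

lemma map_ext_le (W : Submodule K A) (φ : W →ₗ[K] W) : W.map (ext W φ) ≤ W := by
  rintro _ ⟨x, hx, rfl⟩
  rw [show ext W φ x = φ ⟨x, hx⟩ from ext_coe W φ ⟨x, hx⟩]
  exact (φ ⟨x, hx⟩).2

/-- the engine context of a level -/
def eng (F : Frame K ι A) (h : Blk D B1 B2) (S : Sys K ι A) (hS : ∀ J, S J ≤ F.X J)
    (P : Finset ι → Prop) :
    Eng K (F.X D) (F.X B2) (tyMon F (· = B1)) (tyMon F P) where
  lf a := (F.X B2 * (a.1 B1 * F.X (D \ (B1 ∪ B2)))).comap (F.X D).subtype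
  rt Q := (Q.map (F.X B2).subtype * F.X (D \ B2)).comap (F.X D).subtype
  cl a Q := (Q.map (F.X B2).subtype * (a.1 B1 * F.X (D \ (B1 ∪ B2)))).comap (F.X D).subtype
  nl E := (F.X B2 * NulL F D B1 B2 (S ⊔ E.1)).comap (F.X D).subtype
  rn E := (F.idl (S ⊔ E.1) B2).comap (F.X B2).subtype
  rm φ := (F.bw B2 (ext _ φ)).restrict fun _ hx => bw_mem_X h.s2 (map_ext_le _ φ) hx
  szL a := RegAbs.sz a.1
  szN a := RegAbs.sz a.1
  Sm x r := F.SmC D B2 x r
  szL_zero := by simp [RegAbs.sz]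
  szL_add a b := RegAbs.sz_sup a.1 b.1
  szN_zero := by simp [RegAbs.sz]
  szN_add a b := RegAbs.sz_sup a.1 b.1
  lf_add a b := Submodule.comap_mono (mul_le_mul_right (mul_le_mul_left le_sup_left _) _)
  nl_add a b := Submodule.comap_mono
    (mul_le_mul_right (nulL_mono (sup_le_sup_left le_sup_left _)) _)
  rn_add a b := Submodule.comap_mono (idl_mono F (sup_le_sup_left le_sup_left _) _)
  rt_mono Q Q' hQ := Submodule.comap_mono (mul_le_mul_left (Submodule.map_mono hQ) _)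
  rt_sup Q Q' := by
    have key : ∀ Q : Submodule K (F.X B2), Q.map (F.X B2).subtype * F.X (D \ B2) ≤ F.X D :=
      fun Q => (mul_le_mul_left (Submodule.map_subtype_le _ Q) _).trans (X_split F h.s2).le
    intro x hx
    rw [Submodule.mem_comap, Submodule.map_sup, Submodule.sup_mul] at hx
    obtain ⟨a, ha, b, hb, e⟩ := Submodule.mem_sup.1 hx
    exact Submodule.mem_sup.2 ⟨⟨a, key Q ha⟩, ha, ⟨b, key Q' hb⟩, hb, Subtype.ext e⟩
  cl_lf a Q := Submodule.comap_mono (mul_le_mul_left (Submodule.map_subtype_le _ Q) _)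
  cl_rt a Q := Submodule.comap_mono
    (mul_le_mul_right ((mul_le_mul_left (a.2 B1).1 _).trans (X_two h.dj h.s1).le) _)
  cl_mono a b Q Q' hQ := Submodule.comap_mono
    (mul_le_mul' (Submodule.map_mono hQ) (mul_le_mul_left le_sup_left _))
  rm_sub φ x := by
    apply Subtype.ext
    change x.1 - F.bw B2 (ext _ φ) x.1 = F.bw B2 (ext _ (LinearMap.id - φ)) x.1
    have e : ext (F.X B2) (LinearMap.id - φ) = ext (F.X B2) LinearMap.id - ext (F.X B2) φ :=
      LinearMap.ext fun a => by simp [ext]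
    rw [e, (F.bw B2).map_sub, LinearMap.sub_apply,
      bw_congr h.s2 (fun a ha => ext_coe (F.X B2) LinearMap.id ⟨a, ha⟩) x.2]
  rm_range φ x := by
    have hx : x.1 ∈ (⊤ : Submodule K (F.X B2)).map (F.X B2).subtype * F.X (D \ B2) := by
      rw [Submodule.map_subtype_top, X_split F h.s2]; exact x.2
    have := (mul_le_mul_left (map_ext _ φ ⊤) _ : _ ≤ _)
      (bw_mem disjoint_sdiff (ext _ φ) (Submodule.map_subtype_le _ _) le_rfl hx)
    rwa [Submodule.map_top] at this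
  rm_rt φ Q x hx := (mul_le_mul_left (map_ext _ φ Q) _ : _ ≤ _)
    (bw_mem disjoint_sdiff (ext _ φ) (Submodule.map_subtype_le _ _) le_rfl hx)
  rm_cl φ a Q x hx := (mul_le_mul_left (map_ext _ φ Q) _ : _ ≤ _)
    (bw_mem disjoint_sdiff (ext _ φ) (Submodule.map_subtype_le _ _)
      ((mul_le_mul_left (a.2 B1).1 _).trans (X_two h.dj h.s1).le) hx)
  rm_lf φ a x hx := (mul_le_mul_left (map_ext_le _ φ) _ : _ ≤ _)
    (bw_mem disjoint_sdiff (ext _ φ) le_rfl
      ((mul_le_mul_left (a.2 B1).1 _).trans (X_two h.dj h.s1).le) hx)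
  rm_nl φ E x hx := (mul_le_mul_left (map_ext_le _ φ) _ : _ ≤ _)
    (bw_mem disjoint_sdiff (ext _ φ) le_rfl
      (nulL_le h fun J => sup_le (hS J) (E.2 J).1) hx)
  sm_nonneg x r hx := sm_nonneg (smc_sm hx)
  sm_zero := smc_zero D B2
  sm_add x y r s := smc_add
  sm_neg x r := by
    rintro ⟨E, h1, h0, h2, h3⟩
    exact ⟨E, h1, h0, h2, neg_mem h3⟩
  sm_rm φ x r := smc_bw h.s2 (map_ext_le _ φ)
  sm_rt Q x hx := by
    have hty : Ty F (· = B2) (one B2 (Q.map (F.X B2).subtype)) :=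
      ty_one (Submodule.map_subtype_le _ _) rfl
    refine ⟨one B2 (Q.map (F.X B2).subtype), hty.mono fun J e => e ▸ h.p2,
      fun J e => Or.inl ((hty J).2 e).ge, ?_, mul_le_idl F _ h.s2 ?_⟩
    · rw [sz_one, Submodule.finrank_map_subtype_eq]
    · rw [one_self]; exact hx

lemma cl_le_X (h : Blk D B1 B2) {M : Sys K ι A} (hM : ∀ J, M J ≤ F.X J) :
    M B2 * (M B1 * F.X (D \ (B1 ∪ B2))) ≤ F.X D :=
  (mul_le_mul' (hM B2) ((mul_le_mul_left (hM B1) _).trans (X_two h.dj h.s1).le)).trans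
    (X_split F h.s2).le

/-- the engine in a frame -/
def ENGT (K ι : Type) [Field K] [DecidableEq ι] [Fintype ι] (n : ℕ) : Prop :=
  Lin fun k δ k' δ' => ∀ (A : Type) [CommRing A] [Algebra K A] [FiniteDimensional K A]
    (F : Frame K ι A) (D B1 B2 : Finset ι) (S : Sys K ι A) (P : Finset ι → Prop) (G : Type)
    [AddCommGroup G] [Fintype G] (T : Cube n G → A) (E : Cube (n + 1) G → Sys K ι A)
    (x : Cube (n + 1) G → A) (r : Cube (n + 1) G → ℝ), Blk D B1 B2 → (∀ J, S J ≤ F.X J) →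
    CL F D B1 B2 T k → (∀ q, Ty F P (E q)) → 𝔼 q, sz (E q) ≤ k →
    (∀ q, F.SmC D B2 (x q) (r q)) → 𝔼 q, r q ≤ δ →
    (∀ q, cd n T q - x q ∈ Nul F D B1 B2 (S ⊔ E q)) →
    ∃ (b : Cube n.pred G → A) (S1 : Sys K ι A) (E' : Cube n G → Sys K ι A) (x' : Cube n G → A)
      (r' : Cube n G → ℝ), CL F D B1 B2 b k' ∧ F.Prp D S1 ∧ sz S1 ≤ k' ∧ (∀ q, Ty F P (E' q)) ∧
      𝔼 q, sz (E' q) ≤ k' ∧ (∀ q, F.SmC D B2 (x' q) (r' q)) ∧ 𝔼 q, r' q ≤ δ' ∧
      ∀ q, T q - cD n b q - x' q ∈ Nul F D B1 B2 (S ⊔ S1 ⊔ E' q)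

theorem engt_of (K ι : Type) [Field K] [DecidableEq ι] [Fintype ι] (n : ℕ) (h : St_ENG) :
    ENGT K ι n := by
  obtain ⟨C, hC, h⟩ := h K n
  refine ⟨C, hC, fun η hη => ?_⟩
  obtain ⟨K0, hK0, h⟩ := h η hη
  refine ⟨2 * K0, by positivity, fun k δ hk hδ A _ _ _ F D B1 B2 S P G _ _ T E x r hb hS
    ⟨M, m1, m2, m3⟩ e1 e2 x1 x2 hn => ?_⟩
  have hT : ∀ q, T q ∈ F.X D := fun q => cl_le_X hb (fun J => (m1 q J).1) (m3 q)
  have hx : ∀ q, x q ∈ F.X D := fun q => sm_mem_X (smc_sm (x1 q))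
  have hcd : ∀ (m : ℕ) (u : Cube m G → F.X D) q,
      ((cd m u q : F.X D) : A) = cd m (fun q => (u q : A)) q := fun m u q =>
    (congrFun (cd_comp m u (F.X D).subtype.toAddMonoidHom) q).symm
  obtain ⟨b, ⟨a, Q, b1, b2, b3⟩, a0, Q0, E', x', r', c1, c2, c3, c4, c5, c6⟩ :=
    h k δ hk hδ _ _ _ _ (eng F hb S hS P) G (fun q => ⟨T q, hT q⟩)
    ⟨fun q => ⟨one B1 (M q B1), ty_one (m1 q B1).1 rfl⟩, fun q => (M q B2).comap (F.X B2).subtype,
      fun q => by
        change T q ∈ _ * (one B1 (M q B1) B1 * _)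
        rw [one_self, Submodule.map_comap_subtype, inf_eq_right.2 (m1 q B2).1]
        exact m3 q,
      le_trans (expect_le_expect fun q _ => by
        change ((RegAbs.sz (one B1 (M q B1)) : ℕ) : ℝ) ≤ _
        rw [← sz_eq, sz_one]; exact le_sz _ _) m2,
      le_trans (expect_le_expect fun q _ => by
        rw [← Submodule.finrank_map_subtype_eq, Submodule.map_comap_subtype,
          inf_eq_right.2 (m1 q B2).1]
        exact le_sz _ _) m2⟩
    ⟨0, ⊥, fun q => ⟨E q, e1 q⟩, fun q => ⟨x q, hx q⟩, r, by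
        rw [(eng F hb S hS P).szL_zero]; simpa using hk, by simpa using hk,
      le_trans (expect_le_expect fun q _ => (sz_eq (E q)).ge) e2, x1, x2, fun q => by
        have hM : ∀ J, (S ⊔ E q) J ≤ F.X J := fun J => sup_le (hS J) (e1 q J).1
        obtain ⟨y, hy, z, hz, e⟩ := Submodule.mem_sup.1 (hn q)
        have hy' : y ∈ F.X D :=
          ((mul_le_mul_right (nulL_le hb hM) _).trans (X_split F hb.s2).le : _ ≤ _) hy
        have hz' : z ∈ F.X D :=
          ((mul_le_mul_left (idl_le_X F hM _) _).trans (X_split F hb.s2).le : _ ≤ _) hz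
        refine Submodule.mem_sup.2 ⟨⟨y, hy'⟩, Submodule.mem_sup_right hy, ⟨z, hz'⟩, ?_,
          Subtype.ext ?_⟩
        · change z ∈ Submodule.map (F.X B2).subtype
            (⊥ ⊔ (F.idl (S ⊔ E q) B2).comap (F.X B2).subtype) * F.X (D \ B2)
          rw [bot_sup_eq, Submodule.map_comap_subtype, inf_eq_right.2 (idl_le_X F hM _)]
          exact hz
        · rw [Submodule.coe_sub, hcd]; exact e⟩
  have hone : ∀ (a : tyMon F (· = B1)) (Q : Submodule K (F.X B2)),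
      F.Prp D (a.1 ⊔ one B2 (Q.map (F.X B2).subtype)) ∧
      sz (a.1 ⊔ one B2 (Q.map (F.X B2).subtype)) ≤ (RegAbs.sz a.1 : ℕ) + (finrank K Q : ℝ) :=
    fun a Q => ⟨Ty.sup (Ty.mono a.2 fun J e => e ▸ hb.p1)
      (ty_one (Submodule.map_subtype_le _ _) hb.p2), (sz_sup _ _).trans (by
        rw [sz_one, Submodule.finrank_map_subtype_eq, sz_eq])⟩
  have hle : ∀ (a : Sys K ι A) (Q : Submodule K A), Q ≤ (a ⊔ one B2 Q) B2 := fun a Q => by
    rw [Pi.sup_apply, one_self]; exact le_sup_right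
  have hK : 0 ≤ K0 * k := by positivity
  refine ⟨fun q => b q, a0.1 ⊔ one B2 (Q0.map (F.X B2).subtype), fun q => (E' q).1,
    fun q => x' q, r', ⟨fun q => (a q).1 ⊔ one B2 ((Q q).map (F.X B2).subtype),
      fun q => (hone _ _).1, ?_, fun q => ?_⟩, (hone _ _).1, ?_, fun q => (E' q).2, ?_, c4, c5,
    fun q => ?_⟩
  · refine (expect_le_expect fun q _ => (hone (a q) (Q q)).2).trans ?_
    rw [expect_add_distrib]
    have : 𝔼 q, ((RegAbs.sz (a q).1 : ℕ) : ℝ) ≤ K0 * k := b2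
    linarith
  · exact (mul_le_mul' (hle _ _) (mul_le_mul_left le_sup_left _) : _ ≤ _) (b1 q)
  · have : ((RegAbs.sz a0.1 : ℕ) : ℝ) ≤ K0 * k := c1
    linarith [(hone a0 Q0).2]
  · have : 𝔼 q, ((RegAbs.sz (E' q).1 : ℕ) : ℝ) ≤ K0 * k := c3
    simp only [← sz_eq] at this
    linarith
  · have e : T q - cD n (fun q => (b q : A)) q - x' q
        = ((((fun q => (⟨T q, hT q⟩ : F.X D)) - cD n b) q - x' q : F.X D) : A) := by
      cases n with
      | zero => simp [cD]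
      | succ n => simp [cD, hcd]
    rw [e]
    have hsub : S ⊔ (E' q).1 ≤ S ⊔ (a0.1 ⊔ one B2 (Q0.map (F.X B2).subtype)) ⊔ (E' q).1 :=
      sup_le_sup_right le_sup_left _
    have hsub' : a0.1 ⊔ one B2 (Q0.map (F.X B2).subtype)
        ≤ S ⊔ (a0.1 ⊔ one B2 (Q0.map (F.X B2).subtype)) ⊔ (E' q).1 :=
      le_sup_right.trans le_sup_left
    refine (show (eng F hb S hS P).nul a0 Q0 (E' q) ≤ Submodule.comap (F.X D).subtype
      (Nul F D B1 B2 _) from sup_le (sup_le ?_ ?_) ?_) (c6 q)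
    · refine Submodule.comap_mono (le_sup_of_le_left (mul_le_mul_right (le_sup_of_le_left
        (mul_le_mul_left ?_ _)) _))
      exact le_trans (le_trans le_sup_left (hsub' B1)) (le_idl F _ B1)
    · exact Submodule.comap_mono (le_sup_of_le_left (mul_le_mul_right (nulL_mono hsub) _))
    · refine Submodule.comap_mono (le_sup_of_le_right (mul_le_mul_left ?_ _))
      rw [Submodule.map_sup]
      refine sup_le (((hle _ _).trans (hsub' B2)).trans (le_idl F _ B2)) ?_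
      exact (Submodule.map_comap_le _ _).trans (idl_mono F hsub _)

end Pool.Agent.Lib.AD.Lv
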