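import Pool.Agent.Lib.AD.LvEng

/-! Classes of products of two generators, and the end of a level. -/

noncomputable section

open Finset Module
open scoped BigOperators

set_option linter.unusedSectionVars false

namespace Pool.Agent.Lib.AD.Lv

variable {K ι A : Type} [Field K] [DecidableEq ι] [CommRing A] [Algebra K A] {F : Frame K ι A}
  {D B1 B2 : Finset ι} [Fintype ι] [FiniteDimensional K A]

/-- sums of products of two generators whose types form a pair of the family `P` -/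
def Pr (F : Frame K ι A) (D : Finset ι) (P : Finset ι → Finset ι → Prop) (M : Sys K ι A) :
    Submodule K A :=
  ⨆ J, ⨆ J', ⨆ _ : P J J', M J * (M J' * F.X (D \ (J ∪ J')))

lemma le_pr {P : Finset ι → Finset ι → Prop} (M : Sys K ι A) {J J' : Finset ι} (h : P J J') :
    M J * (M J' * F.X (D \ (J ∪ J'))) ≤ Pr F D P M :=
  le_iSup_of_le J (le_iSup₂_of_le (f := fun J' (_ : P J J') =>
    M J * (M J' * F.X (D \ (J ∪ J')))) J' h le_rfl)

lemma pr_le {P : Finset ι → Finset ι → Prop} {M : Sys K ι A} {Y : Submodule K A}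
    (h : ∀ J J', P J J' → M J * (M J' * F.X (D \ (J ∪ J'))) ≤ Y) : Pr F D P M ≤ Y :=
  iSup_le fun J => iSup₂_le (h J)

lemma pr_mono {P : Finset ι → Finset ι → Prop} {M M' : Sys K ι A} (h : M ≤ M') :
    Pr F D P M ≤ Pr F D P M' :=
  pr_le fun J J' hP => (mul_le_mul' (h J) (mul_le_mul_left (h J') _)).trans (le_pr M' hP)

lemma idl2_le {M M' : Sys K ι A} {B B' : Finset ι} (hd : Disjoint B B') (s : B ⊆ D) (s' : B' ⊆ D)
    {Y : Submodule K A}
    (h : ∀ J J', J ⊆ B → J' ⊆ B' → M J * (M' J' * F.X (D \ (J ∪ J'))) ≤ Y) :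
    F.idl M B * (F.idl M' B' * F.X (D \ (B ∪ B'))) ≤ Y := by
  unfold Frame.idl
  simp only [Submodule.iSup_mul, Submodule.mul_iSup]
  refine iSup₂_le fun J' hJ' => iSup₂_le fun J hJ => le_trans (le_of_eq ?_) (h J J' hJ hJ')
  have d1 : Disjoint (B' \ J') (D \ (B ∪ B')) :=
    disjoint_sdiff.mono_left (sdiff_subset.trans subset_union_right)
  have d2 : Disjoint (B \ J) (B' \ J' ∪ D \ (B ∪ B')) := disjoint_union_right.2
    ⟨hd.mono sdiff_subset sdiff_subset,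
      disjoint_sdiff.mono_left (sdiff_subset.trans subset_union_left)⟩
  have e : D \ (J ∪ J') = B \ J ∪ (B' \ J' ∪ D \ (B ∪ B')) := by
    ext a
    have := @s a
    have := @s' a
    have := @hJ a
    have := @hJ' a
    have := @disjoint_left.1 hd a
    simp only [mem_sdiff, mem_union]; tauto
  rw [e, ← F.X_mul _ _ d2, ← F.X_mul _ _ d1]
  ring

lemma left_le (S : Sys K ι A) {J J' : Finset ι} (hd : Disjoint J J') (s : J ⊆ D) (s' : J' ⊆ D)
    {W : Submodule K A} (hW : W ≤ F.X J') : S J * (W * F.X (D \ (J ∪ J'))) ≤ F.idl S D := by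
  refine le_trans (mul_le_mul_right ?_ _) (mul_le_idl F S s)
  rw [union_comm, ← X_two hd.symm s']
  exact mul_le_mul_left hW _

lemma right_le (S : Sys K ι A) {J J' : Finset ι} (hd : Disjoint J J') (s : J ⊆ D) (s' : J' ⊆ D)
    {W : Submodule K A} (hW : W ≤ F.X J) : W * (S J' * F.X (D \ (J ∪ J'))) ≤ F.idl S D := by
  rw [mul_left_comm, union_comm]
  exact left_le S hd.symm s' s hW

/-- the combinatorial data of a level -/
structure Lvl (D B1 B2 : Finset ι) (P : Finset ι → Finset ι → Prop) (N : Finset ι → Prop) :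
    Prop where
  blk : Blk D B1 B2
  wf : ∀ J J', P J J' → Disjoint J J' ∧ J ⊆ D ∧ J' ⊆ D
  down : ∀ J J' J1 J2, P J J' → J1 ⊆ J → J2 ⊆ J' → J1.Nonempty → J2.Nonempty → P J1 J2
  nul : ∀ J J', P J J' → N J ∨ N J'
  nb1 : ¬ N B1
  nb2 : ¬ N B2
  low1 : ∀ J, J.Nonempty → J ⊂ B1 → N J
  low2 : ∀ J, J.Nonempty → J ⊂ B2 → N J
  prp : ∀ J, N J → J.Nonempty ∧ J ⊂ D
  out1 : ∀ J, N J → J ⊆ B1 → P B2 J
  out2 : ∀ J, N J → J ⊆ B2 → P J B1
  out3 : ∀ J, N J → J ⊆ D \ (B1 ∪ B2) → P B2 J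

variable {P : Finset ι → Finset ι → Prop} {N : Finset ι → Prop}

lemma mul_le_of_bot {a b c Y : Submodule K A} (h : a ≠ ⊥ → b ≠ ⊥ → a * (b * c) ≤ Y) :
    a * (b * c) ≤ Y := by
  by_cases ha : a = ⊥
  · simp [ha]
  by_cases hb : b = ⊥
  · simp [hb]
  exact h ha hb

lemma pr_refine (h : Lvl D B1 B2 P N) {M S M' : Sys K ι A} (hS : ∀ J, S J ≤ F.X J)
    (hM' : F.Prp D M') (hM : ∀ J, M J ≤ F.idl (S ⊔ M') J) :
    Pr F D P M ≤ F.idl S D ⊔ Pr F D P M' := by
  refine pr_le fun J J' hP => (mul_le_mul' (hM J) (mul_le_mul_left (hM J') _)).trans ?_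
  obtain ⟨w1, w2, w3⟩ := h.wf J J' hP
  refine idl2_le w1 w2 w3 fun J1 J2 h1 h2 => ?_
  have d := w1.mono h1 h2
  rw [Pi.sup_apply, Submodule.sup_mul]
  refine sup_le (le_sup_of_le_left (left_le S d (h1.trans w2) (h2.trans w3)
    (sup_le (hS J2) (hM' J2).1))) ?_
  rw [Pi.sup_apply, Submodule.sup_mul, Submodule.mul_sup]
  refine sup_le_sup (right_le S d (h1.trans w2) (h2.trans w3) (hM' J1).1) ?_
  exact mul_le_of_bot fun a b => le_pr M' (h.down J J' J1 J2 hP h1 h2 ((hM' J1).2 a).1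
    ((hM' J2).2 b).1)

open Classical in
/-- the part of a system with types in `N` -/
def sel (N : Finset ι → Prop) (M : Sys K ι A) : Sys K ι A := fun J => if N J then M J else ⊥

lemma sel_pos (M : Sys K ι A) {J : Finset ι} (h : N J) : sel N M J = M J := if_pos h
lemma sel_neg (M : Sys K ι A) {J : Finset ι} (h : ¬ N J) : sel N M J = ⊥ := if_neg h

lemma sel_le (N : Finset ι → Prop) (M : Sys K ι A) : sel N M ≤ M := by
  intro J
  by_cases h : N J
  · rw [sel_pos M h]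
  · rw [sel_neg M h]; exact bot_le

lemma ty_sel {M : Sys K ι A} (hM : ∀ J, M J ≤ F.X J) : Ty F N (sel N M) := fun J =>
  ⟨(sel_le N M J).trans (hM J), fun e => by_contra fun h => e (sel_neg M h)⟩

lemma pr_le_sel (h : Lvl D B1 B2 P N) {M : Sys K ι A} (hM : ∀ J, M J ≤ F.X J) :
    Pr F D P M ≤ F.idl (sel N M) D := by
  refine pr_le fun J J' hP => ?_
  obtain ⟨w1, w2, w3⟩ := h.wf J J' hP
  rcases h.nul J J' hP with e | e
  · rw [← sel_pos M e]; exact left_le _ w1 w2 w3 (hM J')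
  · rw [← sel_pos M e]; exact right_le _ w1 w2 w3 (hM J)

lemma idl_le_sel {S M : Sys K ι A} {B : Finset ι} (hM : F.Prp D M)
    (hB : ∀ J, J.Nonempty → J ⊂ B → N J) :
    F.idl (S ⊔ M) B ≤ M B ⊔ F.idl (S ⊔ sel N M) B := by
  rw [idl_sup]
  refine sup_le (le_sup_of_le_right (idl_mono F le_sup_left B)) ((idl_le_iff F).2 fun J hJ => ?_)
  rcases eq_or_ssubset_of_subset hJ with rfl | hJ'
  · rw [sdiff_self, Finset.bot_eq_empty, F.X_empty, mul_one]; exact le_sup_left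
  by_cases e : M J = ⊥
  · simp [e]
  rw [← sel_pos M (hB J ((hM J).2 e).1 hJ')]
  exact le_sup_of_le_right ((mul_le_idl F _ hJ).trans (idl_mono F le_sup_right B))

lemma nul_le_idl (h : Blk D B1 B2) (M : Sys K ι A) : Nul F D B1 B2 M ≤ F.idl M D := by
  refine sup_le ?_ (idl_mul_sdiff F M h.s2)
  unfold NulL
  rw [Submodule.mul_sup]
  refine sup_le ?_ ?_
  · rw [mul_left_comm, union_comm, X_two h.dj.symm h.s2]
    exact idl_mul_sdiff F M h.s1
  · rw [← mul_assoc, F.X_mul _ _ h.dj.symm, mul_comm, union_comm B2]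
    have := idl_mul_sdiff F M (J := D \ (B1 ∪ B2)) (D := D) sdiff_subset
    rwa [Finset.sdiff_sdiff_eq_self (union_subset h.s1 h.s2)] at this

lemma cl_split (h : Lvl D B1 B2 P N) {M S M' : Sys K ι A} (hS : ∀ J, S J ≤ F.X J)
    (hM' : F.Prp D M') (hM : ∀ J, M J ≤ F.idl (S ⊔ M') J) :
    M B2 * (M B1 * F.X (D \ (B1 ∪ B2)))
      ≤ M' B2 * (M' B1 * F.X (D \ (B1 ∪ B2))) ⊔ Nul F D B1 B2 (S ⊔ sel N M') := by
  have hX : ∀ J, (S ⊔ sel N M') J ≤ F.X J := fun J =>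
    sup_le (hS J) ((sel_le N M' J).trans (hM' J).1)
  refine (mul_le_mul' ((hM B2).trans (idl_le_sel hM' h.low2))
    (mul_le_mul_left ((hM B1).trans (idl_le_sel hM' h.low1)) _)).trans ?_
  rw [Submodule.sup_mul]
  refine sup_le ?_ (le_sup_of_le_right (le_sup_of_le_right (mul_le_mul_right ?_ _)))
  · rw [Submodule.sup_mul, Submodule.mul_sup]
    exact sup_le_sup_left (le_sup_of_le_left (mul_le_mul' (hM' B2).1 le_sup_left)) _
  · rw [← X_two h.blk.dj h.blk.s1]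
    exact mul_le_mul_left (sup_le (hM' B1).1 (idl_le_X F hX _)) _

/-- the end of a level -/
lemma out (h : Lvl D B1 B2 P N) {M S E : Sys K ι A} (hM : F.Prp D M) (hS : ∀ J, S J ≤ F.X J)
    (hE : Ty F N E) {Z x : A} {r : ℝ} (hZ : Z ∈ M B2 * (M B1 * F.X (D \ (B1 ∪ B2))))
    (hx : F.SmC D B2 x r) (hn : Z - x ∈ Nul F D B1 B2 (S ⊔ E)) :
    ∃ w ∈ Pr F D P (M ⊔ E), F.Nr D (F.idl S D) (Z - w) r := by
  have hb := h.blk
  have hX : ∀ J, (S ⊔ E) J ≤ F.X J := fun J => sup_le (hS J) (hE J).1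
  obtain ⟨Q, q1, q2, q3⟩ : ∃ Q, Q ≤ M B2 ∧ M B2 ≤ Q ⊔ F.idl (S ⊔ E) B2 ∧
      Disjoint (F.idl (S ⊔ E) B2) Q := by
    obtain ⟨C, hC⟩ := (M B2 ⊓ F.idl (S ⊔ E) B2).exists_isCompl
    refine ⟨M B2 ⊓ C, inf_le_left, ?_, ?_⟩
    · refine le_trans ?_ (sup_le_sup_left (inf_le_right (a := M B2)) _)
      rw [sup_comm, inf_comm (M B2) C, ← sup_inf_assoc_of_le _ inf_le_left, hC.sup_eq_top,
        top_inf_eq]
    · rw [disjoint_iff, ← inf_assoc, inf_comm _ (M B2), hC.inf_eq_bot]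
  obtain ⟨C, c1, c2⟩ := q3.exists_isCompl
  obtain ⟨κ, k1, k2, k3⟩ : ∃ κ : A →ₗ[K] A, (∀ a, κ a ∈ Q) ∧ (∀ a ∈ Q, κ a = a) ∧
      ∀ a ∈ F.idl (S ⊔ E) B2, κ a = 0 :=
    ⟨Q.projection C c2.symm, fun a => Submodule.projection_apply_mem _ a,
      fun a ha => Submodule.projection_apply_left c2.symm ⟨a, ha⟩,
      fun a ha => Submodule.projection_apply_right c2.symm ⟨a, c1 ha⟩⟩
  have kQ : (F.X B2).map κ ≤ M B2 := by
    rintro _ ⟨a, -, rfl⟩; exact q1 (k1 a)
  have hR : D \ (B1 ∪ B2) ⊆ D := sdiff_subset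
  have hM1 : M B1 * F.X (D \ (B1 ∪ B2)) ≤ F.X (D \ B2) :=
    (mul_le_mul_left (hM B1).1 _).trans (X_two hb.dj hb.s1).le
  have i1 : M B1 ≤ F.idl (one B1 (M B1)) B1 := (one_self B1 (M B1)).ge.trans (le_idl F _ B1)
  have i2 : M B2 ≤ F.idl (one B2 (M B2)) B2 := (one_self B2 (M B2)).ge.trans (le_idl F _ B2)
  have o1 : ∀ (B J : Finset ι), one B (M B) J ≠ ⊥ → J = B := fun B J e =>
    by_contra fun e' => e (if_neg e')
  have o2 : ∀ (B J : Finset ι), one B (M B) J ≤ F.X J := fun B J =>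
    (ty_one (P := fun _ => True) (hM B).1 trivial J).1
  have part1 : Z - F.bw B2 κ Z ∈ F.idl S D ⊔ Pr F D P (M ⊔ E) := by
    have e : Z - F.bw B2 κ Z = F.bw B2 (LinearMap.id - κ) Z := by
      rw [(F.bw B2).map_sub, LinearMap.sub_apply,
        bw_congr (κ := LinearMap.id) hb.s2 (fun _ _ => rfl) (cl_le_X hb (fun J => (hM J).1) hZ)]
    rw [e]
    refine (show (M B2).map (LinearMap.id - κ) * _ ≤ _ from ?_)
      (bw_mem disjoint_sdiff _ (hM B2).1 hM1 hZ)
    have m1 : (M B2).map (LinearMap.id - κ) ≤ F.idl (S ⊔ E) B2 := by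
      rintro _ ⟨a, ha, rfl⟩
      obtain ⟨u, hu, v, hv, rfl⟩ := Submodule.mem_sup.1 (q2 ha)
      simpa [k2 u hu, k3 v hv] using hv
    refine (mul_le_mul' m1 (mul_le_mul_left i1 _)).trans ?_
    rw [union_comm]
    refine idl2_le hb.dj.symm hb.s2 hb.s1 fun J J' hJ hJ' => ?_
    rw [Pi.sup_apply, Submodule.sup_mul]
    refine sup_le_sup (left_le S (hb.dj.symm.mono hJ hJ') (hJ.trans hb.s2) (hJ'.trans hb.s1)
      (o2 _ _)) (mul_le_of_bot fun a b => ?_)
    obtain rfl := o1 _ _ b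
    rw [one_self]
    exact (mul_le_mul' le_sup_right (mul_le_mul_left le_sup_left _)).trans
      (le_pr (M ⊔ E) (h.out2 J ((hE J).2 a) hJ))
  have aux : ∀ B, B ⊆ D → Disjoint B2 B → (∀ J, N J → J ⊆ B → P B2 J) →
      M B2 * (F.idl (S ⊔ E) B * F.X (D \ (B2 ∪ B))) ≤ F.idl S D ⊔ Pr F D P (M ⊔ E) := by
    intro B sB dB hB
    refine (mul_le_mul_left i2 _).trans (idl2_le dB hb.s2 sB fun J J' hJ hJ' => ?_)
    rw [Pi.sup_apply, Submodule.sup_mul, Submodule.mul_sup]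
    refine sup_le_sup (right_le S (dB.mono hJ hJ') (hJ.trans hb.s2) (hJ'.trans sB) (o2 _ _))
      (mul_le_of_bot fun a b => ?_)
    obtain rfl := o1 _ _ a
    rw [one_self]
    exact (mul_le_mul' le_sup_left (mul_le_mul_left le_sup_right _)).trans
      (le_pr (M ⊔ E) (hB J' ((hE J').2 b) hJ'))
  have part2 : F.bw B2 κ (Z - x) ∈ F.idl S D ⊔ Pr F D P (M ⊔ E) := by
    obtain ⟨u, hu, v, hv, e⟩ := Submodule.mem_sup.1 hn
    have hv' := bw_mem disjoint_sdiff κ (idl_le_X F hX B2) le_rfl hv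
    have m0 : (F.idl (S ⊔ E) B2).map κ = ⊥ := by
      rw [eq_bot_iff]
      rintro _ ⟨a, ha, rfl⟩
      exact k3 a ha
    rw [m0, Submodule.bot_mul, Submodule.mem_bot] at hv'
    rw [← e, map_add, hv', add_zero]
    refine (show (F.X B2).map κ * _ ≤ _ from (mul_le_mul_left kQ _).trans ?_)
      (bw_mem disjoint_sdiff κ le_rfl (nulL_le hb hX) hu)
    unfold NulL
    rw [Submodule.mul_sup]
    refine sup_le ?_ ?_
    · rw [union_comm B1]
      exact aux B1 hb.s1 hb.dj.symm h.out1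
    · have e1 : B1 = D \ (B2 ∪ D \ (B1 ∪ B2)) := by
        ext a
        have := @hb.s1 a
        have := @disjoint_left.1 hb.dj a
        simp only [mem_sdiff, mem_union]; tauto
      have := aux (D \ (B1 ∪ B2)) hR (disjoint_sdiff.mono_left subset_union_right) h.out3
      rwa [← e1, mul_comm _ (F.X B1)] at this
  obtain ⟨y, hy, w, hw, e⟩ := Submodule.mem_sup.1 (add_mem part1 part2)
  refine ⟨w, hw, y, hy, ?_⟩
  have : Z - w - y = F.bw B2 κ x := by
    rw [map_sub] at e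
    linear_combination -e
  rw [this]
  exact smc_sm (smc_bw hb.s2 (kQ.trans (hM B2).1) hx)

lemma CL.add {H : Type} [Fintype H] {u v : H → A} {k l : ℝ} (hu : CL F D B1 B2 u k)
    (hv : CL F D B1 B2 v l) : CL F D B1 B2 (u - v) (k + l) := by
  obtain ⟨M, a1, a2, a3⟩ := hu
  obtain ⟨M', b1, b2, b3⟩ := hv
  refine ⟨fun q => M q ⊔ M' q, fun q => Ty.sup (a1 q) (b1 q),
    (expect_le_expect fun q _ => sz_sup _ _).trans (by rw [expect_add_distrib]; linarith),
    fun q => sub_mem ?_ ?_⟩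
  · exact SetLike.le_def.1 (mul_le_mul' le_sup_left (mul_le_mul_left le_sup_left _)) (a3 q)
  · exact SetLike.le_def.1 (mul_le_mul' le_sup_right (mul_le_mul_left le_sup_right _)) (b3 q)

variable {G : Type} [AddCommGroup G] [Fintype G]

/-- the sum of the systems on all faces -/
def fs {m : ℕ} (M : Cube m G → Sys K ι A) (q : Cube (m + 1) G) : Sys K ι A :=
  univ.sup fun c : Fin (m + 1) × Option Bool => M (fc m c.1 c.2 q)

lemma le_fs {m : ℕ} (M : Cube m G → Sys K ι A) (q : Cube (m + 1) G) (i : Fin (m + 1))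
    (c : Option Bool) : M (fc m i c q) ≤ fs M q :=
  le_sup (f := fun c : Fin (m + 1) × Option Bool => M (fc m c.1 c.2 q)) (mem_univ (i, c))

lemma ty_fs {m : ℕ} {M : Cube m G → Sys K ι A} (h : ∀ q, Ty F N (M q)) (q : Cube (m + 1) G) :
    Ty F N (fs M q) := Ty.finsup _ fun _ _ => h _

lemma sz_fs {m : ℕ} (M : Cube m G → Sys K ι A) :
    𝔼 q, sz (fs M q) ≤ 3 * (m + 1) * 𝔼 q, sz (M q) := by
  rw [← expect_faces m fun q => sz (M q)]
  exact expect_le_expect fun q _ => sz_finsup _ _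

lemma cl_cd {m : ℕ} {u : Cube m G → A} {M : Cube m G → Sys K ι A}
    (h : ∀ q, u q ∈ M q B2 * (M q B1 * F.X (D \ (B1 ∪ B2)))) (q : Cube (m + 1) G) :
    cd m u q ∈ fs M q B2 * (fs M q B1 * F.X (D \ (B1 ∪ B2))) :=
  cd_mem _ m u q fun i c =>
    (mul_le_mul' (le_fs M q i c B2) (mul_le_mul_left (le_fs M q i c B1) _) : _ ≤ _) (h _)

lemma CL.cD {n : ℕ} {b : Cube n.pred G → A} {k : ℝ} (h : CL F D B1 B2 b k) :
    CL F D B1 B2 (cD n b) (3 * n * k) := by
  cases n with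
  | zero => exact ⟨fun _ => ⊥, fun _ => ty_bot _, by simp [sz_bot], fun _ => zero_mem _⟩
  | succ n =>
    obtain ⟨M, a1, a2, a3⟩ := h
    refine ⟨fs M, ty_fs a1, (sz_fs M).trans ?_, cl_cd a3⟩
    push_cast
    exact mul_le_mul_of_nonneg_left a2 (by positivity)

lemma CL.sma {H : Type} [Fintype H] {u : H → A} {k : ℝ} (hb : Blk D B1 B2)
    (h : CL F D B1 B2 u k) : F.SmA D u k := by
  obtain ⟨M, a1, a2, a3⟩ := h
  refine ⟨fun q => sz (M q), fun q => ⟨M q, a1 q, le_rfl, ?_⟩, a2⟩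
  have := left_le (F := F) (M q) hb.dj.symm hb.s2 hb.s1 (a1 q B1).1
  rw [union_comm] at this
  exact this (a3 q)

/-- cofactors of a subspace -/
lemma exists_cof {W Y : Submodule K A} {f : A} (hf : f ∈ W * Y) :
    ∃ C, C ≤ Y ∧ finrank K C ≤ finrank K W ∧ f ∈ W * C := by
  classical
  let b := Module.finBasis K W
  obtain ⟨g, hg, rfl⟩ : ∃ g : Fin (finrank K W) → A, (∀ i, g i ∈ Y) ∧
      f = ∑ i, (b i : A) * g i := by
    refine Submodule.mul_induction_on hf (fun a ha y hy => ?_) ?_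
    · refine ⟨fun i => b.repr ⟨a, ha⟩ i • y, fun i => Y.smul_mem _ hy, ?_⟩
      have := congrArg (fun x : W => (x : A)) (b.sum_repr ⟨a, ha⟩)
      simp only [Submodule.coe_sum, Submodule.coe_smul] at this
      refine (congrArg (· * y) this).symm.trans ?_
      simp only [sum_mul]
      exact sum_congr rfl fun i _ => by rw [smul_mul_assoc, mul_smul_comm]
    · rintro _ _ ⟨g, hg, rfl⟩ ⟨g', hg', rfl⟩
      exact ⟨g + g', fun i => add_mem (hg i) (hg' i), by simp [mul_add, sum_add_distrib]⟩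
  refine ⟨Submodule.span K (Set.range g), Submodule.span_le.2 (Set.range_subset_iff.2 hg),
    (finrank_range_le_card g).trans (by simp), sum_mem fun i _ =>
      Submodule.mul_mem_mul (b i).2 (Submodule.subset_span ⟨i, rfl⟩)⟩

/-- a small element is a sum of products over complementary pairs -/
lemma start {f : A} {r : ℝ} (hf : F.Sm D f r)
    (hP : ∀ J, J.Nonempty → J ⊂ D → P J (D \ J)) :
    ∃ M, F.Prp D M ∧ sz M ≤ 2 * r ∧ f ∈ Pr F D P M := by
  obtain ⟨E, e1, e2, e3⟩ := hf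
  obtain ⟨g, hg, rfl⟩ : ∃ g : Finset ι → A, (∀ J, g J ∈ E J * F.X (D \ J)) ∧ f = ∑ J, g J := by
    have : F.idl E D ≤ ⨆ J, E J * F.X (D \ J) :=
      (idl_le_iff F).2 fun J _ => le_iSup (fun J => E J * F.X (D \ J)) J
    obtain ⟨g, hg, rfl⟩ := (Submodule.mem_iSup_iff_exists_finsupp _ _).1 (this e3)
    exact ⟨g, hg, Finsupp.sum_fintype _ _ fun _ => rfl⟩
  choose C c1 c2 c3 using fun J => exists_cof (hg J)
  have hC : ∀ J, C J ≠ ⊥ → E J ≠ ⊥ := by
    intro J e e'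
    have := c2 J
    rw [e', finrank_bot] at this
    exact e (Submodule.finrank_eq_zero.1 (Nat.le_zero.1 this))
  have hle : ∀ J, C J ≤ (univ.sup fun J => one (D \ J) (C J)) (D \ J) := fun J => by
    have := le_sup (f := fun J => one (D \ J) (C J)) (mem_univ J) (D \ J)
    rwa [one_self] at this
  refine ⟨E ⊔ univ.sup fun J => one (D \ J) (C J), Ty.sup e1 (Ty.finsup _ fun J _ => ?_),
    (sz_sup _ _).trans ?_, sum_mem fun J _ => ?_⟩
  · by_cases e : C J = ⊥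
    · rw [e]
      exact (ty_bot _).of_le fun J' => by simp [one]
    · obtain ⟨a1, a2⟩ := (e1 J).2 (hC J e)
      exact ty_one (c1 J) ⟨sdiff_nonempty.2 a2.2, sdiff_ssubset a2.subset a1⟩
  · have : sz (univ.sup fun J => one (D \ J) (C J)) ≤ sz E :=
      (sz_finsup _ _).trans (sum_le_sum fun J _ => by rw [sz_one]; exact_mod_cast c2 J)
    linarith
  · by_cases e : E J = ⊥
    · have := hg J
      rw [e, Submodule.bot_mul, Submodule.mem_bot] at this
      simp [this]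
    obtain ⟨a1, a2⟩ := (e1 J).2 e
    refine le_pr _ (hP J a1 a2) ?_
    rw [union_sdiff_of_subset a2.subset, sdiff_self, Finset.bot_eq_empty, F.X_empty, mul_one]
    exact SetLike.le_def.1 (mul_le_mul' le_sup_left ((hle J).trans le_sup_right)) (c3 J)

end Pool.Agent.Lib.AD.Lv
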