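import Pool.Agent.Lib.AD.LvPT
import Pool.Agent.Lib.AD.LvPair

/-! One level of the approximation pass. -/

noncomputable section

open Finset Module
open scoped BigOperators

set_option linter.unusedSectionVars false

namespace Pool.Agent.Lib.AD.Lv

section
variable {K ι A : Type} [Field K] [DecidableEq ι] [CommRing A] [Algebra K A] {F : Frame K ι A}
  [Fintype ι] [FiniteDimensional K A] {D : Finset ι}

lemma rr_sup {η η' z z' : ℝ} {J : Finset ι} {W B : Submodule K A} (h : F.RR η z J W B)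
    (h' : F.RR η' z' J B ⊥) : F.RR (η + η') (z + z') J (B ⊔ W) ⊥ := by
  intro E hE
  have h1 := h E hE
  have h2 := h' E hE
  rw [bot_sup_eq] at h2 ⊢
  have h3 := Submodule.finrank_sup_add_finrank_inf_eq ((B ⊔ W) ⊓ F.idl E J) B
  have h4 : (B ⊔ W) ⊓ F.idl E J ⊔ B ≤ B ⊔ W ⊓ (B ⊔ F.idl E J) := by
    refine sup_le ?_ le_sup_left
    rintro x ⟨hx, hx'⟩
    obtain ⟨b, hb, w, hw, rfl⟩ := Submodule.mem_sup.1 hx
    refine Submodule.add_mem_sup hb ⟨hw, ?_⟩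
    rw [show w = -b + (b + w) by ring]
    exact Submodule.add_mem_sup (neg_mem hb) hx'
  have h5 := (Submodule.finrank_mono h4).trans (Submodule.finrank_add_le_finrank_add_finrank _ _)
  have h6 : finrank K ↥((B ⊔ W) ⊓ F.idl E J ⊓ B) ≤ finrank K ↥(B ⊓ F.idl E J) :=
    Submodule.finrank_mono (le_inf inf_le_right (inf_le_left.trans inf_le_right))
  have h7 : finrank K ↥((B ⊔ W) ⊓ F.idl E J)
      ≤ finrank K ↥(W ⊓ (B ⊔ F.idl E J)) + finrank K ↥(B ⊓ F.idl E J) := by omega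
  have h8 : (finrank K ↥((B ⊔ W) ⊓ F.idl E J) : ℝ)
      ≤ finrank K ↥(W ⊓ (B ⊔ F.idl E J)) + finrank K ↥(B ⊓ F.idl E J) := by exact_mod_cast h7
  linarith

lemma nr_mono {Y Y' : Submodule K A} {f : A} {r : ℝ} (h : F.Nr D Y f r) (hY : Y ≤ Y') :
    F.Nr D Y' f r := by
  obtain ⟨y, hy, h⟩ := h
  exact ⟨y, hY hy, h⟩

lemma nr_add {Y : Submodule K A} {f g : A} {r s : ℝ} (h : F.Nr D Y f r) (h' : F.Nr D Y g s) :
    F.Nr D Y (f + g) (r + s) := by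
  obtain ⟨y, hy, h⟩ := h
  obtain ⟨y', hy', h'⟩ := h'
  exact ⟨y + y', add_mem hy hy', by convert sm_add h h' using 1; ring⟩

lemma nr_sub {Y : Submodule K A} {f g : A} {r s : ℝ} (h : F.Nr D Y f r) (h' : F.Nr D Y g s) :
    F.Nr D Y (f - g) (r + s) := by
  obtain ⟨y, hy, h⟩ := h
  obtain ⟨y', hy', h'⟩ := h'
  exact ⟨y - y', sub_mem hy hy', by convert sm_sub h h' using 1; ring⟩

lemma nr_cd {G : Type} [AddCommGroup G] {m : ℕ} {Y : Submodule K A} {u : Cube m G → A}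
    {r : Cube m G → ℝ} (h : ∀ q, F.Nr D Y (u q) (r q)) (q : Cube (m + 1) G) :
    F.Nr D Y (cd m u q) (∑ c : Fin (m + 1) × Option Bool, r (fc m c.1 c.2 q)) := by
  choose y hy hs using h
  refine ⟨cd m y q, cd_mem Y m y q fun _ _ => hy _, ?_⟩
  have := sm_cd (u := u - y) hs q
  rwa [cd_sub] at this

lemma sma_add {H : Type} [Fintype H] {u v : H → A} {k l : ℝ} (h : F.SmA D u k)
    (h' : F.SmA D v l) : F.SmA D (u + v) (k + l) := by
  obtain ⟨r, a1, a2⟩ := h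
  obtain ⟨s, b1, b2⟩ := h'
  exact ⟨fun q => r q + s q, fun q => sm_add (a1 q) (b1 q), by rw [expect_add_distrib]; linarith⟩

lemma sma_mono {H : Type} [Fintype H] {u : H → A} {k l : ℝ} (h : F.SmA D u k) (hl : k ≤ l) :
    F.SmA D u l := by
  obtain ⟨r, a1, a2⟩ := h
  exact ⟨r, a1, a2.trans hl⟩

end

lemma exists_lb (f : ℕ → ℝ) (hf : ∀ x, 0 < f x) (M : ℕ) : ∃ c, 0 < c ∧ ∀ x ≤ M, c ≤ f x := by
  obtain ⟨x0, -, h⟩ := exists_min_image (range (M + 1)) f ⟨0, by simp⟩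
  exact ⟨f x0, hf x0, fun x hx => h x (mem_range.2 (by omega))⟩

variable (p : ℕ) [Fact p.Prime] (ι : Type) [Fintype ι] [DecidableEq ι]

/-- Decomposition of the differential of the leading term. -/
def DEC (d : ℕ) : Prop := ∃ C : ℝ, 0 ≤ C ∧ ∀ θ : ℝ, 0 < θ → ∃ K1 : ℝ, 0 ≤ K1 ∧
  ∀ (A : Type) [CommRing A] [Algebra (ZMod p) A] [Finite A] (F : Frame (ZMod p) ι A)
  (D B1 B2 : Finset ι) (P : Finset ι → Finset ι → Prop) (N : Finset ι → Prop)
  (S0 : Sys (ZMod p) ι A) (k : ℝ), D.card ≤ d → Lvl D B1 B2 P N → F.Prp D S0 → sz S0 ≤ k →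
  ∃ S1, F.Prp D S1 ∧ sz S1 ≤ K1 * k ∧ F.idl S0 D ≤ F.idl S1 D ∧
    ∀ (M : Sys (ZMod p) ι A) (τ w : A) (e : ℝ), F.Prp D M →
      τ ∈ M B2 * (M B1 * F.X (D \ (B1 ∪ B2))) → w ∈ Pr F D P M →
      F.Nr D (F.idl S0 D) (τ + w) e →
      ∃ E x, Ty F N E ∧ sz E ≤ K1 * (k + sz M) ∧ F.SmC D B2 x (C * e + θ * (k + sz M)) ∧
        τ - x ∈ Nul F D B1 B2 (S1 ⊔ E)

theorem dec_of (d : ℕ) (hreg : REG p ι) (hpt : PT p ι d) : DEC p ι d := by
  obtain ⟨C, hC, hpt⟩ := hpt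
  choose! pe pe0 hpt using hpt
  refine ⟨C, hC, fun θ hθ => ?_⟩
  obtain ⟨θ', hθ', eθ⟩ : ∃ θ' : ℝ, 0 < θ' ∧ θ = (2 * C + 1) * θ' :=
    ⟨θ / (2 * C + 1), by positivity, by field_simp⟩
  have hpos : ∀ m x : ℕ, 0 < θ' / (m + 1) / (x + 1) := fun m x => by positivity
  have hpos' : ∀ m x : ℕ, 0 < pe (θ' / (m + 1) / (x + 1)) / 2 := fun m x =>
    half_pos (pe0 _ (hpos m x))
  choose M2 hM2 using fun m : ℕ => hreg (θ' / (m + 1))
    (fun x => pe (θ' / (m + 1) / (x + 1)) / 2) (by positivity) (hpos' m)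
  choose h1 h10 h11 using fun m : ℕ => exists_lb _ (hpos' m) (M2 m)
  obtain ⟨M1, hM1⟩ := hreg θ' h1 hθ' h10
  refine ⟨∑ m ∈ range (M1 + 1), ((M2 m : ℝ) + 1) * (m + 1), by positivity,
    fun A _ _ _ F D B1 B2 P N S0 k hd hL hS0 hk => ?_⟩
  have : FiniteDimensional (ZMod p) A := Module.Finite.of_finite
  have hk0 : 0 ≤ k := (sz_nonneg S0).trans hk
  obtain ⟨S1, m, a1, a2, a3, a4, a5⟩ := hM1 A F D ⊥ S0 k (ty_bot _) hS0 hk
  have hK : ((M2 m : ℝ) + 1) * (m + 1) ≤ ∑ m ∈ range (M1 + 1), ((M2 m : ℝ) + 1) * (m + 1) :=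
    single_le_sum (f := fun m : ℕ => ((M2 m : ℝ) + 1) * (m + 1)) (fun _ _ => by positivity)
      (mem_range.2 (by omega))
  have hm0 : (0 : ℝ) ≤ m := Nat.cast_nonneg _
  have hM0 : (0 : ℝ) ≤ M2 m := Nat.cast_nonneg _
  have h01 : F.idl S0 D ≤ F.idl S1 D := idl_le_idl F fun J _ => by simpa using a4 J
  refine ⟨S1, a2, a3.trans (mul_le_mul_of_nonneg_right (by nlinarith) hk0), h01,
    fun M τ w e hM hτ hw hN => ?_⟩
  have hs := sz_nonneg M
  obtain ⟨M', x, b1, b2, b3, b4, b5⟩ := hM2 m A F D S1 M ((m + 1) * (k + sz M)) a2 hM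
    (by nlinarith)
  have hx0 : (0 : ℝ) ≤ x := Nat.cast_nonneg _
  have hxM : (x : ℝ) ≤ M2 m := by exact_mod_cast b1
  have e1 : θ' / (m + 1) * ((m + 1) * (k + sz M)) = θ' * (k + sz M) := by field_simp
  rw [e1] at b5
  have hκ : 0 ≤ ((m : ℝ) + 1) * (k + sz M) := by positivity
  have hX1 : ∀ J, S1 J ≤ F.X J := fun J => (a2 J).1
  have hE : Ty F N (sel N M') := ty_sel fun J => (b2 J).1
  have hEs : sz (sel N M') ≤ x * ((m + 1) * (k + sz M)) := (sz_mono (sel_le N M')).trans b3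
  obtain ⟨τ1, t1, z0, t2, rfl⟩ := Submodule.mem_sup.1 (cl_split hL hX1 b2 b4 hτ)
  have hη := pe0 _ (hpos m x)
  have hθs : 0 ≤ θ' * (k + sz M) := by positivity
  have hrr : ∀ B, ¬ N B → F.RR (pe (θ' / (m + 1) / (x + 1))) (2 * (θ' * (k + sz M))) B (M' B)
      ((S1 ⊔ sel N M') B) := fun B hB =>
    RR.weaken (b5 B) (by linarith) (by linarith) le_rfl (by simp [sel_neg M' hB])
  have hfr : ∀ B, (finrank (ZMod p) (M' B) : ℝ) ≤ (x + 1) * ((m + 1) * (k + sz M)) := fun B => by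
    have := le_sz M' B
    linarith
  obtain ⟨y, y1, y2⟩ := hpt _ (hpos m x) A F D B1 B2 (M' B1) (M' B2) (S1 ⊔ sel N M') τ1
    ((x + 1) * ((m + 1) * (k + sz M))) e (2 * (θ' * (k + sz M))) hd hL.blk.n1 hL.blk.n2 hL.blk.dj
    hL.blk.s1 hL.blk.s2 (by positivity) (b2 B1).1 (b2 B2).1 (Ty.sup a2 (hE.mono hL.prp))
    (fun J => RR.weaken (rr_sup (RR.weaken (b5 J) le_rfl le_rfl (sel_le N M' J) le_rfl) (a5 J))
      (by linarith [h11 m x b1]) (by nlinarith) le_rfl le_rfl)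
    (hrr B1 hL.nb1) (hrr B2 hL.nb2) (hfr B1) (hfr B2)
    ((sz_sup _ _).trans (by nlinarith)) t1 (by
      obtain ⟨y0, c1, c2⟩ := hN
      refine ⟨y0 - w - z0, sub_mem (sub_mem (idl_mono F le_sup_left D (h01 c1)) ?_)
        (nul_le_idl hL.blk _ t2), by convert c2 using 1; ring⟩
      refine SetLike.le_def.1 ?_ (pr_refine hL hX1 b2 b4 hw)
      rw [idl_sup]
      exact sup_le_sup_left (pr_le_sel hL fun J => (b2 J).1) _)
  refine ⟨sel N M', τ1 - y, hE, hEs.trans ?_, ?_, ?_⟩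
  · rw [← mul_assoc]
    exact mul_le_mul_of_nonneg_right (by nlinarith) (by positivity)
  · convert y2 using 1
    rw [eθ]
    field_simp
    ring
  · rw [show τ1 + z0 - (τ1 - y) = y + z0 by ring]
    exact add_mem (Submodule.mem_sup_left
      (SetLike.le_def.1 (mul_le_mul_right le_sup_right _) y1)) t2

/-- One level. -/
def LV (n d : ℕ) : Prop := Lin fun k δ k' δ' => ∀ (A : Type) [CommRing A] [Algebra (ZMod p) A]
  [Finite A] (F : Frame (ZMod p) ι A) (D B1 B2 : Finset ι) (P : Finset ι → Finset ι → Prop)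
  (N : Finset ι → Prop) (S0 : Sys (ZMod p) ι A) (G : Type) [AddCommGroup G] [Fintype G]
  (u : Cube n G → A) (M : Cube n G → Sys (ZMod p) ι A) (e : Cube (n + 1) G → ℝ),
  D.card ≤ d → Lvl D B1 B2 P N → F.Prp D S0 → sz S0 ≤ k → (∀ q, F.Prp D (M q)) →
  𝔼 q, sz (M q) ≤ k → (∀ q, u q ∈ M q B2 * (M q B1 * F.X (D \ (B1 ∪ B2))) ⊔ Pr F D P (M q)) →
  (∀ q, F.Nr D (F.idl S0 D) (cd n u q) (e q)) → 𝔼 q, e q ≤ δ →
  ∃ (b : Cube n.pred G → A) (S1 : Sys (ZMod p) ι A) (M' : Cube n G → Sys (ZMod p) ι A)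
    (u' : Cube n G → A) (r : Cube n G → ℝ), F.SmA D b k' ∧ F.Prp D S1 ∧ sz S1 ≤ k' ∧
    F.idl S0 D ≤ F.idl S1 D ∧ (∀ q, F.Prp D (M' q)) ∧ 𝔼 q, sz (M' q) ≤ k' ∧
    (∀ q, u' q ∈ Pr F D P (M' q)) ∧
    (∀ q, F.Nr D (F.idl S1 D) (u q - cD n b q - u' q) (r q)) ∧ 𝔼 q, r q ≤ δ'

theorem lv_of (n d : ℕ) (hdec : DEC p ι d) (heng : ENGT (ZMod p) ι n) : LV p ι n d := by
  obtain ⟨Cd, hCd, hdec⟩ := hdec
  obtain ⟨Ce, hCe, heng⟩ := heng
  refine ⟨Ce * Cd, by positivity, fun η hη => ?_⟩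
  obtain ⟨c, hc, ec⟩ : ∃ c : ℝ, 0 ≤ c ∧ c = 3 * (n + 1) := ⟨_, by positivity, rfl⟩
  obtain ⟨K1, hK1, hdec⟩ := hdec (η / (2 * (Ce + 1) * (1 + c))) (by positivity)
  obtain ⟨K2, hK2, heng⟩ := heng (η / (2 * (K1 * (1 + c) + 1))) (by positivity)
  refine ⟨K1 + 2 + (3 * n + 1) * (K2 * (K1 * (1 + c) + 1)), by positivity,
    fun k δ hk hδ A _ _ _ F D B1 B2 P N S0 G _ _ u M e hd hL hS0 k0 hM k1 hu he hδ' => ?_⟩
  have : FiniteDimensional (ZMod p) A := Module.Finite.of_finite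
  choose T hT w hw hTw using fun q => Submodule.mem_sup.1 (hu q)
  obtain ⟨S1, a1, a2, a3, a4⟩ := hdec A F D B1 B2 P N S0 k hd hL hS0 k0
  have hu' : u = T + w := funext fun q => (hTw q).symm
  choose E x b1 b2 b3 b4 using fun q => a4 (fs M q) (cd n T q) (cd n w q) (e q) (ty_fs hM q)
    (cl_cd hT q) (cd_mem _ n w q fun i c => pr_mono (le_fs M q i c) (hw _))
    (by have := he q; rwa [hu', cd_add] at this)
  have hfs : 𝔼 q, (k + sz (fs M q)) ≤ (1 + c) * k := by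
    rw [expect_add_distrib, expect_const univ_nonempty]
    have := sz_fs M
    rw [← ec] at this
    nlinarith
  have hKk : 0 ≤ K1 * (1 + c) * k := by positivity
  obtain ⟨b, S2, E', x', r', c1, c2, c3, c4, c5, c6, c7, c8⟩ := heng ((K1 * (1 + c) + 1) * k)
    (Cd * δ + η / (2 * (Ce + 1) * (1 + c)) * ((1 + c) * k)) (by positivity) (by positivity)
    A F D B1 B2 S1 N G T E x _ hL.blk (fun J => (a1 J).1) ⟨M, hM, by nlinarith, hT⟩ b1
    ((expect_le_expect fun q _ => b2 q).trans (by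
      rw [← mul_expect]
      nlinarith [mul_le_mul_of_nonneg_left hfs hK1])) b3 (by
      rw [expect_add_distrib, ← mul_expect, ← mul_expect]
      exact add_le_add (mul_le_mul_of_nonneg_left hδ' hCd)
        (mul_le_mul_of_nonneg_left hfs (by positivity))) b4
  obtain ⟨M2, d1, d2, d3⟩ := CL.add (show CL F D B1 B2 T k from ⟨M, hM, k1, hT⟩) c1.cD
  have hS12 : F.Prp D (S1 ⊔ S2) := Ty.sup a1 c2
  choose w' f1 f2 using fun q => out hL (d1 q) (fun J => (hS12 J).1) (c4 q) (d3 q) (c6 q) (c8 q)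
  obtain ⟨k2, hk2, ek2⟩ : ∃ k2 : ℝ, 0 ≤ k2 ∧ k2 = K2 * ((K1 * (1 + c) + 1) * k) :=
    ⟨_, by positivity, rfl⟩
  have ek : (K1 + 2 + (3 * n + 1) * (K2 * (K1 * (1 + c) + 1))) * k
      = K1 * k + 2 * k + 3 * n * k2 + k2 := by rw [ek2]; ring
  rw [← ek2] at c1 c3 c5 d2
  have hn : 0 ≤ 3 * (n : ℝ) * k2 := by positivity
  have hK1k : 0 ≤ K1 * k := by positivity
  refine ⟨b, S1 ⊔ S2, fun q => M q ⊔ (M2 q ⊔ E' q), w + w', r',
    sma_mono (c1.sma hL.blk) (by linarith), hS12, (sz_sup _ _).trans (by linarith),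
    a3.trans (idl_mono F le_sup_left D),
    fun q => Ty.sup (hM q) (Ty.sup (d1 q) ((c4 q).mono hL.prp)), ?_,
    fun q => add_mem (pr_mono le_sup_left (hw q)) (pr_mono le_sup_right (f1 q)),
    fun q => ?_, c7.trans ?_⟩
  · refine (expect_le_expect fun q _ => (sz_sup _ _).trans
      (add_le_add_right (sz_sup (M2 q) (E' q)) _)).trans ?_
    rw [expect_add_distrib, expect_add_distrib]
    linarith
  · convert f2 q using 1
    rw [← hTw q]
    simp only [Pi.add_apply, Pi.sub_apply]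
    ring
  · have g1 : η / (2 * (K1 * (1 + c) + 1)) * ((K1 * (1 + c) + 1) * k) = η * k / 2 := by
      field_simp
    have g2 : η / (2 * (Ce + 1) * (1 + c)) * ((1 + c) * k) = η * k / (2 * (Ce + 1)) := by
      field_simp
    have g3 : Ce * (η * k / (2 * (Ce + 1))) ≤ η * k / 2 := by
      rw [← mul_div_assoc, div_le_div_iff₀ (by positivity) (by positivity)]
      nlinarith [mul_nonneg hη.le hk]
    rw [g1, g2]
    nlinarith

end Pool.Agent.Lib.AD.Lv
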