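import Pool.Agent.Lib.AD.Blue
import Pool.Agent.Lib.AD.LvApi

/-! Transport along a merged block, and the two-sided colon lemma. -/

noncomputable section

open Finset Module
open scoped BigOperators

set_option linter.unusedSectionVars false

namespace Pool.Agent.Lib.AD.Lv

section
variable {K ι A : Type} [Field K] [DecidableEq ι] [CommRing A] [Algebra K A] {F : Frame K ι A}
  {I D : Finset ι} {i : ι}

lemma mg_of_disj (hi : i ∈ I) {J : Finset ι} (h : Disjoint J I) : mg I i J = J := by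
  have : i ∉ J := fun e => disjoint_left.1 h e hi
  simp [mg, this, sdiff_eq_self_of_disjoint h]

lemma mX_of_disj (hi : i ∈ I) {J : Finset ι} (h : Disjoint J I) :
    (F.merge I i).X J = F.X J := by
  change F.X (mg I i J) = _
  rw [mg_of_disj hi h]

lemma midl_of_disj (hi : i ∈ I) (S : Sys K ι A) {J : Finset ι} (h : Disjoint J I) :
    (F.merge I i).idl S J = F.idl S J := by
  unfold Frame.idl
  refine iSup_congr fun J' => iSup_congr fun _ => ?_
  rw [mX_of_disj hi (h.mono_left sdiff_subset)]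

lemma mprp_of_disj (hi : i ∈ I) {E : Sys K ι A} {J : Finset ι} (h : Disjoint J I)
    (hE : (F.merge I i).Prp J E) : F.Prp J E := by
  intro J'
  refine ⟨?_, (hE J').2⟩
  by_cases e : E J' = ⊥
  · simp [e]
  · rw [← mX_of_disj hi (h.mono_left ((hE J').2 e).2.subset)]
    exact (hE J').1

variable [Fintype ι] [FiniteDimensional K A]

lemma mrr_of_disj (hi : i ∈ I) {J : Finset ι} (h : Disjoint J I) {η z : ℝ}
    {W B : Submodule K A} (hr : F.RR η z J W B) : (F.merge I i).RR η z J W B := by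
  intro E hE
  rw [midl_of_disj hi E h]
  exact hr E (mprp_of_disj hi h hE)

lemma rr_bot {η z : ℝ} (hη : 0 ≤ η) (hz : 0 ≤ z) (J : Finset ι) (B : Submodule K A) :
    F.RR η z J ⊥ B := by
  intro E _
  rw [bot_inf_eq, finrank_bot, Nat.cast_zero]
  have := sz_nonneg E
  positivity

lemma res_le (S : Sys K ι A) (J0 : Finset ι) : res S J0 ≤ S := by
  intro J
  unfold res
  split_ifs <;> simp

lemma res_of_subset (S : Sys K ι A) {J J0 : Finset ι} (h : J ⊆ J0) : res S J0 J = S J := if_pos h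

lemma subset_of_res {S : Sys K ι A} {J J0 : Finset ι} (h : res S J0 J ≠ ⊥) : J ⊆ J0 := by
  by_contra e
  exact h (if_neg e)

lemma mreg (hi : i ∈ I) {η z : ℝ} (hη : 0 ≤ η) (hz : 0 ≤ z) {S : Sys K ι A} (h : F.Reg η z S) :
    (F.merge I i).Reg η z (res S (D \ I)) := by
  intro J
  by_cases e : J ⊆ D \ I
  · rw [res_of_subset S e]
    exact mrr_of_disj hi (sdiff_disjoint.mono_left e) (h J)
  · rw [show res S (D \ I) J = ⊥ from if_neg e]
    exact rr_bot hη hz _ _

lemma mprp (hi : i ∈ I) {S : Sys K ι A} (h : F.Prp D S) :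
    (F.merge I i).Prp (insert i (D \ I)) (res S (D \ I)) := by
  intro J
  by_cases e : J ⊆ D \ I
  · rw [res_of_subset S e, mX_of_disj hi (sdiff_disjoint.mono_left e)]
    refine ⟨(h J).1, fun e' => ⟨((h J).2 e').1, lt_of_le_of_lt e ?_⟩⟩
    exact ssubset_insert (by simp [hi])
  · rw [show res S (D \ I) J = ⊥ from if_neg e]
    simp

/-- the merged ideal of a system avoiding the block -/
lemma midl (hi : i ∈ I) (S : Sys K ι A) {R : Finset ι} (hR : R ⊆ D \ I) :
    (F.merge I i).idl (res S (D \ I)) (insert i R) = F.X I * F.idl S R := by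
  have hRI : Disjoint R I := sdiff_disjoint.mono_left hR
  have key : ∀ J, J ⊆ R → (F.merge I i).X (insert i R \ J) = F.X I * F.X (R \ J) := by
    intro J hJ
    have hiJ : i ∉ J := fun e => disjoint_left.1 hRI (hJ e) hi
    rw [F.X_mul _ _ (hRI.symm.mono_right sdiff_subset)]
    change F.X (mg I i _) = _
    congr 1
    ext a
    simp only [mg, mem_sdiff, mem_insert, true_or, hiJ, not_false_eq_true, and_self, ↓reduceIte,
      mem_union]
    constructor
    · rintro (⟨rfl | h, h'⟩ | h) <;> tauto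
    · tauto
  refine le_antisymm ((idl_le_iff _).2 fun J hJ => ?_) ?_
  · by_cases e : J ⊆ D \ I
    · have hJR : J ⊆ R := fun a ha => by
        rcases mem_insert.1 (hJ ha) with rfl | h
        · exact absurd hi (mem_sdiff.1 (e ha)).2
        · exact h
      rw [res_of_subset S e, key J hJR, mul_left_comm]
      exact mul_le_mul_right (mul_le_idl F S hJR) _
    · rw [show res S (D \ I) J = ⊥ from if_neg e]
      simp
  · unfold Frame.idl
    rw [Submodule.mul_iSup]
    refine iSup_le fun J => ?_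
    rw [Submodule.mul_iSup]
    refine iSup_le fun hJ => ?_
    rw [mul_left_comm, ← key J hJ, ← res_of_subset S (hJ.trans hR)]
    exact mul_le_idl (F.merge I i) _ (hJ.trans (subset_insert _ _))

/-- relabelling the types of a system -/
def rl (f : Finset ι → Finset ι) (E : Sys K ι A) : Sys K ι A :=
  univ.sup fun J => one (f J) (E J)

lemma sz_rl (f : Finset ι → Finset ι) (E : Sys K ι A) : sz (rl f E) ≤ sz E :=
  (sz_finsup _ _).trans (sum_congr rfl fun _ _ => sz_one _ _).le

lemma le_rl (f : Finset ι → Finset ι) (E : Sys K ι A) (J : Finset ι) : E J ≤ rl f E (f J) := by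
  have := le_sup (f := fun J => one (f J) (E J)) (mem_univ J) (f J)
  rwa [one_self] at this

lemma ty_rl {P : Finset ι → Prop} {f : Finset ι → Finset ι} {E : Sys K ι A}
    (h : ∀ J, E J ≠ ⊥ → E J ≤ F.X (f J) ∧ P (f J)) : Ty F P (rl f E) := by
  refine Ty.finsup _ fun J _ => ?_
  by_cases e : E J = ⊥
  · rw [e]
    exact (ty_bot P).of_le fun J' => by simp [one]
  · exact ty_one (h J e).1 (h J e).2

lemma msm (hi : i ∈ I) (hI : I ⊆ D) {f : A} {r : ℝ} (h : F.SmC D I f r) :
    (F.merge I i).Sm (insert i (D \ I)) f r := by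
  obtain ⟨E, h1, h2, h3, h4⟩ := h
  have hiD := hI hi
  have key : ∀ J, E J ≠ ⊥ → mg I i (if I ⊆ J then insert i (J \ I) else J) = J ∧
      mg I i (insert i (D \ I) \ (if I ⊆ J then insert i (J \ I) else J)) = D \ J ∧
      (if I ⊆ J then insert i (J \ I) else J).Nonempty ∧
      (if I ⊆ J then insert i (J \ I) else J) ⊂ insert i (D \ I) := by
    intro J e
    obtain ⟨a1, a2⟩ := (h1 J).2 e
    by_cases hJ : I ⊆ J
    · simp only [hJ, ↓reduceIte]
      refine ⟨?_, ?_, insert_nonempty _ _, ?_⟩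
      · ext a
        have := @hJ a
        have := hJ hi
        simp only [mg, mem_insert, true_or, ↓reduceIte, mem_union, mem_sdiff]
        constructor
        · rintro ((rfl | h) | h) <;> tauto
        · tauto
      · ext a
        have := @hJ a
        simp only [mg, mem_sdiff, mem_insert, true_or, not_true_eq_false, and_false, ↓reduceIte]
        constructor
        · tauto
        · intro h
          have : a ≠ i := fun e => h.2 (e ▸ hJ hi)
          tauto
      · obtain ⟨b, b1, b2⟩ := exists_of_ssubset a2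
        refine (ssubset_iff_of_subset
          (insert_subset_insert _ (sdiff_subset_sdiff a2.subset subset_rfl))).2 ⟨b, ?_, ?_⟩
        · exact mem_insert_of_mem (mem_sdiff.2 ⟨b1, fun e => b2 (hJ e)⟩)
        · simp only [mem_insert, mem_sdiff, not_or, not_and, not_not]
          exact ⟨fun e => b2 (e ▸ hJ hi), fun e => absurd e b2⟩
    · have hd := (h2 J e).resolve_left hJ
      have hiJ : i ∉ J := fun e => disjoint_left.1 hd e hi
      simp only [hJ, ↓reduceIte]
      refine ⟨mg_of_disj hi hd, ?_, a1, ?_⟩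
      · ext a
        have := @hI a
        have := @disjoint_left.1 hd a
        simp only [mg, mem_sdiff, mem_insert, true_or, hiJ, not_false_eq_true, and_self,
          ↓reduceIte, mem_union]
        constructor
        · rintro (⟨rfl | h, h'⟩ | h) <;> tauto
        · tauto
      · refine (ssubset_iff_of_subset fun a ha => mem_insert_of_mem (mem_sdiff.2
          ⟨a2.subset ha, disjoint_left.1 hd ha⟩)).2 ⟨i, mem_insert_self _ _, hiJ⟩
  refine ⟨rl (fun J => if I ⊆ J then insert i (J \ I) else J) E, ty_rl fun J e => ⟨?_,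
    (key J e).2.2⟩, (sz_rl _ _).trans h3, (idl_le_iff F).2 (fun J _ => ?_) h4⟩
  · change E J ≤ F.X (mg I i _)
    rw [(key J e).1]
    exact (h1 J).1
  · by_cases e : E J = ⊥
    · simp [e]
    · refine le_trans ?_ (mul_le_idl (F.merge I i) _ (key J e).2.2.2.subset)
      change _ ≤ _ * F.X (mg I i _)
      rw [(key J e).2.1]
      exact mul_le_mul_left (le_rl _ E J) _

lemma smc_of_merge (hi : i ∈ I) (hI : I ⊆ D) {B : Finset ι} (hB : Disjoint B I) {f : A} {r : ℝ}
    (h : (F.merge I i).SmC (insert i (D \ I)) B f r) : F.SmC D B f r := by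
  obtain ⟨E, h1, h2, h3, h4⟩ := h
  have hiD := hI hi
  have key : ∀ J, E J ≠ ⊥ → mg I i (insert i (D \ I) \ J) = D \ mg I i J ∧
      ((mg I i J).Nonempty ∧ mg I i J ⊂ D) ∧ (B ⊆ mg I i J ∨ Disjoint (mg I i J) B) := by
    intro J e
    obtain ⟨a1, a2⟩ := (h1 J).2 e
    have a3 : ∀ a ∈ J, a = i ∨ a ∈ D ∧ a ∉ I := fun a ha => by simpa using a2.subset ha
    by_cases hJ : i ∈ J
    · refine ⟨?_, ⟨⟨i, by simp [mg, hJ]⟩, ?_⟩, ?_⟩
      · ext a
        simp only [mg, mem_sdiff, mem_insert, true_or, hJ, not_true_eq_false, and_false,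
          ↓reduceIte, mem_union]
        constructor
        · rintro ⟨⟨rfl | h, h'⟩, h''⟩ <;> tauto
        · tauto
      · obtain ⟨b, b1, b2⟩ := exists_of_ssubset a2
        have b3 : b ∈ D ∧ b ∉ I := by
          rcases mem_insert.1 b1 with rfl | h
          · exact absurd hJ b2
          · exact mem_sdiff.1 h
        refine (ssubset_iff_of_subset fun a ha => ?_).2 ⟨b, b3.1, by simp [mg, hJ, b2, b3.2]⟩
        simp only [mg, hJ, ↓reduceIte, mem_union] at ha
        rcases ha with ha | ha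
        · rcases a3 a ha with rfl | h
          · exact hiD
          · exact h.1
        · exact hI ha
      · simp only [mg, hJ, ↓reduceIte]
        rcases h2 J e with h | h
        · exact Or.inl (h.trans subset_union_left)
        · exact Or.inr (disjoint_union_left.2 ⟨h, hB.symm⟩)
    · have a4 : ∀ a ∈ J, a ∈ D ∧ a ∉ I := fun a ha =>
        (a3 a ha).resolve_left fun e => hJ (e ▸ ha)
      have hd : Disjoint J I := disjoint_left.2 fun a ha => (a4 a ha).2
      rw [mg_of_disj hi hd]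
      refine ⟨?_, ⟨a1, (ssubset_iff_of_subset fun a ha => (a4 a ha).1).2 ⟨i, hiD, hJ⟩⟩, h2 J e⟩
      ext a
      have := @hI a
      have := @disjoint_left.1 hd a
      simp only [mg, mem_sdiff, mem_insert, true_or, hJ, not_false_eq_true, and_self,
        ↓reduceIte, mem_union]
      constructor
      · rintro (⟨rfl | h, h'⟩ | h) <;> tauto
      · tauto
  have hty : Ty F (fun J => (J.Nonempty ∧ J ⊂ D) ∧ (B ⊆ J ∨ Disjoint J B)) (rl (mg I i) E) :=
    ty_rl fun J e => ⟨(h1 J).1, (key J e).2⟩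
  refine ⟨rl (mg I i) E, hty.mono fun _ h => h.1, fun J e => ((hty J).2 e).2,
    (sz_rl _ _).trans h3, (idl_le_iff _).2 (fun J _ => ?_) h4⟩
  by_cases e : E J = ⊥
  · simp [e]
  · refine le_trans ?_ (mul_le_idl F _ (key J e).2.1.2.subset)
    change _ * F.X (mg I i _) ≤ _
    rw [(key J e).1]
    exact mul_le_mul_left (le_rl _ E J) _

lemma RR.weaken {η η' z z' : ℝ} {J : Finset ι} {W W' B B' : Submodule K A} (h : F.RR η z J W B)
    (hη : η ≤ η') (hz : z ≤ z') (hW : W' ≤ W) (hB : B' ≤ B) : F.RR η' z' J W' B' := by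
  intro E hE
  have h1 := h E hE
  have h2 : (finrank K ↥(W' ⊓ (B' ⊔ F.idl E J)) : ℝ) ≤ finrank K ↥(W ⊓ (B ⊔ F.idl E J)) := by
    exact_mod_cast Submodule.finrank_mono (inf_le_inf hW (sup_le_sup_right hB _))
  have h3 := mul_le_mul_of_nonneg_right hη (sz_nonneg E)
  linarith

end

variable (p : ℕ) [Fact p.Prime] (ι : Type) [Fintype ι] [DecidableEq ι]

/-- The two-sided colon lemma. -/
def PT (d : ℕ) : Prop := Shp fun η C η' => ∀ (A : Type) [CommRing A] [Algebra (ZMod p) A]
  [Finite A] (F : Frame (ZMod p) ι A) (D B1 B2 : Finset ι) (Q1 Q2 : Submodule (ZMod p) A)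
  (S : Sys (ZMod p) ι A) (T : A) (k δ z : ℝ), D.card ≤ d → B1.Nonempty → B2.Nonempty →
  Disjoint B1 B2 → B1 ⊆ D → B2 ⊆ D → 0 ≤ z → Q1 ≤ F.X B1 → Q2 ≤ F.X B2 → F.Prp D S →
  F.Reg η z S → F.RR η z B1 Q1 (S B1) → F.RR η z B2 Q2 (S B2) →
  (finrank (ZMod p) Q1 : ℝ) ≤ k → (finrank (ZMod p) Q2 : ℝ) ≤ k → sz S ≤ k →
  T ∈ Q2 * (Q1 * F.X (D \ (B1 ∪ B2))) → F.Nr D (F.idl S D) T δ →
  ∃ y ∈ F.X B2 * (F.X B1 * F.idl S (D \ (B1 ∪ B2))),
    F.SmC D B2 (T - y) (C * (δ + z) + η' * k)

theorem pt_of_col (d : ℕ) (h : COL p ι d) : PT p ι d := by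
  obtain ⟨C, hC, h⟩ := h
  refine ⟨C * C + C, by positivity, fun η' hη' => ?_⟩
  obtain ⟨η, hη, h⟩ := h (η' / (C + 1)) (by positivity)
  refine ⟨η, hη, fun A _ _ _ F D B1 B2 Q1 Q2 S T k δ z hd n1 n2 hdj s1 s2 hz q1 q2 hS hR r1 r2
    k1 k2 k3 hT hN => ?_⟩
  have : FiniteDimensional (ZMod p) A := Module.Finite.of_finite
  obtain ⟨i, hi⟩ := id n1
  obtain ⟨j, hj⟩ := id n2
  have hjB : j ∉ B1 := disjoint_right.1 hdj hj
  have hss : B1 ⊂ D := (ssubset_iff_of_subset s1).2 ⟨j, s2 hj, hjB⟩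
  have e1 : D \ B1 = B2 ∪ D \ (B1 ∪ B2) := by
    ext a
    have := @s2 a
    have := @disjoint_left.1 hdj a
    simp only [mem_sdiff, mem_union]; tauto
  have hT1 : T ∈ Q1 * F.X (D \ B1) := by
    rw [mul_left_comm] at hT
    have : Q2 * F.X (D \ (B1 ∪ B2)) ≤ F.X (D \ B1) := by
      rw [e1, ← F.X_mul _ _ (disjoint_sdiff.mono_left subset_union_right)]
      exact mul_le_mul_left q2 _
    exact (mul_le_mul_right this Q1 : _ ≤ _) hT
  obtain ⟨y1, y1m, y1s⟩ := h A F D B1 Q1 S T k δ z hd n1 hss hz q1 hS hR r1 k1 k3 hT1 hN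
  have hB2 : B2 ⊆ D \ B1 := e1 ▸ subset_union_left
  have e2 : insert i (D \ B1) \ B2 = insert i (D \ (B1 ∪ B2)) := by
    ext a
    have := @disjoint_left.1 hdj i hi
    simp only [mem_sdiff, mem_union, mem_insert]
    constructor
    · tauto
    · rintro (rfl | h) <;> tauto
  have hrest : D \ (B1 ∪ B2) ⊆ D \ B1 := sdiff_subset_sdiff subset_rfl subset_union_left
  have e3 : (F.merge B1 i).X (insert i (D \ (B1 ∪ B2))) = F.X B1 * F.X (D \ (B1 ∪ B2)) := by
    rw [F.X_mul _ _ (disjoint_sdiff.mono_left subset_union_left)]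
    change F.X (mg B1 i _) = _
    congr 1
    ext a
    simp only [mg, mem_insert, true_or, ↓reduceIte, mem_union, mem_sdiff]
    constructor
    · rintro ((rfl | h) | h) <;> tauto
    · tauto
  obtain ⟨y2, y2m, y2s⟩ := h A (F.merge B1 i) (insert i (D \ B1)) B2 Q2 (res S (D \ B1)) T k
    (C * (δ + z) + η' / (C + 1) * k) z (by
      rw [card_insert_of_notMem (by simp [hi]), card_sdiff_of_subset s1]
      have := card_pos.2 n1
      have := card_le_card s1
      omega) n2 (lt_of_le_of_lt hB2 (ssubset_insert (by simp [hi]))) hz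
    (by rw [mX_of_disj hi hdj.symm]; exact q2) (mprp hi hS) (mreg hi hη.le hz hR)
    (by rw [res_of_subset S hB2]; exact mrr_of_disj hi hdj.symm r2) k2
    ((sz_mono (res_le S _)).trans k3)
    (by rw [e2, e3]; exact (mul_le_mul_right (mul_le_mul_left q1 _) Q2 : _ ≤ _) hT)
    ⟨y1, by rw [midl hi S subset_rfl]; exact y1m, msm hi s1 y1s⟩
  rw [mX_of_disj hi hdj.symm, e2, midl hi S hrest] at y2m
  refine ⟨y2, y2m, ?_⟩
  obtain ⟨E, a1, a2, a3, a4⟩ := smc_of_merge hi s1 hdj.symm y2s
  refine ⟨E, a1, a2, a3.trans ?_, a4⟩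
  have hδ : 0 ≤ δ := by
    obtain ⟨_, -, hh⟩ := hN
    exact sm_nonneg hh
  have e4 : η' * k = C * (η' / (C + 1) * k) + η' / (C + 1) * k := by field_simp
  rw [e4]
  nlinarith [mul_nonneg hC hδ]

end Pool.Agent.Lib.AD.Lv
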