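import Pool.Agent.Lib.AD.Blue2

/-! Order facts on the ranks of types and of pairs of types. -/

noncomputable section

open Finset Module
open scoped BigOperators

namespace Pool.Agent.Lib.AD

variable {ι : Type} [Fintype ι] [DecidableEq ι]

omit [DecidableEq ι] in
lemma rk_inj {J J' : Finset ι} (h : rk J = rk J') : J = J' := by
  unfold rk at h
  have h1 := (Fintype.equivFin (Finset ι) J).2
  have h2 := (Fintype.equivFin (Finset ι) J').2
  have h3 := congrArg (· % Fintype.card (Finset ι)) h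
  simp only [Nat.mul_add_mod_self_right, Nat.mod_eq_of_lt h1, Nat.mod_eq_of_lt h2] at h3
  exact (Fintype.equivFin (Finset ι)).injective (Fin.ext h3)

omit [DecidableEq ι] in
lemma rk_lt (J : Finset ι) : rk J < rkB ι := by
  unfold rk rkB
  have h1 := (Fintype.equivFin (Finset ι) J).2
  have h2 : (Fintype.card ι - J.card) * Fintype.card (Finset ι) ≤
    Fintype.card ι * Fintype.card (Finset ι) := Nat.mul_le_mul_right _ (Nat.sub_le _ _)
  rw [add_mul, one_mul]
  omega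

omit [DecidableEq ι] in
lemma rk_lt_of_card {J J' : Finset ι} (h : J.card < J'.card) : rk J' < rk J := by
  unfold rk
  have h1 := (Fintype.equivFin (Finset ι) J').2
  have h2 : J'.card ≤ Fintype.card ι := card_le_univ _
  have h3 : (Fintype.card ι - J'.card + 1) * Fintype.card (Finset ι) ≤
    (Fintype.card ι - J.card) * Fintype.card (Finset ι) := Nat.mul_le_mul_right _ (by omega)
  rw [add_mul, one_mul] at h3
  omega

omit [DecidableEq ι] in
lemma rk_lt_of_ssubset {J J' : Finset ι} (h : J ⊂ J') : rk J' < rk J :=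
  rk_lt_of_card (card_lt_card h)

omit [DecidableEq ι] in
lemma rk_le_of_subset {J J' : Finset ι} (h : J ⊆ J') : rk J' ≤ rk J := by
  rcases h.eq_or_ssubset with rfl | h
  · exact le_rfl
  · exact (rk_lt_of_ssubset h).le

omit [DecidableEq ι] in
lemma pk_lt_of_left {B1 B2 B1' B2' : Finset ι} (h : rk B1 < rk B1') : pk B1 B2 < pk B1' B2' := by
  unfold pk
  have h1 := rk_lt B2
  have h2 : (rk B1 + 1) * rkB ι ≤ rk B1' * rkB ι := Nat.mul_le_mul_right _ h
  rw [add_mul, one_mul] at h2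
  omega

omit [DecidableEq ι] in
lemma pk_lt_of_right {B1 B2 B2' : Finset ι} (h : rk B2 < rk B2') : pk B1 B2 < pk B1 B2' := by
  unfold pk
  omega

omit [DecidableEq ι] in
lemma pk_lt_iff {B1 B2 B1' B2' : Finset ι} :
    pk B1 B2 < pk B1' B2' ↔ rk B1 < rk B1' ∨ B1' = B1 ∧ rk B2 < rk B2' := by
  constructor
  · intro h
    rcases lt_trichotomy (rk B1) (rk B1') with c | c | c
    · exact Or.inl c
    · refine Or.inr ⟨(rk_inj c).symm, ?_⟩
      unfold pk at h
      rw [c] at h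
      omega
    · exact absurd (pk_lt_of_left c) (not_lt.2 h.le)
  · rintro (h | ⟨rfl, h⟩)
    · exact pk_lt_of_left h
    · exact pk_lt_of_right h

omit [DecidableEq ι] in
lemma pk_inj {B1 B2 B1' B2' : Finset ι} (h : pk B1 B2 = pk B1' B2') : B1 = B1' ∧ B2 = B2' := by
  have e : B1 = B1' := by
    rcases lt_trichotomy (rk B1) (rk B1') with c | c | c
    · exact absurd (pk_lt_of_left c) (not_lt.2 h.ge)
    · exact rk_inj c
    · exact absurd (pk_lt_of_left c) (not_lt.2 h.le)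
  subst e
  exact ⟨rfl, rk_inj (by unfold pk at h; omega)⟩

omit [DecidableEq ι] in
lemma pk_lt (B1 B2 : Finset ι) : pk B1 B2 < rkB ι * rkB ι := by
  unfold pk
  have h1 := rk_lt B2
  have h2 : (rk B1 + 1) * rkB ι ≤ rkB ι * rkB ι := Nat.mul_le_mul_right _ (rk_lt B1)
  rw [add_mul, one_mul] at h2
  omega

omit [DecidableEq ι] in
/-- two disjoint nonempty types form a pair in one of the two orders -/
lemma pair_or {D J J' : Finset ι} (h1 : J.Nonempty) (h2 : J'.Nonempty) (h3 : J ⊆ D) (h4 : J' ⊆ D)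
    (h5 : Disjoint J J') : Pair D J J' ∨ Pair D J' J := by
  rcases lt_trichotomy (rk J) (rk J') with c | c | c
  · exact Or.inl ⟨h1, h2, h3, h4, h5, c⟩
  · obtain rfl := rk_inj c
    exact absurd (disjoint_self.1 h5) h1.ne_empty
  · exact Or.inr ⟨h2, h1, h4, h3, h5.symm, c⟩

omit [DecidableEq ι] in
lemma Pair.ss1 {D B1 B2 : Finset ι} (h : Pair D B1 B2) : B1 ⊂ D := by
  obtain ⟨-, ⟨j, hj⟩, h1, h2, h3, -⟩ := h
  exact (ssubset_iff_of_subset h1).2 ⟨j, h2 hj, disjoint_right.1 h3 hj⟩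

omit [DecidableEq ι] in
lemma Pair.ss2 {D B1 B2 : Finset ι} (h : Pair D B1 B2) : B2 ⊂ D := by
  obtain ⟨⟨j, hj⟩, -, h1, h2, h3, -⟩ := h
  exact (ssubset_iff_of_subset h2).2 ⟨j, h1 hj, disjoint_left.1 h3 hj⟩

namespace Frame

variable {K A : Type} [Field K] [CommRing A] [Algebra K A] {F : Frame K ι A}

omit [Fintype ι] in
lemma two_comm (D B1 B2 : Finset ι) (P Q : Submodule K A) :
    F.two D B1 B2 P Q = F.two D B2 B1 Q P := by
  unfold two
  rw [mul_comm P Q, union_comm]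

omit [Fintype ι] in
lemma two_mono (D B1 B2 : Finset ι) {P Q P' Q' : Submodule K A} (hP : P ≤ P') (hQ : Q ≤ Q') :
    F.two D B1 B2 P Q ≤ F.two D B1 B2 P' Q' := mul_le_mul' (mul_le_mul' hP hQ) le_rfl

lemma two_le_prs {D B1 B2 : Finset ι} {l : ℕ} (S : Sys K ι A) (h : Pair D B1 B2)
    (hl : l ≤ pk B1 B2) : F.two D B1 B2 (S B1) (S B2) ≤ F.prs D l S :=
  le_iSup_of_le B1 (le_iSup_of_le B2 (le_iSup_of_le ⟨h, hl⟩ le_rfl))

lemma prs_le {D : Finset ι} {l : ℕ} {S : Sys K ι A} {Y : Submodule K A}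
    (h : ∀ B1 B2, Pair D B1 B2 → l ≤ pk B1 B2 → F.two D B1 B2 (S B1) (S B2) ≤ Y) :
    F.prs D l S ≤ Y :=
  iSup_le fun B1 => iSup_le fun B2 => iSup_le fun c => h B1 B2 c.1 c.2

lemma prs_mono (D : Finset ι) (l : ℕ) {S S' : Sys K ι A} (h : S ≤ S') :
    F.prs D l S ≤ F.prs D l S' :=
  prs_le fun B1 B2 c1 c2 => (two_mono D B1 B2 (h B1) (h B2)).trans (two_le_prs S' c1 c2)

lemma prs_top (D : Finset ι) (S : Sys K ι A) : F.prs D (rkB ι * rkB ι) S = ⊥ :=
  le_bot_iff.1 (prs_le fun B1 B2 _ c => absurd (pk_lt B1 B2) (not_lt.2 c))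

lemma prs_succ_of_not {D : Finset ι} {l : ℕ} (S : Sys K ι A)
    (h : ¬∃ B1 B2, Pair D B1 B2 ∧ pk B1 B2 = l) : F.prs D l S ≤ F.prs D (l + 1) S :=
  prs_le fun B1 B2 c1 c2 => two_le_prs S c1 (by
    have : pk B1 B2 ≠ l := fun e => h ⟨B1, B2, c1, e⟩
    omega)

lemma prs_succ (D B1 B2 : Finset ι) (S : Sys K ι A) :
    F.prs D (pk B1 B2) S ≤ F.two D B1 B2 (S B1) (S B2) ⊔ F.prs D (pk B1 B2 + 1) S :=
  prs_le fun B1' B2' c1 c2 => by
    rcases c2.eq_or_lt with e | e
    · obtain ⟨rfl, rfl⟩ := pk_inj e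
      exact le_sup_left
    · exact le_sup_of_le_right (two_le_prs S c1 e)

omit [Fintype ι] in
lemma two_le_left {D B1 B2 : Finset ι} (h1 : B2 ⊆ D) (h : Disjoint B1 B2) (P : Submodule K A)
    {Q : Submodule K A} (hQ : Q ≤ F.X B2) : F.two D B1 B2 P Q ≤ P * F.X (D \ B1) := by
  unfold two
  rw [mul_assoc]
  refine mul_le_mul' le_rfl ?_
  have e : B2 ∪ D \ (B1 ∪ B2) = D \ B1 := by
    ext a
    have := @h1 a
    have := @disjoint_left.1 h a
    simp only [mem_sdiff, mem_union]; tauto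
  rw [← e]
  exact F.mul_le_X (disjoint_sdiff.mono_left subset_union_right) hQ le_rfl

end Frame

end Pool.Agent.Lib.AD
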