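import Pool.Agent.Lib.AD.Blue2
import Pool.Agent.Lib.AD.ZP

/-! Block SAMP: several jointly regular samples. -/

noncomputable section

open Finset Module
open scoped BigOperators Classical

namespace Pool.Agent.Lib.AD

namespace SAMPb

lemma finrank_sup_le {K A : Type} [Field K] [AddCommGroup A] [Module K A] [FiniteDimensional K A]
    (W B : Submodule K A) : (finrank K (W ⊔ B : Submodule K A) : ℝ) ≤ finrank K W + finrank K B := by
  exact_mod_cast Submodule.finrank_add_le_finrank_add_finrank W B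

lemma finrank_biSup_le {K A : Type} [Field K] [AddCommGroup A] [Module K A]
    [FiniteDimensional K A] (W : ℕ → Submodule K A) (k : ℝ) (h : ∀ l, (finrank K (W l) : ℝ) ≤ k)
    (s : Finset ℕ) : (finrank K (⨆ l ∈ s, W l : Submodule K A) : ℝ) ≤ s.card * k := by
  induction s using Finset.induction_on with
  | empty => simp
  | insert a s ha ih =>
    rw [Finset.iSup_insert, card_insert_of_notMem ha]
    refine (finrank_sup_le _ _).trans ?_
    push_cast
    linarith [h a]

/-- One point of a product space at which finitely many nonnegative costs are all small. -/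
lemma pick {T V : Type} [Fintype T] [Fintype V] [Nonempty V] (w : ℕ)
    (g : T → Fin w → V → (Fin w → V) → ℝ) (m : ℝ) (h0 : ∀ t l a v, 0 ≤ g t l a v)
    (h1 : ∀ t l a b v, g t l a (Function.update v l b) = g t l a v)
    (h2 : ∀ t l v, 𝔼 a, g t l a v ≤ m) :
    ∃ v : Fin w → V, ∀ t l, g t l (v l) v ≤ Fintype.card T * w * m := by
  have e : 𝔼 v : Fin w → V, ∑ z : T × Fin w, g z.1 z.2 (v z.2) v ≤ Fintype.card T * w * m := by
    rw [expect_sum_comm]
    refine (sum_le_card_nsmul _ _ m fun z _ => ?_).trans (by simp)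
    rw [ZPb.expect_coord z.2 (g z.1 z.2) (h1 z.1 z.2), expect_comm]
    exact expect_le univ_nonempty fun v _ => h2 _ _ v
  obtain ⟨v, -, hv⟩ := exists_le_of_expect_le univ_nonempty e
  exact ⟨v, fun t l => (single_le_sum (f := fun z : T × Fin w => g z.1 z.2 (v z.2) v)
    (fun z _ => h0 _ _ _ _) (mem_univ (t, l))).trans hv⟩

end SAMPb

theorem stSAMP (p : ℕ) [Fact p.Prime] (ι : Type) [Fintype ι] [DecidableEq ι] : St_SAMP p ι := by
  intro d hE T _ w
  set c : ℝ := Fintype.card T * w with hc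
  have hc0 : 0 ≤ c := by positivity
  refine ⟨c, hc0, fun η'' η' h'' h' => ?_⟩
  have hden : 0 < c * (w + 1) + 1 := by positivity
  obtain ⟨η, hη, hE⟩ := hE η'' (η' / (c * (w + 1) + 1)) h'' (div_pos h' hden)
  refine ⟨η, hη, fun A _ _ _ F J i W B U l0 k z hz hU hW => ?_⟩
  have : Module.Finite (ZMod p) A := Module.Finite.of_finite
  have : Finite (Dual (ZMod p) A) := Module.finite_of_finite (ZMod p)
  let _ : Fintype U := Fintype.ofFinite _
  have hk : 0 ≤ k := by
    have : (finrank (ZMod p) U : ℝ) ≤ finrank (ZMod p) (Dual (ZMod p) A) := by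
      exact_mod_cast U.finrank_le
    linarith
  have hkw : k ≤ (w + 1) * k := by nlinarith [mul_nonneg (Nat.cast_nonneg (α := ℝ) w) hk]
  have hsz : ∀ E : Sys (ZMod p) ι A, 0 ≤ sz E := fun E => sum_nonneg fun _ _ => Nat.cast_nonneg _
  set m : ℝ := z + η' / (c * (w + 1) + 1) * ((w + 1) * k) with hm
  have hm0 : 0 ≤ m := by positivity
  let ex : (Fin w → U) → ℕ → Dual (ZMod p) A := fun v l =>
    l0 + if h : l < w then (v ⟨l, h⟩ : Dual (ZMod p) A) else 0
  let B' : T → ℕ → (Fin w → U) → Submodule (ZMod p) A := fun t l v =>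
    B t ⊔ ⨆ l' ∈ (range w).erase l, (W t).map (F.ev i (ex v l'))
  have hB : ∀ t (l : Fin w) v b, B' t l (Function.update v l b) = B' t l v := fun t l v b => by
    simp only [B']
    congr 1
    refine iSup_congr fun l' => iSup_congr fun hl' => ?_
    have h1 := mem_erase.1 hl'
    have h2 := mem_range.1 h1.2
    simp only [ex, dif_pos h2]
    rw [Function.update_of_ne fun e => h1.1 (congrArg Fin.val e)]
  have key : ∀ t (Y : Submodule (ZMod p) A), ∃ zf : U → ℝ, (∀ u, 0 ≤ zf u) ∧ 𝔼 u, zf u ≤ m ∧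
      (W t ≠ ⊥ → (finrank (ZMod p) Y : ℝ) ≤ (w + 1) * k → ∀ (u : U) E, F.Prp (J t) E →
        (finrank (ZMod p) (W t ⊓ (Y ⊔ F.idl E (J t)).comap (F.ev i (l0 + u)) :
          Submodule (ZMod p) A) : ℝ) ≤ zf u + η'' * sz E) := fun t Y => by
    by_cases h : W t ≠ ⊥ ∧ (finrank (ZMod p) Y : ℝ) ≤ (w + 1) * k
    · obtain ⟨a1, a2, a3, a4, a5, a6, a7⟩ := (hW t).resolve_left h.1
      obtain ⟨zf, b1, b2, b3⟩ := hE A F (J t) i (W t) Y U l0 ((w + 1) * k) z a1 a2 a3 hz a4 a5
        (a6.trans hkw) h.2 (by linarith)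
      exact ⟨zf, b1, b2, fun _ _ => b3⟩
    · exact ⟨0, fun _ => le_rfl, by simpa using hm0, fun a b => absurd ⟨a, b⟩ h⟩
  choose zf z1 z2 z3 using key
  obtain ⟨v, hv⟩ := SAMPb.pick w (fun t l a v => zf t (B' t l v) a) m (fun t l a v => z1 _ _ _)
    (fun t l a b v => by rw [hB]) fun t l v => z2 _ _
  have hcm : c * m ≤ c * z + η' * k := by
    have e1 : c * (η' / (c * (w + 1) + 1) * ((w + 1) * k)) =
        η' * k * (c * (w + 1) / (c * (w + 1) + 1)) := by
      field_simp
    have e2 : c * (w + 1) / (c * (w + 1) + 1) ≤ 1 := (div_le_one hden).2 (by linarith)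
    rw [hm, mul_add, e1]
    nlinarith [mul_nonneg h'.le hk]
  refine ⟨ex v, fun l => ?_, fun t l hl E hEp => ?_⟩
  · simp only [ex, add_sub_cancel_left]
    split_ifs
    · exact Subtype.prop _
    · exact U.zero_mem
  · by_cases h : W t = ⊥
    · rw [h, bot_inf_eq, finrank_bot, Nat.cast_zero]
      have := hsz E
      positivity
    · obtain ⟨a1, a2, a3, a4, a5, a6, a7⟩ := (hW t).resolve_left h
      have hl' := mem_range.1 hl
      have hY : (finrank (ZMod p) (B' t l v) : ℝ) ≤ (w + 1) * k := by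
        refine (SAMPb.finrank_sup_le _ _).trans ?_
        have b1 := SAMPb.finrank_biSup_le (fun l' => (W t).map (F.ev i (ex v l'))) k
          (fun l' => le_trans (by exact_mod_cast Submodule.finrank_map_le _ _) a6)
          ((range w).erase l)
        have b2 : (((range w).erase l).card : ℝ) ≤ w := by
          exact_mod_cast card_erase_le.trans (card_range w).le
        nlinarith
      have b3 := z3 t (B' t l v) h hY (v ⟨l, hl'⟩) E hEp
      have b4 := hv t ⟨l, hl'⟩
      have b5 : ex v l = l0 + v ⟨l, hl'⟩ := by simp only [ex, dif_pos hl']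
      rw [b5]
      exact b3.trans (by linarith)

end Pool.Agent.Lib.AD
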